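import Mathlib
import Pool.Agent.PC.Sieve
import Pool.Agent.GBQ.Div
import Pool.Agent.GBQ.RhoLow

set_option autoImplicit false

/-!
# TSH / Sing: the factors `D / φ(D)` of the differences of a set which is not too thin

`y = (log log Y)^2`.  The primes `p ≤ y` contribute at most `O(log y)`, the primes beyond `y` at most
`e^2` unless there are more than `y` of them, and this happens only for very few differences.
-/

namespace Pool.Agent.TSH

open Finset Filter Real

/-- number of prime factors of `D` beyond `y` -/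
def big (y D : ℕ) : ℕ := (D.primeFactors.filter (fun p => y < p)).card

/-- `∏_{p ∣ D, p ≤ y} (1 - 1/p)⁻¹` -/
noncomputable def RR (y D : ℕ) : ℝ :=
  ∏ p ∈ D.primeFactors.filter (fun p => p ≤ y), (1 - 1 / (p : ℝ))⁻¹

theorem fac_bd {p : ℕ} (hp : p.Prime) : 1 ≤ (1 - 1 / (p : ℝ))⁻¹ ∧ (1 - 1 / (p : ℝ))⁻¹ ≤ 2 ∧
    (1 - 1 / (p : ℝ))⁻¹ ≤ 1 + 2 / p := by
  have h2 : (2 : ℝ) ≤ p := by exact_mod_cast hp.two_le
  have h3 : 1 / (p : ℝ) ≤ 1 / 2 := one_div_le_one_div_of_le (by norm_num) h2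
  have h4 : 0 < 1 / (p : ℝ) := by positivity
  refine ⟨(one_le_inv₀ (by linarith)).2 (by linarith), ?_, ?_⟩
  · rw [inv_le_comm₀ (by linarith) (by norm_num)]
    linarith
  · rw [inv_le_comm₀ (by linarith) (by positivity), inv_le_iff_one_le_mul₀ (by positivity)]
    have : (2 : ℝ) / p = 2 * (1 / p) := by ring
    rw [this]
    nlinarith

theorem one_le_prod' {ι : Type*} (s : Finset ι) (f : ι → ℝ) (h : ∀ i ∈ s, 1 ≤ f i) :
    1 ≤ ∏ i ∈ s, f i :=
  Finset.prod_induction f (fun x => 1 ≤ x) (fun _ _ ha hb => one_le_mul_of_one_le_of_one_le ha hb)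
    le_rfl h

theorem one_le_RR (y D : ℕ) : 1 ≤ RR y D := by
  unfold RR
  apply one_le_prod'
  intro p hp
  exact (fac_bd (Nat.prime_of_mem_primeFactors (mem_filter.1 hp).1)).1

theorem RR_le (y D : ℕ) : RR y D ≤ (Pool.Agent.GBQ.rho y)⁻¹ := by
  unfold RR Pool.Agent.GBQ.rho
  rw [← Finset.prod_inv_distrib]
  apply Finset.prod_le_prod_of_subset_of_one_le
  · intro p hp
    obtain ⟨h1, h2⟩ := mem_filter.1 hp
    unfold Pool.Agent.GBQ.pr
    rw [mem_filter, mem_range]
    exact ⟨by omega, Nat.prime_of_mem_primeFactors h1⟩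
  · intro p hp
    have := (fac_bd (Nat.prime_of_mem_primeFactors (mem_filter.1 hp).1)).1
    linarith
  · intro p hp _
    unfold Pool.Agent.GBQ.pr at hp
    exact (fac_bd (mem_filter.1 hp).2).1

/-- the primes beyond `y` -/
theorem big_prod {y D : ℕ} (hy : 1 ≤ y) (h : big y D ≤ y) :
    ∏ p ∈ D.primeFactors.filter (fun p => y < p), (1 - 1 / (p : ℝ))⁻¹ ≤ Real.exp 2 := by
  have hy0 : (0 : ℝ) < y := by exact_mod_cast hy
  have h1 : ∏ p ∈ D.primeFactors.filter (fun p => y < p), (1 - 1 / (p : ℝ))⁻¹ ≤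
      ∏ _p ∈ D.primeFactors.filter (fun p => y < p), Real.exp (2 / y) := by
    apply Finset.prod_le_prod
    · intro p hp
      have := (fac_bd (Nat.prime_of_mem_primeFactors (mem_filter.1 hp).1)).1
      linarith
    · intro p hp
      obtain ⟨hp1, hp2⟩ := mem_filter.1 hp
      have h3 := (fac_bd (Nat.prime_of_mem_primeFactors hp1)).2.2
      have h4 : (2 : ℝ) / p ≤ 2 / y := by
        apply div_le_div_of_nonneg_left (by norm_num) hy0
        exact_mod_cast hp2.le
      have h5 := Real.add_one_le_exp ((2 : ℝ) / y)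
      linarith
  refine h1.trans ?_
  rw [Finset.prod_const, ← Real.exp_nat_mul]
  apply Real.exp_le_exp.2
  have h6 : (((D.primeFactors.filter (fun p => y < p)).card : ℕ) : ℝ) ≤ y := by
    exact_mod_cast h
  calc (((D.primeFactors.filter (fun p => y < p)).card : ℕ) : ℝ) * (2 / y) ≤ y * (2 / y) := by
        apply mul_le_mul_of_nonneg_right h6 (by positivity)
    _ = 2 := by field_simp

/-- pointwise bound -/
theorem ratio_le {y D : ℕ} (hy : 1 ≤ y) (hD : 0 < D) :
    (D : ℝ) / Nat.totient D ≤ Real.exp 2 * RR y D + 2⁻¹ ^ y * 4 ^ D.primeFactors.card := by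
  rw [Pool.Agent.PC.BlockB.ratio_eq hD]
  by_cases h : big y D ≤ y
  · have h1 : ∏ p ∈ D.primeFactors, (1 - 1 / (p : ℝ))⁻¹ =
        RR y D * ∏ p ∈ D.primeFactors.filter (fun p => y < p), (1 - 1 / (p : ℝ))⁻¹ := by
      unfold RR
      rw [← Finset.prod_filter_mul_prod_filter_not D.primeFactors (fun p => p ≤ y)]
      congr 1
      apply Finset.prod_congr _ (fun _ _ => rfl)
      ext p
      simp only [mem_filter, not_le]
    rw [h1]
    have h2 := big_prod hy h
    have h3 := one_le_RR y D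
    have h4 : (0 : ℝ) ≤ 2⁻¹ ^ y * 4 ^ D.primeFactors.card := by positivity
    nlinarith
  · push Not at h
    have h1 : ∏ p ∈ D.primeFactors, (1 - 1 / (p : ℝ))⁻¹ ≤ ∏ _p ∈ D.primeFactors, (2 : ℝ) := by
      apply Finset.prod_le_prod
      · intro p hp
        have := (fac_bd (Nat.prime_of_mem_primeFactors hp)).1
        linarith
      · intro p hp
        exact (fac_bd (Nat.prime_of_mem_primeFactors hp)).2.1
    rw [Finset.prod_const] at h1
    have h2 : y ≤ D.primeFactors.card := by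
      have : big y D ≤ D.primeFactors.card := Finset.card_filter_le _ _
      omega
    have h3 : (2 : ℝ) ^ y ≤ 2 ^ D.primeFactors.card := pow_le_pow_right₀ (by norm_num) h2
    have h4 : (1 : ℝ) ≤ 2⁻¹ ^ y * 2 ^ D.primeFactors.card := by
      rw [inv_pow, ← div_eq_inv_mul, le_div_iff₀ (by positivity), one_mul]
      exact h3
    have h5 : (4 : ℝ) ^ D.primeFactors.card = 2 ^ D.primeFactors.card * 2 ^ D.primeFactors.card := by
      rw [← mul_pow]
      norm_num
    have h6 : (0 : ℝ) < 2 ^ D.primeFactors.card := by positivity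
    have h7 : 0 ≤ Real.exp 2 * RR y D := by
      have := one_le_RR y D
      positivity
    rw [h5]
    nlinarith

/-- the sum of `4 ^ ω(D)` -/
theorem sum_four {N : ℕ} (hN : 1 ≤ N) :
    ∑ D ∈ Icc 1 N, (4 : ℝ) ^ D.primeFactors.card ≤ N * (1 + Real.log N) ^ 4 := by
  have h := Pool.Agent.GBQ.thm_Div 4 N hN
  push_cast at h
  calc ∑ D ∈ Icc 1 N, (4 : ℝ) ^ D.primeFactors.card
      ≤ ∑ D ∈ Icc 1 N, (N : ℝ) * ((4 : ℝ) ^ D.primeFactors.card / D) := by
        apply Finset.sum_le_sum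
        intro D hD
        obtain ⟨h1, h2⟩ := Finset.mem_Icc.1 hD
        have h3 : (0 : ℝ) < D := by exact_mod_cast h1
        have h4 : (D : ℝ) ≤ N := by exact_mod_cast h2
        rw [mul_div_assoc', le_div_iff₀ h3, mul_comm (N : ℝ)]
        apply mul_le_mul_of_nonneg_left h4 (by positivity)
    _ = N * ∑ D ∈ Icc 1 N, (4 : ℝ) ^ D.primeFactors.card / D := by rw [Finset.mul_sum]
    _ ≤ _ := mul_le_mul_of_nonneg_left h (Nat.cast_nonneg N)

/-- the sum over the differences with a fixed smaller element -/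
theorem sum_four_diff {N : ℕ} (hN : 1 ≤ N) (S : Finset ℕ) (hS : ∀ P ∈ S, P ≤ N) (P : ℕ) :
    ∑ P' ∈ S.filter (fun P' => P < P'), (4 : ℝ) ^ (P' - P).primeFactors.card ≤
      N * (1 + Real.log N) ^ 4 := by
  refine le_trans ?_ (sum_four hN)
  rw [← Finset.sum_image (s := S.filter (fun P' => P < P')) (g := fun P' => P' - P)
    (f := fun D : ℕ => (4 : ℝ) ^ D.primeFactors.card)]
  · apply Finset.sum_le_sum_of_subset_of_nonneg
    · intro D hD
      obtain ⟨P', hP', rfl⟩ := Finset.mem_image.1 hD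
      obtain ⟨h1, h2⟩ := mem_filter.1 hP'
      have := hS P' h1
      rw [Finset.mem_Icc]
      omega
    · intro D _ _
      positivity
  · intro a ha b hb hab
    simp only [coe_filter, Set.mem_ofPred_eq] at ha hb
    have hab' : a - P = b - P := hab
    omega

/-- the limit `y = (log log Y)^2` -/
noncomputable def yL (Y : ℕ) : ℕ := ⌈Real.log (Real.log Y) ^ 2⌉₊

/-- `log log log Y` -/
noncomputable def L3 (Y : ℕ) : ℝ := Real.log (Real.log (Real.log Y))

theorem tendsto_ll : Tendsto (fun Y : ℕ => Real.log (Real.log Y)) atTop atTop :=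
  Real.tendsto_log_atTop.comp (Real.tendsto_log_atTop.comp tendsto_natCast_atTop_atTop)

theorem tendsto_L3 : Tendsto L3 atTop atTop := Real.tendsto_log_atTop.comp tendsto_ll

/-- `2^{-y}` is smaller than every power of the logarithm -/
theorem tail (B : ℕ) : ∀ᶠ Y : ℕ in atTop, (2⁻¹ : ℝ) ^ yL Y * Real.log Y ^ B ≤ 1 := by
  filter_upwards [tendsto_ll.eventually_ge_atTop ((B : ℝ) / Real.log 2),
    (Real.tendsto_log_atTop.comp tendsto_natCast_atTop_atTop).eventually_ge_atTop 1,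
    tendsto_ll.eventually_ge_atTop 0] with Y h1 h2 h3
  have h2' : (1 : ℝ) ≤ Real.log Y := h2
  have hl2 : 0 < Real.log 2 := Real.log_pos (by norm_num)
  have hY0 : 0 < Real.log Y := by linarith
  obtain ⟨u, hu⟩ : ∃ u : ℝ, u = Real.log (Real.log Y) := ⟨_, rfl⟩
  have h4 : (2⁻¹ : ℝ) ^ yL Y ≤ Real.exp (-(Real.log 2 * u ^ 2)) := by
    have h5 : (2⁻¹ : ℝ) ^ yL Y = Real.exp (-(Real.log 2 * (yL Y : ℝ))) := by
      rw [Real.exp_neg, mul_comm, Real.exp_nat_mul, Real.exp_log (by norm_num), inv_pow]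
    rw [h5]
    apply Real.exp_le_exp.2
    have h6 : u ^ 2 ≤ (yL Y : ℝ) := by
      rw [hu]
      exact Nat.le_ceil _
    have := mul_le_mul_of_nonneg_left h6 hl2.le
    linarith
  have h7 : Real.log Y ^ B = Real.exp (B * u) := by
    rw [hu, Real.exp_nat_mul, Real.exp_log hY0]
  rw [h7]
  calc (2⁻¹ : ℝ) ^ yL Y * Real.exp (B * u) ≤
      Real.exp (-(Real.log 2 * u ^ 2)) * Real.exp (B * u) :=
        mul_le_mul_of_nonneg_right h4 (Real.exp_pos _).le
    _ = Real.exp (-(Real.log 2 * u ^ 2) + B * u) := (Real.exp_add _ _).symm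
    _ ≤ Real.exp 0 := by
        apply Real.exp_le_exp.2
        have h8 : (B : ℝ) ≤ u * Real.log 2 := by
          rw [hu]
          exact (div_le_iff₀ hl2).1 h1
        have h9 : 0 ≤ u := by rw [hu]; exact h3
        nlinarith
    _ = 1 := Real.exp_zero

/-- the primes up to `y` -/
theorem rho_yL : ∃ C : ℝ, 0 < C ∧ ∀ᶠ Y : ℕ in atTop,
    2 ≤ yL Y ∧ 1 ≤ L3 Y ∧ (Pool.Agent.GBQ.rho (yL Y))⁻¹ ≤ C * L3 Y := by
  obtain ⟨c, hc, h⟩ := Pool.Agent.GBQ.thm_RhoLow
  refine ⟨3 / c, by positivity, ?_⟩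
  filter_upwards [tendsto_ll.eventually_ge_atTop 2, tendsto_L3.eventually_ge_atTop 1] with Y h1 h2
  obtain ⟨u, hu⟩ : ∃ u : ℝ, u = Real.log (Real.log Y) := ⟨_, rfl⟩
  rw [← hu] at h1
  have hL3 : L3 Y = Real.log u := by rw [hu]; rfl
  have hy1 : u ^ 2 ≤ (yL Y : ℝ) := by
    rw [hu]
    exact Nat.le_ceil _
  have hy2 : (yL Y : ℝ) < u ^ 2 + 1 := by
    rw [hu]
    exact Nat.ceil_lt_add_one (by positivity)
  have hy3 : (2 : ℝ) ≤ (yL Y : ℝ) := by nlinarith
  have hy4 : 2 ≤ yL Y := by exact_mod_cast hy3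
  refine ⟨hy4, h2, ?_⟩
  have h3 := h (yL Y) hy4
  have hlog : 0 < Real.log (yL Y) := Real.log_pos (by linarith)
  have h4 : (Pool.Agent.GBQ.rho (yL Y))⁻¹ ≤ (c / Real.log (yL Y))⁻¹ :=
    inv_anti₀ (by positivity) h3
  refine h4.trans ?_
  rw [inv_div, div_mul_eq_mul_div]
  apply div_le_div_of_nonneg_right _ hc.le
  rw [hL3] at h2 ⊢
  calc Real.log (yL Y) ≤ Real.log (u ^ 3) := by
        apply Real.log_le_log (by linarith)
        nlinarith
    _ = 3 * Real.log u := by
        rw [Real.log_pow]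
        norm_num

/-- **Average of `D / φ(D)`** over the differences of a set which is not too thin. -/
theorem sum_ratio (A : ℕ) : ∃ C : ℝ, 0 < C ∧ ∀ᶠ Y : ℕ in atTop, ∀ S : Finset ℕ,
    (∀ P ∈ S, P ≤ 2 * Y) → (Y : ℝ) / Real.log Y ^ A ≤ S.card →
    ∑ P ∈ S, ∑ P' ∈ S.filter (fun P' => P < P'), ((P' - P : ℕ) : ℝ) / Nat.totient (P' - P) ≤
      C * (S.card : ℝ) ^ 2 * L3 Y := by
  obtain ⟨C, hC, h⟩ := rho_yL
  refine ⟨Real.exp 2 * C + 1, by positivity, ?_⟩
  filter_upwards [h, tail (A + 8), eventually_ge_atTop 3,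
    (Real.tendsto_log_atTop.comp tendsto_natCast_atTop_atTop).eventually_ge_atTop 3] with
    Y h1 h2 hY3 hlog S hS hcard
  obtain ⟨hy, hL3, hrho⟩ := h1
  have hlog' : (3 : ℝ) ≤ Real.log Y := hlog
  have hY : (3 : ℝ) ≤ Y := by exact_mod_cast hY3
  have hS0 : (0 : ℝ) ≤ S.card := Nat.cast_nonneg _
  -- the trivial part
  have h3 : ∀ P ∈ S, ∑ P' ∈ S.filter (fun P' => P < P'),
      ((P' - P : ℕ) : ℝ) / Nat.totient (P' - P) ≤
      S.card * (Real.exp 2 * (C * L3 Y)) +
        2⁻¹ ^ yL Y * (((2 * Y : ℕ) : ℝ) * (1 + Real.log (2 * Y : ℕ)) ^ 4) := by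
    intro P _
    calc ∑ P' ∈ S.filter (fun P' => P < P'), ((P' - P : ℕ) : ℝ) / Nat.totient (P' - P)
        ≤ ∑ P' ∈ S.filter (fun P' => P < P'), (Real.exp 2 * (C * L3 Y) +
            2⁻¹ ^ yL Y * 4 ^ (P' - P).primeFactors.card) := by
          apply Finset.sum_le_sum
          intro P' hP'
          have h4 := ratio_le (y := yL Y) (D := P' - P) (by omega)
            (by have := (mem_filter.1 hP').2; omega)
          have h5 := (RR_le (yL Y) (P' - P)).trans hrho
          have h6 := mul_le_mul_of_nonneg_left h5 (Real.exp_pos 2).le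
          linarith
      _ = ((S.filter (fun P' => P < P')).card : ℝ) * (Real.exp 2 * (C * L3 Y)) +
            2⁻¹ ^ yL Y * ∑ P' ∈ S.filter (fun P' => P < P'), (4 : ℝ) ^ (P' - P).primeFactors.card := by
          rw [Finset.sum_add_distrib, Finset.sum_const, nsmul_eq_mul, Finset.mul_sum]
      _ ≤ _ := by
          apply add_le_add
          · apply mul_le_mul_of_nonneg_right _ (by positivity)
            exact_mod_cast Finset.card_filter_le _ _
          · apply mul_le_mul_of_nonneg_left _ (by positivity)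
            exact sum_four_diff (by omega) S hS P
  refine (Finset.sum_le_sum h3).trans ?_
  rw [Finset.sum_const, nsmul_eq_mul]
  -- the small part
  have h5 : 1 + Real.log (2 * Y : ℕ) ≤ 2 * Real.log Y := by
    push_cast
    rw [Real.log_mul (by norm_num) (by linarith)]
    have := Real.log_two_lt_d9
    linarith
  have h6 : (1 + Real.log (2 * Y : ℕ)) ^ 4 ≤ (2 * Real.log Y) ^ 4 := by
    apply pow_le_pow_left₀ _ h5
    have : 0 ≤ Real.log (2 * Y : ℕ) := Real.log_natCast_nonneg _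
    linarith
  have h7 : 2⁻¹ ^ yL Y * (((2 * Y : ℕ) : ℝ) * (1 + Real.log (2 * Y : ℕ)) ^ 4) ≤ S.card := by
    refine le_trans ?_ hcard
    rw [le_div_iff₀ (by positivity)]
    have h8 : (32 : ℝ) * Real.log Y ^ 4 ≤ Real.log Y ^ 8 := by
      have h9 : (81 : ℝ) ≤ Real.log Y ^ 4 := by
        calc (81 : ℝ) = 3 ^ 4 := by norm_num
          _ ≤ Real.log Y ^ 4 := pow_le_pow_left₀ (by norm_num) hlog' 4
      nlinarith
    calc 2⁻¹ ^ yL Y * (((2 * Y : ℕ) : ℝ) * (1 + Real.log (2 * Y : ℕ)) ^ 4) * Real.log Y ^ A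
        ≤ 2⁻¹ ^ yL Y * (((2 * Y : ℕ) : ℝ) * (2 * Real.log Y) ^ 4) * Real.log Y ^ A := by
          apply mul_le_mul_of_nonneg_right _ (by positivity)
          apply mul_le_mul_of_nonneg_left _ (by positivity)
          apply mul_le_mul_of_nonneg_left h6 (by positivity)
      _ = 2⁻¹ ^ yL Y * Y * (32 * Real.log Y ^ 4) * Real.log Y ^ A := by
          push_cast
          ring
      _ ≤ 2⁻¹ ^ yL Y * Y * (Real.log Y ^ 8) * Real.log Y ^ A := by
          apply mul_le_mul_of_nonneg_right _ (by positivity)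
          apply mul_le_mul_of_nonneg_left h8 (by positivity)
      _ = Y * (2⁻¹ ^ yL Y * Real.log Y ^ (A + 8)) := by ring
      _ ≤ Y * 1 := mul_le_mul_of_nonneg_left h2 (by positivity)
      _ = Y := mul_one _
  have h8 := mul_le_mul_of_nonneg_left h7 hS0
  have h9 : (S.card : ℝ) * S.card ≤ S.card * S.card * L3 Y := by
    nlinarith [mul_nonneg hS0 hS0]
  nlinarith

end Pool.Agent.TSH
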