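import Mathlib
import Pool.Agent.TSH.Sing
import Pool.Agent.Helper20.TwinIndex

set_option autoImplicit false

/-!
# TSH: the question with the shift `2` replaced by `h`, for many `h` (MP_04e9b2_nt), statements

`a k = p_k`, `b k = p_{p_{n-k}}` for `k ∈ K`; `X ≍ n log² n`, `X1 ≍ H` is the length of the sum over
`h`, `y = yL X = ⌈(log log X)^2⌉`.
-/

namespace Pool.Agent.TSH

open Finset Filter
open Pool.Agent.Helper20.TwinIndex (pr)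
open Pool.Agent.GBQ (rho)

/-- the families of pairs of primes -/
structure Fam (X X1 : ℕ) (K : Finset ℕ) (a b : ℕ → ℕ) : Prop where
  pa : ∀ k ∈ K, (a k).Prime
  pb : ∀ k ∈ K, (b k).Prime
  sq : ∀ k ∈ K, X1 < a k ^ 2
  sa : ∀ k ∈ K, 16 * a k ≤ X1
  lb : ∀ k ∈ K, 5 * X ≤ 16 * b k
  ub : ∀ k ∈ K, 2 * b k ≤ X
  ia : ∀ k ∈ K, ∀ k' ∈ K, a k = a k' → k = k'
  ib : ∀ k ∈ K, ∀ k' ∈ K, b k = b k' → k = k'
  ic : ∀ k ∈ K, ∀ k' ∈ K, b k - a k = b k' - a k' → k = k'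

/-- the number of `k` such that `a k + h` and `b k + h` are prime -/
noncomputable def rr (K : Finset ℕ) (a b : ℕ → ℕ) (h : ℕ) : ℕ :=
  (K.filter (fun k => (a k + h).Prime ∧ (b k + h).Prime)).card

/-- Upper bound sieve of dimension four (`Pool.Agent.Helper90.Straus.sieve_upper`, `κ = 4`).
`z = 2^2^R` with `z^c ≤ X1 < z^(2c)`; the classes `- a, - a', - b, - b'` modulo `p < z` (never `0`),
none for `p ≥ z`.  For `y < p < z` the factor is at most `(1-1/p)^4 ∏ (1-1/p)^(-3)` over those of the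
six differences which are divisible by `p`; for `p ≤ y` at most `(1-1/p)^2` (`(1-1/p)^(-1)` more if
`p ∣ b - a`), and at most `(1-1/p)^3` (`(1-1/p)^(-1)` more for each of `b - a`, `a - a'`, `b - a'`
divisible by `p`).  `big_prod`, `BlockB.log_le_prod`. -/
def St_Four : Prop := ∃ (C : ℝ) (X₀ : ℕ), 0 < C ∧ ∀ X1 y a a' b b' : ℕ, X₀ ≤ X1 → 2 ≤ y →
  (y : ℝ) ≤ Real.log X1 → a.Prime → a'.Prime → b.Prime → b'.Prime → X1 < a ^ 2 → X1 < a' ^ 2 →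
  a ≠ a' → b ≠ b' → a < b → a' < b → a < b' → a' < b' →
  big y (Nat.dist a a') ≤ y → big y (Nat.dist b b') ≤ y → big y (b - a) ≤ y →
  big y (b - a') ≤ y → big y (b' - a) ≤ y → big y (b' - a') ≤ y →
  (((Icc 1 X1).filter (fun h => (a + h).Prime ∧ (a' + h).Prime ∧ (b + h).Prime ∧
      (b' + h).Prime)).card : ℝ) ≤
    C * X1 / Real.log X1 ^ 4 * RR y (b - a) *
      min ((rho y)⁻¹ ^ 2) ((rho y)⁻¹ * RR y (Nat.dist a a') * RR y (b - a'))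

/-- Average over the primes.  `RR y D ^ 2 ≤ ∏_{p ∣ D, p ≤ y} (1 + 6/p) = ∑_{d ∣ D, d ∣ P(y)}
6^ω(d) / d` (`P(y) ≤ 4^y ≤ Z^(1/4)`), and the number of primes `≤ Z` in a class modulo `d ≤ Z^(1/4)` is
`≪ Z / (φ(d) log Z)` (`sieve_upper`, `κ = 1`; at most one prime if the class is not coprime to
`d`). -/
def St_BT2 : Prop := ∃ C : ℝ, 0 < C ∧ ∀ᶠ Z : ℕ in atTop, ∀ y m : ℕ,
  (y : ℝ) ≤ Real.log (Real.log Z) ^ 3 →
  ∑ p ∈ (Icc 1 Z).filter Nat.Prime, RR y (Nat.dist p m) ^ 2 ≤ C * Z / Real.log Z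

/-- First moment. -/
def St_First : Prop := ∀ A : ℕ, ∃ c : ℝ, 0 < c ∧ ∀ᶠ X : ℕ in atTop, ∀ (X1 : ℕ) (K : Finset ℕ)
  (a b : ℕ → ℕ), (X : ℝ) / Real.log X ^ A ≤ X1 → 16 * X1 ≤ X → Fam X X1 K a b →
  (X : ℝ) / Real.log X ^ A ≤ K.card →
  c * X1 / Real.log X ^ 2 * ∑ k ∈ K, RR (yL X) (b k - a k) ≤
    ∑ h ∈ Icc 1 X1, (rr K a b h : ℝ)

open Classical in
/-- Number of good shifts for a family: both bounds. -/
def St_Core : Prop := ∀ A : ℕ, ∃ c : ℝ, 0 < c ∧ ∀ᶠ X : ℕ in atTop, ∀ (X1 : ℕ) (K : Finset ℕ)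
  (a b : ℕ → ℕ), (X : ℝ) / Real.log X ^ A ≤ X1 → 16 * X1 ≤ X → Fam X X1 K a b →
  (X : ℝ) / Real.log X ^ A ≤ K.card →
  c * max (X1 / L3 X ^ 2) (K.card * Real.log X / L3 X) ≤
    (((Icc 1 X1).filter (fun h => c * K.card / Real.log X ^ 2 ≤ (rr K a b h : ℝ))).card : ℝ)

end Pool.Agent.TSH
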