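import Mathlib
import Pool.Agent.TSH.Stmts
import Pool.Agent.GBQ.Stmts
import Pool.Agent.GBQ.L2
import Pool.Agent.GBQ.Main
import Pool.Agent.GBQ.Bad
import Pool.Agent.MT.Cheb

set_option autoImplicit false

/-!
# TSH / FirstA: tools for the first moment
-/

namespace Pool.Agent.TSH

open Finset Filter
open Pool.Agent.MT
open Pool.Agent.GBQ (ee lam zz rho LamS Rough)

/-- the argument in the mean square for correlations -/
theorem corr_L2 (a f : ℕ → ℝ) (K X : ℕ) (M : ℝ)
    (hM : ∀ α : ℝ, ‖∑ x ∈ range (X + 1), ((f x : ℝ) : ℂ) * ee (α * x)‖ ≤ M)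
    (S : Finset ℕ) (hS : ∀ D ∈ S, K + D ≤ X) :
    ∑ D ∈ S, (∑ x ∈ range (K + 1), a x * f (x + D)) ^ 2 ≤
      M ^ 2 * ∑ x ∈ range (K + 1), a x ^ 2 := by
  have h := Pool.Agent.GBQ.thm_L2 (fun j => a (K - j)) f K X 1 M le_rfl hM
  have h1 : ∑ j ∈ range (K + 1), a (K - j) ^ 2 = ∑ x ∈ range (K + 1), a x ^ 2 := by
    have := Finset.sum_range_reflect (fun x => a x ^ 2) (K + 1)
    rw [← this]
    apply Finset.sum_congr rfl
    intro j _
    rw [show K + 1 - 1 - j = K - j by omega]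
  rw [h1] at h
  refine le_trans ?_ h
  have h2 : ∀ D ∈ S, (∑ x ∈ range (K + 1), a x * f (x + D)) ^ 2 =
      (fun n => (∑ k ∈ range (K + 1), if 1 * k ≤ n then (fun j => a (K - j)) k * f (n - 1 * k)
        else 0) ^ 2) (K + D) := by
    intro D _
    simp only
    congr 1
    have := Finset.sum_range_reflect (fun x => a x * f (x + D)) (K + 1)
    rw [← this]
    apply Finset.sum_congr rfl
    intro j hj
    have hj' : j ≤ K := Nat.lt_succ_iff.1 (mem_range.1 hj)
    rw [if_pos (by omega), show K + 1 - 1 - j = K - j by omega,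
      show K + D - 1 * j = K - j + D by omega]
  rw [Finset.sum_congr rfl h2, ← Finset.sum_image (s := S) (g := fun D => K + D)
    (f := fun n => (∑ k ∈ range (K + 1), if 1 * k ≤ n then (fun j => a (K - j)) k * f (n - 1 * k)
        else 0) ^ 2) (fun x _ y _ hxy => by have : K + x = K + y := hxy; omega)]
  apply Finset.sum_le_sum_of_subset_of_nonneg
  · intro n hn
    obtain ⟨D, hD, rfl⟩ := Finset.mem_image.1 hn
    have := hS D hD
    rw [mem_range]
    omega
  · intro n _ _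
    positivity

/-- classes to be avoided -/
def Omd (D p : ℕ) : Finset ℕ := if p ∣ D ∨ p = 0 then ∅ else {p - D % p}

theorem Omd_ok (D p : ℕ) :
    Omd D p ⊆ range p ∧ 0 ∉ Omd D p ∧ (Omd D p).card ≤ 3 := by
  unfold Omd
  split_ifs with h
  · simp
  · push Not at h
    have h1 : D % p ≠ 0 := fun h2 => h.1 (Nat.dvd_of_mod_eq_zero h2)
    have h2 : D % p < p := Nat.mod_lt _ (Nat.pos_of_ne_zero h.2)
    refine ⟨?_, ?_, by simp⟩
    · rw [Finset.singleton_subset_iff, mem_range]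
      omega
    · rw [Finset.mem_singleton]
      omega

theorem Omd_mem {D p x : ℕ} (hp : p.Prime) (hd : ¬ p ∣ D) :
    x % p ∈ Omd D p ↔ p ∣ x + D := by
  unfold Omd
  have h0 : p ≠ 0 := hp.ne_zero
  rw [if_neg (by tauto), Finset.mem_singleton]
  have h1 : D % p ≠ 0 := fun h2 => hd (Nat.dvd_of_mod_eq_zero h2)
  have h2 : D % p < p := Nat.mod_lt _ hp.pos
  have h3 : x % p < p := Nat.mod_lt _ hp.pos
  rw [Nat.dvd_iff_mod_eq_zero, Nat.add_mod]
  constructor
  · intro h
    rw [h, Nat.sub_add_cancel h2.le, Nat.mod_self]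
  · intro h
    have h4 : p ∣ x % p + D % p := Nat.dvd_of_mod_eq_zero h
    obtain ⟨c, hc⟩ := h4
    have h5 : 0 < c := by
      rcases Nat.eq_zero_or_pos c with h6 | h6
      · rw [h6] at hc
        omega
      · exact h6
    have h6 : c < 2 := by
      by_contra hcon
      have : p * 2 ≤ p * c := Nat.mul_le_mul_left p (by omega)
      omega
    have h7 : c = 1 := by omega
    rw [h7] at hc
    omega

/-- `∏_{3 ≤ p ≤ z} (1 - 1/(p-1)^2) ≥ 1/2` -/
theorem twin_const (z : ℕ) (T : Finset ℕ) (hT : ∀ p ∈ T, 3 ≤ p ∧ p ≤ z) :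
    (1 : ℝ) / 2 ≤ ∏ p ∈ T, (1 - 1 / ((p : ℝ) - 1) ^ 2) := by
  have hfac : ∀ p : ℕ, 3 ≤ p → (0 : ℝ) ≤ 1 - 1 / ((p : ℝ) - 1) ^ 2 ∧
      1 - 1 / ((p : ℝ) - 1) ^ 2 ≤ 1 := by
    intro p hp
    have h1 : (3 : ℝ) ≤ p := by exact_mod_cast hp
    have h2 : (1 : ℝ) ≤ ((p : ℝ) - 1) ^ 2 := by nlinarith
    have h3 : 1 / ((p : ℝ) - 1) ^ 2 ≤ 1 := by
      rw [div_le_one (by linarith)]
      exact h2
    have h4 : 0 ≤ 1 / ((p : ℝ) - 1) ^ 2 := by positivity
    constructor <;> linarith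
  have htel : ∀ z : ℕ, 2 ≤ z → ∏ p ∈ Icc 3 z, (1 - 1 / ((p : ℝ) - 1) ^ 2) =
      (z : ℝ) / (2 * ((z : ℝ) - 1)) := by
    intro z hz
    induction z, hz using Nat.le_induction with
    | base => norm_num
    | succ m hm ih =>
      have hm' : (2 : ℝ) ≤ m := by exact_mod_cast hm
      rw [← Finset.insert_Icc_right_eq_Icc_add_one (by omega), Finset.prod_insert (by simp), ih]
      push_cast
      have h1 : (m : ℝ) - 1 ≠ 0 := by
        intro h
        linarith
      have h2 : (m : ℝ) ≠ 0 := by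
        intro h
        linarith
      have h3 : (m : ℝ) + 1 - 1 = m := by ring
      rw [h3]
      field_simp
      ring
  rcases Nat.lt_or_ge z 2 with hz | hz
  · have : T = ∅ := by
      rw [Finset.eq_empty_iff_forall_notMem]
      intro p hp
      have := hT p hp
      omega
    rw [this, Finset.prod_empty]
    norm_num
  have hz' : (2 : ℝ) ≤ z := by exact_mod_cast hz
  calc (1 : ℝ) / 2 ≤ (z : ℝ) / (2 * ((z : ℝ) - 1)) := by
        rw [div_le_div_iff₀ (by norm_num) (by linarith)]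
        linarith
    _ = ∏ p ∈ Icc 3 z, (1 - 1 / ((p : ℝ) - 1) ^ 2) := (htel z hz).symm
    _ ≤ ∏ p ∈ T, (1 - 1 / ((p : ℝ) - 1) ^ 2) := by
        have hsub : T ⊆ Icc 3 z := fun p hp => by
          have := hT p hp
          rw [Finset.mem_Icc]
          omega
        rw [← Finset.prod_sdiff hsub]
        have h1 : ∏ p ∈ Icc 3 z \ T, (1 - 1 / ((p : ℝ) - 1) ^ 2) ≤ 1 := by
          apply Finset.prod_le_one
          · intro p hp
            exact (hfac p (Finset.mem_Icc.1 (Finset.mem_sdiff.1 hp).1).1).1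
          · intro p hp
            exact (hfac p (Finset.mem_Icc.1 (Finset.mem_sdiff.1 hp).1).1).2
        have h2 : 0 ≤ ∏ p ∈ T, (1 - 1 / ((p : ℝ) - 1) ^ 2) :=
          Finset.prod_nonneg fun p hp => (hfac p (hT p hp).1).1
        nlinarith

end Pool.Agent.TSH
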