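import Mathlib
import Pool.Agent.TSH.Stmts

set_option autoImplicit false

/-!
# TSH / BadP: few pairs have a difference with many large prime factors
-/

namespace Pool.Agent.TSH

open Finset Filter

/-- values of an injective function with many prime factors beyond `y` -/
theorem cnt_big {X y : ℕ} (hX : 1 ≤ X) (S : Finset ℕ) (D : ℕ → ℕ)
    (hinj : ∀ k ∈ S, ∀ k' ∈ S, D k = D k' → k = k') (hD : ∀ k ∈ S, 1 ≤ D k ∧ D k ≤ X) :
    ((S.filter (fun k => y < big y (D k))).card : ℝ) ≤
      2⁻¹ ^ y * (X * (1 + Real.log X) ^ 4) := by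
  have h1 : ((S.filter (fun k => y < big y (D k))).card : ℝ) ≤
      ∑ k ∈ S, 2⁻¹ ^ y * (4 : ℝ) ^ (D k).primeFactors.card := by
    rw [← nsmul_one, ← Finset.sum_const, Finset.sum_filter]
    apply Finset.sum_le_sum
    intro k _
    split_ifs with h
    · have h2 : y ≤ (D k).primeFactors.card := by
        have : big y (D k) ≤ (D k).primeFactors.card := Finset.card_filter_le _ _
        omega
      have h3 : (2 : ℝ) ^ y ≤ 4 ^ (D k).primeFactors.card :=
        (pow_le_pow_left₀ (by norm_num) (by norm_num) y).trans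
          (pow_le_pow_right₀ (by norm_num) h2)
      rw [inv_pow, ← div_eq_inv_mul, le_div_iff₀ (by positivity), one_mul]
      exact h3
    · positivity
  refine h1.trans ?_
  rw [← Finset.mul_sum]
  apply mul_le_mul_of_nonneg_left _ (by positivity)
  refine le_trans ?_ (sum_four hX)
  rw [← Finset.sum_image (s := S) (g := D) (f := fun d : ℕ => (4 : ℝ) ^ d.primeFactors.card)
    (fun x hx y hy h => hinj x hx y hy h)]
  apply Finset.sum_le_sum_of_subset_of_nonneg
  · intro d hd
    obtain ⟨k, hk, rfl⟩ := Finset.mem_image.1 hd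
    exact Finset.mem_Icc.2 (hD k hk)
  · intro d _ _
    positivity

/-- distances to a fixed number -/
theorem cnt_dist {X y : ℕ} (hX : 1 ≤ X) (S : Finset ℕ) (a : ℕ → ℕ) (m : ℕ) (hm : m ≤ X)
    (hinj : ∀ k ∈ S, ∀ k' ∈ S, a k = a k' → k = k') (ha : ∀ k ∈ S, a k ≤ X) :
    ((S.filter (fun k => y < big y (Nat.dist m (a k)))).card : ℝ) ≤
      2 * (2⁻¹ ^ y * (X * (1 + Real.log X) ^ 4)) := by
  have h1 := cnt_big (y := y) hX (S.filter (fun k => m < a k)) (fun k => a k - m)
    (by
      intro k hk k' hk' h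
      have e1 := mem_filter.1 hk
      have e2 := mem_filter.1 hk'
      have h' : a k - m = a k' - m := h
      exact hinj k e1.1 k' e2.1 (by omega))
    (by
      intro k hk
      have e1 := mem_filter.1 hk
      have e2 := ha k e1.1
      show 1 ≤ a k - m ∧ a k - m ≤ X
      omega)
  have h2 := cnt_big (y := y) hX (S.filter (fun k => a k < m)) (fun k => m - a k)
    (by
      intro k hk k' hk' h
      have e1 := mem_filter.1 hk
      have e2 := mem_filter.1 hk'
      have h' : m - a k = m - a k' := h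
      exact hinj k e1.1 k' e2.1 (by omega))
    (by
      intro k hk
      have e1 := mem_filter.1 hk
      show 1 ≤ m - a k ∧ m - a k ≤ X
      omega)
  have h3 : S.filter (fun k => y < big y (Nat.dist m (a k))) ⊆
      ((S.filter (fun k => m < a k)).filter (fun k => y < big y (a k - m))) ∪
      ((S.filter (fun k => a k < m)).filter (fun k => y < big y (m - a k))) := by
    intro k hk
    obtain ⟨e1, e2⟩ := mem_filter.1 hk
    rw [Finset.mem_union, mem_filter, mem_filter, mem_filter, mem_filter]
    rcases lt_trichotomy m (a k) with h | h | h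
    · left
      refine ⟨⟨e1, h⟩, ?_⟩
      have : Nat.dist m (a k) = a k - m := by
        unfold Nat.dist
        omega
      rwa [this] at e2
    · exfalso
      have : Nat.dist m (a k) = 0 := by
        unfold Nat.dist
        omega
      rw [this] at e2
      unfold big at e2
      simp at e2
    · right
      refine ⟨⟨e1, h⟩, ?_⟩
      have : Nat.dist m (a k) = m - a k := by
        unfold Nat.dist
        omega
      rwa [this] at e2
  have h4 := (Finset.card_le_card h3).trans (Finset.card_union_le _ _)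
  have h5 : ((S.filter (fun k => y < big y (Nat.dist m (a k)))).card : ℝ) ≤
      (((S.filter (fun k => m < a k)).filter (fun k => y < big y (a k - m))).card : ℝ) +
      (((S.filter (fun k => a k < m)).filter (fun k => y < big y (m - a k))).card : ℝ) := by
    exact_mod_cast h4
  linarith

/-- the pairs for which the sieve bound is not used -/
def badp (y : ℕ) (K : Finset ℕ) (a b : ℕ → ℕ) : Finset (ℕ × ℕ) := (K ×ˢ K).filter (fun v =>
  y < big y (Nat.dist (a v.1) (a v.2)) ∨ y < big y (Nat.dist (b v.1) (b v.2)) ∨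
  y < big y (b v.1 - a v.1) ∨ y < big y (b v.2 - a v.2) ∨
  y < big y (b v.1 - a v.2) ∨ y < big y (b v.2 - a v.1))

/-- a set of pairs, counted by the first entry -/
theorem card_fst {K : Finset ℕ} {P : ℕ → ℕ → Prop} [∀ k k', Decidable (P k k')] {E : ℝ}
    (h : ∀ k ∈ K, ((K.filter (fun k' => P k k')).card : ℝ) ≤ E) :
    (((K ×ˢ K).filter (fun v => P v.1 v.2)).card : ℝ) ≤ K.card * E := by
  have h1 : (((K ×ˢ K).filter (fun v => P v.1 v.2)).card : ℝ) =
      ∑ k ∈ K, ((K.filter (fun k' => P k k')).card : ℝ) := by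
    rw [Finset.card_filter, Finset.sum_product]
    push_cast
    apply Finset.sum_congr rfl
    intro k _
    rw [Finset.card_filter]
    push_cast
    rfl
  rw [h1]
  calc ∑ k ∈ K, ((K.filter (fun k' => P k k')).card : ℝ) ≤ ∑ _k ∈ K, E := Finset.sum_le_sum h
    _ = K.card * E := by rw [Finset.sum_const, nsmul_eq_mul]

theorem card_snd {K : Finset ℕ} {P : ℕ → ℕ → Prop} [∀ k k', Decidable (P k k')] {E : ℝ}
    (h : ∀ k' ∈ K, ((K.filter (fun k => P k k')).card : ℝ) ≤ E) :
    (((K ×ˢ K).filter (fun v => P v.1 v.2)).card : ℝ) ≤ K.card * E := by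
  refine le_trans (le_of_eq ?_) (card_fst (K := K) (P := fun k k' => P k' k) h)
  norm_cast
  apply Finset.card_bij (fun v _ => (v.2, v.1))
  · intro v hv
    rw [mem_filter, Finset.mem_product] at hv ⊢
    exact ⟨⟨hv.1.2, hv.1.1⟩, hv.2⟩
  · intro v _ w _ h
    rw [Prod.mk.injEq] at h
    exact Prod.ext h.2 h.1
  · intro w hw
    rw [mem_filter, Finset.mem_product] at hw
    exact ⟨(w.2, w.1), by rw [mem_filter, Finset.mem_product]; exact ⟨⟨hw.1.2, hw.1.1⟩, hw.2⟩, rfl⟩

theorem card_badp {X X1 y : ℕ} {K : Finset ℕ} {a b : ℕ → ℕ} (hX : 1 ≤ X) (hXX : 16 * X1 ≤ X)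
    (hF : Fam X X1 K a b) :
    ((badp y K a b).card : ℝ) ≤ 8 * (K.card * (2 * (2⁻¹ ^ y * (X * (1 + Real.log X) ^ 4)))) := by
  classical
  obtain ⟨E, hE⟩ : ∃ E : ℝ, E = 2⁻¹ ^ y * (X * (1 + Real.log X) ^ 4) := ⟨_, rfl⟩
  have hE0 : 0 ≤ E := by rw [hE]; positivity
  have hlt : ∀ k ∈ K, ∀ k' ∈ K, a k < b k' ∧ a k ≤ X ∧ b k' ≤ X := by
    intro k hk k' hk'
    have e1 := hF.sa k hk
    have e2 := hF.lb k' hk'
    have e3 := hF.ub k' hk'
    have e4 := (hF.pb k' hk').two_le
    omega
  rw [← hE]
  have t1 : (((K ×ˢ K).filter (fun v => y < big y (Nat.dist (a v.1) (a v.2)))).card : ℝ) ≤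
      K.card * (2 * E) := by
    apply card_fst (P := fun k k' => y < big y (Nat.dist (a k) (a k')))
    intro k hk
    rw [hE]
    exact cnt_dist hX K a (a k) (hlt k hk k hk).2.1 hF.ia (fun k' hk' => (hlt k' hk' k hk).2.1)
  have t2 : (((K ×ˢ K).filter (fun v => y < big y (Nat.dist (b v.1) (b v.2)))).card : ℝ) ≤
      K.card * (2 * E) := by
    apply card_fst (P := fun k k' => y < big y (Nat.dist (b k) (b k')))
    intro k hk
    rw [hE]
    exact cnt_dist hX K b (b k) (hlt k hk k hk).2.2 hF.ib (fun k' hk' => (hlt k hk k' hk').2.2)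
  have t3 : (((K ×ˢ K).filter (fun v => y < big y (b v.1 - a v.1))).card : ℝ) ≤
      K.card * (2 * E) := by
    apply card_snd (P := fun k k' => y < big y (b k - a k))
    intro k' hk'
    have := cnt_big (y := y) hX K (fun k => b k - a k) hF.ic (by
      intro k hk
      obtain ⟨e1, e2, e3⟩ := hlt k hk k hk
      show 1 ≤ b k - a k ∧ b k - a k ≤ X
      omega)
    rw [← hE] at this
    linarith
  have t4 : (((K ×ˢ K).filter (fun v => y < big y (b v.2 - a v.2))).card : ℝ) ≤
      K.card * (2 * E) := by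
    apply card_fst (P := fun k k' => y < big y (b k' - a k'))
    intro k' hk'
    have := cnt_big (y := y) hX K (fun k => b k - a k) hF.ic (by
      intro k hk
      obtain ⟨e1, e2, e3⟩ := hlt k hk k hk
      show 1 ≤ b k - a k ∧ b k - a k ≤ X
      omega)
    rw [← hE] at this
    linarith
  have t5 : (((K ×ˢ K).filter (fun v => y < big y (b v.1 - a v.2))).card : ℝ) ≤
      K.card * (2 * E) := by
    apply card_fst (P := fun k k' => y < big y (b k - a k'))
    intro k hk
    have := cnt_big (y := y) hX K (fun k' => b k - a k') (by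
      intro k1 hk1 k2 hk2 h
      have h' : b k - a k1 = b k - a k2 := h
      obtain ⟨e1, -⟩ := hlt k1 hk1 k hk
      obtain ⟨e2, -⟩ := hlt k2 hk2 k hk
      exact hF.ia k1 hk1 k2 hk2 (by omega)) (by
      intro k' hk'
      obtain ⟨e1, e2, e3⟩ := hlt k' hk' k hk
      show 1 ≤ b k - a k' ∧ b k - a k' ≤ X
      omega)
    rw [← hE] at this
    linarith
  have t6 : (((K ×ˢ K).filter (fun v => y < big y (b v.2 - a v.1))).card : ℝ) ≤
      K.card * (2 * E) := by
    apply card_fst (P := fun k k' => y < big y (b k' - a k))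
    intro k hk
    have := cnt_big (y := y) hX K (fun k' => b k' - a k) (by
      intro k1 hk1 k2 hk2 h
      have h' : b k1 - a k = b k2 - a k := h
      obtain ⟨e1, -⟩ := hlt k hk k1 hk1
      obtain ⟨e2, -⟩ := hlt k hk k2 hk2
      exact hF.ib k1 hk1 k2 hk2 (by omega)) (by
      intro k' hk'
      obtain ⟨e1, e2, e3⟩ := hlt k hk k' hk'
      show 1 ≤ b k' - a k ∧ b k' - a k ≤ X
      omega)
    rw [← hE] at this
    linarith
  have hu : ((badp y K a b).card : ℝ) ≤
      (((K ×ˢ K).filter (fun v => y < big y (Nat.dist (a v.1) (a v.2)))).card : ℝ) +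
      ((((K ×ˢ K).filter (fun v => y < big y (Nat.dist (b v.1) (b v.2)))).card : ℝ) +
      ((((K ×ˢ K).filter (fun v => y < big y (b v.1 - a v.1))).card : ℝ) +
      ((((K ×ˢ K).filter (fun v => y < big y (b v.2 - a v.2))).card : ℝ) +
      ((((K ×ˢ K).filter (fun v => y < big y (b v.1 - a v.2))).card : ℝ) +
      (((K ×ˢ K).filter (fun v => y < big y (b v.2 - a v.1))).card : ℝ))))) := by
    unfold badp
    rw [Finset.filter_or, Finset.filter_or, Finset.filter_or, Finset.filter_or, Finset.filter_or]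
    norm_cast
    refine (Finset.card_union_le _ _).trans (Nat.add_le_add_left ?_ _)
    refine (Finset.card_union_le _ _).trans (Nat.add_le_add_left ?_ _)
    refine (Finset.card_union_le _ _).trans (Nat.add_le_add_left ?_ _)
    refine (Finset.card_union_le _ _).trans (Nat.add_le_add_left ?_ _)
    exact Finset.card_union_le _ _
  have hp : 0 ≤ (K.card : ℝ) * (2 * E) := by positivity
  linarith

end Pool.Agent.TSH
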