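import Mathlib
import Pool.Agent.TSH.BadP

set_option autoImplicit false

/-!
# TSH / Core: the number of good shifts for a family
-/

namespace Pool.Agent.TSH

open Finset Filter
open Pool.Agent.GBQ (rho)

/-- the number of shifts which are good for two members -/
def qf (X1 : ℕ) (a b : ℕ → ℕ) (k k' : ℕ) : ℕ :=
  ((Icc 1 X1).filter (fun h => (a k + h).Prime ∧ (a k' + h).Prime ∧ (b k + h).Prime ∧
    (b k' + h).Prime)).card

theorem sum_sq (X1 : ℕ) (K : Finset ℕ) (a b : ℕ → ℕ) :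
    ∑ h ∈ Icc 1 X1, (rr K a b h : ℝ) ^ 2 = ∑ v ∈ K ×ˢ K, (qf X1 a b v.1 v.2 : ℝ) := by
  have h1 : ∀ h, (rr K a b h : ℝ) =
      ∑ k ∈ K, if (a k + h).Prime ∧ (b k + h).Prime then (1 : ℝ) else 0 := by
    intro h
    unfold rr
    rw [← Finset.sum_filter, Finset.sum_const, nsmul_eq_mul, mul_one]
  have h2 : ∀ k k', (qf X1 a b k k' : ℝ) = ∑ h ∈ Icc 1 X1,
      (if (a k + h).Prime ∧ (b k + h).Prime then (1 : ℝ) else 0) *
      (if (a k' + h).Prime ∧ (b k' + h).Prime then (1 : ℝ) else 0) := by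
    intro k k'
    unfold qf
    rw [Finset.card_filter]
    push_cast
    apply Finset.sum_congr rfl
    intro h _
    by_cases e1 : (a k + h).Prime ∧ (b k + h).Prime
    · by_cases e2 : (a k' + h).Prime ∧ (b k' + h).Prime
      · rw [if_pos e1, if_pos e2, if_pos ⟨e1.1, e2.1, e1.2, e2.2⟩, mul_one]
      · rw [if_pos e1, if_neg e2, if_neg (fun e => e2 ⟨e.2.1, e.2.2.2⟩), mul_zero]
    · rw [if_neg e1, if_neg (fun e => e1 ⟨e.1, e.2.2.1⟩), zero_mul]
  rw [Finset.sum_product]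
  simp only [h1, h2]
  calc ∑ h ∈ Icc 1 X1, (∑ k ∈ K, if (a k + h).Prime ∧ (b k + h).Prime then (1 : ℝ) else 0) ^ 2
      = ∑ h ∈ Icc 1 X1, ∑ k ∈ K, ∑ k' ∈ K,
        (if (a k + h).Prime ∧ (b k + h).Prime then (1 : ℝ) else 0) *
        (if (a k' + h).Prime ∧ (b k' + h).Prime then (1 : ℝ) else 0) := by
        apply Finset.sum_congr rfl
        intro h _
        rw [sq, Finset.sum_mul_sum]
    _ = ∑ k ∈ K, ∑ h ∈ Icc 1 X1, ∑ k' ∈ K,
        (if (a k + h).Prime ∧ (b k + h).Prime then (1 : ℝ) else 0) *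
        (if (a k' + h).Prime ∧ (b k' + h).Prime then (1 : ℝ) else 0) := Finset.sum_comm
    _ = _ := by
        apply Finset.sum_congr rfl
        intro k _
        exact Finset.sum_comm

theorem qf_le (X1 : ℕ) (a b : ℕ → ℕ) (k k' : ℕ) : (qf X1 a b k k' : ℝ) ≤ X1 := by
  have : qf X1 a b k k' ≤ X1 := by
    unfold qf
    refine (Finset.card_filter_le _ _).trans ?_
    simp
  exact_mod_cast this

/-- splitting of the second moment -/
theorem split_sq {X1 y : ℕ} {K : Finset ℕ} {a b : ℕ → ℕ} {g : ℕ → ℕ → ℝ}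
    (hg : ∀ k ∈ K, ∀ k' ∈ K, 0 ≤ g k k')
    (h : ∀ k ∈ K, ∀ k' ∈ K, k ≠ k' → (k, k') ∉ badp y K a b → (qf X1 a b k k' : ℝ) ≤ g k k') :
    ∑ h ∈ Icc 1 X1, (rr K a b h : ℝ) ^ 2 ≤
      X1 * K.card + X1 * (badp y K a b).card + ∑ k ∈ K, ∑ k' ∈ K, g k k' := by
  classical
  rw [sum_sq]
  have h1 : ∀ v ∈ K ×ˢ K, (qf X1 a b v.1 v.2 : ℝ) ≤
      (X1 * (if v.1 = v.2 then 1 else 0) + X1 * (if v ∈ badp y K a b then 1 else 0)) +
        g v.1 v.2 := by
    intro v hv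
    obtain ⟨e1, e2⟩ := Finset.mem_product.1 hv
    have e3 := hg v.1 e1 v.2 e2
    have e4 := qf_le X1 a b v.1 v.2
    have e5 : (0 : ℝ) ≤ X1 := Nat.cast_nonneg _
    by_cases c1 : v.1 = v.2
    · rw [if_pos c1]
      split_ifs <;> linarith
    · rw [if_neg c1]
      by_cases c2 : v ∈ badp y K a b
      · rw [if_pos c2]
        linarith
      · rw [if_neg c2]
        have := h v.1 e1 v.2 e2 c1 c2
        linarith
  refine (Finset.sum_le_sum h1).trans ?_
  rw [Finset.sum_add_distrib, Finset.sum_add_distrib, ← Finset.mul_sum, ← Finset.mul_sum]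
  have h2 : ∑ v ∈ K ×ˢ K, (if v.1 = v.2 then (1 : ℝ) else 0) = K.card := by
    rw [Finset.sum_product]
    have : ∀ k ∈ K, ∑ k' ∈ K, (if (k, k').1 = (k, k').2 then (1 : ℝ) else 0) = 1 := by
      intro k hk
      rw [Finset.sum_ite_eq, if_pos hk]
    rw [Finset.sum_congr rfl this, Finset.sum_const, nsmul_eq_mul, mul_one]
  have h3 : ∑ v ∈ K ×ˢ K, (if v ∈ badp y K a b then (1 : ℝ) else 0) ≤ (badp y K a b).card := by
    rw [← Finset.sum_filter, Finset.sum_const, nsmul_eq_mul, mul_one]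
    exact_mod_cast Finset.card_le_card (fun x hx => (mem_filter.1 hx).2)
  have h4 : ∑ v ∈ K ×ˢ K, g v.1 v.2 = ∑ k ∈ K, ∑ k' ∈ K, g k k' := by
    rw [Finset.sum_product]
  rw [h2, h4]
  have e5 : (0 : ℝ) ≤ X1 := Nat.cast_nonneg _
  have := mul_le_mul_of_nonneg_left h3 e5
  linarith

/-- the method of second moments -/
theorem pz {ι : Type*} (S : Finset ι) (r : ι → ℝ) {m R Q : ℝ}
    (hR : R ≤ ∑ i ∈ S, r i) (hR0 : 0 ≤ R) (hm : S.card * m ≤ R / 2) (hm0 : 0 ≤ m)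
    (hQ : ∑ i ∈ S, r i ^ 2 ≤ Q) (hQ0 : 0 < Q) [DecidablePred fun i => m ≤ r i] :
    R ^ 2 / (4 * Q) ≤ ((S.filter (fun i => m ≤ r i)).card : ℝ) := by
  have h1 : ∑ i ∈ S, r i = ∑ i ∈ S.filter (fun i => m ≤ r i), r i +
      ∑ i ∈ S.filter (fun i => ¬ m ≤ r i), r i :=
    (Finset.sum_filter_add_sum_filter_not S _ _).symm
  have h2 : ∑ i ∈ S.filter (fun i => ¬ m ≤ r i), r i ≤ S.card * m := by
    calc ∑ i ∈ S.filter (fun i => ¬ m ≤ r i), r i ≤
        ∑ _i ∈ S.filter (fun i => ¬ m ≤ r i), m := by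
          apply Finset.sum_le_sum
          intro i hi
          have := (mem_filter.1 hi).2
          linarith
      _ = ((S.filter (fun i => ¬ m ≤ r i)).card : ℝ) * m := by
          rw [Finset.sum_const, nsmul_eq_mul]
      _ ≤ S.card * m := by
          apply mul_le_mul_of_nonneg_right _ hm0
          exact_mod_cast Finset.card_filter_le _ _
  have h3 : R / 2 ≤ ∑ i ∈ S.filter (fun i => m ≤ r i), r i := by linarith
  have h4 : (∑ i ∈ S.filter (fun i => m ≤ r i), r i) ^ 2 ≤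
      ((S.filter (fun i => m ≤ r i)).card : ℝ) * ∑ i ∈ S.filter (fun i => m ≤ r i), r i ^ 2 :=
    sq_sum_le_card_mul_sum_sq
  have h5 : ∑ i ∈ S.filter (fun i => m ≤ r i), r i ^ 2 ≤ Q := by
    refine le_trans ?_ hQ
    apply Finset.sum_le_sum_of_subset_of_nonneg (Finset.filter_subset _ _)
    intro i _ _
    positivity
  have h6 : (R / 2) ^ 2 ≤ ((S.filter (fun i => m ≤ r i)).card : ℝ) * Q := by
    calc (R / 2) ^ 2 ≤ (∑ i ∈ S.filter (fun i => m ≤ r i), r i) ^ 2 :=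
          pow_le_pow_left₀ (by positivity) h3 2
      _ ≤ _ := h4
      _ ≤ _ := mul_le_mul_of_nonneg_left h5 (Nat.cast_nonneg _)
  rw [div_le_iff₀ (by positivity)]
  nlinarith

/-- the bound for the good pairs -/
noncomputable def gb (C : ℝ) (X1 y : ℕ) (a b : ℕ → ℕ) (k k' : ℕ) : ℝ :=
  C * X1 / Real.log X1 ^ 4 * RR y (b k - a k) *
    min ((rho y)⁻¹ ^ 2) ((rho y)⁻¹ * RR y (Nat.dist (a k) (a k')) * RR y (b k - a k'))

theorem RR_nonneg (y D : ℕ) : 0 ≤ RR y D := by linarith [one_le_RR y D]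

theorem rho_pos' (z : ℕ) : 0 < rho z := by
  unfold rho
  apply Finset.prod_pos
  intro p hp
  have hp' : p.Prime := (mem_filter.1 hp).2
  have := Pool.Agent.PC.BlockB.one_sub_pos hp'
  linarith

theorem gb_nonneg {C : ℝ} (hC : 0 ≤ C) (X1 y : ℕ) (a b : ℕ → ℕ) (k k' : ℕ) :
    0 ≤ gb C X1 y a b k k' := by
  unfold gb
  have h1 := rho_pos' y
  have h2 := RR_nonneg y
  have h3 : 0 ≤ Real.log X1 := Real.log_natCast_nonneg _
  apply mul_nonneg
  · exact mul_nonneg (by positivity) (h2 _)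
  · apply le_min
    · positivity
    · exact mul_nonneg (mul_nonneg (by positivity) (h2 _)) (h2 _)

/-- first bound for the sum over the pairs -/
theorem sum_gb1 {C : ℝ} (hC : 0 ≤ C) (X1 y : ℕ) (a b : ℕ → ℕ) (K : Finset ℕ) {ρ : ℝ}
    (hρ : (rho y)⁻¹ ≤ ρ) :
    ∑ k ∈ K, ∑ k' ∈ K, gb C X1 y a b k k' ≤
      C * X1 / Real.log X1 ^ 4 * (∑ k ∈ K, RR y (b k - a k)) * (K.card * ρ ^ 2) := by
  have h1 := rho_pos' y
  have h3 : 0 ≤ Real.log X1 := Real.log_natCast_nonneg _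
  have h4 : (rho y)⁻¹ ^ 2 ≤ ρ ^ 2 := pow_le_pow_left₀ (by positivity) hρ 2
  have h2 : ∀ k ∈ K, ∑ k' ∈ K, gb C X1 y a b k k' ≤
      C * X1 / Real.log X1 ^ 4 * RR y (b k - a k) * (K.card * ρ ^ 2) := by
    intro k _
    calc ∑ k' ∈ K, gb C X1 y a b k k' ≤
        ∑ _k' ∈ K, C * X1 / Real.log X1 ^ 4 * RR y (b k - a k) * ρ ^ 2 := by
          apply Finset.sum_le_sum
          intro k' _
          unfold gb
          apply mul_le_mul_of_nonneg_left ((min_le_left _ _).trans h4)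
          exact mul_nonneg (by positivity) (RR_nonneg _ _)
      _ = _ := by
          rw [Finset.sum_const, nsmul_eq_mul]
          ring
  refine (Finset.sum_le_sum h2).trans (le_of_eq ?_)
  rw [← Finset.sum_mul, ← Finset.mul_sum]

/-- second bound for the sum over the pairs -/
theorem sum_gb2 {C : ℝ} (hC : 0 ≤ C) {X X1 y : ℕ} {a b : ℕ → ℕ} {K : Finset ℕ} {ρ E : ℝ}
    (hXX : 16 * X1 ≤ X) (hF : Fam X X1 K a b) (hρ : (rho y)⁻¹ ≤ ρ)
    (hE : ∀ m : ℕ, ∑ p ∈ (Icc 1 X1).filter Nat.Prime, RR y (Nat.dist p m) ^ 2 ≤ E) :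
    ∑ k ∈ K, ∑ k' ∈ K, gb C X1 y a b k k' ≤
      C * X1 / Real.log X1 ^ 4 * (∑ k ∈ K, RR y (b k - a k)) * (ρ * E) := by
  have h1 := rho_pos' y
  have hρ0 : 0 ≤ ρ := le_trans (by positivity) hρ
  have h3 : 0 ≤ Real.log X1 := Real.log_natCast_nonneg _
  have hsum : ∀ m : ℕ, ∑ k' ∈ K, RR y (Nat.dist (a k') m) ^ 2 ≤ E := by
    intro m
    refine le_trans ?_ (hE m)
    rw [← Finset.sum_image (s := K) (g := a) (f := fun p : ℕ => RR y (Nat.dist p m) ^ 2)
      (fun x hx z hz h => hF.ia x hx z hz h)]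
    apply Finset.sum_le_sum_of_subset_of_nonneg
    · intro p hp
      obtain ⟨k, hk, rfl⟩ := Finset.mem_image.1 hp
      have e1 := hF.sa k hk
      have e2 := hF.pa k hk
      rw [mem_filter, Finset.mem_Icc]
      exact ⟨⟨e2.one_le, by omega⟩, e2⟩
    · intro p _ _
      positivity
  have h2 : ∀ k ∈ K, ∑ k' ∈ K, gb C X1 y a b k k' ≤
      C * X1 / Real.log X1 ^ 4 * RR y (b k - a k) * (ρ * E) := by
    intro k hk
    have h5 : ∀ k' ∈ K, gb C X1 y a b k k' ≤ C * X1 / Real.log X1 ^ 4 * RR y (b k - a k) *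
        (ρ * (1 / 2 * (RR y (Nat.dist (a k') (a k)) ^ 2 + RR y (Nat.dist (a k') (b k)) ^ 2))) := by
      intro k' hk'
      unfold gb
      apply mul_le_mul_of_nonneg_left _ (mul_nonneg (by positivity) (RR_nonneg _ _))
      refine (min_le_right _ _).trans ?_
      have e1 : Nat.dist (a k) (a k') = Nat.dist (a k') (a k) := Nat.dist_comm _ _
      have e2 : b k - a k' = Nat.dist (a k') (b k) := by
        have := hF.sa k' hk'
        have := hF.lb k hk
        unfold Nat.dist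
        omega
      rw [e1, e2, mul_assoc]
      have e3 := RR_nonneg y (Nat.dist (a k') (a k))
      have e4 := RR_nonneg y (Nat.dist (a k') (b k))
      apply mul_le_mul hρ _ (mul_nonneg e3 e4) hρ0
      nlinarith [sq_nonneg (RR y (Nat.dist (a k') (a k)) - RR y (Nat.dist (a k') (b k)))]
    refine (Finset.sum_le_sum h5).trans ?_
    rw [← Finset.mul_sum, ← Finset.mul_sum, ← Finset.mul_sum, Finset.sum_add_distrib]
    apply mul_le_mul_of_nonneg_left _ (mul_nonneg (by positivity) (RR_nonneg _ _))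
    apply mul_le_mul_of_nonneg_left _ hρ0
    have e5 := hsum (a k)
    have e6 := hsum (b k)
    linarith
  refine (Finset.sum_le_sum h2).trans (le_of_eq ?_)
  rw [← Finset.sum_mul, ← Finset.mul_sum]

end Pool.Agent.TSH
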