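import Mathlib
import Pool.Agent.TSH.FirstA

set_option autoImplicit false

/-!
# TSH / FirstB: the main term for one difference
-/

namespace Pool.Agent.TSH

open Finset Filter
open Pool.Agent.MT
open Pool.Agent.GBQ (ee lam zz rho LamS Rough St_Main badPP bad_card_pp)

theorem rho_pos (z : ℕ) : 0 < rho z := by
  unfold rho
  apply Finset.prod_pos
  intro p hp
  have hp' : p.Prime := (mem_filter.1 hp).2
  have := Pool.Agent.PC.BlockB.one_sub_pos hp'
  linarith

/-- the local factors -/
theorem local_low {z D : ℕ} (hD : D ≠ 0) (h2 : 2 ∣ D) :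
    RR z D / 2 ≤ (rho z)⁻¹ *
      ∏ p ∈ Pool.Agent.GBQ.pr z, (1 - ((Omd D p).card : ℝ) / ((p : ℝ) - 1)) := by
  unfold rho
  rw [← Finset.prod_inv_distrib, ← Finset.prod_mul_distrib,
    ← Finset.prod_filter_mul_prod_filter_not (Pool.Agent.GBQ.pr z) (fun p => p ∣ D)]
  have h1 : ∏ p ∈ (Pool.Agent.GBQ.pr z).filter (fun p => p ∣ D),
      ((1 - 1 / (p : ℝ))⁻¹ * (1 - ((Omd D p).card : ℝ) / ((p : ℝ) - 1))) = RR z D := by
    unfold RR
    apply Finset.prod_bij_ne_one (fun p _ _ => p)
    · intro p hp _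
      obtain ⟨hp1, hp2⟩ := mem_filter.1 hp
      obtain ⟨hp3, hp4⟩ := mem_filter.1 hp1
      rw [mem_filter, Nat.mem_primeFactors]
      have := mem_range.1 hp3
      exact ⟨⟨hp4, hp2, hD⟩, by omega⟩
    · intro p _ _ q _ _ h
      exact h
    · intro p hp _
      obtain ⟨hp1, hp2⟩ := mem_filter.1 hp
      rw [Nat.mem_primeFactors] at hp1
      refine ⟨p, ?_, ?_, rfl⟩
      · rw [mem_filter]
        refine ⟨?_, hp1.2.1⟩
        unfold Pool.Agent.GBQ.pr
        rw [mem_filter, mem_range]
        exact ⟨by omega, hp1.1⟩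
      · unfold Omd
        rw [if_pos (Or.inl hp1.2.1)]
        simpa using hp1.1.ne_zero
    · intro p hp _
      have hp2 := (mem_filter.1 hp).2
      unfold Omd
      rw [if_pos (Or.inl hp2)]
      simp
  have h3 : ∏ p ∈ (Pool.Agent.GBQ.pr z).filter (fun p => ¬ p ∣ D),
      ((1 - 1 / (p : ℝ))⁻¹ * (1 - ((Omd D p).card : ℝ) / ((p : ℝ) - 1))) =
      ∏ p ∈ (Pool.Agent.GBQ.pr z).filter (fun p => ¬ p ∣ D), (1 - 1 / ((p : ℝ) - 1) ^ 2) := by
    apply Finset.prod_congr rfl
    intro p hp
    obtain ⟨hp1, hp2⟩ := mem_filter.1 hp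
    have hp4 : p.Prime := (mem_filter.1 hp1).2
    have hp3 : p ≠ 2 := by
      rintro rfl
      exact hp2 h2
    have hp5 : 3 ≤ p := by
      have := hp4.two_le
      omega
    have hp6 : (3 : ℝ) ≤ p := by exact_mod_cast hp5
    unfold Omd
    have h0 : p ≠ 0 := hp4.ne_zero
    rw [if_neg (by tauto), Finset.card_singleton]
    have h7 : (p : ℝ) - 1 ≠ 0 := by intro h; linarith
    have h8 : (p : ℝ) ≠ 0 := by intro h; linarith
    have h9 : 1 - 1 / (p : ℝ) = (p - 1) / p := by field_simp
    rw [h9, inv_div]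
    push_cast
    field_simp
    ring
  rw [h1, h3]
  have h4 := twin_const z ((Pool.Agent.GBQ.pr z).filter (fun p => ¬ p ∣ D)) (by
    intro p hp
    obtain ⟨hp1, hp2⟩ := mem_filter.1 hp
    obtain ⟨hp3, hp4⟩ := mem_filter.1 hp1
    have h5 := mem_range.1 hp3
    have hp3 : p ≠ 2 := by
      rintro rfl
      exact hp2 h2
    have := hp4.two_le
    omega)
  have h5 := one_le_RR z D
  nlinarith

theorem lam_le_log {x n : ℕ} (h : x ≤ n) (hn : 1 ≤ n) : lam x ≤ Real.log n := by
  unfold lam
  rcases Nat.eq_zero_or_pos x with h0 | h0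
  · rw [h0]
    simp only [ArithmeticFunction.map_zero]
    exact Real.log_nonneg (by exact_mod_cast hn)
  · exact ArithmeticFunction.vonMangoldt_le_log.trans
      (Real.log_le_log (by exact_mod_cast h0) (by exact_mod_cast h))

theorem lam_nonneg (x : ℕ) : 0 ≤ lam x := ArithmeticFunction.vonMangoldt_nonneg

/-- from the classes to `Rough` -/
theorem rough_low (η : ℝ → ℝ) (hη : IsWt η) {K z D : ℕ} (hK : 1 ≤ K) (hz : 8 * z ≤ K) :
    ∑ x ∈ range (K + 1), (if ∀ p ∈ Pool.Agent.GBQ.pr z, x % p ∉ Omd D p then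
      lam x * η ((x : ℝ) / K) else 0) - 3 * (Real.sqrt K * Real.log K) * Real.log K ≤
    ∑ x ∈ range (K + 1), lam x * η ((x : ℝ) / K) * (if Rough z (x + D) then 1 else 0) := by
  have hK0 : (0 : ℝ) < K := by exact_mod_cast hK
  have hlog : 0 ≤ Real.log K := Real.log_natCast_nonneg K
  have h1 : ∀ x ∈ range (K + 1), (if ∀ p ∈ Pool.Agent.GBQ.pr z, x % p ∉ Omd D p then
      lam x * η ((x : ℝ) / K) else 0) ≤
      lam x * η ((x : ℝ) / K) * (if Rough z (x + D) then 1 else 0) +
        (if x ∈ badPP K then Real.log K else 0) := by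
    intro x hx
    have hxK : x ≤ K := Nat.lt_succ_iff.1 (mem_range.1 hx)
    have hη0 := hη.nonneg ((x : ℝ) / K)
    have hη1 := hη.le_one ((x : ℝ) / K)
    have hl0 := lam_nonneg x
    have hl1 := lam_le_log hxK hK
    have hR : 0 ≤ (if x ∈ badPP K then Real.log K else 0) := by
      split_ifs
      · exact hlog
      · exact le_rfl
    have hL : 0 ≤ lam x * η ((x : ℝ) / K) * (if Rough z (x + D) then (1 : ℝ) else 0) := by
      split_ifs <;> positivity
    by_cases hc : ∀ p ∈ Pool.Agent.GBQ.pr z, x % p ∉ Omd D p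
    swap
    · rw [if_neg hc]
      linarith
    rw [if_pos hc]
    split_ifs with hr hb hb
    · rw [mul_one]
      linarith
    · rw [mul_one, add_zero]
    · rw [mul_zero, zero_add]
      calc lam x * η ((x : ℝ) / K) ≤ Real.log K * 1 := by
            apply mul_le_mul hl1 hη1 hη0 hlog
        _ = Real.log K := mul_one _
    · rw [mul_zero, add_zero]
      by_contra hcon
      push Not at hcon
      have hη2 : η ((x : ℝ) / K) ≠ 0 := by
        intro h
        rw [h, mul_zero] at hcon
        exact lt_irrefl _ hcon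
      have hl2 : lam x ≠ 0 := by
        intro h
        rw [h, zero_mul] at hcon
        exact lt_irrefl _ hcon
      have h3 := (hη.supp _ hη2).1
      rw [lt_div_iff₀ hK0] at h3
      have h4 : K < 8 * x := by
        have : (K : ℝ) < 8 * x := by linarith
        exact_mod_cast this
      have hxp : x.Prime := by
        by_contra hnp
        apply hb
        unfold badPP
        rw [mem_filter, Finset.mem_Ioc]
        exact ⟨⟨by omega, hxK⟩, hnp, hl2⟩
      apply hr
      intro p hp hdvd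
      obtain ⟨hp1, hp2⟩ := mem_filter.1 hp
      have hp3 := mem_range.1 hp1
      by_cases hpD : p ∣ D
      · have h5 : p ∣ x := by
          have := (Nat.dvd_add_left hpD).1 hdvd
          exact this
        have := (Nat.prime_dvd_prime_iff_eq hp2 hxp).1 h5
        omega
      · exact hc p hp ((Omd_mem hp2 hpD).2 hdvd)
  have h2 := Finset.sum_le_sum h1
  rw [Finset.sum_add_distrib] at h2
  have h3 : ∑ x ∈ range (K + 1), (if x ∈ badPP K then Real.log K else 0) ≤
      3 * (Real.sqrt K * Real.log K) * Real.log K := by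
    rw [← Finset.sum_filter, Finset.sum_const, nsmul_eq_mul]
    apply mul_le_mul_of_nonneg_right _ hlog
    refine le_trans ?_ (bad_card_pp hK)
    exact_mod_cast Finset.card_le_card (fun x hx => (mem_filter.1 hx).2)
  linarith

theorem tl (A : ℕ) (ε : ℝ) (hε : 0 < ε) :
    ∀ᶠ K : ℕ in atTop, Real.log K ^ A ≤ ε * Real.sqrt K := by
  have h := (isLittleO_log_rpow_rpow_atTop (A : ℝ) (show (0 : ℝ) < 1 / 2 by norm_num)).bound hε
  filter_upwards [tendsto_natCast_atTop_atTop.eventually h, eventually_ge_atTop 1] with K hK hK1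
  rw [Real.rpow_natCast, Real.norm_of_nonneg (pow_nonneg (Real.log_natCast_nonneg K) A),
    Real.norm_of_nonneg (Real.rpow_nonneg (Nat.cast_nonneg K) _), ← Real.sqrt_eq_rpow] at hK
  exact hK

theorem main_low (hMain : St_Main) (η : ℝ → ℝ) (hη : IsWt η) (B : ℕ) :
    ∀ᶠ K : ℕ in atTop, ∀ z D : ℕ, 2 ≤ z → (z : ℝ) ≤ Real.log K ^ B → D ≠ 0 → 2 ∣ D →
    (K : ℝ) / 40 * RR z D ≤
      ∑ x ∈ range (K + 1), lam x * η ((x : ℝ) / K) * LamS z (x + D) := by
  obtain ⟨c₀, hc₀, hrho⟩ := Pool.Agent.GBQ.thm_RhoLow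
  filter_upwards [hMain η hη 2 B 1, psi0_lower η hη, tl B (1 / 8) (by norm_num),
    tl 3 (c₀ / 240) (by positivity), eventually_ge_atTop 3,
    (Real.tendsto_log_atTop.comp tendsto_natCast_atTop_atTop).eventually_ge_atTop (80 / c₀),
    (Real.tendsto_log_atTop.comp tendsto_natCast_atTop_atTop).eventually_ge_atTop 1]
    with K hM hpsi hB h3 hK3 hlog hlog1 z D hz hzB hD h2
  have hlog' : 80 / c₀ ≤ Real.log K := hlog
  have hlog1' : 1 ≤ Real.log K := hlog1
  have hK : (3 : ℝ) ≤ K := by exact_mod_cast hK3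
  have hsq : Real.sqrt K ^ 2 = K := Real.sq_sqrt (by linarith)
  have hsq1 : 1 ≤ Real.sqrt K := by
    rw [Real.one_le_sqrt]
    linarith
  have hz8 : 8 * z ≤ K := by
    have : (8 : ℝ) * z ≤ K := by nlinarith
    exact_mod_cast this
  have h1 := hM z hzB (Omd D) (fun d => if d = 1 then 1 else 0) (fun p => Omd_ok D p)
    (by
      intro d hd
      have hd1 : d = 1 := by
        by_contra h
        simp [h] at hd
      subst hd1
      refine ⟨squarefree_one, ?_, by simp⟩
      push_cast
      exact Real.one_le_rpow (by linarith) (by norm_num))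
    (by
      intro d
      split_ifs
      · rw [abs_one]
        have : (1 : ℝ) ≤ 8 ^ d.primeFactors.card := one_le_pow₀ (by norm_num)
        push_cast
        linarith
      · rw [abs_zero]
        positivity)
  have h5 : ∑ d ∈ Icc 1 K, (if d = 1 then (1 : ℝ) else 0) *
      ∏ p ∈ d.primeFactors, (((Omd D p).card : ℝ) / ((p : ℝ) - 1)) = 1 := by
    rw [Finset.sum_eq_single 1]
    · simp
    · intro d _ hd
      simp [hd]
    · intro h
      exact absurd (Finset.mem_Icc.2 ⟨le_rfl, by omega⟩) h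
  have h6 : ∀ x : ℕ, ∑ d ∈ (Icc 1 K).filter (fun d => ∀ p ∈ d.primeFactors, x % p ∈ Omd D p),
      (if d = 1 then (1 : ℝ) else 0) = 1 := by
    intro x
    rw [Finset.sum_eq_single 1]
    · simp
    · intro d _ hd
      simp [hd]
    · intro h
      exact absurd (mem_filter.2 ⟨Finset.mem_Icc.2 ⟨le_rfl, by omega⟩, by simp⟩) h
  rw [h5, mul_one] at h1
  simp only [h6, mul_one] at h1
  have h7 := rough_low η hη (K := K) (z := z) (D := D) (by omega) hz8
  have h8 := (abs_le.1 h1).1
  obtain ⟨V, hV⟩ : ∃ V : ℝ, V = ∏ p ∈ Pool.Agent.GBQ.pr z,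
    (1 - ((Omd D p).card : ℝ) / ((p : ℝ) - 1)) := ⟨_, rfl⟩
  have h9 := local_low (z := z) hD h2
  rw [← hV] at h8 h9
  have hr := rho_pos z
  have hRR := one_le_RR z D
  -- the sum in question
  have h10 : ∑ x ∈ range (K + 1), lam x * η ((x : ℝ) / K) * LamS z (x + D) =
      (rho z)⁻¹ * ∑ x ∈ range (K + 1), lam x * η ((x : ℝ) / K) *
        (if Rough z (x + D) then 1 else 0) := by
    rw [Finset.mul_sum]
    apply Finset.sum_congr rfl
    intro x _
    unfold LamS
    split_ifs <;> ring
  rw [h10]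
  have h11 : (rho z)⁻¹ ≤ Real.log K / c₀ := by
    have h12 := hrho z hz
    have hz0 : (2 : ℝ) ≤ z := by exact_mod_cast hz
    have hlz : 0 < Real.log z := Real.log_pos (by linarith)
    have h13 : (rho z)⁻¹ ≤ (c₀ / Real.log z)⁻¹ := inv_anti₀ (by positivity) h12
    rw [inv_div] at h13
    refine h13.trans ?_
    apply div_le_div_of_nonneg_right _ hc₀.le
    apply Real.log_le_log (by linarith)
    have : (8 : ℝ) * z ≤ K := by exact_mod_cast hz8
    linarith
  have h12 : (rho z)⁻¹ * (K / Real.log K ^ 2 + 3 * (Real.sqrt K * Real.log K) * Real.log K) ≤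
      K / 40 := by
    have h13 : 0 ≤ K / Real.log K ^ 2 + 3 * (Real.sqrt K * Real.log K) * Real.log K := by
      positivity
    refine (mul_le_mul_of_nonneg_right h11 h13).trans ?_
    have h14 : Real.log K / c₀ * (K / Real.log K ^ 2) ≤ K / 80 := by
      have h15 : Real.log K / c₀ * (K / Real.log K ^ 2) = K / (c₀ * Real.log K) := by
        field_simp
      rw [h15]
      apply div_le_div_of_nonneg_left (by linarith) (by norm_num)
      rw [div_le_iff₀ hc₀] at hlog'
      linarith
    have h16 : Real.log K / c₀ * (3 * (Real.sqrt K * Real.log K) * Real.log K) ≤ K / 80 := by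
      have h17 : Real.log K / c₀ * (3 * (Real.sqrt K * Real.log K) * Real.log K) =
          3 * Real.sqrt K * Real.log K ^ 3 / c₀ := by
        ring
      rw [h17, div_le_iff₀ hc₀]
      nlinarith
    rw [mul_add]
    linarith
  have h13 : psi0 η K * V - (K / Real.log K ^ 2 + 3 * (Real.sqrt K * Real.log K) * Real.log K) ≤
      ∑ x ∈ range (K + 1), lam x * η ((x : ℝ) / K) * (if Rough z (x + D) then 1 else 0) := by
    linarith
  have h14 := mul_le_mul_of_nonneg_left h13 (inv_pos.2 hr).le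
  have h15 : (K : ℝ) / 20 * RR z D ≤ psi0 η K * ((rho z)⁻¹ * V) := by
    calc (K : ℝ) / 20 * RR z D = K / 10 * (RR z D / 2) := by ring
      _ ≤ psi0 η K * ((rho z)⁻¹ * V) := by
        apply mul_le_mul hpsi h9 (by positivity)
        have : 0 ≤ (K : ℝ) / 10 := by positivity
        linarith
  have h16 : (rho z)⁻¹ * (psi0 η K * V -
      (K / Real.log K ^ 2 + 3 * (Real.sqrt K * Real.log K) * Real.log K)) =
      psi0 η K * ((rho z)⁻¹ * V) -
      (rho z)⁻¹ * (K / Real.log K ^ 2 + 3 * (Real.sqrt K * Real.log K) * Real.log K) := by ring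
  rw [h16] at h14
  have h17 : (K : ℝ) / 40 ≤ K / 40 * RR z D := by
    have : (0 : ℝ) ≤ K / 40 := by positivity
    nlinarith
  linarith

end Pool.Agent.TSH
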