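import Mathlib
import Pool.Agent.TSH.FirstB
import Pool.Agent.MT.Wt

set_option autoImplicit false

/-!
# TSH / First: the first moment
-/

namespace Pool.Agent.TSH

open Finset Filter
open Pool.Agent.MT
open Pool.Agent.GBQ (ee lam zz rho LamS Rough St_Main St_Sup badPP bad_card_pp)

theorem RR_mono {y z : ℕ} (h : y ≤ z) (D : ℕ) : RR y D ≤ RR z D := by
  unfold RR
  apply Finset.prod_le_prod_of_subset_of_one_le
  · intro p hp
    rw [mem_filter] at hp ⊢
    exact ⟨hp.1, hp.2.trans h⟩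
  · intro p hp
    have := (fac_bd (Nat.prime_of_mem_primeFactors (mem_filter.1 hp).1)).1
    linarith
  · intro p hp _
    exact (fac_bd (Nat.prime_of_mem_primeFactors (mem_filter.1 hp).1)).1

/-- the weighted sum for one `k` -/
noncomputable def Wk (η : ℝ → ℝ) (X X1 D : ℕ) : ℝ :=
  ∑ x ∈ range (X1 + 1), lam x * η ((x : ℝ) / X1) * (lam (x + D) * η (((x + D : ℕ) : ℝ) / X))

/-- from the weighted sum to the number of pairs of primes -/
theorem Wk_le (η : ℝ → ℝ) (hη : IsWt η) {X X1 a b : ℕ} (hX1 : 1 ≤ X1) (hX : X1 ≤ X)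
    (ha : 16 * a ≤ X1) (hab : a ≤ b) (hb : X1 + (b - a) ≤ X) :
    Wk η X X1 (b - a) ≤ Real.log X ^ 2 *
      ((((Icc 1 X1).filter (fun h => (a + h).Prime ∧ (b + h).Prime)).card : ℝ) +
        6 * (Real.sqrt X * Real.log X)) := by
  classical
  have hX10 : (0 : ℝ) < X1 := by exact_mod_cast hX1
  have hXr : (1 : ℝ) ≤ X := by exact_mod_cast hX1.trans hX
  have hlog : 0 ≤ Real.log X := Real.log_natCast_nonneg X
  obtain ⟨D, hD⟩ : ∃ D : ℕ, D = b - a := ⟨_, rfl⟩
  rw [← hD] at hb ⊢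
  set G := (range (X1 + 1)).filter (fun x => a < x ∧ x.Prime ∧ (x + D).Prime) with hG
  set B1 := (range (X1 + 1)).filter (fun x => x ∈ badPP X1) with hB1
  set B2 := (range (X1 + 1)).filter (fun x => x + D ∈ badPP X) with hB2
  have h1 : ∀ x ∈ range (X1 + 1),
      lam x * η ((x : ℝ) / X1) * (lam (x + D) * η (((x + D : ℕ) : ℝ) / X)) ≤
      Real.log X ^ 2 * ((if x ∈ G then (1 : ℝ) else 0) + (if x ∈ B1 then 1 else 0) +
        (if x ∈ B2 then 1 else 0)) := by
    intro x hx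
    have hx1 : x ≤ X1 := Nat.lt_succ_iff.1 (mem_range.1 hx)
    have e1 := lam_le_log (hx1.trans hX) (hX1.trans hX)
    have e2 := lam_le_log (show x + D ≤ X by omega) (hX1.trans hX)
    have e3 := hη.nonneg ((x : ℝ) / X1)
    have e4 := hη.le_one ((x : ℝ) / X1)
    have e5 := hη.nonneg (((x + D : ℕ) : ℝ) / X)
    have e6 := hη.le_one (((x + D : ℕ) : ℝ) / X)
    have e7 := lam_nonneg x
    have e8 := lam_nonneg (x + D)
    have e9 : lam x * η ((x : ℝ) / X1) ≤ Real.log X := by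
      calc lam x * η ((x : ℝ) / X1) ≤ Real.log X * 1 := mul_le_mul e1 e4 e3 hlog
        _ = _ := mul_one _
    have e10 : lam (x + D) * η (((x + D : ℕ) : ℝ) / X) ≤ Real.log X := by
      calc lam (x + D) * η (((x + D : ℕ) : ℝ) / X) ≤ Real.log X * 1 := mul_le_mul e2 e6 e5 hlog
        _ = _ := mul_one _
    have e11 : lam x * η ((x : ℝ) / X1) * (lam (x + D) * η (((x + D : ℕ) : ℝ) / X)) ≤
        Real.log X ^ 2 := by
      rw [sq]
      exact mul_le_mul e9 e10 (mul_nonneg e8 e5) hlog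
    have hsq : 0 ≤ Real.log X ^ 2 := sq_nonneg _
    have i1 : (0 : ℝ) ≤ if x ∈ G then (1 : ℝ) else 0 := by split_ifs <;> norm_num
    have i2 : (0 : ℝ) ≤ if x ∈ B1 then (1 : ℝ) else 0 := by split_ifs <;> norm_num
    have i3 : (0 : ℝ) ≤ if x ∈ B2 then (1 : ℝ) else 0 := by split_ifs <;> norm_num
    by_cases h0 : lam x * η ((x : ℝ) / X1) * (lam (x + D) * η (((x + D : ℕ) : ℝ) / X)) = 0
    · rw [h0]
      positivity
    have hx2 : η ((x : ℝ) / X1) ≠ 0 := by
      intro h
      apply h0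
      rw [h]
      ring
    have hx3 : lam x ≠ 0 := by
      intro h
      apply h0
      rw [h]
      ring
    have hx4 : lam (x + D) ≠ 0 := by
      intro h
      apply h0
      rw [h]
      ring
    have hx5 := (hη.supp _ hx2).1
    rw [lt_div_iff₀ hX10] at hx5
    have hx6 : X1 < 8 * x := by
      have : (X1 : ℝ) < 8 * x := by linarith
      exact_mod_cast this
    by_cases c1 : x ∈ B1
    · rw [if_pos c1]
      nlinarith
    by_cases c2 : x ∈ B2
    · rw [if_pos c2]
      nlinarith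
    have c3 : x.Prime := by
      by_contra hcon
      apply c1
      rw [hB1, mem_filter]
      refine ⟨hx, ?_⟩
      unfold badPP
      rw [mem_filter, Finset.mem_Ioc]
      exact ⟨⟨by omega, hx1⟩, hcon, hx3⟩
    have c4 : (x + D).Prime := by
      by_contra hcon
      apply c2
      rw [hB2, mem_filter]
      refine ⟨hx, ?_⟩
      unfold badPP
      rw [mem_filter, Finset.mem_Ioc]
      exact ⟨⟨by omega, by omega⟩, hcon, hx4⟩
    have c5 : x ∈ G := by
      rw [hG, mem_filter]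
      exact ⟨hx, by omega, c3, c4⟩
    rw [if_pos c5]
    nlinarith
  have h2 := Finset.sum_le_sum h1
  rw [← Finset.mul_sum, Finset.sum_add_distrib, Finset.sum_add_distrib] at h2
  have h3 : ∀ S : Finset ℕ, ∑ x ∈ range (X1 + 1), (if x ∈ S then (1 : ℝ) else 0) ≤ S.card := by
    intro S
    rw [← Finset.sum_filter, Finset.sum_const, nsmul_eq_mul, mul_one]
    exact_mod_cast Finset.card_le_card (fun x hx => (mem_filter.1 hx).2)
  have h4 : (G.card : ℝ) ≤
      (((Icc 1 X1).filter (fun h => (a + h).Prime ∧ (b + h).Prime)).card : ℝ) := by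
    norm_cast
    apply Finset.card_le_card_of_injOn (fun x => x - a)
    · intro x hx
      rw [Finset.mem_coe, hG, mem_filter] at hx
      obtain ⟨hx1, hx2, hx3, hx4⟩ := hx
      have hx5 := mem_range.1 hx1
      rw [Finset.mem_coe, mem_filter, Finset.mem_Icc]
      refine ⟨?_, ?_, ?_⟩
      · show 1 ≤ x - a ∧ x - a ≤ X1
        omega
      · show (a + (x - a)).Prime
        rw [show a + (x - a) = x by omega]
        exact hx3
      · show (b + (x - a)).Prime
        rw [show b + (x - a) = x + D by omega]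
        exact hx4
    · intro x hx x' hx' h
      rw [Finset.mem_coe, hG, mem_filter] at hx hx'
      have h' : x - a = x' - a := h
      omega
  have hmono : ∀ n : ℕ, 1 ≤ n → n ≤ X → 3 * (Real.sqrt n * Real.log n) ≤
      3 * (Real.sqrt X * Real.log X) := by
    intro n hn hnX
    have e1 : (n : ℝ) ≤ X := by exact_mod_cast hnX
    have e2 : (0 : ℝ) < n := by exact_mod_cast hn
    have e3 := Real.sqrt_le_sqrt e1
    have e4 := Real.log_le_log e2 e1
    have e5 := mul_le_mul e3 e4 (Real.log_natCast_nonneg n) (Real.sqrt_nonneg _)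
    linarith
  have h5 : (B1.card : ℝ) ≤ 3 * (Real.sqrt X * Real.log X) := by
    refine le_trans ?_ ((bad_card_pp hX1).trans (hmono X1 hX1 hX))
    exact_mod_cast Finset.card_le_card (fun x hx => (mem_filter.1 hx).2)
  have h6 : (B2.card : ℝ) ≤ 3 * (Real.sqrt X * Real.log X) := by
    refine le_trans ?_ (bad_card_pp (hX1.trans hX))
    norm_cast
    apply Finset.card_le_card_of_injOn (fun x => x + D)
    · intro x hx
      rw [Finset.mem_coe, hB2, mem_filter] at hx
      exact hx.2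
    · intro x _ x' _ h
      have h' : x + D = x' + D := h
      omega
  have hsq : 0 ≤ Real.log X ^ 2 := sq_nonneg _
  refine h2.trans ?_
  apply mul_le_mul_of_nonneg_left _ hsq
  have := h3 G
  have := h3 B1
  have := h3 B2
  linarith

theorem half_log {A : ℕ} : ∀ᶠ X : ℕ in atTop, ∀ X1 : ℕ, (X : ℝ) / Real.log X ^ A ≤ X1 →
    Real.sqrt X ≤ X1 ∧ Real.log X ≤ 2 * Real.log X1 := by
  filter_upwards [tl A 1 one_pos, eventually_ge_atTop 3] with X h1 hX3 X1 hX1
  have hX : (3 : ℝ) ≤ X := by exact_mod_cast hX3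
  have hlog : 0 < Real.log X := Real.log_pos (by linarith)
  have hsq : Real.sqrt X * Real.sqrt X = X := Real.mul_self_sqrt (by linarith)
  have hs0 : 0 < Real.sqrt X := Real.sqrt_pos.2 (by linarith)
  have h2 : Real.sqrt X ≤ X1 := by
    refine le_trans ?_ hX1
    rw [le_div_iff₀ (by positivity)]
    nlinarith
  refine ⟨h2, ?_⟩
  have h3 := Real.log_le_log hs0 h2
  rw [Real.log_sqrt (by linarith)] at h3
  linarith

/-- the sum of the errors of the model -/
theorem err_le {K : Finset ℕ} (D : ℕ → ℕ) (hinj : ∀ k ∈ K, ∀ k' ∈ K, D k = D k' → k = k')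
    (a f : ℕ → ℝ) (X1 X : ℕ) (M L : ℝ) (hM0 : 0 ≤ M) (hL0 : 0 ≤ L)
    (hM : ∀ α : ℝ, ‖∑ x ∈ range (X + 1), ((f x : ℝ) : ℂ) * ee (α * x)‖ ≤ M)
    (hS : ∀ k ∈ K, X1 + D k ≤ X) (ha : ∀ x ∈ range (X1 + 1), |a x| ≤ L) :
    |∑ k ∈ K, ∑ x ∈ range (X1 + 1), a x * f (x + D k)| ≤
      Real.sqrt K.card * (M * (Real.sqrt (X1 + 1) * L)) := by
  have h1 := corr_L2 a f X1 X M hM (K.image D) (by
    intro d hd
    obtain ⟨k, hk, rfl⟩ := Finset.mem_image.1 hd
    exact hS k hk)
  rw [Finset.sum_image (fun x hx y hy h => hinj x hx y hy h)] at h1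
  have h2 : ∑ x ∈ range (X1 + 1), a x ^ 2 ≤ (X1 + 1) * L ^ 2 := by
    calc ∑ x ∈ range (X1 + 1), a x ^ 2 ≤ ∑ _x ∈ range (X1 + 1), L ^ 2 := by
          apply Finset.sum_le_sum
          intro x hx
          rw [← sq_abs]
          exact pow_le_pow_left₀ (abs_nonneg _) (ha x hx) 2
      _ = _ := by
          rw [Finset.sum_const, Finset.card_range, nsmul_eq_mul]
          push_cast
          ring
  have h3 : (∑ k ∈ K, ∑ x ∈ range (X1 + 1), a x * f (x + D k)) ^ 2 ≤
      K.card * (M ^ 2 * ((X1 + 1) * L ^ 2)) := by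
    calc (∑ k ∈ K, ∑ x ∈ range (X1 + 1), a x * f (x + D k)) ^ 2
        ≤ K.card * ∑ k ∈ K, (∑ x ∈ range (X1 + 1), a x * f (x + D k)) ^ 2 :=
          sq_sum_le_card_mul_sum_sq
      _ ≤ _ := by
          apply mul_le_mul_of_nonneg_left _ (Nat.cast_nonneg _)
          exact h1.trans (mul_le_mul_of_nonneg_left h2 (sq_nonneg _))
  have h4 : (Real.sqrt K.card * (M * (Real.sqrt (X1 + 1) * L))) ^ 2 =
      K.card * (M ^ 2 * ((X1 + 1) * L ^ 2)) := by
    rw [mul_pow, mul_pow, mul_pow, Real.sq_sqrt (Nat.cast_nonneg _), Real.sq_sqrt (by positivity)]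
  rw [← h4] at h3
  exact abs_le_of_sq_le_sq h3 (by positivity)

/-- the set of pairs, counted in two ways -/
theorem sum_rr (X1 : ℕ) (K : Finset ℕ) (a b : ℕ → ℕ) :
    ∑ h ∈ Icc 1 X1, (rr K a b h : ℝ) = ∑ k ∈ K,
      ((((Icc 1 X1).filter (fun h => (a k + h).Prime ∧ (b k + h).Prime)).card : ℕ) : ℝ) := by
  unfold rr
  have h1 : ∀ h, ((K.filter (fun k => (a k + h).Prime ∧ (b k + h).Prime)).card : ℝ) =
      ∑ k ∈ K, if (a k + h).Prime ∧ (b k + h).Prime then (1 : ℝ) else 0 := by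
    intro h
    rw [← Finset.sum_filter, Finset.sum_const, nsmul_eq_mul, mul_one]
  have h2 : ∀ k, (((Icc 1 X1).filter (fun h => (a k + h).Prime ∧ (b k + h).Prime)).card : ℝ) =
      ∑ h ∈ Icc 1 X1, if (a k + h).Prime ∧ (b k + h).Prime then (1 : ℝ) else 0 := by
    intro k
    rw [← Finset.sum_filter, Finset.sum_const, nsmul_eq_mul, mul_one]
  simp only [h1, h2]
  exact Finset.sum_comm

theorem thm_First (hSup : St_Sup) (hMain : St_Main) : St_First := by
  intro A
  refine ⟨1 / 80, by norm_num, ?_⟩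
  obtain ⟨η, hη⟩ := exists_wt
  obtain ⟨B₀, hB₀⟩ := hSup η hη (A + 4)
  obtain ⟨B, hB⟩ : ∃ B : ℕ, B = B₀ + 2 := ⟨_, rfl⟩
  obtain ⟨K₀, hK₀⟩ := eventually_atTop.1 (main_low hMain η hη (B + 1))
  have hlogT : Tendsto (fun X : ℕ => Real.log X) atTop atTop :=
    Real.tendsto_log_atTop.comp tendsto_natCast_atTop_atTop
  filter_upwards [hB₀ B (by omega), half_log (A := A), eventually_ge_atTop (K₀ ^ 2 + 3),
    hlogT.eventually_ge_atTop (2 ^ (B + 2)), hlogT.eventually_ge_atTop 640,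
    tl (A + 3) (1 / 960) (by norm_num),
    hlogT.eventually ((Real.isLittleO_pow_log_id_atTop (n := 2)).bound (show (0 : ℝ) < 1 / 2 by
      norm_num))] with X hS hhalf hXK hlogB hlog640 htl hll X1 K a b hX1 hXX1 hF hK
  have hX3 : (3 : ℝ) ≤ X := by
    have : 3 ≤ X := by nlinarith [Nat.zero_le (K₀ ^ 2)]
    exact_mod_cast this
  have hX0 : (0 : ℝ) < X := by linarith
  obtain ⟨L, hL⟩ : ∃ L : ℝ, L = Real.log X := ⟨_, rfl⟩
  rw [← hL] at hX1 hK hlogB hlog640 htl hS
  have hL1 : 1 ≤ L := by linarith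
  have hL0 : 0 < L := by linarith
  obtain ⟨hsX1, hlX1⟩ := hhalf X1 (by rw [← hL]; exact hX1)
  rw [← hL] at hlX1
  have hsq : Real.sqrt X * Real.sqrt X = X := Real.mul_self_sqrt hX0.le
  have hs0 : 0 < Real.sqrt X := Real.sqrt_pos.2 hX0
  have hX1K : K₀ ≤ X1 := by
    have h1 : (K₀ : ℝ) ≤ Real.sqrt X := by
      apply Real.le_sqrt_of_sq_le
      have : K₀ ^ 2 ≤ X := by omega
      exact_mod_cast this
    exact_mod_cast h1.trans hsX1
  have hs1 : 1 ≤ Real.sqrt X := by
    rw [Real.one_le_sqrt]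
    linarith
  have hX1r : (1 : ℝ) ≤ X1 := hs1.trans hsX1
  have hX11 : 1 ≤ X1 := by exact_mod_cast hX1r
  -- the limit of the preliminary sieve
  obtain ⟨z, hz⟩ : ∃ z : ℕ, z = zz B X := ⟨_, rfl⟩
  have hzle : (z : ℝ) ≤ L ^ B := by
    rw [hz, hL]
    unfold zz
    exact Nat.floor_le (by rw [← hL]; positivity)
  have hzge : L ^ B < z + 1 := by
    rw [hz, hL]
    unfold zz
    exact Nat.lt_floor_add_one _
  have hz1 : (z : ℝ) ≤ Real.log X1 ^ (B + 1) := by
    refine hzle.trans ?_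
    have h1 : L ^ B ≤ (2 * Real.log X1) ^ B := pow_le_pow_left₀ hL0.le hlX1 B
    have h2 : (2 : ℝ) ^ B ≤ Real.log X1 := by
      have : (2 : ℝ) ^ (B + 2) = 4 * 2 ^ B := by ring
      rw [this] at hlogB
      have : (0 : ℝ) < 2 ^ B := by positivity
      linarith
    have h3 : 0 ≤ Real.log X1 := Real.log_natCast_nonneg _
    calc L ^ B ≤ (2 * Real.log X1) ^ B := h1
      _ = 2 ^ B * Real.log X1 ^ B := by rw [mul_pow]
      _ ≤ Real.log X1 * Real.log X1 ^ B := mul_le_mul_of_nonneg_right h2 (by positivity)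
      _ = Real.log X1 ^ (B + 1) := by ring
  have hLB : L ≤ L ^ B := by
    calc L = L ^ 1 := (pow_one L).symm
      _ ≤ L ^ B := pow_le_pow_right₀ hL1 (by omega)
  have hz2 : 2 ≤ z := by
    have : (2 : ℝ) ≤ z := by linarith
    exact_mod_cast this
  have hyz : yL X ≤ z := by
    have h1 : (yL X : ℝ) < Real.log (Real.log X) ^ 2 + 1 := by
      unfold yL
      exact Nat.ceil_lt_add_one (by positivity)
    have h2 : Real.log (Real.log X) ^ 2 ≤ L - 2 := by
      rw [Real.norm_of_nonneg (by positivity), id, Real.norm_of_nonneg (by rw [← hL]; exact hL0.le),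
        ← hL] at hll
      rw [← hL]
      linarith
    have h3 : (yL X : ℝ) < z + 1 := by linarith
    have h4 : yL X < z + 1 := by exact_mod_cast h3
    omega
  -- the families
  have hD1 : ∀ k ∈ K, X ≤ 4 * (b k - a k) ∧ 2 * (b k - a k) ≤ X ∧ 2 ∣ b k - a k := by
    intro k hk
    have e1 := hF.sa k hk
    have e2 := hF.lb k hk
    have e3 := hF.ub k hk
    have e4 := hF.sq k hk
    refine ⟨by omega, by omega, ?_⟩
    have e5 : a k ≠ 2 := by
      intro h
      rw [h] at e4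
      have : (X1 : ℝ) < 4 := by exact_mod_cast e4
      have : (640 : ℝ) ≤ X1 := by
        have e6 := Real.log_le_sub_one_of_pos (show (0 : ℝ) < X1 by linarith)
        linarith
      linarith
    have e6 := (hF.pa k hk).eq_two_or_odd
    have e7 := (hF.pb k hk).eq_two_or_odd
    have e8 := (hF.pa k hk).two_le
    omega
  obtain ⟨aw, haw⟩ : ∃ aw : ℕ → ℝ, aw = fun x => lam x * η ((x : ℝ) / X1) := ⟨_, rfl⟩
  obtain ⟨f, hf⟩ : ∃ f : ℕ → ℝ, f = fun y => (lam y - LamS z y) * η ((y : ℝ) / X) := ⟨_, rfl⟩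
  have hbig : ∀ k ∈ K, ∀ x ∈ range (X1 + 1), η (((x + (b k - a k) : ℕ) : ℝ) / X) = 1 := by
    intro k hk x hx
    obtain ⟨e1, e2, -⟩ := hD1 k hk
    have e3 := mem_range.1 hx
    apply hη.one
    · rw [le_div_iff₀ hX0]
      have : X ≤ 4 * (x + (b k - a k)) := by omega
      have : (X : ℝ) ≤ 4 * ((x + (b k - a k) : ℕ) : ℝ) := by exact_mod_cast this
      linarith
    · rw [div_le_iff₀ hX0]
      have : 4 * (x + (b k - a k)) ≤ 3 * X := by omega
      have : 4 * ((x + (b k - a k) : ℕ) : ℝ) ≤ 3 * X := by exact_mod_cast this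
      linarith
  have hdec : ∀ k ∈ K, Wk η X X1 (b k - a k) =
      ∑ x ∈ range (X1 + 1), aw x * LamS z (x + (b k - a k)) +
      ∑ x ∈ range (X1 + 1), aw x * f (x + (b k - a k)) := by
    intro k hk
    unfold Wk
    rw [← Finset.sum_add_distrib]
    apply Finset.sum_congr rfl
    intro x hx
    rw [haw, hf]
    simp only
    rw [hbig k hk x hx]
    ring
  have hmain : ∀ k ∈ K, (X1 : ℝ) / 40 * RR (yL X) (b k - a k) ≤
      ∑ x ∈ range (X1 + 1), aw x * LamS z (x + (b k - a k)) := by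
    intro k hk
    obtain ⟨e1, e2, e3⟩ := hD1 k hk
    have h1 := hK₀ X1 hX1K z (b k - a k) hz2 hz1 (by
      intro h
      rw [h] at e1
      have : (0 : ℝ) < X := hX0
      have : 0 < X := by exact_mod_cast this
      omega) e3
    rw [haw]
    refine le_trans ?_ h1
    apply mul_le_mul_of_nonneg_left (RR_mono hyz _) (by positivity)
  have herr := err_le (K := K) (fun k => b k - a k) hF.ic aw f X1 X (X / L ^ (A + 4)) L
    (by positivity) hL0.le (by
      intro α
      have := hS α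
      rw [hf]
      rw [hz]
      exact this)
    (by
      intro k hk
      obtain ⟨e1, e2, -⟩ := hD1 k hk
      show X1 + (b k - a k) ≤ X
      omega)
    (by
      intro x hx
      have hx1 : x ≤ X1 := Nat.lt_succ_iff.1 (mem_range.1 hx)
      rw [haw]
      simp only
      rw [abs_of_nonneg (mul_nonneg (lam_nonneg x) (hη.nonneg _)), hL]
      calc lam x * η ((x : ℝ) / X1) ≤ Real.log X * 1 := by
            apply mul_le_mul (lam_le_log (by omega) (by omega)) (hη.le_one _) (hη.nonneg _)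
              (Real.log_natCast_nonneg _)
        _ = Real.log X := mul_one _)
  obtain ⟨T, hT⟩ : ∃ T : ℝ, T = ∑ k ∈ K, RR (yL X) (b k - a k) := ⟨_, rfl⟩
  obtain ⟨κ, hκ⟩ : ∃ κ : ℝ, κ = K.card := ⟨_, rfl⟩
  rw [← hκ] at hK
  have hκ0 : 0 ≤ κ := by rw [hκ]; exact Nat.cast_nonneg _
  have hκT : κ ≤ T := by
    rw [hT, hκ]
    calc (K.card : ℝ) = ∑ _k ∈ K, (1 : ℝ) := by rw [Finset.sum_const, nsmul_eq_mul, mul_one]
      _ ≤ _ := Finset.sum_le_sum fun k _ => one_le_RR _ _
  have hup : ∑ k ∈ K, Wk η X X1 (b k - a k) ≤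
      L ^ 2 * (∑ h ∈ Icc 1 X1, (rr K a b h : ℝ) + κ * (6 * (Real.sqrt X * L))) := by
    have h1 : ∀ k ∈ K, Wk η X X1 (b k - a k) ≤ L ^ 2 *
        ((((Icc 1 X1).filter (fun h => (a k + h).Prime ∧ (b k + h).Prime)).card : ℝ) +
          6 * (Real.sqrt X * L)) := by
      intro k hk
      obtain ⟨e1, e2, -⟩ := hD1 k hk
      have e3 := hF.sa k hk
      have e4 := hF.lb k hk
      rw [hL]
      exact Wk_le η hη hX11 (by omega) e3 (by omega) (by omega)
    refine (Finset.sum_le_sum h1).trans (le_of_eq ?_)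
    rw [sum_rr, ← Finset.mul_sum, Finset.sum_add_distrib, Finset.sum_const, nsmul_eq_mul, hκ]
  have hlow : (X1 : ℝ) / 40 * T - Real.sqrt κ * (X / L ^ (A + 4) * (Real.sqrt (X1 + 1) * L)) ≤
      ∑ k ∈ K, Wk η X X1 (b k - a k) := by
    rw [Finset.sum_congr rfl hdec, Finset.sum_add_distrib, hT, Finset.mul_sum, hκ]
    have h1 := Finset.sum_le_sum hmain
    have h2 := (abs_le.1 herr).1
    linarith
  have hE1 : Real.sqrt κ * (X / L ^ (A + 4) * (Real.sqrt (X1 + 1) * L)) ≤ X1 * κ / 160 := by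
    have h1 : Real.sqrt (X1 + 1) ≤ 2 * Real.sqrt X1 := by
      rw [show (2 : ℝ) = Real.sqrt 4 by
        rw [show (4 : ℝ) = 2 ^ 2 by norm_num, Real.sqrt_sq (by norm_num)],
        ← Real.sqrt_mul (by norm_num)]
      apply Real.sqrt_le_sqrt
      linarith
    have h2 : X / L ^ A ≤ Real.sqrt κ * Real.sqrt X1 := by
      have h3 : 0 ≤ X / L ^ A := by positivity
      rw [← Real.sqrt_mul hκ0]
      apply Real.le_sqrt_of_sq_le
      rw [sq]
      exact mul_le_mul hK hX1 h3 hκ0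
    have h4 : X / L ^ (A + 4) * L = X / L ^ A / L ^ 3 := by
      rw [pow_add]
      field_simp
    have h5 : Real.sqrt κ * Real.sqrt κ = κ := Real.mul_self_sqrt hκ0
    have h6 : Real.sqrt X1 * Real.sqrt X1 = X1 := Real.mul_self_sqrt (by linarith)
    have h7 : 0 ≤ Real.sqrt κ := Real.sqrt_nonneg _
    have h8 : 0 ≤ Real.sqrt (X1 : ℝ) := Real.sqrt_nonneg _
    have hL3 : (320 : ℝ) ≤ L ^ 3 := by
      have : L ^ 1 ≤ L ^ 3 := pow_le_pow_right₀ hL1 (by norm_num)
      rw [pow_one] at this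
      linarith
    calc Real.sqrt κ * (X / L ^ (A + 4) * (Real.sqrt (X1 + 1) * L))
        = Real.sqrt κ * Real.sqrt (X1 + 1) * (X / L ^ (A + 4) * L) := by ring
      _ ≤ Real.sqrt κ * (2 * Real.sqrt X1) * (Real.sqrt κ * Real.sqrt X1 / L ^ 3) := by
          rw [h4]
          apply mul_le_mul
          · exact mul_le_mul_of_nonneg_left h1 h7
          · exact div_le_div_of_nonneg_right h2 (by positivity)
          · positivity
          · positivity
      _ = 2 * (Real.sqrt κ * Real.sqrt κ) * (Real.sqrt X1 * Real.sqrt X1) / L ^ 3 := by ring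
      _ = 2 * κ * X1 / L ^ 3 := by rw [h5, h6]
      _ ≤ 2 * κ * X1 / 320 := by
          apply div_le_div_of_nonneg_left (by positivity) (by norm_num) hL3
      _ = X1 * κ / 160 := by ring
  have hE2 : L ^ 2 * (κ * (6 * (Real.sqrt X * L))) ≤ X1 * κ / 160 := by
    have h1 : 960 * (Real.sqrt X * L ^ 3) ≤ X1 := by
      refine le_trans ?_ hX1
      rw [le_div_iff₀ (by positivity)]
      have h2 : L ^ (A + 3) = L ^ A * L ^ 3 := pow_add _ _ _
      rw [h2] at htl
      calc 960 * (Real.sqrt X * L ^ 3) * L ^ A = 960 * Real.sqrt X * (L ^ A * L ^ 3) := by ring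
        _ ≤ 960 * Real.sqrt X * (1 / 960 * Real.sqrt X) := by
            apply mul_le_mul_of_nonneg_left htl (by positivity)
        _ = Real.sqrt X * Real.sqrt X := by ring
        _ = X := hsq
    calc L ^ 2 * (κ * (6 * (Real.sqrt X * L))) = κ * (960 * (Real.sqrt X * L ^ 3)) / 160 := by ring
      _ ≤ κ * X1 / 160 := by
          apply div_le_div_of_nonneg_right _ (by norm_num)
          exact mul_le_mul_of_nonneg_left h1 hκ0
      _ = _ := by ring
  rw [← hT, ← hL]
  have h1 : (X1 : ℝ) * κ ≤ X1 * T := mul_le_mul_of_nonneg_left hκT (by linarith)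
  have h2 : (X1 : ℝ) / 80 * T ≤ L ^ 2 * ∑ h ∈ Icc 1 X1, (rr K a b h : ℝ) := by
    rw [mul_add] at hup
    linarith
  have h3 : 1 / 80 * (X1 : ℝ) / L ^ 2 * T = (X1 / 80 * T) / L ^ 2 := by ring
  rw [h3, div_le_iff₀ (by positivity)]
  linarith

end Pool.Agent.TSH
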