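import Mathlib
import Pool.Agent.TSH.Stmts
import Pool.Agent.PC.Sieve

set_option autoImplicit false

/-!
# TSH / BT2: average over the primes of the small prime factors of `p - m`
-/

namespace Pool.Agent.TSH

open Finset Filter
open Pool.Agent.Helper90.Straus (mem_pr g Sys surv mem_surv sieve_upper)
open Pool.Agent.PC.BlockB

open Classical in
/-- The class `r` modulo `l` with `l ∣ a + d * r`. -/
private noncomputable def btO (a d l : ℕ) : Finset ℕ :=
  if l ∣ d then ∅ else (range l).filter (fun r => l ∣ a + d * r)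

private theorem btO_card {a d l : ℕ} (hl : l.Prime) :
    (btO a d l).card = if l ∣ d then 0 else 1 := by
  classical
  unfold btO
  split_ifs with h
  · rfl
  · haveI := Fact.mk hl
    rw [card_eq_one]
    have hd : (d : ZMod l) ≠ 0 := by
      intro h0
      exact h ((ZMod.natCast_eq_zero_iff d l).1 h0)
    refine ⟨(-(a : ZMod l) * (d : ZMod l)⁻¹).val, ?_⟩
    ext r
    rw [mem_filter, mem_range, mem_singleton]
    constructor
    · rintro ⟨h1, h2⟩
      have h3 : ((a + d * r : ℕ) : ZMod l) = 0 := (ZMod.natCast_eq_zero_iff _ l).2 h2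
      push_cast at h3
      have h4 : (r : ZMod l) = -(a : ZMod l) * (d : ZMod l)⁻¹ := by
        rw [eq_mul_inv_iff_mul_eq₀ hd]
        linear_combination h3
      rw [← h4, ZMod.val_natCast, Nat.mod_eq_of_lt h1]
    · rintro rfl
      refine ⟨ZMod.val_lt _, ?_⟩
      apply (ZMod.natCast_eq_zero_iff _ l).1
      push_cast
      rw [ZMod.natCast_val, ZMod.cast_id]
      field_simp
      ring

private theorem btO_sys (a d : ℕ) : Sys 1 (btO a d) := by
  classical
  intro l hl
  refine ⟨?_, ?_, ?_⟩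
  · unfold btO
    split_ifs
    · exact empty_subset _
    · exact filter_subset _ _
  · rw [btO_card hl]; split_ifs <;> norm_num
  · rw [btO_card hl]
    have := hl.two_le
    split_ifs <;> omega

private theorem btV_le {a d : ℕ} (hd : 0 < d) (N : ℕ) :
    ∏ p ∈ Pool.Agent.Helper90.Straus.pr 2 N, (1 - g (btO a d) p) ≤
      (∏ p ∈ Pool.Agent.Helper90.Straus.pr 2 N, (1 - 1 / (p : ℝ))) *
        ((d : ℝ) / Nat.totient d) := by
  have hstep : ∀ p ∈ Pool.Agent.Helper90.Straus.pr 2 N, 0 ≤ 1 - g (btO a d) p ∧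
      1 - g (btO a d) p ≤ (1 - 1 / (p : ℝ)) * (if p ∣ d then (1 - 1 / (p : ℝ))⁻¹ else 1) := by
    intro p hp
    have hpp := (mem_pr.1 hp).2
    have h1 := one_sub_pos hpp
    unfold g
    rw [btO_card hpp]
    split_ifs with hd
    · refine ⟨by norm_num, ?_⟩
      rw [mul_inv_cancel₀ (by linarith)]
      norm_num
    · refine ⟨by push_cast; linarith, ?_⟩
      push_cast
      linarith
  refine (Finset.prod_le_prod (fun p hp => (hstep p hp).1) (fun p hp => (hstep p hp).2)).trans ?_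
  rw [Finset.prod_mul_distrib]
  apply mul_le_mul_of_nonneg_left _ (Finset.prod_nonneg fun p hp => by
    have := one_sub_pos (mem_pr.1 hp).2
    linarith)
  rw [ratio_eq hd, ← Finset.prod_filter]
  apply Finset.prod_le_prod_of_subset_of_one_le
  · intro p hp
    rw [Finset.mem_filter] at hp
    rw [Nat.mem_primeFactors]
    exact ⟨(mem_pr.1 hp.1).2, hp.2, hd.ne'⟩
  · intro p hp
    rw [Finset.mem_filter] at hp
    have := one_sub_pos (mem_pr.1 hp.1).2
    positivity
  · intro p hp _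
    have h2 := one_sub_pos (Nat.prime_of_mem_primeFactors hp)
    have h3 : (0 : ℝ) ≤ 1 / p := by positivity
    exact (one_le_inv₀ (by linarith)).2 (by linarith)

private theorem btP_le {N : ℕ} (hN : 2 ≤ N) :
    (∏ p ∈ Pool.Agent.Helper90.Straus.pr 2 N, (1 - 1 / (p : ℝ))) ≤ 1 / Real.log N := by
  have h1 := log_le_prod (N := N) (by omega)
  have hlog : 0 < Real.log N := Real.log_pos (by exact_mod_cast (show 1 < N by omega))
  rw [Finset.prod_inv_distrib] at h1
  have hP : 0 < ∏ p ∈ Pool.Agent.Helper90.Straus.pr 2 N, (1 - 1 / (p : ℝ)) :=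
    Finset.prod_pos fun p hp => by linarith [one_sub_pos (mem_pr.1 hp).2]
  rw [le_div_iff₀ hlog]
  rw [← one_div, le_div_iff₀ hP] at h1
  linarith

private theorem bt_R (R₀ c L : ℕ) (hc : 1 ≤ c) (hL : (2 ^ 2 ^ R₀) ^ c ≤ L) :
    ∃ R, R₀ ≤ R ∧ (2 ^ 2 ^ R) ^ c ≤ L ∧ L < (2 ^ 2 ^ (R + 1)) ^ c := by
  have hex : ∃ i, L < (2 ^ 2 ^ (R₀ + i)) ^ c := by
    refine ⟨L, ?_⟩
    calc L < 2 ^ L := Nat.lt_two_pow_self
      _ ≤ 2 ^ 2 ^ (R₀ + L) := by
        apply Nat.pow_le_pow_right (by norm_num)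
        calc L ≤ 2 ^ L := Nat.lt_two_pow_self.le
          _ ≤ 2 ^ (R₀ + L) := Nat.pow_le_pow_right (by norm_num) (by omega)
      _ = (2 ^ 2 ^ (R₀ + L)) ^ 1 := (pow_one _).symm
      _ ≤ (2 ^ 2 ^ (R₀ + L)) ^ c := Nat.pow_le_pow_right Nat.one_le_two_pow hc
  classical
  obtain ⟨i, hi⟩ : ∃ i, i = Nat.find hex := ⟨_, rfl⟩
  have hi1 : L < (2 ^ 2 ^ (R₀ + i)) ^ c := by
    rw [hi]
    exact Nat.find_spec hex
  have hi0 : i ≠ 0 := by
    intro h0
    rw [h0] at hi1
    simp only [add_zero] at hi1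
    omega
  have hi2 : ¬ L < (2 ^ 2 ^ (R₀ + (i - 1))) ^ c := Nat.find_min hex (by omega)
  refine ⟨R₀ + (i - 1), by omega, not_lt.1 hi2, ?_⟩
  have h5 : R₀ + (i - 1) + 1 = R₀ + i := by omega
  rw [h5]
  exact hi1

/-- primes in a class -/
private theorem bt_sub {Z d m z : ℕ} (hd : 0 < d) :
    ((Icc 1 Z).filter (fun p => p.Prime ∧ p ≡ m [MOD d])).card ≤
      z + (surv (btO (m % d) d) z 0 (Z / d + 1)).card := by
  classical
  have h1 : ((Icc 1 Z).filter (fun p => p.Prime ∧ p ≡ m [MOD d])) ⊆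
      range z ∪ (surv (btO (m % d) d) z 0 (Z / d + 1)).image (fun n => m % d + d * n) := by
    intro p hp
    rw [mem_filter, mem_Icc] at hp
    obtain ⟨⟨h1, h2⟩, h3, h4⟩ := hp
    rw [mem_union, mem_range]
    by_cases hz : p < z
    · exact Or.inl hz
    · right
      rw [mem_image]
      have h5 : p % d = m % d := h4
      have h6 : m % d + d * (p / d) = p := by rw [← h5]; exact Nat.mod_add_div p d
      refine ⟨p / d, ?_, h6⟩
      rw [mem_surv]
      refine ⟨⟨Nat.zero_le _, ?_⟩, ?_⟩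
      · have := Nat.div_le_div_right (c := d) h2
        omega
      · intro l hl hlz hmem
        unfold btO at hmem
        split_ifs at hmem with hld
        · exact absurd hmem (notMem_empty _)
        · rw [mem_filter] at hmem
          have h7 : l ∣ m % d + d * (p / d) := by
            have h8 : (m % d + d * (p / d % l)) ≡ (m % d + d * (p / d)) [MOD l] :=
              Nat.ModEq.add_left _ (Nat.ModEq.mul_left _ (Nat.mod_modEq _ _))
            exact (Nat.ModEq.dvd_iff h8 (dvd_refl l)).1 hmem.2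
          rw [h6] at h7
          have := (Nat.prime_dvd_prime_iff_eq hl h3).1 h7
          omega
  refine (card_le_card h1).trans ((card_union_le _ _).trans ?_)
  rw [card_range]
  exact Nat.add_le_add_left card_image_le _

/-- **Brun-Titchmarsh** with an absolute constant, for moduli up to `Z^(1/4)`. -/
theorem bt_class : ∃ C : ℝ, 0 < C ∧ ∃ Z₀ : ℕ, 2 ≤ Z₀ ∧ ∀ Z d m : ℕ, Z₀ ≤ Z → 0 < d → d ^ 4 ≤ Z →
    (((Icc 1 Z).filter (fun p => p.Prime ∧ p ≡ m [MOD d])).card : ℝ) ≤
      C * ((d : ℝ) / Nat.totient d) * Z / (d * Real.log Z) := by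
  classical
  obtain ⟨c, R₀, hc2, hs⟩ := sieve_upper (κ := 1) le_rfl
  obtain ⟨L₀, hL₀⟩ : ∃ L₀ : ℕ, L₀ = (2 ^ 2 ^ R₀) ^ c := ⟨_, rfl⟩
  refine ⟨24 * c + 2, by positivity, L₀ ^ 4 + 2, by omega, fun Z d m hZ hd hdZ => ?_⟩
  have hZ2 : 2 ≤ Z := by omega
  have hZr : (2 : ℝ) ≤ Z := by exact_mod_cast hZ2
  have hlogZ : 0 < Real.log Z := Real.log_pos (by linarith)
  have hd0 : (0 : ℝ) < d := by exact_mod_cast hd
  have hd1 : (1 : ℝ) ≤ d := by exact_mod_cast hd
  have hdZr : (d : ℝ) ^ 4 ≤ Z := by exact_mod_cast hdZ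
  have hratio := ratio_ge_one hd
  obtain ⟨ρ, hρ⟩ : ∃ ρ : ℝ, ρ = (d : ℝ) / Nat.totient d := ⟨_, rfl⟩
  rw [← hρ] at hratio ⊢
  obtain ⟨X, hX⟩ : ∃ X, X = Z / d + 1 := ⟨_, rfl⟩
  have hXr : (Z : ℝ) < d * X := by
    have h1 : Z < d * (Z / d + 1) := Nat.lt_mul_div_succ Z hd
    rw [← hX] at h1
    exact_mod_cast h1
  have hXu : (d : ℝ) * X ≤ 2 * Z := by
    have h1 : d * X ≤ Z + d := by
      rw [hX, Nat.mul_add, mul_one]
      exact Nat.add_le_add_right (Nat.mul_div_le Z d) d
    have h2 : d ≤ Z := by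
      calc d = d ^ 1 := (pow_one d).symm
        _ ≤ d ^ 4 := Nat.pow_le_pow_right hd (by norm_num)
        _ ≤ Z := hdZ
    have h3 : d * X ≤ 2 * Z := by omega
    exact_mod_cast h3
  have hX0 : (0 : ℝ) < X := by
    have : 0 < X := by rw [hX]; exact Nat.succ_pos _
    exact_mod_cast this
  by_cases hcop : Nat.Coprime m d
  · -- `X ^ 4 ≥ Z ^ 3`
    have hX4 : (Z : ℝ) ^ 3 ≤ (X : ℝ) ^ 4 := by
      have h1 : (Z : ℝ) ^ 4 ≤ (d * X) ^ 4 := pow_le_pow_left₀ (by linarith) hXr.le 4
      have h2 : ((d : ℝ) * X) ^ 4 ≤ Z * (X : ℝ) ^ 4 := by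
        rw [mul_pow]
        exact mul_le_mul_of_nonneg_right hdZr (by positivity)
      have h3 : (Z : ℝ) * Z ^ 3 ≤ Z * (X : ℝ) ^ 4 := by
        calc (Z : ℝ) * Z ^ 3 = Z ^ 4 := by ring
          _ ≤ _ := h1.trans h2
      exact le_of_mul_le_mul_left h3 (by linarith)
    have hXL : L₀ ≤ X := by
      have h1 : (L₀ : ℝ) ^ 4 ≤ (X : ℝ) ^ 4 := by
        have h2 : ((L₀ ^ 4 : ℕ) : ℝ) ≤ Z := by
          have : L₀ ^ 4 ≤ Z := by omega
          exact_mod_cast this
        push_cast at h2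
        have h3 : (Z : ℝ) ≤ (Z : ℝ) ^ 3 := by
          calc (Z : ℝ) = Z ^ 1 := (pow_one _).symm
            _ ≤ Z ^ 3 := pow_le_pow_right₀ (by linarith) (by norm_num)
        linarith
      have h2 : (L₀ : ℝ) ≤ X := le_of_pow_le_pow_left₀ (by norm_num) hX0.le h1
      exact_mod_cast h2
    obtain ⟨R, hR, hRL, hRL'⟩ := bt_R R₀ c X (by omega) (by rw [← hL₀]; exact hXL)
    obtain ⟨z, hz⟩ : ∃ z : ℕ, z = 2 ^ 2 ^ R := ⟨_, rfl⟩
    have hzz : 2 ^ 2 ^ (R + 1) = z ^ 2 := by
      rw [hz, ← pow_mul]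
      congr 1
    have hz2 : 2 ≤ z := by
      rw [hz]
      calc 2 = 2 ^ 1 := rfl
        _ ≤ 2 ^ 2 ^ R := Nat.pow_le_pow_right (by norm_num) Nat.one_le_two_pow
    have hmain := hs R hR (btO (m % d) d) (btO_sys (m % d) d) 0 X hRL
    rw [hzz] at hRL'
    have hzc : (2 : ℝ) ^ 2 ^ R = z := by
      rw [hz]
      push_cast
      rfl
    rw [← hz] at hmain hRL
    rw [hzc] at hmain
    have hcard := bt_sub (Z := Z) (m := m) (z := z) hd
    rw [← hX] at hcard
    have hcard' : (((Icc 1 Z).filter (fun p => p.Prime ∧ p ≡ m [MOD d])).card : ℝ) ≤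
        z + ((surv (btO (m % d) d) z 0 X).card : ℝ) := by exact_mod_cast hcard
    have hlogz : 0 < Real.log z := Real.log_pos (by exact_mod_cast (show 1 < z by omega))
    have hz0 : (0 : ℝ) < z := by exact_mod_cast (show 0 < z by omega)
    have hV : ∏ p ∈ Pool.Agent.Helper90.Straus.pr 2 z, (1 - g (btO (m % d) d) p) ≤
        1 / Real.log z * ρ := by
      rw [hρ]
      exact (btV_le hd z).trans (mul_le_mul_of_nonneg_right (btP_le hz2) (by positivity))
    have hzL : (z : ℝ) ≤ X / z := by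
      rw [le_div_iff₀ hz0]
      have h1 : z * z ≤ X := by
        calc z * z = z ^ 2 := by ring
          _ ≤ z ^ c := Nat.pow_le_pow_right (by omega) hc2
          _ ≤ X := hRL
      exact_mod_cast h1
    have hXz : (X : ℝ) / z ≤ X * (1 / Real.log z) := by
      have h1 : Real.log z ≤ z := (Real.log_le_sub_one_of_pos hz0).trans (by linarith)
      calc (X : ℝ) / z = X * (1 / z) := by ring
        _ ≤ X * (1 / Real.log z) :=
          mul_le_mul_of_nonneg_left (one_div_le_one_div_of_le hlogz h1) hX0.le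
    have hcount : (((Icc 1 Z).filter (fun p => p.Prime ∧ p ≡ m [MOD d])).card : ℝ) ≤
        4 * ρ * X * (1 / Real.log z) := by
      have h1 : (X : ℝ) * (2 * ∏ p ∈ Pool.Agent.Helper90.Straus.pr 2 z,
          (1 - g (btO (m % d) d) p)) ≤ X * (2 * (1 / Real.log z * ρ)) :=
        mul_le_mul_of_nonneg_left (mul_le_mul_of_nonneg_left hV (by norm_num)) hX0.le
      have h2 : 0 ≤ (X : ℝ) * (1 / Real.log z) := by positivity
      have h3 : (X : ℝ) * (1 / Real.log z) ≤ ρ * (X * (1 / Real.log z)) := by nlinarith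
      have h4 : (X : ℝ) * (2 * (1 / Real.log z * ρ)) = 2 * (ρ * (X * (1 / Real.log z))) := by ring
      have h5 : 4 * ρ * X * (1 / Real.log z) = 4 * (ρ * (X * (1 / Real.log z))) := by ring
      linarith
    refine hcount.trans ?_
    have hlogXz : Real.log X ≤ 2 * c * Real.log z := by
      have h1 : (X : ℝ) ≤ (z : ℝ) ^ (2 * c) := by
        rw [pow_mul]
        exact_mod_cast hRL'.le
      calc Real.log X ≤ Real.log ((z : ℝ) ^ (2 * c)) := Real.log_le_log hX0 h1
        _ = 2 * c * Real.log z := by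
          rw [Real.log_pow]
          push_cast
          ring
    have hlogZX : 3 * Real.log Z ≤ 4 * Real.log X := by
      have h1 := Real.log_le_log (by positivity) hX4
      rw [Real.log_pow, Real.log_pow] at h1
      exact_mod_cast h1
    have hfrac : 1 / Real.log z ≤ 3 * c / Real.log Z := by
      rw [div_le_div_iff₀ hlogz hlogZ]
      nlinarith
    calc 4 * ρ * X * (1 / Real.log z) ≤ 4 * ρ * X * (3 * c / Real.log Z) :=
          mul_le_mul_of_nonneg_left hfrac (by positivity)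
      _ = (12 * c) * ρ * (d * X) / (d * Real.log Z) := by
          field_simp
          ring
      _ ≤ (12 * c) * ρ * (2 * Z) / (d * Real.log Z) := by
          apply div_le_div_of_nonneg_right _ (by positivity)
          exact mul_le_mul_of_nonneg_left hXu (by positivity)
      _ ≤ (24 * c + 2) * ρ * Z / (d * Real.log Z) := by
          apply div_le_div_of_nonneg_right _ (by positivity)
          have : 0 ≤ ρ * Z := by positivity
          nlinarith
  · -- a class which is not coprime to the modulus contains at most one prime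
    have h1 : ((Icc 1 Z).filter (fun p => p.Prime ∧ p ≡ m [MOD d])) ⊆ {Nat.gcd m d} := by
      intro p hp
      rw [mem_filter] at hp
      obtain ⟨-, h2, h3⟩ := hp
      rw [mem_singleton]
      have h4 : Nat.gcd m d ∣ p := by
        have h5 : p ≡ m [MOD Nat.gcd m d] := Nat.ModEq.of_dvd (Nat.gcd_dvd_right m d) h3
        exact (Nat.ModEq.dvd_iff h5 (dvd_refl _)).2 (Nat.gcd_dvd_left m d)
      rcases (Nat.dvd_prime h2).1 h4 with h5 | h5
      · exact absurd h5 hcop
      · exact h5.symm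
    have h2 : (((Icc 1 Z).filter (fun p => p.Prime ∧ p ≡ m [MOD d])).card : ℝ) ≤ 1 := by
      have := card_le_card h1
      rw [card_singleton] at this
      exact_mod_cast this
    refine h2.trans ?_
    rw [one_le_div (by positivity)]
    have h3 : (d : ℝ) * Real.log Z ≤ 2 * Z := by
      have h4 := log_sq_le (x := (Z : ℝ)) (by linarith)
      have h5 : (d : ℝ) ^ 2 ≤ Z := by
        calc (d : ℝ) ^ 2 ≤ (d : ℝ) ^ 4 := pow_le_pow_right₀ hd1 (by norm_num)
          _ ≤ Z := hdZr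
      have h6 : ((d : ℝ) * Real.log Z) ^ 2 ≤ (2 * Z) ^ 2 := by
        rw [mul_pow]
        calc (d : ℝ) ^ 2 * Real.log Z ^ 2 ≤ Z * (4 * Z) :=
              mul_le_mul h5 h4 (by positivity) (by linarith)
          _ = (2 * Z) ^ 2 := by ring
      exact le_of_pow_le_pow_left₀ (by norm_num) (by linarith) h6
    have h4 : 0 ≤ (c : ℝ) * (ρ * Z) := by positivity
    have h5 : (2 : ℝ) * Z ≤ 2 * (ρ * Z) := by nlinarith
    nlinarith

private theorem bt2_G {p : ℕ} (hp : p.Prime) :
    0 ≤ ((1 - 1 / (p : ℝ))⁻¹) ^ 2 - 1 ∧ ((1 - 1 / (p : ℝ))⁻¹) ^ 2 - 1 ≤ 6 / p := by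
  have hp2 : (2 : ℝ) ≤ p := by exact_mod_cast hp.two_le
  have h2 : (1 - 1 / (p : ℝ))⁻¹ = p / (p - 1) := by
    have : (p : ℝ) ≠ 0 := by linarith
    have : (p : ℝ) - 1 ≠ 0 := by linarith
    field_simp
  rw [h2]
  have h3 : (0 : ℝ) < p - 1 := by linarith
  constructor
  · have : 1 ≤ (p : ℝ) / (p - 1) := by
      rw [one_le_div h3]
      linarith
    nlinarith
  · rw [div_pow, sub_le_iff_le_add, div_le_iff₀ (by positivity)]
    have h4 : (6 / (p : ℝ) + 1) * (p - 1) ^ 2 = (6 + p) * (p - 1) ^ 2 / p := by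
      field_simp
    rw [h4, le_div_iff₀ (by linarith)]
    nlinarith [mul_nonneg (show (0 : ℝ) ≤ 4 * p - 3 by linarith) (show (0 : ℝ) ≤ p - 2 by linarith)]

private theorem bt2_prod (y : ℕ) (G : ℕ → ℝ)
    (hG0 : ∀ p, p.Prime → 0 ≤ G p ∧ G p ≤ 6 / p) :
    ∏ p ∈ (range (y + 1)).filter Nat.Prime, (1 + G p * (2 / p)) ≤ Real.exp 12 := by
  have h3 : ∏ p ∈ (range (y + 1)).filter Nat.Prime, (1 + G p * (2 / p)) ≤
      ∏ p ∈ (range (y + 1)).filter Nat.Prime, Real.exp (12 * ((p : ℝ) ^ 2)⁻¹) := by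
    apply Finset.prod_le_prod
    · intro p hp
      have := (hG0 p (mem_filter.1 hp).2).1
      positivity
    · intro p hp
      obtain ⟨_, h4⟩ := hG0 p (mem_filter.1 hp).2
      have hp0 : (0 : ℝ) < p := by exact_mod_cast (mem_filter.1 hp).2.pos
      have h5 : G p * (2 / p) ≤ 12 * ((p : ℝ) ^ 2)⁻¹ := by
        calc G p * (2 / p) ≤ (6 / p) * (2 / p) :=
              mul_le_mul_of_nonneg_right h4 (by positivity)
          _ = 12 * ((p : ℝ) ^ 2)⁻¹ := by
            field_simp
            ring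
      have := Real.add_one_le_exp (12 * ((p : ℝ) ^ 2)⁻¹)
      linarith
  refine h3.trans ?_
  rw [← Real.exp_sum, ← Finset.mul_sum]
  apply Real.exp_le_exp.2
  have h4 : ∑ p ∈ (range (y + 1)).filter Nat.Prime, ((p : ℝ) ^ 2)⁻¹ ≤
      ∑ p ∈ Ioc 1 y, ((p : ℝ) ^ 2)⁻¹ := by
    apply Finset.sum_le_sum_of_subset_of_nonneg
    · intro p hp
      rw [mem_filter, mem_range] at hp
      rw [Finset.mem_Ioc]
      have := hp.2.two_le
      omega
    · intro p _ _
      positivity
  rcases Nat.lt_or_ge y 1 with hH | hH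
  · have : y = 0 := by omega
    rw [this] at h4 ⊢
    simp at h4 ⊢
    linarith
  · have h5 := sum_Ioc_inv_sq_le_sub (α := ℝ) (k := 1) (n := y) one_ne_zero hH
    have h6 : (0 : ℝ) ≤ (y : ℝ)⁻¹ := by positivity
    push_cast at h5
    rw [inv_one] at h5
    linarith

theorem thm_BT2 : St_BT2 := by
  classical
  obtain ⟨C, hC, Z₀, hZ₀, hbt⟩ := bt_class
  refine ⟨C * Real.exp 12, by positivity, ?_⟩
  filter_upwards [tendsto_ll.eventually_ge_atTop 144, eventually_ge_atTop Z₀] with Z hu hZ y m hy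
  have hZ2 : 2 ≤ Z := by omega
  have hZr : (2 : ℝ) ≤ Z := by exact_mod_cast hZ2
  have hlogZ : 0 < Real.log Z := Real.log_pos (by linarith)
  -- the product of the primes up to `y` is small
  have hyZ : 256 ^ y ≤ Z := by
    obtain ⟨u, hu'⟩ : ∃ u : ℝ, u = Real.log (Real.log Z) := ⟨_, rfl⟩
    rw [← hu'] at hu hy
    have h1 : Real.exp u = Real.log Z := by rw [hu', Real.exp_log hlogZ]
    have h2 := Real.pow_div_factorial_le_exp u (by linarith) 4
    have h3 : ((Nat.factorial 4 : ℕ) : ℝ) = 24 := by norm_num [Nat.factorial]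
    rw [h3, h1] at h2
    have h4 : 6 * u ^ 3 ≤ u ^ 4 / 24 := by
      have : 0 ≤ u ^ 3 := by positivity
      nlinarith
    have h5 : (y : ℝ) * Real.log 256 ≤ Real.log Z := by
      have h6 : Real.log 256 ≤ 6 := by
        rw [show (256 : ℝ) = 2 ^ 8 by norm_num, Real.log_pow]
        have := Real.log_two_lt_d9
        push_cast
        linarith
      have h7 : (0 : ℝ) ≤ y := Nat.cast_nonneg y
      calc (y : ℝ) * Real.log 256 ≤ y * 6 := mul_le_mul_of_nonneg_left h6 h7
        _ ≤ u ^ 3 * 6 := mul_le_mul_of_nonneg_right hy (by norm_num)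
        _ ≤ Real.log Z := by linarith
    have h8 : Real.log ((256 : ℝ) ^ y) ≤ Real.log Z := by
      rw [Real.log_pow]; exact h5
    have h9 : (256 : ℝ) ^ y ≤ Z :=
      (Real.log_le_log_iff (by positivity) (by linarith)).1 h8
    exact_mod_cast h9
  obtain ⟨G, hG⟩ : ∃ G : ℕ → ℝ, ∀ p, G p = ((1 - 1 / (p : ℝ))⁻¹) ^ 2 - 1 := ⟨_, fun _ => rfl⟩
  have hG0 : ∀ p, p.Prime → 0 ≤ G p ∧ G p ≤ 6 / p := by
    intro p hp
    rw [hG]
    exact bt2_G hp
  obtain ⟨P, hP⟩ : ∃ P, P = (range (y + 1)).filter Nat.Prime := ⟨_, rfl⟩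
  have hPp : ∀ t ∈ P.powerset, ∀ l ∈ t, l.Prime := by
    intro t ht l hl
    have := (mem_powerset.1 ht) hl
    rw [hP, mem_filter] at this
    exact this.2
  have hGt : ∀ t ∈ P.powerset, 0 ≤ ∏ l ∈ t, G l := fun t ht =>
    Finset.prod_nonneg fun l hl => (hG0 l (hPp t ht l hl)).1
  -- expansion
  have h1 : ∀ p ∈ (Icc 1 Z).filter Nat.Prime, RR y (Nat.dist p m) ^ 2 ≤
      ∑ t ∈ P.powerset, if p ≡ m [MOD ∏ l ∈ t, l] then ∏ l ∈ t, G l else 0 := by
    intro p _
    obtain ⟨F, hF⟩ : ∃ F, F = (Nat.dist p m).primeFactors.filter (fun p => p ≤ y) := ⟨_, rfl⟩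
    have hFP : F ⊆ P := by
      intro l hl
      rw [hF, mem_filter] at hl
      rw [hP, mem_filter, mem_range]
      exact ⟨by omega, Nat.prime_of_mem_primeFactors hl.1⟩
    have h2 : RR y (Nat.dist p m) ^ 2 = ∑ t ∈ F.powerset, ∏ l ∈ t, G l := by
      rw [← Finset.prod_one_add]
      unfold RR
      rw [← hF, ← Finset.prod_pow]
      apply Finset.prod_congr rfl
      intro l _
      rw [hG]
      ring
    rw [h2]
    calc ∑ t ∈ F.powerset, ∏ l ∈ t, G l
        = ∑ t ∈ F.powerset, if p ≡ m [MOD ∏ l ∈ t, l] then ∏ l ∈ t, G l else 0 := by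
          apply Finset.sum_congr rfl
          intro t ht
          rw [mem_powerset] at ht
          rw [if_pos]
          have h3 : ∏ l ∈ t, l ∣ Nat.dist p m := by
            apply Finset.prod_primes_dvd
            · intro l hl
              have := ht hl
              rw [hF, mem_filter] at this
              exact (Nat.prime_of_mem_primeFactors this.1).prime
            · intro l hl
              have := ht hl
              rw [hF, mem_filter] at this
              exact Nat.dvd_of_mem_primeFactors this.1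
          rcases Nat.le_total p m with h4 | h4
          · rw [Nat.dist_eq_sub_of_le h4] at h3
            exact (Nat.modEq_iff_dvd' h4).2 h3
          · rw [Nat.dist_eq_sub_of_le_right h4] at h3
            exact ((Nat.modEq_iff_dvd' h4).2 h3).symm
      _ ≤ _ := by
          apply Finset.sum_le_sum_of_subset_of_nonneg (Finset.powerset_mono.2 hFP)
          intro t ht _
          split_ifs
          · exact hGt t ht
          · exact le_rfl
  refine (Finset.sum_le_sum h1).trans ?_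
  rw [Finset.sum_comm]
  have h2 : ∀ t ∈ P.powerset, ∑ p ∈ (Icc 1 Z).filter Nat.Prime,
      (if p ≡ m [MOD ∏ l ∈ t, l] then ∏ l ∈ t, G l else 0) ≤
      C * Z / Real.log Z * ∏ l ∈ t, (G l * (2 / l)) := by
    intro t ht
    obtain ⟨d, hd⟩ : ∃ d, d = ∏ l ∈ t, l := ⟨_, rfl⟩
    have hd0 : 0 < d := by
      rw [hd]
      exact Finset.prod_pos fun l hl => (hPp t ht l hl).pos
    have hdr : (0 : ℝ) < d := by exact_mod_cast hd0
    have hdy : d ≤ 4 ^ y := by
      refine le_trans ?_ (primorial_le_four_pow y)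
      unfold primorial
      rw [← hP, hd]
      exact Finset.prod_le_prod_of_subset_of_one_le' (mem_powerset.1 ht)
        (fun l hl _ => by
          rw [hP, mem_filter] at hl
          exact hl.2.one_le)
    have hd4 : d ^ 4 ≤ Z := by
      calc d ^ 4 ≤ (4 ^ y) ^ 4 := Nat.pow_le_pow_left hdy 4
        _ = 256 ^ y := by
          rw [← pow_mul, mul_comm, pow_mul]
          norm_num
        _ ≤ Z := hyZ
    have h3 := hbt Z d m hZ hd0 hd4
    have h4 : (d : ℝ) / Nat.totient d ≤ ∏ _l ∈ t, (2 : ℝ) := by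
      rw [ratio_eq hd0, hd, Nat.primeFactors_prod (hPp t ht)]
      apply Finset.prod_le_prod
      · intro l hl
        have := (fac_bd (hPp t ht l hl)).1
        linarith
      · intro l hl
        exact (fac_bd (hPp t ht l hl)).2.1
    rw [← hd, ← Finset.sum_filter, Finset.sum_const, nsmul_eq_mul, Finset.filter_filter]
    have h5 : (((Icc 1 Z).filter (fun p => p.Prime ∧ p ≡ m [MOD d])).card : ℝ) ≤
        C * (∏ _l ∈ t, (2 : ℝ)) * Z / (d * Real.log Z) := by
      refine h3.trans ?_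
      apply div_le_div_of_nonneg_right _ (by positivity)
      apply mul_le_mul_of_nonneg_right _ (by linarith)
      exact mul_le_mul_of_nonneg_left h4 hC.le
    have h6 : (d : ℝ) = ∏ l ∈ t, (l : ℝ) := by rw [hd]; push_cast; rfl
    calc (((Icc 1 Z).filter (fun p => p.Prime ∧ p ≡ m [MOD d])).card : ℝ) * ∏ l ∈ t, G l
        ≤ C * (∏ _l ∈ t, (2 : ℝ)) * Z / (d * Real.log Z) * ∏ l ∈ t, G l :=
          mul_le_mul_of_nonneg_right h5 (hGt t ht)
      _ = C * Z / Real.log Z * ((∏ l ∈ t, G l) * ((∏ _l ∈ t, (2 : ℝ)) / d)) := by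
          field_simp
      _ = C * Z / Real.log Z * ∏ l ∈ t, (G l * (2 / l)) := by
          rw [h6, Finset.prod_mul_distrib, Finset.prod_div_distrib]
  refine (Finset.sum_le_sum h2).trans ?_
  rw [← Finset.mul_sum, ← Finset.prod_one_add]
  have h3 := bt2_prod y G hG0
  rw [← hP] at h3
  calc C * Z / Real.log Z * ∏ l ∈ P, (1 + G l * (2 / l)) ≤ C * Z / Real.log Z * Real.exp 12 :=
        mul_le_mul_of_nonneg_left h3 (by positivity)
    _ = C * Real.exp 12 * Z / Real.log Z := by ring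

end Pool.Agent.TSH
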