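import Mathlib
import Pool.Agent.TSH.Stmts

set_option autoImplicit false

/-!
# TSH / Idx: size of the `j`-th prime and of `p_{p_m}`
-/

namespace Pool.Agent.TSH

open Finset Filter
open Pool.Agent.Helper20.TwinIndex (pr pr_prime pr_strictMono pr_mono pi_pr lt_pr cheb growth
  pr_injOn)

/-- `√x log x ≤ 2 x` -/
theorem sqrt_log {x : ℝ} (hx : 1 ≤ x) : Real.sqrt x * Real.log x ≤ 2 * x := by
  have h1 : Real.log x ≤ 2 * Real.sqrt x := by
    have h2 := Real.log_le_sub_one_of_pos (Real.sqrt_pos.2 (by linarith : (0 : ℝ) < x))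
    rw [Real.log_sqrt (by linarith)] at h2
    linarith
  have h2 : Real.sqrt x * Real.sqrt x = x := Real.mul_self_sqrt (by linarith)
  have h3 := mul_le_mul_of_nonneg_left h1 (Real.sqrt_nonneg x)
  nlinarith

/-- Chebyshev: `j log p_j ≤ 5 p_j` -/
theorem pr_low {j : ℕ} (hj : 1 ≤ j) : (j : ℝ) * Real.log (pr j) ≤ 5 * pr j := by
  have hp := pr_prime j
  have hp2 : (2 : ℝ) ≤ pr j := by exact_mod_cast hp.two_le
  have h1 := Chebyshev.pi_le_log4_mul_div (x := (pr j : ℝ)) (by linarith)
  rw [Nat.floor_natCast, pi_pr hj, Real.log_sqrt (by linarith)] at h1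
  have hlog : 0 < Real.log (pr j) := Real.log_pos (by linarith)
  have h2 := sqrt_log (x := (pr j : ℝ)) (by linarith)
  have h4 : Real.log 4 = 2 * Real.log 2 := by
    rw [show (4 : ℝ) = 2 ^ 2 by norm_num, Real.log_pow]
    norm_num
  have h5 := Real.log_two_lt_d9
  calc (j : ℝ) * Real.log (pr j) ≤
      (Real.log 4 * pr j / (Real.log (pr j) / 2) + Real.sqrt (pr j)) * Real.log (pr j) :=
        mul_le_mul_of_nonneg_right h1 hlog.le
    _ = 2 * Real.log 4 * pr j + Real.sqrt (pr j) * Real.log (pr j) := by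
        field_simp
    _ ≤ 5 * pr j := by
        rw [h4]
        nlinarith

/-- `p_j ≤ 10 j log p_j` -/
theorem pr_up {j : ℕ} (hj : 1 ≤ j) : (pr j : ℝ) ≤ 10 * j * Real.log (pr j) := by
  have := cheb (pr_prime j).two_le
  rwa [pi_pr hj] at this

/-- `p_j ≤ 400 j²` -/
theorem pr_sq {j : ℕ} (hj : 1 ≤ j) : (pr j : ℝ) ≤ 400 * (j : ℝ) ^ 2 := by
  have h1 := pr_up hj
  have hp2 : (2 : ℝ) ≤ pr j := by exact_mod_cast (pr_prime j).two_le
  have h2 : Real.log (pr j) ≤ 2 * Real.sqrt (pr j) := by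
    have h3 := Real.log_le_sub_one_of_pos (Real.sqrt_pos.2 (by linarith : (0 : ℝ) < pr j))
    rw [Real.log_sqrt (by linarith)] at h3
    linarith
  have h3 : Real.sqrt (pr j) * Real.sqrt (pr j) = pr j := Real.mul_self_sqrt (by linarith)
  have h4 : 0 < Real.sqrt (pr j) := Real.sqrt_pos.2 (by linarith)
  have hj0 : (0 : ℝ) ≤ j := Nat.cast_nonneg j
  have h5 : Real.sqrt (pr j) * Real.sqrt (pr j) ≤ (20 * j) * Real.sqrt (pr j) := by
    rw [h3]
    calc (pr j : ℝ) ≤ 10 * j * Real.log (pr j) := h1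
      _ ≤ 10 * j * (2 * Real.sqrt (pr j)) := mul_le_mul_of_nonneg_left h2 (by positivity)
      _ = _ := by ring
  have h6 : Real.sqrt (pr j) ≤ 20 * j := le_of_mul_le_mul_right h5 h4
  calc (pr j : ℝ) = Real.sqrt (pr j) * Real.sqrt (pr j) := h3.symm
    _ ≤ (20 * j) * (20 * j) := mul_le_mul h6 h6 h4.le (by positivity)
    _ = _ := by ring

/-- `log p_j ≤ 3 log n` for `j ≤ n`, `n ≥ 400` -/
theorem log_pr {j n : ℕ} (hj : 1 ≤ j) (hjn : j ≤ n) (hn : 400 ≤ n) :
    Real.log (pr j) ≤ 3 * Real.log n := by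
  have hn' : (400 : ℝ) ≤ n := by exact_mod_cast hn
  have hp2 : (2 : ℝ) ≤ pr j := by exact_mod_cast (pr_prime j).two_le
  have hjn' : (j : ℝ) ≤ n := by exact_mod_cast hjn
  have h1 : (pr j : ℝ) ≤ (n : ℝ) ^ 3 := by
    calc (pr j : ℝ) ≤ 400 * (j : ℝ) ^ 2 := pr_sq hj
      _ ≤ n * (n : ℝ) ^ 2 := by
          apply mul_le_mul hn' _ (by positivity) (by positivity)
          exact pow_le_pow_left₀ (Nat.cast_nonneg j) hjn' 2
      _ = (n : ℝ) ^ 3 := by ring
  calc Real.log (pr j) ≤ Real.log ((n : ℝ) ^ 3) := Real.log_le_log (by linarith) h1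
    _ = 3 * Real.log n := by
        rw [Real.log_pow]
        norm_num

/-- the size of `p_{p_m}` -/
theorem pp_bd {m n : ℕ} (hn : 400 ≤ n) (hm1 : n ≤ 2 * m) (hm2 : m ≤ n) :
    (n : ℝ) * Real.log n ^ 2 ≤ 200 * pr (pr m) ∧
    (pr (pr m) : ℝ) ≤ 3600 * (n * Real.log n ^ 2) := by
  have hn' : (400 : ℝ) ≤ n := by exact_mod_cast hn
  have hm1' : (n : ℝ) ≤ 2 * m := by exact_mod_cast hm1
  have hm2' : (m : ℝ) ≤ n := by exact_mod_cast hm2
  have hm : 1 ≤ m := by omega
  have hpm : 1 ≤ pr m := (pr_prime m).one_le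
  have hlogn : 0 < Real.log n := Real.log_pos (by linarith)
  -- log m ≥ (log n)/2
  have hlogm : Real.log n / 2 ≤ Real.log m := by
    have h1 : Real.sqrt n ≤ m := by
      have h2 : Real.sqrt n * Real.sqrt n = n := Real.mul_self_sqrt (by linarith)
      have h3 : (20 : ℝ) ≤ Real.sqrt n := by
        apply Real.le_sqrt_of_sq_le
        linarith
      nlinarith
    have h4 := Real.log_le_log (Real.sqrt_pos.2 (by linarith : (0 : ℝ) < n)) h1
    rwa [Real.log_sqrt (by linarith)] at h4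
  have hmp : (m : ℝ) ≤ pr m := by exact_mod_cast (lt_pr hm).le
  have hpp : (pr m : ℝ) ≤ pr (pr m) := by exact_mod_cast (lt_pr hpm).le
  have hm0 : (200 : ℝ) ≤ m := by linarith
  have hlogpm : Real.log m ≤ Real.log (pr m) := Real.log_le_log (by linarith) hmp
  have hlogpp : Real.log m ≤ Real.log (pr (pr m)) :=
    Real.log_le_log (by linarith) (hmp.trans hpp)
  constructor
  · have h1 := pr_low hm
    have h2 := pr_low hpm
    have h3 : (m : ℝ) * (Real.log n / 2) ≤ 5 * pr m := by
      refine le_trans ?_ h1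
      apply mul_le_mul_of_nonneg_left (hlogm.trans hlogpm) (by linarith)
    have h4 : (pr m : ℝ) * (Real.log n / 2) ≤ 5 * pr (pr m) := by
      refine le_trans ?_ h2
      apply mul_le_mul_of_nonneg_left (hlogm.trans hlogpp) (by linarith)
    have h5 : (m : ℝ) * (Real.log n / 2) * (Real.log n / 2) ≤ 5 * (5 * pr (pr m)) := by
      calc (m : ℝ) * (Real.log n / 2) * (Real.log n / 2) ≤ 5 * pr m * (Real.log n / 2) :=
            mul_le_mul_of_nonneg_right h3 (by positivity)
        _ = 5 * (pr m * (Real.log n / 2)) := by ring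
        _ ≤ _ := mul_le_mul_of_nonneg_left h4 (by norm_num)
    have h6 : (n : ℝ) * Real.log n ^ 2 ≤ 2 * m * Real.log n ^ 2 :=
      mul_le_mul_of_nonneg_right hm1' (by positivity)
    nlinarith
  · have h1 := pr_up hm
    have h2 := pr_up hpm
    have h3 : Real.log (pr m) ≤ 3 * Real.log n := log_pr hm hm2 hn
    have h4 : Real.log (pr (pr m)) ≤ 12 * Real.log n := by
      have h5 := pr_sq hpm
      have h6 := pr_sq hm
      have h7 : (pr (pr m) : ℝ) ≤ (n : ℝ) ^ 7 * n := by
        calc (pr (pr m) : ℝ) ≤ 400 * (pr m : ℝ) ^ 2 := h5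
          _ ≤ 400 * (400 * (m : ℝ) ^ 2) ^ 2 := by
              apply mul_le_mul_of_nonneg_left _ (by norm_num)
              exact pow_le_pow_left₀ (by positivity) h6 2
          _ = 400 ^ 3 * (m : ℝ) ^ 4 := by ring
          _ ≤ (n : ℝ) ^ 3 * (n : ℝ) ^ 4 := by
              apply mul_le_mul (pow_le_pow_left₀ (by norm_num) hn' 3)
                (pow_le_pow_left₀ (by positivity) hm2' 4) (by positivity) (by positivity)
          _ = (n : ℝ) ^ 7 * 1 := by ring
          _ ≤ (n : ℝ) ^ 7 * n := mul_le_mul_of_nonneg_left (by linarith) (by positivity)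
      have h8 := Real.log_le_log (by
        have : (0 : ℝ) < pr (pr m) := by exact_mod_cast (pr_prime (pr m)).pos
        exact this) h7
      rw [show (n : ℝ) ^ 7 * n = (n : ℝ) ^ 8 by ring, Real.log_pow] at h8
      push_cast at h8
      linarith
    calc (pr (pr m) : ℝ) ≤ 10 * pr m * Real.log (pr (pr m)) := h2
      _ ≤ 10 * (10 * m * Real.log (pr m)) * (12 * Real.log n) := by
          apply mul_le_mul _ h4 (by
            have : (1 : ℝ) ≤ pr (pr m) := by exact_mod_cast (pr_prime (pr m)).one_le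
            exact Real.log_nonneg this) (by
            have : 0 ≤ Real.log (pr m) := Real.log_natCast_nonneg _
            positivity)
          exact mul_le_mul_of_nonneg_left h1 (by norm_num)
      _ ≤ 10 * (10 * n * (3 * Real.log n)) * (12 * Real.log n) := by
          apply mul_le_mul_of_nonneg_right _ (by positivity)
          apply mul_le_mul_of_nonneg_left _ (by norm_num)
          apply mul_le_mul _ h3 (Real.log_natCast_nonneg _) (by positivity)
          exact mul_le_mul_of_nonneg_left hm2' (by norm_num)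
      _ = 3600 * (n * Real.log n ^ 2) := by ring

end Pool.Agent.TSH
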