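import Mathlib
import Pool.Agent.TSH.Idx

set_option autoImplicit false

/-!
# TSH / Fin: from families to `p_k` and `p_{p_{n-k}}`
-/

namespace Pool.Agent.TSH

open Finset Filter
open Pool.Agent.Helper20.TwinIndex (pr pr_prime pr_strictMono pr_mono pi_pr lt_pr)

/-- blocks -/
theorem block {V : ℝ} (hV : 0 < V) {b : ℝ} (h1 : V ≤ b) (h2 : b ≤ 720000 * V) :
    ∃ i ∈ range 34, V * (3 / 2) ^ i ≤ b ∧ b < V * (3 / 2) ^ (i + 1) := by
  classical
  have h3 : ∃ i : ℕ, b < V * (3 / 2) ^ (i + 1) := by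
    refine ⟨33, ?_⟩
    have : (720000 : ℝ) < (3 / 2) ^ (33 + 1) := by norm_num
    nlinarith
  have h4 := Nat.find_spec h3
  have h5 : Nat.find h3 ≤ 33 := by
    apply Nat.find_le
    have : (720000 : ℝ) < (3 / 2) ^ (33 + 1) := by norm_num
    nlinarith
  refine ⟨Nat.find h3, mem_range.2 (by omega), ?_, h4⟩
  rcases Nat.eq_zero_or_pos (Nat.find h3) with h6 | h6
  · rw [h6, pow_zero, mul_one]
    exact h1
  · have h7 := Nat.find_min h3 (show Nat.find h3 - 1 < Nat.find h3 by omega)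
    rw [Nat.sub_add_cancel h6] at h7
    exact not_lt.1 h7

/-- some block has a positive proportion -/
theorem pigeon (K : Finset ℕ) (P : ℕ → ℕ → Prop) [∀ i k, Decidable (P i k)] {J : ℕ} (hJ : 0 < J)
    (h : ∀ k ∈ K, ∃ i ∈ range J, P i k) :
    ∃ i ∈ range J, (K.card : ℝ) / J ≤ ((K.filter (fun k => P i k)).card : ℝ) := by
  classical
  by_contra hcon
  push Not at hcon
  have h1 : K ⊆ (range J).biUnion (fun i => K.filter (fun k => P i k)) := by
    intro k hk
    obtain ⟨i, hi, hP⟩ := h k hk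
    exact Finset.mem_biUnion.2 ⟨i, hi, mem_filter.2 ⟨hk, hP⟩⟩
  have h2 : (K.card : ℝ) ≤ ∑ i ∈ range J, ((K.filter (fun k => P i k)).card : ℝ) := by
    exact_mod_cast (Finset.card_le_card h1).trans Finset.card_biUnion_le
  have h3 : ∑ i ∈ range J, ((K.filter (fun k => P i k)).card : ℝ) <
      ∑ _i ∈ range J, (K.card : ℝ) / J :=
    Finset.sum_lt_sum_of_nonempty (Finset.nonempty_range_iff.2 hJ.ne') hcon
  rw [Finset.sum_const, Finset.card_range, nsmul_eq_mul] at h3
  have hJ' : (0 : ℝ) < J := by exact_mod_cast hJ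
  rw [mul_div_cancel₀ _ hJ'.ne'] at h3
  linarith

/-- `b k = p_{p_{n-k}}` -/
noncomputable def bn (n k : ℕ) : ℕ := pr (pr (n - k))

theorem bn_lt {n k k' : ℕ} (h : k < k') (hn : k' < n) : bn n k' < bn n k := by
  unfold bn
  exact pr_strictMono (pr_prime _).one_le (pr_strictMono (by omega) (by omega))

theorem rr_mono {K K' : Finset ℕ} (h : K ⊆ K') (a b : ℕ → ℕ) (x : ℕ) :
    rr K a b x ≤ rr K' a b x :=
  Finset.card_le_card (Finset.filter_subset_filter _ h)

theorem L3_le : ∀ᶠ n : ℕ in atTop, ∀ X : ℕ, n ≤ X → Real.log X ≤ 2 * Real.log n →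
    0 < L3 X ∧ L3 X ≤ 2 * L3 n := by
  filter_upwards [tendsto_L3.eventually_ge_atTop 1, tendsto_ll.eventually_ge_atTop 2,
    eventually_ge_atTop 3] with n h1 h2 h3 X hX hlX
  have hn : (3 : ℝ) ≤ n := by exact_mod_cast h3
  have hX' : (n : ℝ) ≤ X := by exact_mod_cast hX
  have hln : 0 < Real.log n := Real.log_pos (by linarith)
  have hl1 : Real.log n ≤ Real.log X := Real.log_le_log (by linarith) hX'
  have hl2 : Real.log (Real.log n) ≤ Real.log (Real.log X) := Real.log_le_log hln hl1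
  have hl3 : L3 n ≤ L3 X := Real.log_le_log (by linarith) hl2
  have h5 : Real.log (Real.log X) ≤ 2 * Real.log (Real.log n) := by
    calc Real.log (Real.log X) ≤ Real.log (2 * Real.log n) :=
          Real.log_le_log (by linarith) hlX
      _ = Real.log 2 + Real.log (Real.log n) := Real.log_mul (by norm_num) hln.ne'
      _ ≤ 2 * Real.log (Real.log n) := by
          have := Real.log_two_lt_d9
          linarith
  have h6 : L3 X ≤ 2 * L3 n := by
    calc L3 X ≤ Real.log (2 * Real.log (Real.log n)) := Real.log_le_log (by linarith) h5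
      _ = Real.log 2 + L3 n := Real.log_mul (by norm_num) (by linarith)
      _ ≤ 2 * L3 n := by
          have := Real.log_two_lt_d9
          linarith
  exact ⟨by linarith, h6⟩

/-- the family of a block -/
theorem fam_block {n H X : ℕ} {K : Finset ℕ} {c V : ℝ} {i : ℕ} (hc : 0 < c) (hc1 : c ≤ 1 / 480)
    (hn : 400 ≤ n) (hHn : (H : ℝ) ≤ n * Real.log n) (hlog : 1 ≤ Real.log n) (hV : 5 ≤ V)
    (hX : X = ⌈3 * (V * (3 / 2) ^ i)⌉₊)
    (hK : ∀ k ∈ K, 1 ≤ k ∧ (k : ℝ) ≤ c * H / Real.log n)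
    (hsq : ∀ k ∈ K, H < pr k ^ 2)
    (hb : ∀ k ∈ K, V * (3 / 2) ^ i ≤ bn n k ∧ (bn n k : ℝ) < V * (3 / 2) ^ (i + 1)) :
    Fam X H K pr (bn n) := by
  have hn' : (400 : ℝ) ≤ n := by exact_mod_cast hn
  have hH0 : (0 : ℝ) ≤ H := Nat.cast_nonneg H
  have hl0 : 0 < Real.log n := by linarith
  obtain ⟨W, hW⟩ : ∃ W : ℝ, W = V * (3 / 2) ^ i := ⟨_, rfl⟩
  have hW5 : 5 ≤ W := by
    rw [hW]
    have : (1 : ℝ) ≤ (3 / 2) ^ i := one_le_pow₀ (by norm_num)
    nlinarith
  have hW2 : V * (3 / 2) ^ (i + 1) = 3 / 2 * W := by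
    rw [hW, pow_succ]
    ring
  rw [← hW] at hX
  have hkn : ∀ k ∈ K, 2 * k < n := by
    intro k hk
    have h1 := (hK k hk).2
    have h2 : c * H / Real.log n ≤ n / 480 := by
      rw [div_le_iff₀ hl0]
      have h3 : c * H ≤ 1 / 480 * (n * Real.log n) := mul_le_mul hc1 hHn hH0 (by norm_num)
      linarith
    have h5 : (2 : ℝ) * k < n := by linarith
    exact_mod_cast h5
  have hsa : ∀ k ∈ K, 16 * pr k ≤ H := by
    intro k hk
    obtain ⟨h0, h1⟩ := hK k hk
    have h2 := pr_up h0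
    have h3 := log_pr h0 (show k ≤ n by have := hkn k hk; omega) hn
    have h4 : (16 : ℝ) * pr k ≤ H := by
      have h5 : (pr k : ℝ) ≤ 10 * (c * H / Real.log n) * (3 * Real.log n) := by
        refine h2.trans ?_
        apply mul_le_mul _ h3 (Real.log_natCast_nonneg _) (by positivity)
        linarith
      have h6 : 10 * (c * H / Real.log n) * (3 * Real.log n) = 30 * (c * H) := by
        field_simp
        ring
      rw [h6] at h5
      have h7 : c * H ≤ 1 / 480 * H := mul_le_mul_of_nonneg_right hc1 hH0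
      linarith
    exact_mod_cast h4
  have hX1 : (X : ℝ) < 3 * W + 1 := by
    rw [hX]
    exact Nat.ceil_lt_add_one (by linarith)
  have hX2 : 3 * W ≤ (X : ℝ) := by
    rw [hX]
    exact Nat.le_ceil _
  have hlt : ∀ k ∈ K, ∀ k' ∈ K, k < k' →
      pr k < pr k' ∧ bn n k' < bn n k ∧ pr k < bn n k ∧ pr k' < bn n k' := by
    intro k hk k' hk' h
    have h1 := hkn k' hk'
    have h2 := hkn k hk
    refine ⟨pr_strictMono (hK k hk).1 h, bn_lt h (by omega), ?_, ?_⟩
    · unfold bn
      have h3 : pr k ≤ pr (n - k) := pr_mono (by omega)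
      have h4 := lt_pr (pr_prime (n - k)).one_le
      omega
    · unfold bn
      have h3 : pr k' ≤ pr (n - k') := pr_mono (by omega)
      have h4 := lt_pr (pr_prime (n - k')).one_le
      omega
  refine ⟨fun k _ => pr_prime k, fun k _ => pr_prime _, hsq, hsa, ?_, ?_, ?_, ?_, ?_⟩
  · intro k hk
    have h1 := (hb k hk).1
    rw [← hW] at h1
    have : (5 : ℝ) * X ≤ 16 * bn n k := by linarith
    exact_mod_cast this
  · intro k hk
    have h1 := (hb k hk).2
    rw [hW2] at h1
    have : (2 : ℝ) * bn n k ≤ X := by linarith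
    exact_mod_cast this
  · intro k hk k' hk' h
    rcases lt_trichotomy k k' with h1 | h1 | h1
    · have := (hlt k hk k' hk' h1).1
      omega
    · exact h1
    · have := (hlt k' hk' k hk h1).1
      omega
  · intro k hk k' hk' h
    rcases lt_trichotomy k k' with h1 | h1 | h1
    · have := (hlt k hk k' hk' h1).2.1
      omega
    · exact h1
    · have := (hlt k' hk' k hk h1).2.1
      omega
  · intro k hk k' hk' h
    rcases lt_trichotomy k k' with h1 | h1 | h1
    · have := hlt k hk k' hk' h1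
      omega
    · exact h1
    · have := hlt k' hk' k hk h1
      omega

end Pool.Agent.TSH
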