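import Mathlib
import Pool.Agent.TSH.Stmts
import Pool.Agent.PC.Sieve

set_option autoImplicit false

/-!
# TSH / Four: upper bound sieve of dimension four
-/

namespace Pool.Agent.TSH

open Finset Filter
open Pool.Agent.Helper90.Straus (pr mem_pr g Sys surv mem_surv sieve_upper)
open Pool.Agent.PC.BlockB (log_le_prod one_sub_pos log_sq_le)
open Pool.Agent.GBQ (rho)

/-- the class `- a` modulo `p` -/
def fcl (a p : ℕ) : ℕ := (p - a % p) % p

theorem fcl_lt (a : ℕ) {p : ℕ} (hp : 0 < p) : fcl a p < p := Nat.mod_lt _ hp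

theorem fcl_dvd (a : ℕ) {p n : ℕ} (hp : 0 < p) (h : n % p = fcl a p) : p ∣ a + n := by
  apply Nat.dvd_of_mod_eq_zero
  rw [Nat.add_mod, h]
  unfold fcl
  have h1 : a % p < p := Nat.mod_lt _ hp
  rcases Nat.eq_zero_or_pos (a % p) with h2 | h2
  · rw [h2, Nat.sub_zero, Nat.mod_self, Nat.add_zero, Nat.zero_mod]
  · rw [Nat.mod_eq_of_lt (show p - a % p < p by omega)]
    have : a % p + (p - a % p) = p := by omega
    rw [this, Nat.mod_self]

theorem fcl_ne_zero {a p : ℕ} (hp : 0 < p) (h : ¬ p ∣ a) : fcl a p ≠ 0 := by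
  intro h0
  have h1 := fcl_dvd a (p := p) (n := 0) hp (by rw [h0, Nat.zero_mod])
  exact h (by simpa using h1)

theorem fcl_inj {a b p : ℕ} (hp : 0 < p) (h : fcl a p = fcl b p) : a ≡ b [MOD p] := by
  have h1 := fcl_dvd a (p := p) (n := fcl a p) hp (Nat.mod_eq_of_lt (fcl_lt a hp))
  have h2 := fcl_dvd b (p := p) (n := fcl a p) hp (by rw [Nat.mod_eq_of_lt (fcl_lt a hp), h])
  have h3 : a + fcl a p ≡ b + fcl a p [MOD p] :=
    ((Nat.modEq_zero_iff_dvd.2 h1)).trans (Nat.modEq_zero_iff_dvd.2 h2).symm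
  exact Nat.ModEq.add_right_cancel' _ h3

theorem fcl_ne_of_sub {a b p : ℕ} (hp : 0 < p) (hab : a < b) (h : ¬ p ∣ b - a) :
    fcl a p ≠ fcl b p :=
  fun h1 => h ((Nat.modEq_iff_dvd' hab.le).1 (fcl_inj hp h1))

theorem fcl_ne_of_dist {a b p : ℕ} (hp : 0 < p) (h : ¬ p ∣ Nat.dist a b) :
    fcl a p ≠ fcl b p := by
  intro h1
  have h2 := fcl_inj hp h1
  rcases le_total a b with h3 | h3
  · rw [Nat.dist_eq_sub_of_le h3] at h
    exact h ((Nat.modEq_iff_dvd' h3).1 h2)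
  · rw [Nat.dist_eq_sub_of_le_right h3] at h
    exact h ((Nat.modEq_iff_dvd' h3).1 h2.symm)

/-- the four classes, for `p < z` -/
def Om4 (z a a' b b' p : ℕ) : Finset ℕ :=
  if p < z then {fcl a p, fcl a' p, fcl b p, fcl b' p} else ∅

theorem sys_Om4 {z a a' b b' : ℕ} (ha : ∀ p, p.Prime → p < z → ¬ p ∣ a)
    (ha' : ∀ p, p.Prime → p < z → ¬ p ∣ a') (hb : ∀ p, p.Prime → p < z → ¬ p ∣ b)
    (hb' : ∀ p, p.Prime → p < z → ¬ p ∣ b') : Sys 4 (Om4 z a a' b b') := by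
  intro p hp
  unfold Om4
  split_ifs with hz
  · have h0 := hp.pos
    have h1 : ({fcl a p, fcl a' p, fcl b p, fcl b' p} : Finset ℕ) ⊆ Ioo 0 p := by
      intro x hx
      simp only [mem_insert, mem_singleton] at hx
      rw [mem_Ioo]
      rcases hx with rfl | rfl | rfl | rfl
      · exact ⟨Nat.pos_of_ne_zero (fcl_ne_zero h0 (ha p hp hz)), fcl_lt _ h0⟩
      · exact ⟨Nat.pos_of_ne_zero (fcl_ne_zero h0 (ha' p hp hz)), fcl_lt _ h0⟩
      · exact ⟨Nat.pos_of_ne_zero (fcl_ne_zero h0 (hb p hp hz)), fcl_lt _ h0⟩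
      · exact ⟨Nat.pos_of_ne_zero (fcl_ne_zero h0 (hb' p hp hz)), fcl_lt _ h0⟩
    refine ⟨fun x hx => ?_, Finset.card_le_four, ?_⟩
    · have := mem_Ioo.1 (h1 hx)
      exact mem_range.2 this.2
    · have h2 := Finset.card_le_card h1
      rw [Nat.card_Ioo] at h2
      omega
  · exact ⟨Finset.empty_subset _, by simp, by simpa using hp.pos⟩

section cards

variable {z a a' b b' p : ℕ}

theorem Om4_one (hz : p < z) : 1 ≤ (Om4 z a a' b b' p).card := by
  unfold Om4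
  rw [if_pos hz]
  exact Finset.card_pos.2 ⟨_, mem_insert_self _ _⟩

theorem Om4_of_sub (hz : p < z) {s : Finset ℕ} (hs : s ⊆ {fcl a p, fcl a' p, fcl b p, fcl b' p}) :
    s.card ≤ (Om4 z a a' b b' p).card := by
  unfold Om4
  rw [if_pos hz]
  exact Finset.card_le_card hs

theorem Om4_two (hz : p < z) {u v : ℕ} (hu : u ∈ ({fcl a p, fcl a' p, fcl b p, fcl b' p} : Finset ℕ))
    (hv : v ∈ ({fcl a p, fcl a' p, fcl b p, fcl b' p} : Finset ℕ)) (h : u ≠ v) :
    2 ≤ (Om4 z a a' b b' p).card := by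
  rw [← Finset.card_pair h]
  apply Om4_of_sub hz
  intro x hx
  rw [mem_insert, mem_singleton] at hx
  rcases hx with rfl | rfl
  · exact hu
  · exact hv

theorem Om4_three (hz : p < z) (h1 : fcl a p ≠ fcl a' p) (h2 : fcl a p ≠ fcl b p)
    (h3 : fcl a' p ≠ fcl b p) : 3 ≤ (Om4 z a a' b b' p).card := by
  have h : ({fcl a p, fcl a' p, fcl b p} : Finset ℕ).card = 3 := by
    rw [Finset.card_insert_of_notMem (by simp [h1, h2]), Finset.card_pair h3]
  rw [← h]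
  apply Om4_of_sub hz
  intro x hx
  simp only [mem_insert, mem_singleton] at hx ⊢
  tauto

theorem Om4_four (hz : p < z) (h1 : fcl a p ≠ fcl a' p) (h2 : fcl a p ≠ fcl b p)
    (h3 : fcl a' p ≠ fcl b p) (h4 : fcl a p ≠ fcl b' p) (h5 : fcl a' p ≠ fcl b' p)
    (h6 : fcl b p ≠ fcl b' p) : 4 ≤ (Om4 z a a' b b' p).card := by
  have h : ({fcl a p, fcl a' p, fcl b p, fcl b' p} : Finset ℕ).card = 4 := by
    rw [Finset.card_insert_of_notMem (by simp [h1, h2, h4]),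
      Finset.card_insert_of_notMem (by simp [h3, h5]), Finset.card_pair h6]
  rw [← h]
  exact Om4_of_sub hz (Finset.Subset.refl _)

end cards

theorem Om4_oneR {z a a' b b' p : ℕ} (hz : p < z) :
    (1 : ℝ) ≤ ((Om4 z a a' b b' p).card : ℝ) := by
  exact_mod_cast Om4_one hz

theorem Om4_aa {z a a' b b' p : ℕ} (hz : p < z) (h : fcl a p ≠ fcl a' p) :
    (2 : ℝ) ≤ ((Om4 z a a' b b' p).card : ℝ) := by
  have := Om4_two (a := a) (a' := a') (b := b) (b' := b') hz (u := fcl a p) (v := fcl a' p)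
    (by simp) (by simp) h
  exact_mod_cast this

theorem Om4_ab {z a a' b b' p : ℕ} (hz : p < z) (h : fcl a p ≠ fcl b p) :
    (2 : ℝ) ≤ ((Om4 z a a' b b' p).card : ℝ) := by
  have := Om4_two (a := a) (a' := a') (b := b) (b' := b') hz (u := fcl a p) (v := fcl b p)
    (by simp) (by simp) h
  exact_mod_cast this

theorem Om4_threeR {z a a' b b' p : ℕ} (hz : p < z) (h1 : fcl a p ≠ fcl a' p)
    (h2 : fcl a p ≠ fcl b p) (h3 : fcl a' p ≠ fcl b p) :
    (3 : ℝ) ≤ ((Om4 z a a' b b' p).card : ℝ) := by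
  have := Om4_three (b' := b') hz h1 h2 h3
  exact_mod_cast this

theorem Om4_fourR {z a a' b b' p : ℕ} (hz : p < z) (h1 : fcl a p ≠ fcl a' p)
    (h2 : fcl a p ≠ fcl b p) (h3 : fcl a' p ≠ fcl b p) (h4 : fcl a p ≠ fcl b' p)
    (h5 : fcl a' p ≠ fcl b' p) (h6 : fcl b p ≠ fcl b' p) :
    (4 : ℝ) ≤ ((Om4 z a a' b b' p).card : ℝ) := by
  have := Om4_four hz h1 h2 h3 h4 h5 h6
  exact_mod_cast this

/-- the factor of the difference `D` at `p` -/
noncomputable def ff (D p : ℕ) : ℝ := if p ∣ D then (1 - 1 / (p : ℝ))⁻¹ else 1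

theorem one_le_ff (D : ℕ) {p : ℕ} (hp : p.Prime) : 1 ≤ ff D p := by
  unfold ff
  split_ifs
  · exact (fac_bd hp).1
  · exact le_refl _

theorem ff_small {D y z : ℕ} (hD : 0 < D) :
    ∏ p ∈ (pr 2 z).filter (fun p => p ≤ y), ff D p ≤ RR y D := by
  unfold ff RR
  rw [← Finset.prod_filter]
  apply Finset.prod_le_prod_of_subset_of_one_le
  · intro p hp
    rw [mem_filter, mem_filter] at hp
    rw [mem_filter, Nat.mem_primeFactors]
    exact ⟨⟨(mem_pr.1 hp.1.1).2, hp.2, hD.ne'⟩, hp.1.2⟩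
  · intro p hp
    rw [mem_filter, mem_filter] at hp
    have := (fac_bd (mem_pr.1 hp.1.1).2).1
    linarith
  · intro p hp _
    exact (fac_bd (Nat.prime_of_mem_primeFactors (mem_filter.1 hp).1)).1

theorem ff_big {D y z : ℕ} (hD : 0 < D) (hy : 1 ≤ y) (h : big y D ≤ y) :
    ∏ p ∈ (pr 2 z).filter (fun p => ¬ p ≤ y), ff D p ≤ Real.exp 2 := by
  refine le_trans ?_ (big_prod hy h)
  unfold ff
  rw [← Finset.prod_filter]
  apply Finset.prod_le_prod_of_subset_of_one_le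
  · intro p hp
    rw [mem_filter, mem_filter] at hp
    rw [mem_filter, Nat.mem_primeFactors]
    exact ⟨⟨(mem_pr.1 hp.1.1).2, hp.2, hD.ne'⟩, not_le.1 hp.1.2⟩
  · intro p hp
    rw [mem_filter, mem_filter] at hp
    have := (fac_bd (mem_pr.1 hp.1.1).2).1
    linarith
  · intro p hp _
    exact (fac_bd (Nat.prime_of_mem_primeFactors (mem_filter.1 hp).1)).1

theorem inv_small (y z : ℕ) :
    ∏ p ∈ (pr 2 z).filter (fun p => p ≤ y), (1 - 1 / (p : ℝ))⁻¹ ≤ (rho y)⁻¹ := by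
  unfold rho
  rw [← Finset.prod_inv_distrib]
  apply Finset.prod_le_prod_of_subset_of_one_le
  · intro p hp
    rw [mem_filter] at hp
    rw [Pool.Agent.GBQ.mem_pr]
    exact ⟨hp.2, (mem_pr.1 hp.1).2⟩
  · intro p hp
    rw [mem_filter] at hp
    have := (fac_bd (mem_pr.1 hp.1).2).1
    linarith
  · intro p hp _
    exact (fac_bd (Pool.Agent.GBQ.mem_pr.1 hp).2).1

/-- the inequalities for one prime -/
theorem one_prime {u : ℝ} (hu : 1 / 2 ≤ u) (hu1 : u ≤ 1) {k x : ℝ} (hx : x = 1 - u) :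
    (1 ≤ k → 1 - k * x ≤ u) ∧ (2 ≤ k → 1 - k * x ≤ u ^ 2) ∧ (3 ≤ k → 1 - k * x ≤ u ^ 3) ∧
      (4 ≤ k → 1 - k * x ≤ u ^ 4) := by
  subst hx
  have h0 : 0 ≤ 1 - u := by linarith
  refine ⟨fun h => ?_, fun h => ?_, fun h => ?_, fun h => ?_⟩
  · nlinarith
  · nlinarith [sq_nonneg (1 - u)]
  · have h1 : u ^ 3 - (1 - 3 * (1 - u)) = (1 - u) ^ 2 * (u + 2) := by ring
    have h2 : 0 ≤ (1 - u) ^ 2 * (u + 2) := by positivity
    nlinarith
  · have h1 : u ^ 4 - (1 - 4 * (1 - u)) = (1 - u) ^ 2 * (u ^ 2 + 2 * u + 3) := by ring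
    have h2 : 0 ≤ (1 - u) ^ 2 * (u ^ 2 + 2 * u + 3) := by positivity
    nlinarith

section loc

variable {z a a' b b' p : ℕ}

theorem loc_one (hp : p.Prime) (hz : p < z) (hab : a < b) :
    1 - g (Om4 z a a' b b') p ≤ (1 - 1 / (p : ℝ)) ^ 4 *
      (((1 - 1 / (p : ℝ))⁻¹) ^ 2 * ff (b - a) p) := by
  have hu := one_sub_pos hp
  have hu1 : 1 - 1 / (p : ℝ) ≤ 1 := by
    have : 0 ≤ 1 / (p : ℝ) := by positivity
    linarith
  obtain ⟨u, hu'⟩ : ∃ u : ℝ, u = 1 - 1 / (p : ℝ) := ⟨_, rfl⟩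
  have hu0 : u ≠ 0 := by rw [hu']; linarith
  have hg : g (Om4 z a a' b b') p = ((Om4 z a a' b b' p).card : ℝ) * (1 / p) := by
    unfold g
    ring
  have hA := one_prime (u := u) (k := ((Om4 z a a' b b' p).card : ℝ)) (x := 1 / (p : ℝ))
    (by rw [hu']; exact hu) (by rw [hu']; exact hu1) (by rw [hu']; ring)
  rw [← hu', hg]
  unfold ff
  rw [← hu']
  split_ifs with hd
  · refine (hA.1 (Om4_oneR hz)).trans (le_of_eq ?_)
    field_simp
  · refine (hA.2.1 (Om4_ab hz (fcl_ne_of_sub hp.pos hab hd))).trans (le_of_eq ?_)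
    field_simp

theorem loc_two (hp : p.Prime) (hz : p < z) (hab : a < b) (hab' : a' < b) :
    1 - g (Om4 z a a' b b') p ≤ (1 - 1 / (p : ℝ)) ^ 4 *
      ((1 - 1 / (p : ℝ))⁻¹ * (ff (b - a) p * ff (Nat.dist a a') p * ff (b - a') p)) := by
  have hu := one_sub_pos hp
  have hu1 : 1 - 1 / (p : ℝ) ≤ 1 := by
    have : 0 ≤ 1 / (p : ℝ) := by positivity
    linarith
  obtain ⟨u, hu'⟩ : ∃ u : ℝ, u = 1 - 1 / (p : ℝ) := ⟨_, rfl⟩
  have hup : 0 < u := by rw [hu']; linarith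
  have hu0 : u ≠ 0 := hup.ne'
  have hg : g (Om4 z a a' b b') p = ((Om4 z a a' b b' p).card : ℝ) * (1 / p) := by
    unfold g
    ring
  have hA := one_prime (u := u) (k := ((Om4 z a a' b b' p).card : ℝ)) (x := 1 / (p : ℝ))
    (by rw [hu']; exact hu) (by rw [hu']; exact hu1) (by rw [hu']; ring)
  have h1 : 1 - ((Om4 z a a' b b' p).card : ℝ) * (1 / p) ≤ u := hA.1 (Om4_oneR hz)
  have e1 : u ^ 4 * (u⁻¹ * (u⁻¹ * u⁻¹)) = u := by field_simp
  have e2 : u ^ 4 * (u⁻¹ * (u⁻¹ * u⁻¹ * u⁻¹)) = 1 := by field_simp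
  have e3 : u ^ 4 * (u⁻¹ * u⁻¹) = u ^ 2 := by field_simp
  have e4 : u ^ 4 * u⁻¹ = u ^ 3 := by field_simp
  have hle : u ≤ 1 := by rw [hu']; exact hu1
  rw [← hu', hg]
  unfold ff
  rw [← hu']
  by_cases d1 : p ∣ b - a
  · by_cases d2 : p ∣ Nat.dist a a'
    · by_cases d3 : p ∣ b - a'
      · rw [if_pos d1, if_pos d2, if_pos d3, e2]
        linarith
      · rw [if_pos d1, if_pos d2, if_neg d3, mul_one, e1]
        exact h1
    · by_cases d3 : p ∣ b - a'
      · rw [if_pos d1, if_neg d2, if_pos d3, mul_one, e1]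
        exact h1
      · rw [if_pos d1, if_neg d2, if_neg d3, mul_one, mul_one, e3]
        exact hA.2.1 (Om4_aa hz (fcl_ne_of_dist hp.pos d2))
  · by_cases d2 : p ∣ Nat.dist a a'
    · by_cases d3 : p ∣ b - a'
      · rw [if_neg d1, if_pos d2, if_pos d3, one_mul, e1]
        exact h1
      · rw [if_neg d1, if_pos d2, if_neg d3, one_mul, mul_one, e3]
        exact hA.2.1 (Om4_ab hz (fcl_ne_of_sub hp.pos hab d1))
    · by_cases d3 : p ∣ b - a'
      · rw [if_neg d1, if_neg d2, if_pos d3, one_mul, one_mul, e3]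
        exact hA.2.1 (Om4_ab hz (fcl_ne_of_sub hp.pos hab d1))
      · rw [if_neg d1, if_neg d2, if_neg d3, one_mul, one_mul, mul_one, e4]
        exact hA.2.2.1 (Om4_threeR hz (fcl_ne_of_dist hp.pos d2)
          (fcl_ne_of_sub hp.pos hab d1) (fcl_ne_of_sub hp.pos hab' d3))

/-- all six differences -/
noncomputable def TT (a a' b b' p : ℕ) : ℝ :=
  ff (Nat.dist a a') p * ff (Nat.dist b b') p * ff (b - a) p * ff (b - a') p * ff (b' - a) p *
    ff (b' - a') p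

theorem loc_big (hp : p.Prime) (hz : p < z) (h1 : a < b) (h2 : a' < b) (h3 : a < b')
    (h4 : a' < b') :
    1 - g (Om4 z a a' b b') p ≤ (1 - 1 / (p : ℝ)) ^ 4 * TT a a' b b' p ^ 3 := by
  have hu := one_sub_pos hp
  have hu1 : 1 - 1 / (p : ℝ) ≤ 1 := by
    have : 0 ≤ 1 / (p : ℝ) := by positivity
    linarith
  obtain ⟨u, hu'⟩ : ∃ u : ℝ, u = 1 - 1 / (p : ℝ) := ⟨_, rfl⟩
  have hup : 0 < u := by rw [hu']; linarith
  have hu0 : u ≠ 0 := hup.ne'
  have hg : g (Om4 z a a' b b') p = ((Om4 z a a' b b' p).card : ℝ) * (1 / p) := by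
    unfold g
    ring
  have hA := one_prime (u := u) (k := ((Om4 z a a' b b' p).card : ℝ)) (x := 1 / (p : ℝ))
    (by rw [hu']; exact hu) (by rw [hu']; exact hu1) (by rw [hu']; ring)
  rw [← hu', hg]
  have hT1 : ∀ D, 1 ≤ ff D p := fun D => one_le_ff D hp
  by_cases hd : p ∣ Nat.dist a a' ∨ p ∣ Nat.dist b b' ∨ p ∣ b - a ∨ p ∣ b - a' ∨ p ∣ b' - a ∨
      p ∣ b' - a'
  · have hv : u⁻¹ ≤ TT a a' b b' p := by
      have hf : ∀ D, p ∣ D → ff D p = u⁻¹ := by
        intro D hD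
        unfold ff
        rw [if_pos hD, hu']
      unfold TT
      have e1 := hT1 (Nat.dist a a')
      have e2 := hT1 (Nat.dist b b')
      have e3 := hT1 (b - a)
      have e4 := hT1 (b - a')
      have e5 := hT1 (b' - a)
      have e6 := hT1 (b' - a')
      have key : ∀ x1 x2 x3 x4 x5 x6 : ℝ, 1 ≤ x1 → 1 ≤ x2 → 1 ≤ x3 → 1 ≤ x4 → 1 ≤ x5 → 1 ≤ x6 →
          x1 ≤ x1 * x2 * x3 * x4 * x5 * x6 ∧ x2 ≤ x1 * x2 * x3 * x4 * x5 * x6 ∧
          x3 ≤ x1 * x2 * x3 * x4 * x5 * x6 ∧ x4 ≤ x1 * x2 * x3 * x4 * x5 * x6 ∧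
          x5 ≤ x1 * x2 * x3 * x4 * x5 * x6 ∧ x6 ≤ x1 * x2 * x3 * x4 * x5 * x6 := by
        intro x1 x2 x3 x4 x5 x6 g1 g2 g3 g4 g5 g6
        have m2 : ∀ s t : ℝ, 1 ≤ s → 1 ≤ t → s ≤ s * t ∧ t ≤ s * t ∧ 1 ≤ s * t := by
          intro s t hs ht
          refine ⟨le_mul_of_one_le_right (by linarith) ht,
            le_mul_of_one_le_left (by linarith) hs, one_le_mul_of_one_le_of_one_le hs ht⟩
        obtain ⟨a1, a2, a3⟩ := m2 _ _ g1 g2
        obtain ⟨b1, b2, b3⟩ := m2 _ _ a3 g3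
        obtain ⟨c1, c2, c3⟩ := m2 _ _ b3 g4
        obtain ⟨d1, d2, d3⟩ := m2 _ _ c3 g5
        obtain ⟨f1, f2, f3⟩ := m2 _ _ d3 g6
        exact ⟨a1.trans (b1.trans (c1.trans (d1.trans f1))),
          a2.trans (b1.trans (c1.trans (d1.trans f1))), b2.trans (c1.trans (d1.trans f1)),
          c2.trans (d1.trans f1), d2.trans f1, f2⟩
      have hk := key _ _ _ _ _ _ e1 e2 e3 e4 e5 e6
      rcases hd with hd | hd | hd | hd | hd | hd
      · exact (hf _ hd).ge.trans hk.1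
      · exact (hf _ hd).ge.trans hk.2.1
      · exact (hf _ hd).ge.trans hk.2.2.1
      · exact (hf _ hd).ge.trans hk.2.2.2.1
      · exact (hf _ hd).ge.trans hk.2.2.2.2.1
      · exact (hf _ hd).ge.trans hk.2.2.2.2.2
    refine (hA.1 (Om4_oneR hz)).trans ?_
    have h5 : u⁻¹ ^ 3 ≤ TT a a' b b' p ^ 3 := pow_le_pow_left₀ (inv_pos.2 hup).le hv 3
    calc u = u ^ 4 * u⁻¹ ^ 3 := by field_simp
      _ ≤ _ := mul_le_mul_of_nonneg_left h5 (by positivity)
  · push Not at hd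
    obtain ⟨d1, d2, d3, d4, d5, d6⟩ := hd
    have h5 : TT a a' b b' p = 1 := by
      unfold TT ff
      rw [if_neg d1, if_neg d2, if_neg d3, if_neg d4, if_neg d5, if_neg d6]
      norm_num
    rw [h5, one_pow, mul_one]
    have hp0 := hp.pos
    exact hA.2.2.2 (Om4_fourR hz (fcl_ne_of_dist hp0 d1)
      (fcl_ne_of_sub hp0 h1 d3) (fcl_ne_of_sub hp0 h2 d4) (fcl_ne_of_sub hp0 h3 d5)
      (fcl_ne_of_sub hp0 h4 d6) (fcl_ne_of_dist hp0 d2))

theorem loc_nonneg (hS : Sys 4 (Om4 z a a' b b')) (hp : p.Prime) :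
    0 ≤ 1 - g (Om4 z a a' b b') p := by
  have h1 := (hS p hp).2.2
  have hp0 : (0 : ℝ) < p := by exact_mod_cast hp.pos
  unfold g
  rw [sub_nonneg, div_le_one hp0]
  exact_mod_cast h1.le

end loc

/-- a product over the primes up to `z`, the factors being bounded differently for `p ≤ y` and
`p > y` -/
theorem prod_bound {z y : ℕ} (w S T : ℕ → ℝ) {A B : ℝ}
    (h0 : ∀ p ∈ pr 2 z, 0 ≤ w p) (hS0 : ∀ p ∈ pr 2 z, 0 ≤ S p) (hT0 : ∀ p ∈ pr 2 z, 0 ≤ T p)
    (h1 : ∀ p ∈ pr 2 z, p ≤ y → w p ≤ (1 - 1 / (p : ℝ)) ^ 4 * S p)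
    (h2 : ∀ p ∈ pr 2 z, ¬ p ≤ y → w p ≤ (1 - 1 / (p : ℝ)) ^ 4 * T p)
    (hA : ∏ p ∈ (pr 2 z).filter (fun p => p ≤ y), S p ≤ A)
    (hB : ∏ p ∈ (pr 2 z).filter (fun p => ¬ p ≤ y), T p ≤ B) :
    ∏ p ∈ pr 2 z, w p ≤ (∏ p ∈ pr 2 z, (1 - 1 / (p : ℝ))) ^ 4 * (A * B) := by
  have h3 : ∏ p ∈ pr 2 z, w p ≤ ∏ p ∈ pr 2 z, ((1 - 1 / (p : ℝ)) ^ 4 *
      (if p ≤ y then S p else T p)) := by
    apply Finset.prod_le_prod h0
    intro p hp
    split_ifs with hy
    · exact h1 p hp hy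
    · exact h2 p hp hy
  refine h3.trans ?_
  rw [Finset.prod_mul_distrib, Finset.prod_pow, Finset.prod_ite]
  apply mul_le_mul_of_nonneg_left _ (by positivity)
  apply mul_le_mul hA hB
  · exact Finset.prod_nonneg fun p hp => hT0 p (mem_filter.1 hp).1
  · exact (Finset.prod_nonneg fun p hp => hS0 p (mem_filter.1 hp).1).trans hA

theorem P_four_le {N : ℕ} (hN : 2 ≤ N) :
    (∏ p ∈ pr 2 N, (1 - 1 / (p : ℝ))) ^ 4 ≤ (1 / Real.log N) ^ 4 := by
  have h1 := log_le_prod (N := N) (by omega)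
  have hlog : 0 < Real.log N := Real.log_pos (by exact_mod_cast (show 1 < N by omega))
  rw [Finset.prod_inv_distrib] at h1
  have hP : 0 < ∏ p ∈ pr 2 N, (1 - 1 / (p : ℝ)) :=
    Finset.prod_pos fun p hp => by linarith [one_sub_pos (mem_pr.1 hp).2]
  apply pow_le_pow_left₀ hP.le
  rw [le_div_iff₀ hlog]
  rw [← one_div, le_div_iff₀ hP] at h1
  linarith

theorem log_four_le {x : ℝ} (hx : 1 ≤ x) : Real.log x ^ 4 ≤ 256 * x := by
  have hs : 1 ≤ √x := Real.one_le_sqrt.2 hx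
  have h1 := log_sq_le hs
  have h2 : Real.log x = 2 * Real.log (√x) := by
    rw [Real.log_sqrt (by linarith)]
    ring
  have h3 : √x ^ 2 = x := Real.sq_sqrt (by linarith)
  have h4 : 0 ≤ Real.log (√x) ^ 2 := sq_nonneg _
  rw [h2]
  calc (2 * Real.log (√x)) ^ 4 = 16 * (Real.log (√x) ^ 2) ^ 2 := by ring
    _ ≤ 16 * (4 * √x) ^ 2 := by
      apply mul_le_mul_of_nonneg_left _ (by norm_num)
      exact pow_le_pow_left₀ h4 h1 2
    _ = 256 * √x ^ 2 := by ring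
    _ = 256 * x := by rw [h3]

theorem thm_Four : St_Four := by
  obtain ⟨c, R₀, hc2, hs⟩ := sieve_upper (κ := 4) (by norm_num)
  refine ⟨(2 * Real.exp 36 + 256) * (2 * c) ^ 4, (2 ^ 2 ^ R₀) ^ c, by positivity, ?_⟩
  intro X1 y a a' b b' hX hy hyX ha ha' hb hb' hax ha'x haa hbb hab ha'b hab' ha'b' k1 k2 k3 k4 k5 k6
  -- the sieving range
  obtain ⟨R, hR, hRL, hRL'⟩ : ∃ R, R₀ ≤ R ∧ (2 ^ 2 ^ R) ^ c ≤ X1 ∧
      X1 < (2 ^ 2 ^ (R + 1)) ^ c := by
    have hex : ∃ i, X1 < (2 ^ 2 ^ (R₀ + i)) ^ c := by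
      refine ⟨X1, ?_⟩
      calc X1 < 2 ^ X1 := Nat.lt_two_pow_self
        _ ≤ 2 ^ 2 ^ (R₀ + X1) := by
          apply Nat.pow_le_pow_right (by norm_num)
          calc X1 ≤ 2 ^ X1 := Nat.lt_two_pow_self.le
            _ ≤ 2 ^ (R₀ + X1) := Nat.pow_le_pow_right (by norm_num) (by omega)
        _ = (2 ^ 2 ^ (R₀ + X1)) ^ 1 := (pow_one _).symm
        _ ≤ (2 ^ 2 ^ (R₀ + X1)) ^ c := Nat.pow_le_pow_right Nat.one_le_two_pow (by omega)
    classical
    obtain ⟨i, hi⟩ : ∃ i, i = Nat.find hex := ⟨_, rfl⟩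
    have hi1 : X1 < (2 ^ 2 ^ (R₀ + i)) ^ c := by
      rw [hi]
      exact Nat.find_spec hex
    have hi0 : i ≠ 0 := by
      intro h0
      rw [h0] at hi1
      simp only [add_zero] at hi1
      omega
    have hi2 : ¬ X1 < (2 ^ 2 ^ (R₀ + (i - 1))) ^ c := Nat.find_min hex (by omega)
    refine ⟨R₀ + (i - 1), by omega, not_lt.1 hi2, ?_⟩
    have h5 : R₀ + (i - 1) + 1 = R₀ + i := by omega
    rw [h5]
    exact hi1
  obtain ⟨z, hz⟩ : ∃ z : ℕ, z = 2 ^ 2 ^ R := ⟨_, rfl⟩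
  have hzz : 2 ^ 2 ^ (R + 1) = z ^ 2 := by
    rw [hz, ← pow_mul]
    congr 1
  have hz2 : 2 ≤ z := by
    rw [hz]
    calc 2 = 2 ^ 1 := rfl
      _ ≤ 2 ^ 2 ^ R := Nat.pow_le_pow_right (by norm_num) Nat.one_le_two_pow
  rw [hzz] at hRL'
  have hzc : (2 : ℝ) ^ 2 ^ R = z := by
    rw [hz]
    push_cast
    rfl
  have hzX : z ^ 2 ≤ X1 := by
    rw [← hz] at hRL
    exact (Nat.pow_le_pow_right (by omega) hc2).trans hRL
  have hbig : ∀ q : ℕ, q.Prime → X1 < q ^ 2 → z < q := by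
    intro q _ hq
    by_contra hcon
    have : q ^ 2 ≤ z ^ 2 := Nat.pow_le_pow_left (not_lt.1 hcon) 2
    omega
  have hza := hbig a ha hax
  have hza' := hbig a' ha' ha'x
  have hzb : z < b := hza.trans hab
  have hzb' : z < b' := hza.trans hab'
  have hnd : ∀ q : ℕ, q.Prime → z < q → ∀ p, p.Prime → p < z → ¬ p ∣ q := by
    intro q hq hzq p hp hpz hd
    have := (Nat.prime_dvd_prime_iff_eq hp hq).1 hd
    omega
  have hS : Sys 4 (Om4 z a a' b b') := sys_Om4 (hnd a ha hza) (hnd a' ha' hza') (hnd b hb hzb)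
    (hnd b' hb' hzb')
  have hmain := hs R hR (Om4 z a a' b b') hS 1 X1 hRL
  rw [← hz, hzc] at hmain
  -- the survivors
  have hsub : (Icc 1 X1).filter (fun h => (a + h).Prime ∧ (a' + h).Prime ∧ (b + h).Prime ∧
      (b' + h).Prime) ⊆ surv (Om4 z a a' b b') z 1 X1 := by
    intro n hn
    rw [mem_filter, mem_Icc] at hn
    obtain ⟨⟨n1, n2⟩, q1, q2, q3, q4⟩ := hn
    rw [mem_surv]
    refine ⟨⟨n1, by omega⟩, fun p hp hpz hmem => ?_⟩
    unfold Om4 at hmem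
    rw [if_pos hpz] at hmem
    simp only [mem_insert, mem_singleton] at hmem
    have hp0 := hp.pos
    rcases hmem with h5 | h5 | h5 | h5
    · have := (Nat.prime_dvd_prime_iff_eq hp q1).1 (fcl_dvd a hp0 h5)
      omega
    · have := (Nat.prime_dvd_prime_iff_eq hp q2).1 (fcl_dvd a' hp0 h5)
      omega
    · have := (Nat.prime_dvd_prime_iff_eq hp q3).1 (fcl_dvd b hp0 h5)
      omega
    · have := (Nat.prime_dvd_prime_iff_eq hp q4).1 (fcl_dvd b' hp0 h5)
      omega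
  have hcount := (show (((Icc 1 X1).filter (fun h => (a + h).Prime ∧ (a' + h).Prime ∧
    (b + h).Prime ∧ (b' + h).Prime)).card : ℝ) ≤ ((surv (Om4 z a a' b b') z 1 X1).card : ℝ) by
      exact_mod_cast Finset.card_le_card hsub).trans hmain
  -- the product
  have hy1 : 1 ≤ y := by omega
  have D1 : 0 < Nat.dist a a' := Nat.dist_pos_of_ne haa
  have D2 : 0 < Nat.dist b b' := Nat.dist_pos_of_ne hbb
  have hT : ∏ p ∈ (pr 2 z).filter (fun p => ¬ p ≤ y), TT a a' b b' p ^ 3 ≤ Real.exp 36 := by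
    have e : ∀ D, 0 < D → big y D ≤ y →
        0 ≤ ∏ p ∈ (pr 2 z).filter (fun p => ¬ p ≤ y), ff D p ∧
        ∏ p ∈ (pr 2 z).filter (fun p => ¬ p ≤ y), ff D p ≤ Real.exp 2 := by
      intro D hD hk
      refine ⟨Finset.prod_nonneg fun p hp => ?_, ff_big hD hy1 hk⟩
      have := one_le_ff D (mem_pr.1 (mem_filter.1 hp).1).2
      linarith
    rw [Finset.prod_pow]
    have h36 : Real.exp 36 = (Real.exp 2 * Real.exp 2 * Real.exp 2 * Real.exp 2 * Real.exp 2 *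
        Real.exp 2) ^ 3 := by
      rw [← Real.exp_add, ← Real.exp_add, ← Real.exp_add, ← Real.exp_add, ← Real.exp_add,
        ← Real.exp_nat_mul]
      norm_num
    rw [h36]
    unfold TT
    simp only [Finset.prod_mul_distrib]
    obtain ⟨f1, g1⟩ := e _ D1 k1
    obtain ⟨f2, g2⟩ := e _ D2 k2
    obtain ⟨f3, g3⟩ := e (b - a) (by omega) k3
    obtain ⟨f4, g4⟩ := e (b - a') (by omega) k4
    obtain ⟨f5, g5⟩ := e (b' - a) (by omega) k5
    obtain ⟨f6, g6⟩ := e (b' - a') (by omega) k6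
    apply pow_le_pow_left₀ (by positivity)
    apply mul_le_mul _ g6 f6 (by positivity)
    apply mul_le_mul _ g5 f5 (by positivity)
    apply mul_le_mul _ g4 f4 (by positivity)
    apply mul_le_mul _ g3 f3 (by positivity)
    exact mul_le_mul g1 g2 f2 (by positivity)
  have hpp : ∀ p ∈ pr 2 z, p.Prime ∧ p < z := fun p hp => ⟨(mem_pr.1 hp).2, (mem_pr.1 hp).1.2⟩
  have hfp : ∀ D, ∀ p ∈ pr 2 z, 0 < ff D p := fun D p hp => by
    have := one_le_ff D (hpp p hp).1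
    linarith
  have hvp : ∀ p ∈ pr 2 z, 0 < (1 - 1 / (p : ℝ))⁻¹ := fun p hp => by
    have := (fac_bd (hpp p hp).1).1
    linarith
  have hTT : ∀ p ∈ pr 2 z, 0 ≤ TT a a' b b' p ^ 3 := by
    intro p hp
    unfold TT
    have f1 := hfp (Nat.dist a a') p hp
    have f2 := hfp (Nat.dist b b') p hp
    have f3 := hfp (b - a) p hp
    have f4 := hfp (b - a') p hp
    have f5 := hfp (b' - a) p hp
    have f6 := hfp (b' - a') p hp
    positivity
  have hV1 : ∏ p ∈ pr 2 z, (1 - g (Om4 z a a' b b') p) ≤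
      (∏ p ∈ pr 2 z, (1 - 1 / (p : ℝ))) ^ 4 * ((((rho y)⁻¹) ^ 2 * RR y (b - a)) * Real.exp 36) := by
    apply prod_bound (y := y) _ (fun p => ((1 - 1 / (p : ℝ))⁻¹) ^ 2 * ff (b - a) p)
      (fun p => TT a a' b b' p ^ 3)
    · exact fun p hp => loc_nonneg hS (hpp p hp).1
    · intro p hp
      have := hfp (b - a) p hp
      have := hvp p hp
      positivity
    · exact hTT
    · exact fun p hp _ => loc_one (hpp p hp).1 (hpp p hp).2 hab
    · exact fun p hp _ => loc_big (hpp p hp).1 (hpp p hp).2 hab ha'b hab' ha'b'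
    · rw [Finset.prod_mul_distrib, Finset.prod_pow]
      apply mul_le_mul
      · apply pow_le_pow_left₀ _ (inv_small y z)
        exact Finset.prod_nonneg fun p hp => (hvp p (mem_filter.1 hp).1).le
      · exact ff_small (by omega)
      · exact Finset.prod_nonneg fun p hp => (hfp _ p (mem_filter.1 hp).1).le
      · positivity
    · exact hT
  have hV2 : ∏ p ∈ pr 2 z, (1 - g (Om4 z a a' b b') p) ≤
      (∏ p ∈ pr 2 z, (1 - 1 / (p : ℝ))) ^ 4 * (((rho y)⁻¹ * (RR y (b - a) *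
        RR y (Nat.dist a a') * RR y (b - a'))) * Real.exp 36) := by
    apply prod_bound (y := y) _ (fun p => (1 - 1 / (p : ℝ))⁻¹ * (ff (b - a) p *
      ff (Nat.dist a a') p * ff (b - a') p)) (fun p => TT a a' b b' p ^ 3)
    · exact fun p hp => loc_nonneg hS (hpp p hp).1
    · intro p hp
      have := hfp (b - a) p hp
      have := hfp (Nat.dist a a') p hp
      have := hfp (b - a') p hp
      have := hvp p hp
      positivity
    · exact hTT
    · exact fun p hp _ => loc_two (hpp p hp).1 (hpp p hp).2 hab ha'b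
    · exact fun p hp _ => loc_big (hpp p hp).1 (hpp p hp).2 hab ha'b hab' ha'b'
    · simp only [Finset.prod_mul_distrib]
      have hnn : ∀ D, 0 ≤ ∏ p ∈ (pr 2 z).filter (fun p => p ≤ y), ff D p := fun D =>
        Finset.prod_nonneg fun p hp => (hfp _ p (mem_filter.1 hp).1).le
      have hr := Pool.Agent.GBQ.rho_pos y
      have r1 := one_le_RR y (b - a)
      have r2 := one_le_RR y (Nat.dist a a')
      have r3 := one_le_RR y (b - a')
      have n1 := hnn (b - a)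
      have n2 := hnn (Nat.dist a a')
      have n3 := hnn (b - a')
      apply mul_le_mul (inv_small y z)
      · apply mul_le_mul _ (ff_small (by omega)) n3 (by positivity)
        exact mul_le_mul (ff_small (by omega)) (ff_small D1) n2 (by positivity)
      · positivity
      · exact (inv_pos.2 hr).le
    · exact hT
  -- the end
  have hlogz : 0 < Real.log z := Real.log_pos (by exact_mod_cast (show 1 < z by omega))
  have hz0 : (0 : ℝ) < z := by exact_mod_cast (show 0 < z by omega)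
  have hX0 : 1 < X1 := by nlinarith
  have hX1 : (1 : ℝ) < X1 := by exact_mod_cast hX0
  have hlogX : 0 < Real.log X1 := Real.log_pos hX1
  have hinv : 1 / (z : ℝ) ≤ 256 * (1 / Real.log z) ^ 4 := by
    rw [one_div_pow, mul_one_div, div_le_div_iff₀ hz0 (by positivity)]
    have := log_four_le (x := z) (by exact_mod_cast (show 1 ≤ z by omega))
    linarith
  have hlogLz : Real.log X1 ≤ 2 * c * Real.log z := by
    have h1 : (X1 : ℝ) ≤ (z : ℝ) ^ (2 * c) := by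
      rw [pow_mul]
      exact_mod_cast hRL'.le
    calc Real.log X1 ≤ Real.log ((z : ℝ) ^ (2 * c)) := Real.log_le_log (by linarith) h1
      _ = 2 * c * Real.log z := by
        rw [Real.log_pow]
        push_cast
        ring
  have hfrac : (1 / Real.log z) ^ 4 ≤ (2 * c) ^ 4 / Real.log X1 ^ 4 := by
    rw [← div_pow]
    apply pow_le_pow_left₀ (by positivity)
    rw [div_le_div_iff₀ hlogz hlogX]
    linarith
  have hP4 := P_four_le hz2
  have hend : ∀ W : ℝ, 1 ≤ W → ∏ p ∈ pr 2 z, (1 - g (Om4 z a a' b b') p) ≤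
      (∏ p ∈ pr 2 z, (1 - 1 / (p : ℝ))) ^ 4 * (W * Real.exp 36) →
      (((Icc 1 X1).filter (fun h => (a + h).Prime ∧ (a' + h).Prime ∧ (b + h).Prime ∧
      (b' + h).Prime)).card : ℝ) ≤ (2 * Real.exp 36 + 256) * (2 * c) ^ 4 * X1 /
        Real.log X1 ^ 4 * W := by
    intro W hW hV
    have g1 : ∏ p ∈ pr 2 z, (1 - g (Om4 z a a' b b') p) ≤
        (1 / Real.log z) ^ 4 * (W * Real.exp 36) :=
      hV.trans (mul_le_mul_of_nonneg_right hP4 (by positivity))
    have g2 : (X1 : ℝ) * (2 * ∏ p ∈ pr 2 z, (1 - g (Om4 z a a' b b') p)) ≤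
        X1 * (2 * ((1 / Real.log z) ^ 4 * (W * Real.exp 36))) :=
      mul_le_mul_of_nonneg_left (mul_le_mul_of_nonneg_left g1 (by norm_num)) (by linarith)
    have g3 : (X1 : ℝ) / z ≤ X1 * (256 * (1 / Real.log z) ^ 4 * W) := by
      calc (X1 : ℝ) / z = X1 * (1 / z) := by ring
        _ ≤ X1 * (256 * (1 / Real.log z) ^ 4 * W) := by
          apply mul_le_mul_of_nonneg_left _ (by linarith)
          exact hinv.trans (le_mul_of_one_le_right (by positivity) hW)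
    have g4 : (((Icc 1 X1).filter (fun h => (a + h).Prime ∧ (a' + h).Prime ∧ (b + h).Prime ∧
      (b' + h).Prime)).card : ℝ) ≤ X1 * (2 * Real.exp 36 + 256) * W * (1 / Real.log z) ^ 4 := by
      have e : (X1 : ℝ) * (2 * Real.exp 36 + 256) * W * (1 / Real.log z) ^ 4 =
        X1 * (2 * ((1 / Real.log z) ^ 4 * (W * Real.exp 36))) +
          X1 * (256 * (1 / Real.log z) ^ 4 * W) := by ring
      rw [e]
      linarith
    refine g4.trans ?_
    calc (X1 : ℝ) * (2 * Real.exp 36 + 256) * W * (1 / Real.log z) ^ 4 ≤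
        X1 * (2 * Real.exp 36 + 256) * W * ((2 * c) ^ 4 / Real.log X1 ^ 4) :=
          mul_le_mul_of_nonneg_left hfrac (by positivity)
      _ = _ := by ring
  have r1 := one_le_RR y (b - a)
  have r2 := one_le_RR y (Nat.dist a a')
  have r3 := one_le_RR y (b - a')
  have r4 := Pool.Agent.GBQ.one_le_rho_inv y
  have hW1 : 1 ≤ ((rho y)⁻¹) ^ 2 * RR y (b - a) :=
    one_le_mul_of_one_le_of_one_le (one_le_pow₀ r4) r1
  have hW2 : 1 ≤ (rho y)⁻¹ * (RR y (b - a) * RR y (Nat.dist a a') * RR y (b - a')) :=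
    one_le_mul_of_one_le_of_one_le r4 (one_le_mul_of_one_le_of_one_le
      (one_le_mul_of_one_le_of_one_le r1 r2) r3)
  have E1 := hend _ hW1 hV1
  have E2 := hend _ hW2 hV2
  rcases min_choice (((rho y)⁻¹) ^ 2) ((rho y)⁻¹ * RR y (Nat.dist a a') * RR y (b - a')) with h | h
  · rw [h]
    refine E1.trans (le_of_eq ?_)
    ring
  · rw [h]
    refine E2.trans (le_of_eq ?_)
    ring

end Pool.Agent.TSH
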