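import Mathlib
import Pool.Agent.TSH.Fin2
import Pool.Agent.TSH.Four
import Pool.Agent.TSH.BT2
import Pool.Agent.GBQ.Asm

set_option autoImplicit false

/-!
# TSH / Asm: assembly, and the special case of all `k`
-/

namespace Pool.Agent.TSH

open Finset Filter
open Pool.Agent.Helper20.TwinIndex (pr)

theorem sup : Pool.Agent.GBQ.St_Sup :=
  Pool.Agent.GBQ.thm_Sup' (Pool.Agent.GBQ.thm_SWAP Pool.Agent.GV.swap) Pool.Agent.GBQ.thm_Vin
    Pool.Agent.GBQ.thm_TypeI Pool.Agent.GBQ.thm_Geo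

theorem main' : Pool.Agent.GBQ.St_Main :=
  Pool.Agent.GBQ.thm_Main (Pool.Agent.GBQ.thm_BVw Pool.Agent.GV.bvw) Pool.Agent.GBQ.thm_Crt
    Pool.Agent.GBQ.thm_Bonf Pool.Agent.GBQ.thm_Esym Pool.Agent.GBQ.thm_Trunc Pool.Agent.GBQ.thm_Div

theorem core : St_Core := thm_Core (thm_First sup main') thm_Four thm_BT2

end Pool.Agent.TSH
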