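import Mathlib
import Pool.Agent.TSH.Asm

set_option autoImplicit false

/-!
# TSH / Final: the question with `2` replaced by `h` (MP_04e9b2_nt)
-/

namespace Pool.Agent.TSH

open Finset Filter
open Pool.Agent.Helper20.TwinIndex (pr)

/-- `DecH h n k m`: `n = k + m` with `k, m ≥ 1` such that `p_k + h` and `p_{p_m} + h` are prime. -/
def DecH (h n k m : ℕ) : Prop :=
  0 < k ∧ 0 < m ∧ k + m = n ∧ (pr k + h).Prime ∧ (pr (pr m) + h).Prime

open Classical in
/-- The number of `k ∈ K` such that `n = k + (n - k)` is a decomposition for the shift `h`. -/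
noncomputable def numDec (K : Finset ℕ) (h n : ℕ) : ℕ :=
  (K.filter (fun k => DecH h n k (n - k))).card

theorem rr_le_numDec {K : Finset ℕ} {n : ℕ} (hK : ∀ k ∈ K, 1 ≤ k ∧ k < n) (h : ℕ) :
    rr K pr (bn n) h ≤ numDec K h n := by
  classical
  unfold rr numDec
  apply Finset.card_le_card
  intro k hk
  obtain ⟨h1, h2, h3⟩ := mem_filter.1 hk
  obtain ⟨h4, h5⟩ := hK k h1
  rw [mem_filter]
  exact ⟨h1, h4, by omega, by omega, h2, h3⟩

theorem numDec_mono {K K' : Finset ℕ} (hK : K ⊆ K') (h n : ℕ) : numDec K h n ≤ numDec K' h n := by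
  classical
  exact Finset.card_le_card (Finset.filter_subset_filter _ hK)

open Classical in
theorem final (C : ℕ) : ∃ c : ℝ, 0 < c ∧ ∃ n₀ : ℕ, ∀ n H : ℕ, n₀ ≤ n →
    (n : ℝ) / Real.log n ^ C ≤ H → (H : ℝ) ≤ n * Real.log n →
    c * H / Real.log (Real.log (Real.log n)) ≤
      (((Icc 1 H).filter (fun h => c * H / Real.log n ^ 3 ≤ numDec (range n) h n)).card : ℝ) ∧
    ∀ K : Finset ℕ, (∀ k ∈ K, 1 ≤ k ∧ (k : ℝ) ≤ c * H / Real.log n) →
      (n : ℝ) / Real.log n ^ C ≤ K.card →
      c * max (H / Real.log (Real.log (Real.log n)) ^ 2)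
          (K.card * Real.log n / Real.log (Real.log (Real.log n))) ≤
        (((Icc 1 H).filter (fun h => c * K.card / Real.log n ^ 2 ≤ numDec K h n)).card : ℝ) := by
  obtain ⟨c₁, hc₁, h1⟩ := thm_S core (C + 2)
  obtain ⟨d, hd⟩ : ∃ d : ℝ, d = min c₁ (1 / 2) := ⟨_, rfl⟩
  have hd0 : 0 < d := by rw [hd]; positivity
  have hda : d ≤ c₁ := by rw [hd]; exact min_le_left _ _
  have hdb : d ≤ 1 / 2 := by rw [hd]; exact min_le_right _ _
  obtain ⟨c, hc⟩ : ∃ c : ℝ, c = d ^ 2 / 2 := ⟨_, rfl⟩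
  have hc0 : 0 < c := by rw [hc]; positivity
  have hcd : c ≤ d := by rw [hc]; nlinarith
  have hcc : c ≤ c₁ * (d / 2) := by rw [hc]; nlinarith
  have hlogT : Tendsto (fun X : ℕ => Real.log X) atTop atTop :=
    Real.tendsto_log_atTop.comp tendsto_natCast_atTop_atTop
  have hev := (h1.and ((hlogT.eventually_ge_atTop (2 / d)).and
    ((hlogT.eventually_ge_atTop 1).and ((tendsto_L3.eventually_ge_atTop 1).and
      ((tl (C + 1) d hd0).and (eventually_ge_atTop 3))))))
  obtain ⟨n₀, hn₀⟩ := eventually_atTop.1 hev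
  refine ⟨c, hc0, n₀, fun n H hn hH1 hH2 => ?_⟩
  obtain ⟨h1, hl1, hl2, hL3, htl, hn3⟩ := hn₀ n hn
  obtain ⟨ℓ, hℓ⟩ : ∃ ℓ : ℝ, ℓ = L3 n := ⟨_, rfl⟩
  have hℓ' : Real.log (Real.log (Real.log n)) = ℓ := by rw [hℓ]; rfl
  rw [← hℓ] at hL3 h1
  rw [hℓ']
  have hℓ0 : 0 < ℓ := by linarith
  obtain ⟨L, hL⟩ : ∃ L : ℝ, L = Real.log n := ⟨_, rfl⟩
  rw [← hL] at h1 hl1 hl2 htl hH1 hH2 ⊢
  have hL0 : 0 < L := by linarith
  have hn' : (3 : ℝ) ≤ n := by exact_mod_cast hn3
  have hH0 : (0 : ℝ) ≤ H := Nat.cast_nonneg H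
  have hweak : (n : ℝ) / L ^ (C + 2) ≤ n / L ^ C := by
    apply div_le_div_of_nonneg_left (by linarith) (by positivity)
    exact pow_le_pow_right₀ hl2 (by omega)
  have hkn : ∀ k : ℕ, (k : ℝ) ≤ d * H / L → k < n := by
    intro k hk
    have h2 : d * H / L ≤ n / 2 := by
      rw [div_le_iff₀ hL0]
      have h3 : d * H ≤ 1 / 2 * (n * L) := mul_le_mul hdb hH2 hH0 (by norm_num)
      linarith
    have h3 : (k : ℝ) < n := by linarith
    exact_mod_cast h3
  refine ⟨?_, ?_⟩
  · -- all `k`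
    obtain ⟨N, hN⟩ : ∃ N : ℕ, N = ⌊d * H / L⌋₊ := ⟨_, rfl⟩
    have hx : (n : ℝ) / L ^ (C + 2) ≤ d * H / L / 2 := by
      have h2 : d * (n / L ^ C) ≤ d * H := mul_le_mul_of_nonneg_left hH1 hd0.le
      have h3 : 2 ≤ d * L := by
        rw [div_le_iff₀ hd0] at hl1
        linarith
      calc (n : ℝ) / L ^ (C + 2) = 2 * (n / L ^ C) / L / L / 2 := by
            rw [pow_add]
            field_simp
        _ ≤ (d * L) * (n / L ^ C) / L / L / 2 := by
            apply div_le_div_of_nonneg_right _ (by norm_num)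
            apply div_le_div_of_nonneg_right _ hL0.le
            apply div_le_div_of_nonneg_right _ hL0.le
            exact mul_le_mul_of_nonneg_right h3 (by positivity)
        _ = d * (n / L ^ C) / L / 2 := by
            field_simp
        _ ≤ d * H / L / 2 := by
            apply div_le_div_of_nonneg_right _ (by norm_num)
            exact div_le_div_of_nonneg_right h2 hL0.le
    have hx1 : 1 ≤ d * H / L := by
      have h2 : (1 : ℝ) ≤ d * (n / L ^ C) / L := by
        rw [le_div_iff₀ hL0, one_mul, mul_div_assoc', le_div_iff₀ (by positivity)]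
        have h3 : L * L ^ C = L ^ (C + 1) := by ring
        rw [h3]
        refine htl.trans ?_
        apply mul_le_mul_of_nonneg_left _ hd0.le
        have h4 : Real.sqrt n * Real.sqrt n = n := Real.mul_self_sqrt (by linarith)
        have h5 : 1 ≤ Real.sqrt n := by
          rw [Real.one_le_sqrt]
          linarith
        nlinarith
      refine h2.trans ?_
      apply div_le_div_of_nonneg_right _ hL0.le
      exact mul_le_mul_of_nonneg_left hH1 hd0.le
    have hN1 : d * H / L / 2 ≤ N := by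
      have h2 : d * H / L < N + 1 := by
        rw [hN]
        exact Nat.lt_floor_add_one _
      have h3 : (1 : ℝ) ≤ N := by
        have : 1 ≤ N := by
          rw [hN]
          exact Nat.le_floor (by exact_mod_cast hx1)
        exact_mod_cast this
      linarith
    have hN2 : (N : ℝ) ≤ d * H / L := by
      rw [hN]
      exact Nat.floor_le (by positivity)
    have hK : ∀ k ∈ Icc 1 N, 1 ≤ k ∧ (k : ℝ) ≤ d * H / L := by
      intro k hk
      obtain ⟨e1, e2⟩ := Finset.mem_Icc.1 hk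
      have e3 : (k : ℝ) ≤ N := by exact_mod_cast e2
      exact ⟨e1, e3.trans hN2⟩
    have h2 := h1 H (hweak.trans hH1) hH2 (Icc 1 N) (fun k hk => ⟨(hK k hk).1, (hK k hk).2.trans (by
      apply div_le_div_of_nonneg_right _ hL0.le
      exact mul_le_mul_of_nonneg_right hda hH0)⟩) (by
      rw [Nat.card_Icc, Nat.add_sub_cancel]
      exact hx.trans hN1)
    rw [Nat.card_Icc, Nat.add_sub_cancel] at h2
    have h3 : c * H / ℓ ≤ c₁ * max ((H : ℝ) / ℓ ^ 2) (N * L / ℓ) := by
      calc c * H / ℓ ≤ c₁ * (d / 2) * H / ℓ := by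
            apply div_le_div_of_nonneg_right _ hℓ0.le
            exact mul_le_mul_of_nonneg_right hcc hH0
        _ = c₁ * ((d * H / L / 2) * L / ℓ) := by
            field_simp
        _ ≤ c₁ * (N * L / ℓ) := by
            apply mul_le_mul_of_nonneg_left _ hc₁.le
            apply div_le_div_of_nonneg_right _ hℓ0.le
            exact mul_le_mul_of_nonneg_right hN1 hL0.le
        _ ≤ _ := mul_le_mul_of_nonneg_left (le_max_right _ _) hc₁.le
    refine h3.trans (h2.trans ?_)
    norm_cast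
    apply Finset.card_le_card
    intro h hh
    obtain ⟨e1, e2⟩ := mem_filter.1 hh
    rw [mem_filter]
    refine ⟨e1, ?_⟩
    have e3 : rr (Icc 1 N) pr (bn n) h ≤ numDec (range n) h n :=
      (rr_le_numDec (fun k hk => ⟨(hK k hk).1, hkn k (hK k hk).2⟩) h).trans
        (numDec_mono (fun k hk => mem_range.2 (hkn k (hK k hk).2)) h n)
    have e4 : ((rr (Icc 1 N) pr (bn n) h : ℕ) : ℝ) ≤ (numDec (range n) h n : ℕ) := by
      exact_mod_cast e3
    refine le_trans ?_ (e2.trans e4)
    calc c * H / L ^ 3 ≤ c₁ * (d / 2) * H / L ^ 3 := by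
          apply div_le_div_of_nonneg_right _ (by positivity)
          exact mul_le_mul_of_nonneg_right hcc hH0
      _ = c₁ * (d * H / L / 2) / L ^ 2 := by
          field_simp
      _ ≤ c₁ * N / L ^ 2 := by
          apply div_le_div_of_nonneg_right _ (by positivity)
          exact mul_le_mul_of_nonneg_left hN1 hc₁.le
  · intro K hK hKc
    have hcL : c * H / L ≤ d * H / L := by
      apply div_le_div_of_nonneg_right _ hL0.le
      exact mul_le_mul_of_nonneg_right hcd hH0
    have h2 := h1 H (hweak.trans hH1) hH2 K (fun k hk => ⟨(hK k hk).1, (hK k hk).2.trans (by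
      apply div_le_div_of_nonneg_right _ hL0.le
      exact mul_le_mul_of_nonneg_right (hcd.trans hda) hH0)⟩) (hweak.trans hKc)
    have h3 : c * max ((H : ℝ) / ℓ ^ 2) (K.card * L / ℓ) ≤
        c₁ * max ((H : ℝ) / ℓ ^ 2) (K.card * L / ℓ) := by
      apply mul_le_mul_of_nonneg_right (hcd.trans hda)
      exact le_max_of_le_left (by positivity)
    refine h3.trans (h2.trans ?_)
    norm_cast
    apply Finset.card_le_card
    intro h hh
    obtain ⟨e1, e2⟩ := mem_filter.1 hh
    rw [mem_filter]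
    refine ⟨e1, ?_⟩
    have e3 : rr K pr (bn n) h ≤ numDec K h n :=
      rr_le_numDec (fun k hk => ⟨(hK k hk).1, hkn k ((hK k hk).2.trans hcL)⟩) h
    have e4 : ((rr K pr (bn n) h : ℕ) : ℝ) ≤ (numDec K h n : ℕ) := by exact_mod_cast e3
    refine le_trans ?_ (e2.trans e4)
    apply div_le_div_of_nonneg_right _ (by positivity)
    exact mul_le_mul_of_nonneg_right (hcd.trans hda) (Nat.cast_nonneg _)

open Classical in
/-- The form of `final` which is handed in. -/
theorem final' (C : ℕ) : ∃ c : ℝ, 0 < c ∧ ∃ n₀ : ℕ, ∀ n H : ℕ, n₀ ≤ n →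
    (H : ℝ) ≤ n * Real.log n →
    ∀ K : Finset ℕ, (∀ k ∈ K, 1 ≤ k ∧ (k : ℝ) ≤ c * H / Real.log n) →
      (n : ℝ) / Real.log n ^ C ≤ K.card →
      c * max (H / Real.log (Real.log (Real.log n)) ^ 2)
          (K.card * Real.log n / Real.log (Real.log (Real.log n))) ≤
        (((Icc 1 H).filter (fun h => c * K.card / Real.log n ^ 2 ≤ numDec K h n)).card : ℝ) := by
  obtain ⟨c, hc, n₁, h⟩ := final C
  have hlogT : Tendsto (fun X : ℕ => Real.log X) atTop atTop :=
    Real.tendsto_log_atTop.comp tendsto_natCast_atTop_atTop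
  obtain ⟨n₂, hn₂⟩ := eventually_atTop.1
    ((hlogT.eventually_ge_atTop c).and (hlogT.eventually_ge_atTop 1))
  refine ⟨c, hc, max n₁ n₂, fun n H hn hH K hK hKc => ?_⟩
  obtain ⟨hl1, hl2⟩ := hn₂ n ((le_max_right _ _).trans hn)
  refine (h n H ((le_max_left _ _).trans hn) ?_ hH).2 K hK hKc
  have hL0 : 0 < Real.log n := by linarith
  refine hKc.trans ?_
  have h1 : K ⊆ Icc 1 ⌊c * H / Real.log n⌋₊ := fun k hk =>
    Finset.mem_Icc.2 ⟨(hK k hk).1, Nat.le_floor (hK k hk).2⟩
  have h2 : (K.card : ℝ) ≤ c * H / Real.log n := by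
    have h3 := Finset.card_le_card h1
    rw [Nat.card_Icc, Nat.add_sub_cancel] at h3
    have h4 : (K.card : ℝ) ≤ (⌊c * H / Real.log n⌋₊ : ℕ) := by exact_mod_cast h3
    exact h4.trans (Nat.floor_le (by positivity))
  refine h2.trans ?_
  rw [div_le_iff₀ hL0, mul_comm]
  exact mul_le_mul_of_nonneg_left hl1 (Nat.cast_nonneg H)

end Pool.Agent.TSH
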