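import Mathlib
import Pool.Agent.TSH.Fin
import Pool.Agent.TCH.IDX

set_option autoImplicit false

/-!
# TSH / CT3: consecutive primes in a tuple and the gap after `p_{p_m}`
-/

namespace Pool.Agent.TSH

open Finset Filter
open Pool.Agent.Helper20.TwinIndex (pr pr_prime pr_strictMono pr_mono pi_pr lt_pr)
open Pool.Agent.TCH (pj IDX_pj_pi IDX_pi IDX_bad2)

/-- the next prime -/
theorem pr_next {k q : ℕ} (hk : 1 ≤ k) (hq : q.Prime) (hlt : pr k < q)
    (hno : ∀ x, pr k < x → x < q → ¬ x.Prime) : pr (k + 1) = q := by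
  obtain ⟨h1, h2⟩ := IDX_pj_pi hq
  have h3 : pr (Nat.primeCounting q) = q := h2
  have h4 : k < Nat.primeCounting q := by
    by_contra hcon
    have := pr_mono (not_lt.1 hcon)
    omega
  have h5 : pr (k + 1) ≤ q := by
    rw [← h3]
    exact pr_mono h4
  rcases Nat.lt_or_ge (pr (k + 1)) q with h6 | h6
  · exact absurd (pr_prime (k + 1)) (hno _ (pr_strictMono hk (Nat.lt_succ_self k)) h6)
  · exact le_antisymm h5 h6

/-- the first `r + 1` elements of `R` -/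
noncomputable def gR (R : Finset ℕ) (r : ℕ) (h : r + 1 ≤ R.card) (i : Fin (r + 1)) : ℕ :=
  R.orderEmbOfFin rfl (Fin.castLE h i)

theorem gR_mono (R : Finset ℕ) (r : ℕ) (h : r + 1 ≤ R.card) : StrictMono (gR R r h) := by
  intro i j hij
  unfold gR
  apply (R.orderEmbOfFin rfl).strictMono
  exact hij

theorem gR_mem (R : Finset ℕ) (r : ℕ) (h : r + 1 ≤ R.card) (i : Fin (r + 1)) : gR R r h i ∈ R := by
  unfold gR
  exact Finset.orderEmbOfFin_mem _ _ _

theorem gR_gap (R : Finset ℕ) (r : ℕ) (h : r + 1 ≤ R.card) (i : ℕ) (hi : i + 1 < r + 1) (x : ℕ)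
    (hx : x ∈ R) (h1 : gR R r h ⟨i, by omega⟩ < x) (h2 : x < gR R r h ⟨i + 1, hi⟩) : False := by
  have hx' : x ∈ Set.range (R.orderEmbOfFin rfl) := by
    rw [Finset.range_orderEmbOfFin]
    exact hx
  obtain ⟨j, rfl⟩ := hx'
  unfold gR at h1 h2
  rw [(R.orderEmbOfFin rfl).lt_iff_lt, Fin.lt_def] at h1 h2
  simp only [Fin.val_castLE] at h1 h2
  omega

/-- consecutive primes in the tuple -/
theorem tuple_index (R : Finset ℕ) (r : ℕ) (h : r + 1 ≤ R.card) (B a : ℕ)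
    (hB : ∀ x ∈ R, x ≤ B) (ha : ∀ j ≤ B, ((a + j).Prime ↔ j ∈ R)) (i : Fin (r + 1)) :
    pr (Nat.primeCounting (a + gR R r h 0) + i) = a + gR R r h i := by
  obtain ⟨i, hi⟩ := i
  induction i with
  | zero =>
    have h0 := gR_mem R r h 0
    have h1 := (ha _ (hB _ h0)).2 h0
    have h2 : pr (Nat.primeCounting (a + gR R r h 0)) = a + gR R r h 0 := (IDX_pj_pi h1).2
    rw [show ((⟨0, hi⟩ : Fin (r + 1)) : ℕ) = 0 from rfl, Nat.add_zero, h2]
    rfl
  | succ i ih =>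
    have ih' := ih (by omega)
    have hm := gR_mem R r h ⟨i + 1, hi⟩
    have h0 := gR_mem R r h 0
    have h1 := (ha _ (hB _ h0)).2 h0
    have hk := (IDX_pj_pi h1).1
    have hlt : gR R r h ⟨i, by omega⟩ < gR R r h ⟨i + 1, hi⟩ :=
      gR_mono R r h (by rw [Fin.lt_def]; exact Nat.lt_succ_self i)
    have h3 : ((⟨i, by omega⟩ : Fin (r + 1)) : ℕ) = i := rfl
    rw [h3] at ih'
    have h4 : ((⟨i + 1, hi⟩ : Fin (r + 1)) : ℕ) = i + 1 := rfl
    rw [h4, ← Nat.add_assoc]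
    apply pr_next (by omega) ((ha _ (hB _ hm)).2 hm)
    · rw [ih']
      omega
    · intro x hx1 hx2 hxp
      rw [ih'] at hx1
      obtain ⟨j, rfl⟩ : ∃ j, x = a + j := ⟨x - a, by omega⟩
      have hjB : j ≤ B := by
        have := hB _ hm
        omega
      exact gR_gap R r h i hi j ((ha j hjB).1 hxp) (by omega) (by omega)

/-- the number of the `k` -/
theorem tuple_card (R : Finset ℕ) (r : ℕ) (h : r + 1 ≤ R.card) (B n : ℕ) (hn : 2 ≤ n)
    (hB : ∀ x ∈ R, x ≤ B) (N : ℕ) (hN : N + B ≤ pr (n - 1)) [DecidablePred fun a =>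
      ∀ j ≤ B, ((a + j).Prime ↔ j ∈ R)] [DecidablePred fun k =>
      ∀ i : Fin (r + 1), pr (k + i) = pr k + (gR R r h i - gR R r h 0)] :
    ((range (N + 1)).filter (fun a => ∀ j ≤ B, ((a + j).Prime ↔ j ∈ R))).card ≤
      ((Icc 1 (n - 1)).filter (fun k => ∀ i : Fin (r + 1),
        pr (k + i) = pr k + (gR R r h i - gR R r h 0))).card := by
  apply Finset.card_le_card_of_injOn (fun a => Nat.primeCounting (a + gR R r h 0))
  · intro a ha
    simp only [coe_filter, mem_range, Set.mem_ofPred_eq, mem_Icc] at ha ⊢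
    obtain ⟨h1, h2⟩ := ha
    have h0 := gR_mem R r h 0
    have h3 := (h2 _ (hB _ h0)).2 h0
    obtain ⟨h4, h5⟩ := IDX_pj_pi h3
    have h5' : pr (Nat.primeCounting (a + gR R r h 0)) = a + gR R r h 0 := h5
    refine ⟨⟨h4, ?_⟩, fun i => ?_⟩
    · have h6 : Nat.primeCounting (a + gR R r h 0) ≤ Nat.primeCounting (pj (n - 1)) :=
        Nat.monotone_primeCounting (by
          have h7 : pj (n - 1) = pr (n - 1) := rfl
          have h8 := hB _ h0
          omega)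
      rwa [IDX_pi (by omega)] at h6
    · rw [tuple_index R r h B a hB h2 i, h5']
      have h7 : gR R r h 0 ≤ gR R r h i := (gR_mono R r h).monotone (Fin.zero_le i)
      omega
  · intro a ha b hb hab
    simp only [coe_filter, mem_range, Set.mem_ofPred_eq] at ha hb
    have h0 := gR_mem R r h 0
    have h3 := (IDX_pj_pi ((ha.2 _ (hB _ h0)).2 h0)).2
    have h4 := (IDX_pj_pi ((hb.2 _ (hB _ h0)).2 h0)).2
    simp only at hab
    rw [hab] at h3
    omega

open Classical in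
/-- the tuple in terms of the indices -/
theorem tuple_many (r : ℕ) (H : Finset ℕ) (C₀ : ℕ)
    (hcl : ∀ᶠ N : ℕ in atTop, ∃ R : Finset ℕ, R ⊆ H ∧ r + 1 ≤ R.card ∧
      (N : ℝ) / Real.log N ^ C₀ ≤ (((range (N + 1)).filter (fun a =>
        ∀ j ≤ H.sup id, ((a + j).Prime ↔ j ∈ R))).card : ℝ)) :
    ∀ᶠ n : ℕ in atTop, ∃ g : Fin (r + 1) → ℕ, StrictMono g ∧ (∀ i, g i ∈ H) ∧
      (n : ℝ) / Real.log n ^ (C₀ + 1) ≤ (((Icc 1 (n - 1)).filter (fun k =>
        ∀ i : Fin (r + 1), pr (k + i) = pr k + (g i - g 0))).card : ℝ) := by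
  obtain ⟨N₀, hN₀⟩ := eventually_atTop.1 hcl
  obtain ⟨B, hB⟩ : ∃ B : ℕ, B = H.sup id := ⟨_, rfl⟩
  rw [← hB] at hN₀
  have hlogT : Tendsto (fun X : ℕ => Real.log X) atTop atTop :=
    Real.tendsto_log_atTop.comp tendsto_natCast_atTop_atTop
  filter_upwards [eventually_ge_atTop (N₀ + B + 1), eventually_ge_atTop (2 * B + 4),
    eventually_ge_atTop 400,
    hlogT.eventually_ge_atTop (2 * 3 ^ C₀ : ℝ)] with n hn hnB hn4 hlog
  have hn' : (400 : ℝ) ≤ n := by exact_mod_cast hn4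
  obtain ⟨P, hP⟩ : ∃ P : ℕ, P = pr (n - 1) := ⟨_, rfl⟩
  have h2 : n - 1 < P := by rw [hP]; exact lt_pr (by omega)
  obtain ⟨N, hN⟩ : ∃ N : ℕ, N = P - B := ⟨_, rfl⟩
  obtain ⟨R, hRH, hRc, h3⟩ := hN₀ N (by omega)
  have hRB : ∀ x ∈ R, x ≤ B := by
    intro x hx
    rw [hB]
    exact Finset.le_sup (f := id) (hRH hx)
  refine ⟨gR R r hRc, gR_mono R r hRc, fun i => hRH (gR_mem R r hRc i), ?_⟩
  have h4 := tuple_card R r hRc B n (by omega) hRB N (by omega)
  refine le_trans ?_ (h3.trans (by exact_mod_cast h4))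
  have h7 := log_pr (j := n - 1) (n := n) (by omega) (by omega) hn4
  rw [← hP] at h7
  have hln : 0 < Real.log n := Real.log_pos (by linarith)
  have hN2 : (n : ℝ) / 2 ≤ N := by
    have h8 : n ≤ 2 * N := by omega
    have h9 : (n : ℝ) ≤ 2 * N := by exact_mod_cast h8
    linarith
  have hlN : 0 < Real.log N := Real.log_pos (by linarith)
  have hlNP : Real.log N ≤ Real.log P := by
    apply Real.log_le_log (by linarith)
    have : N ≤ P := by omega
    exact_mod_cast this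
  calc (n : ℝ) / Real.log n ^ (C₀ + 1) = n / (Real.log n ^ C₀ * Real.log n) := by rw [pow_succ]
    _ ≤ n / (Real.log n ^ C₀ * (2 * 3 ^ C₀)) := by
        apply div_le_div_of_nonneg_left (by linarith) (by positivity)
        exact mul_le_mul_of_nonneg_left hlog (by positivity)
    _ = (n / 2) / (3 * Real.log n) ^ C₀ := by
        rw [mul_pow]
        field_simp
    _ ≤ N / Real.log N ^ C₀ := by
        apply div_le_div₀ (by linarith) hN2 (by positivity)
        exact pow_le_pow_left₀ hlN.le (hlNP.trans h7) C₀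

open Classical in
/-- **Consecutive primes in a tuple and the gap after `p_{p_m}`.** -/
theorem consec_final (r : ℕ) (H : Finset ℕ) (C₀ : ℕ)
    (hcl : ∀ᶠ N : ℕ in atTop, ∃ R : Finset ℕ, R ⊆ H ∧ r + 1 ≤ R.card ∧
      (N : ℝ) / Real.log N ^ C₀ ≤ (((range (N + 1)).filter (fun a =>
        ∀ j ≤ H.sup id, ((a + j).Prime ↔ j ∈ R))).card : ℝ)) :
    ∃ C : ℕ, ∀ᶠ n : ℕ in atTop, ∃ (g : Fin (r + 1) → ℕ) (h : ℕ), StrictMono g ∧ (∀ i, g i ∈ H) ∧
      1 ≤ h ∧ (h : ℝ) ≤ Real.log n ^ C ∧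
      (n : ℝ) / Real.log n ^ C ≤ (((Icc 1 (n - 1)).filter (fun k =>
        (∀ i : Fin (r + 1), pr (k + i) = pr k + (g i - g 0)) ∧
          pr (pr (n - k) + 1) = pr (pr (n - k)) + h)).card : ℝ) := by
  obtain ⟨C, hC⟩ : ∃ C : ℕ, C = C₀ + 1 := ⟨_, rfl⟩
  have h1 := tuple_many r H C₀ hcl
  rw [← hC] at h1
  refine ⟨2 * C + 4, ?_⟩
  have hlogT : Tendsto (fun X : ℕ => Real.log X) atTop atTop :=
    Real.tendsto_log_atTop.comp tendsto_natCast_atTop_atTop
  filter_upwards [h1, eventually_ge_atTop 400, hlogT.eventually_ge_atTop (7200 : ℝ)] with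
    n h1 hn4 hlog
  obtain ⟨g, hg1, hg2, hcard⟩ := h1
  have hn' : (400 : ℝ) ≤ n := by exact_mod_cast hn4
  obtain ⟨L, hL⟩ : ∃ L : ℝ, L = Real.log n := ⟨_, rfl⟩
  rw [← hL] at hcard hlog ⊢
  have hL0 : 0 < L := by linarith
  have hL1 : 1 ≤ L := by linarith
  obtain ⟨K, hK⟩ : ∃ K : Finset ℕ, K = (Icc 1 (n - 1)).filter (fun k =>
    ∀ i : Fin (r + 1), pr (k + i) = pr k + (g i - g 0)) := ⟨_, rfl⟩
  rw [← hK] at hcard
  -- the gap
  obtain ⟨T, hT⟩ : ∃ T : ℝ, T = L ^ (C + 3) := ⟨_, rfl⟩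
  have hT0 : 0 < T := by rw [hT]; positivity
  obtain ⟨Bd, hBd⟩ : ∃ Bd : Finset ℕ, Bd = (Icc 1 (n - 1)).filter (fun k =>
      ¬ ((pj (pj (n - k) + 1) : ℝ) ≤ pj (pj (n - k)) + T)) := ⟨_, rfl⟩
  have hbad : (Bd.card : ℝ) ≤ n / L ^ C / 2 := by
    have e1 := IDX_bad2 (n := n) (by omega) T hT0.le
    rw [← hBd] at e1
    have e2 := (pp_bd (m := n) (n := n) hn4 (by omega) le_rfl).2
    rw [← hL] at e2
    have e3 : (Bd.card : ℝ) * T ≤ 3600 * (n * L ^ 2) := e1.trans e2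
    have e4 : (Bd.card : ℝ) ≤ 3600 * (n * L ^ 2) / T := by
      rw [le_div_iff₀ hT0]
      exact e3
    refine e4.trans ?_
    have e5 : 3600 * ((n : ℝ) * L ^ 2) / T = 3600 / L * (n / L ^ C) := by
      rw [hT, pow_add]
      field_simp
    rw [e5]
    have e6 : 3600 / L ≤ 1 / 2 := by
      rw [div_le_div_iff₀ hL0 (by norm_num)]
      linarith
    have e7 : (0 : ℝ) ≤ n / L ^ C := by positivity
    nlinarith
  obtain ⟨K', hK'⟩ : ∃ K' : Finset ℕ, K' = K \ Bd := ⟨_, rfl⟩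
  have hK'c : (n : ℝ) / L ^ C / 2 ≤ K'.card := by
    have e1 : K ⊆ K' ∪ Bd := by
      intro t ht
      rw [hK', Finset.mem_union, Finset.mem_sdiff]
      by_cases h5 : t ∈ Bd
      · exact Or.inr h5
      · exact Or.inl ⟨ht, h5⟩
    have e2 : (K.card : ℝ) ≤ K'.card + Bd.card := by
      exact_mod_cast (Finset.card_le_card e1).trans (Finset.card_union_le _ _)
    linarith
  -- pigeonhole
  obtain ⟨Q, hQ⟩ : ∃ Q : ℕ → Finset ℕ, Q = fun h => K'.filter (fun k =>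
    pr (pr (n - k) + 1) = pr (pr (n - k)) + h) := ⟨_, rfl⟩
  obtain ⟨F, hF⟩ : ∃ F : ℕ, F = ⌊T⌋₊ := ⟨_, rfl⟩
  have hcov : K' ⊆ (Icc 1 F).biUnion Q := by
    intro k hk
    have hk0 := hk
    rw [hK', Finset.mem_sdiff] at hk
    obtain ⟨hk1, hk2⟩ := hk
    rw [hK] at hk1
    obtain ⟨hk3, _⟩ := mem_filter.1 hk1
    have hk4 : (pj (pj (n - k) + 1) : ℝ) ≤ pj (pj (n - k)) + T := by
      by_contra hcon
      apply hk2
      rw [hBd, mem_filter]
      exact ⟨hk3, hcon⟩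
    obtain ⟨q, hq⟩ : ∃ q : ℕ, q = pr (n - k) := ⟨_, rfl⟩
    have hk4' : (pr (q + 1) : ℝ) ≤ pr q + T := by
      rw [hq]
      exact hk4
    have hq1 : 1 ≤ q := by rw [hq]; exact (pr_prime _).one_le
    have hlt : pr q < pr (q + 1) := pr_strictMono hq1 (Nat.lt_succ_self q)
    rw [Finset.mem_biUnion]
    refine ⟨pr (q + 1) - pr q, ?_, ?_⟩
    · rw [Finset.mem_Icc]
      refine ⟨by omega, ?_⟩
      rw [hF]
      apply Nat.le_floor
      rw [Nat.cast_sub hlt.le]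
      linarith
    · rw [hQ]
      simp only
      rw [mem_filter]
      refine ⟨hk0, ?_⟩
      rw [← hq]
      omega
  have hK'0 : 0 < (K'.card : ℝ) := lt_of_lt_of_le (by positivity) hK'c
  have hpig : ∃ h ∈ Icc 1 F, (K'.card : ℝ) / T ≤ ((Q h).card : ℝ) := by
    by_contra hcon
    push Not at hcon
    have e1 : (K'.card : ℝ) ≤ ∑ h ∈ Icc 1 F, ((Q h).card : ℝ) := by
      exact_mod_cast (Finset.card_le_card hcov).trans Finset.card_biUnion_le
    have hne : (Icc 1 F).Nonempty := by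
      by_contra hcon2
      rw [Finset.not_nonempty_iff_eq_empty] at hcon2
      rw [hcon2, Finset.sum_empty] at e1
      linarith
    have e3 := Finset.sum_lt_sum_of_nonempty hne hcon
    rw [Finset.sum_const, nsmul_eq_mul, Nat.card_Icc, Nat.add_sub_cancel] at e3
    have e4 : (F : ℝ) ≤ T := by rw [hF]; exact Nat.floor_le hT0.le
    have e5 : (F : ℝ) * ((K'.card : ℝ) / T) ≤ K'.card := by
      calc (F : ℝ) * ((K'.card : ℝ) / T) ≤ T * ((K'.card : ℝ) / T) :=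
            mul_le_mul_of_nonneg_right e4 (by positivity)
        _ = K'.card := by field_simp
    linarith
  obtain ⟨h, hh, hQc⟩ := hpig
  rw [Finset.mem_Icc] at hh
  refine ⟨g, h, hg1, hg2, hh.1, ?_, ?_⟩
  · have e1 : (h : ℝ) ≤ F := by exact_mod_cast hh.2
    have e2 : (F : ℝ) ≤ T := by rw [hF]; exact Nat.floor_le hT0.le
    refine (e1.trans e2).trans ?_
    rw [hT]
    exact pow_le_pow_right₀ hL1 (by omega)
  · have e1 : ((Q h).card : ℝ) ≤ (((Icc 1 (n - 1)).filter (fun k =>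
        (∀ i : Fin (r + 1), pr (k + i) = pr k + (g i - g 0)) ∧
          pr (pr (n - k) + 1) = pr (pr (n - k)) + h)).card : ℝ) := by
      norm_cast
      apply Finset.card_le_card
      intro k hk
      rw [hQ] at hk
      simp only at hk
      obtain ⟨e2, e3⟩ := mem_filter.1 hk
      rw [hK', Finset.mem_sdiff, hK] at e2
      obtain ⟨e4, e5⟩ := mem_filter.1 e2.1
      exact mem_filter.2 ⟨e4, e5, e3⟩
    refine le_trans ?_ (hQc.trans e1)
    rw [hT, le_div_iff₀ (by positivity)]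
    refine le_trans ?_ hK'c
    have e6 : (n : ℝ) / L ^ (2 * C + 4) * L ^ (C + 3) = n / L ^ C / L := by
      have : 2 * C + 4 = C + (C + 3) + 1 := by ring
      rw [this, pow_succ, pow_add L C (C + 3)]
      field_simp
    rw [e6]
    apply div_le_div_of_nonneg_left (by positivity) (by norm_num)
    linarith

open Classical in
/-- the same with a sequence `g` -/
theorem consec_final' (r : ℕ) (H : Finset ℕ) (C₀ : ℕ)
    (hcl : ∀ᶠ N : ℕ in atTop, ∃ R : Finset ℕ, R ⊆ H ∧ r + 1 ≤ R.card ∧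
      (N : ℝ) / Real.log N ^ C₀ ≤ (((range (N + 1)).filter (fun a =>
        ∀ j ≤ H.sup id, ((a + j).Prime ↔ j ∈ R))).card : ℝ)) :
    ∃ C : ℕ, ∀ᶠ n : ℕ in atTop, ∃ g : ℕ → ℕ, (∀ i ≤ r, g i ∈ H) ∧ (∀ i < r, g i < g (i + 1)) ∧
      ∃ h : ℕ, 1 ≤ h ∧ (h : ℝ) ≤ Real.log n ^ C ∧
      (n : ℝ) / Real.log n ^ C ≤ (((Icc 1 (n - 1)).filter (fun k =>
        (∀ i ≤ r, pr (k + i) + g 0 = pr k + g i) ∧
          pr (pr (n - k) + 1) = pr (pr (n - k)) + h)).card : ℝ) := by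
  obtain ⟨C, hC⟩ := consec_final r H C₀ hcl
  refine ⟨C, ?_⟩
  filter_upwards [hC] with n hn
  obtain ⟨g, h, hg1, hg2, h1, h2, h3⟩ := hn
  obtain ⟨g', hg'⟩ : ∃ g' : ℕ → ℕ, ∀ (i : ℕ) (hi : i < r + 1), g' i = g ⟨i, hi⟩ :=
    ⟨fun i => if hi : i < r + 1 then g ⟨i, hi⟩ else 0, fun i hi => dif_pos hi⟩
  refine ⟨g', fun i hi => ?_, fun i hi => ?_, h, h1, h2, h3.trans ?_⟩
  · rw [hg' i (by omega)]
    exact hg2 _
  · rw [hg' i (by omega), hg' (i + 1) (by omega)]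
    exact hg1 (by rw [Fin.lt_def]; exact Nat.lt_succ_self i)
  · norm_cast
    apply Finset.card_le_card
    intro k hk
    obtain ⟨e1, e2, e3⟩ := mem_filter.1 hk
    refine mem_filter.2 ⟨e1, fun i hi => ?_, e3⟩
    have e4 := e2 ⟨i, by omega⟩
    have e5 : g 0 ≤ g ⟨i, by omega⟩ := hg1.monotone (Fin.zero_le _)
    have e6 : g' 0 = g 0 := hg' 0 (by omega)
    rw [e6, hg' i (by omega)]
    simp only at e4
    omega

end Pool.Agent.TSH
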