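import Mathlib
import Pool.Agent.Helper20.TwinIndex

set_option autoImplicit false

/-!
# TSH / Shp: the loss `(log log log n)^2` in the number of good pairs of shifts is necessary

Pigeonhole of `(p_k, p_(p_(n-k)))` modulo `P = primorial z`, `16^z ≤ (log n)/3`: a set `K` of at least `n / log n`
indices with `p_k = a`, `p_(p_(n-k)) = b (mod P)`; only the `h₁`, `h₂` with `a + h₁`, `b + h₂` coprime to `P` can be good.
-/

namespace Pool.Agent.TSH

open Finset Filter
open Pool.Agent.Helper20.TwinIndex (pr pr_prime lt_pr)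
open Pool.Agent.PC.BlockB (log_le_prod ratio_eq)

/-- `log (z + 1) ≤ P / φ(P)` for `P = primorial z` -/
theorem shp_ratio {z : ℕ} : Real.log ((z : ℝ) + 1) ≤ (primorial z : ℝ) / (primorial z).totient := by
  have h1 := log_le_prod (N := z + 1) (by omega)
  rw [ratio_eq (primorial_pos z)]
  have h2 : (primorial z).primeFactors = Pool.Agent.Helper90.Straus.pr 2 (z + 1) := by
    unfold primorial
    rw [Nat.primeFactors_prod (fun p hp => (mem_filter.1 hp).2)]
    ext p
    rw [mem_filter, mem_range, Pool.Agent.Helper90.Straus.mem_pr]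
    constructor
    · rintro ⟨h3, h4⟩
      exact ⟨⟨h4.two_le, h3⟩, h4⟩
    · rintro ⟨⟨_, h3⟩, h4⟩
      exact ⟨h3, h4⟩
  rw [h2]
  push_cast at h1
  exact h1

/-- the number of shifts coprime to `P` in a window -/
theorem shp_count {P : ℕ} (hP : 0 < P) (a M H : ℕ) (hH : P ≤ H) (y : ℝ) (hy : 0 < y)
    (hr : y ≤ (P : ℝ) / P.totient) :
    (((Ioc M (M + H)).filter (fun h => P.Coprime (a + h))).card : ℝ) ≤ 2 * H / y := by
  have h1 : ((Ioc M (M + H)).filter (fun h => P.Coprime (a + h))).card ≤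
      ((Ico (a + M + 1) (a + M + 1 + H)).filter (fun x => P.Coprime x)).card := by
    apply Finset.card_le_card_of_injOn (fun h => a + h)
    · intro h hh
      rw [Finset.mem_coe, mem_filter, Finset.mem_Ioc] at hh
      rw [Finset.mem_coe, mem_filter, Finset.mem_Ico]
      beta_reduce
      exact ⟨⟨by omega, by omega⟩, hh.2⟩
    · intro x _ x' _ hx
      simp only at hx
      omega
  have h2 := h1.trans (Nat.Ico_filter_coprime_le (a + M + 1) H hP.ne')
  have hPr : (0 : ℝ) < P := by exact_mod_cast hP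
  have hφ : (0 : ℝ) < P.totient := by exact_mod_cast Nat.totient_pos.2 hP
  have h3 : ((P.totient * (H / P + 1) : ℕ) : ℝ) ≤ P.totient * (2 * H / P) := by
    push_cast
    apply mul_le_mul_of_nonneg_left _ hφ.le
    have e1 : ((H / P : ℕ) : ℝ) ≤ (H : ℝ) / P := Nat.cast_div_le
    have e2 : (1 : ℝ) ≤ (H : ℝ) / P := by
      rw [one_le_div hPr]
      exact_mod_cast hH
    have e3 : 2 * (H : ℝ) / P = H / P + H / P := by ring
    rw [e3]
    linarith
  have h4 : (P.totient : ℝ) * (2 * H / P) ≤ 2 * H / y := by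
    rw [le_div_iff₀ hφ] at hr
    rw [le_div_iff₀ hy]
    have e1 : (P.totient : ℝ) * (2 * H / P) * y = (2 * H / P) * (y * P.totient) := by ring
    rw [e1]
    calc (2 * (H : ℝ) / P) * (y * P.totient) ≤ (2 * H / P) * P :=
          mul_le_mul_of_nonneg_left hr (by positivity)
      _ = 2 * H := by field_simp
  have h5 : (((Ioc M (M + H)).filter (fun h => P.Coprime (a + h))).card : ℝ) ≤
      ((P.totient * (H / P + 1) : ℕ) : ℝ) := by exact_mod_cast h2
  linarith

/-- a prime which is larger than `z` forces the shift to be coprime to `primorial z` -/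
theorem shp_coprime {z a q h : ℕ} (hz : z < q) (ha : q % primorial z = a)
    (hq : (q + h).Prime) : (primorial z).Coprime (a + h) := by
  by_contra hcon
  obtain ⟨p, hp, h1, h2⟩ := Nat.Prime.not_coprime_iff_dvd.1 hcon
  have h3 : p ≤ z := by
    unfold primorial at h1
    obtain ⟨x, hx, hpx⟩ := (Prime.dvd_finsetProd_iff hp.prime _).1 h1
    rw [mem_filter, mem_range] at hx
    have : p = x := (Nat.prime_dvd_prime_iff_eq hp hx.2).1 hpx
    omega
  have h4 : p ∣ q + h := by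
    have e1 : q = primorial z * (q / primorial z) + a := by
      rw [← ha]
      exact (Nat.div_add_mod q _).symm
    rw [e1, add_assoc]
    exact Dvd.dvd.add (Dvd.dvd.mul_right h1 _) h2
  have h5 : p = q + h := (Nat.prime_dvd_prime_iff_eq hp hq).1 h4
  omega

/-- the parameter `z` -/
theorem shp_z : ∀ᶠ n : ℕ in atTop, ∃ z : ℕ, 3 * (16 : ℝ) ^ z ≤ Real.log n ∧
    Real.log (Real.log (Real.log n)) / 2 ≤ Real.log ((z : ℝ) + 1) ∧
    0 < Real.log (Real.log (Real.log n)) ∧ 3 * z + 3 ≤ n := by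
  have t1 : Tendsto (fun X : ℕ => Real.log X) atTop atTop :=
    Real.tendsto_log_atTop.comp tendsto_natCast_atTop_atTop
  have t2 : Tendsto (fun X : ℕ => Real.log (Real.log X)) atTop atTop :=
    Real.tendsto_log_atTop.comp t1
  have t3 : Tendsto (fun X : ℕ => Real.log (Real.log (Real.log X))) atTop atTop :=
    Real.tendsto_log_atTop.comp t2
  filter_upwards [t1.eventually_ge_atTop (300 : ℝ), t2.eventually_ge_atTop (4 : ℝ),
    t3.eventually_ge_atTop (5 : ℝ), eventually_ge_atTop 10] with n h1 h2 h3 h4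
  obtain ⟨L, hL⟩ : ∃ L : ℝ, L = Real.log n := ⟨_, rfl⟩
  rw [← hL] at h1 h2 h3 ⊢
  obtain ⟨F, hF⟩ : ∃ F : ℕ, F = ⌊L / 3⌋₊ := ⟨_, rfl⟩
  have hF1 : (F : ℝ) ≤ L / 3 := by rw [hF]; exact Nat.floor_le (by linarith)
  have hF2 : L / 3 < F + 1 := by rw [hF]; exact Nat.lt_floor_add_one _
  have hF0 : F ≠ 0 := by
    intro h0
    rw [h0] at hF2
    norm_num at hF2
    linarith
  obtain ⟨z, hz⟩ : ∃ z : ℕ, z = Nat.log 16 F := ⟨_, rfl⟩
  have hz1 : 16 ^ z ≤ F := by rw [hz]; exact Nat.pow_log_le_self 16 hF0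
  have hz2 : F < 16 ^ (z + 1) := by rw [hz]; exact Nat.lt_pow_succ_log_self (by norm_num) F
  have hz1' : (16 : ℝ) ^ z ≤ F := by exact_mod_cast hz1
  have hz2' : (F : ℝ) + 1 ≤ 16 ^ (z + 1) := by exact_mod_cast hz2
  have h5 : L / 3 ≤ (16 : ℝ) ^ (z + 1) := by linarith
  have hL0 : (0 : ℝ) < L := by linarith
  -- `log log n ≤ 3 (z + 1) + 2`
  have hl16 : Real.log 16 ≤ 3 := by
    have e1 : (16 : ℝ) ≤ Real.exp 3 := by
      have := Real.exp_one_gt_d9
      have e2 : Real.exp 3 = Real.exp 1 ^ 3 := by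
        rw [← Real.exp_nat_mul]
        norm_num
      rw [e2]
      have : (2.7 : ℝ) ^ 3 ≤ Real.exp 1 ^ 3 := pow_le_pow_left₀ (by norm_num) (by linarith) 3
      norm_num at this
      linarith
    calc Real.log 16 ≤ Real.log (Real.exp 3) := Real.log_le_log (by norm_num) e1
      _ = 3 := Real.log_exp 3
  have hl3 : Real.log 3 ≤ 2 := by
    have := Real.log_le_sub_one_of_pos (show (0 : ℝ) < 3 by norm_num)
    linarith
  have h6 : Real.log L ≤ 3 * ((z : ℝ) + 1) + 2 := by
    have e1 := Real.log_le_log (by positivity) h5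
    rw [Real.log_div (by linarith) (by norm_num), Real.log_pow] at e1
    push_cast at e1
    have e2 : ((z : ℝ) + 1) * Real.log 16 ≤ ((z : ℝ) + 1) * 3 :=
      mul_le_mul_of_nonneg_left hl16 (by positivity)
    linarith
  have h7 : Real.log L ≤ 6 * ((z : ℝ) + 1) := by
    have : (0 : ℝ) ≤ z := Nat.cast_nonneg z
    linarith
  have h8 : Real.log (Real.log L) ≤ Real.log 6 + Real.log ((z : ℝ) + 1) := by
    rw [← Real.log_mul (by norm_num) (by positivity)]
    exact Real.log_le_log (by linarith) h7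
  have hl6 : Real.log 6 ≤ 5 / 2 := by
    have e1 : Real.log 6 = Real.log 2 + Real.log 3 := by
      rw [← Real.log_mul (by norm_num) (by norm_num)]
      norm_num
    have e2 := Real.log_two_lt_d9
    have e3 : Real.log 3 ≤ 1.2 := by
      have e4 : (3 : ℝ) ≤ Real.exp 1.2 := by
        have e5 := Real.quadratic_le_exp_of_nonneg (show (0 : ℝ) ≤ 0.6 by norm_num)
        have e6 : Real.exp 1.2 = Real.exp 0.6 * Real.exp 0.6 := by
          rw [← Real.exp_add]
          norm_num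
        rw [e6]
        have e7 : (1.78 : ℝ) ≤ Real.exp 0.6 := by
          refine le_trans ?_ e5
          norm_num
        nlinarith
      calc Real.log 3 ≤ Real.log (Real.exp 1.2) := Real.log_le_log (by norm_num) e4
        _ = 1.2 := Real.log_exp _
    linarith
  refine ⟨z, by linarith, by linarith, by linarith, ?_⟩
  have e1 : z < 16 ^ z := Nat.lt_pow_self (by norm_num)
  have e2 : (F : ℝ) ≤ n / 3 := by
    have e3 : Real.log n ≤ n := by
      have := Real.log_le_sub_one_of_pos (show (0 : ℝ) < n by positivity)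
      linarith
    rw [← hL] at e3
    linarith
  have e3 : (3 : ℝ) * F ≤ n := by linarith
  have e4 : 3 * F ≤ n := by exact_mod_cast e3
  omega

open Classical in
/-- **The loss is necessary.** -/
theorem sharp : ∃ c : ℝ, 0 < c ∧ ∀ᶠ n : ℕ in atTop, ∃ K : Finset ℕ, (∀ k ∈ K, 1 ≤ k ∧ k < n) ∧
    (n : ℝ) / Real.log n ≤ K.card ∧ ∀ M₁ H₁ M₂ H₂ : ℕ, Real.log n ≤ H₁ → Real.log n ≤ H₂ →
      (((Ioc M₁ (M₁ + H₁) ×ˢ Ioc M₂ (M₂ + H₂)).filter (fun h => ∃ k ∈ K,
        (pr k + h.1).Prime ∧ (pr (pr (n - k)) + h.2).Prime)).card : ℝ) ≤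
        c * H₁ * H₂ / Real.log (Real.log (Real.log n)) ^ 2 := by
  refine ⟨16, by norm_num, ?_⟩
  filter_upwards [shp_z] with n hn
  obtain ⟨z, hz1, hz2, hz3, hz4⟩ := hn
  obtain ⟨L, hL⟩ : ∃ L : ℝ, L = Real.log n := ⟨_, rfl⟩
  rw [← hL] at hz1 hz2 hz3 ⊢
  obtain ⟨L3, hL3⟩ : ∃ L3 : ℝ, L3 = Real.log (Real.log L) := ⟨_, rfl⟩
  rw [← hL3] at hz2 hz3 ⊢
  have h16 : (1 : ℝ) ≤ 16 ^ z := one_le_pow₀ (by norm_num)
  have hL0 : (0 : ℝ) < L := by linarith
  obtain ⟨P, hP⟩ : ∃ P : ℕ, P = primorial z := ⟨_, rfl⟩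
  have hP0 : 0 < P := by rw [hP]; exact primorial_pos z
  have hP4 : (P : ℝ) ≤ 4 ^ z := by
    rw [hP]
    exact_mod_cast primorial_le_four_pow z
  have hP1 : (0 : ℝ) < P := by exact_mod_cast hP0
  have hPP : (P : ℝ) * P ≤ 16 ^ z := by
    calc (P : ℝ) * P ≤ 4 ^ z * 4 ^ z := mul_le_mul hP4 hP4 hP1.le (by positivity)
      _ = 16 ^ z := by rw [← mul_pow]; norm_num
  have hPL : (P : ℝ) ≤ L := by
    have e1 : (4 : ℝ) ^ z ≤ 16 ^ z := pow_le_pow_left₀ (by norm_num) (by norm_num) z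
    linarith
  -- the pigeonhole
  obtain ⟨J, hJ⟩ : ∃ J : Finset ℕ, J = Icc (z + 1) (n - (z + 1)) := ⟨_, rfl⟩
  have hJc : (n : ℝ) / 3 ≤ J.card := by
    rw [hJ, Nat.card_Icc]
    have e1 : n ≤ 3 * (n - (z + 1) + 1 - (z + 1)) := by omega
    have e2 : (n : ℝ) ≤ 3 * ((n - (z + 1) + 1 - (z + 1) : ℕ) : ℝ) := by exact_mod_cast e1
    linarith
  obtain ⟨y, hy, hK⟩ := exists_le_card_fiber_of_nsmul_le_card_of_maps_to (M := ℝ) (s := J)
    (t := range P ×ˢ range P) (b := (n : ℝ) / L)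
    (f := fun k => (pr k % P, pr (pr (n - k)) % P))
    (fun k _ => by
      rw [Finset.mem_product, mem_range, mem_range]
      exact ⟨Nat.mod_lt _ hP0, Nat.mod_lt _ hP0⟩)
    (by
      rw [Finset.nonempty_product]
      exact ⟨Finset.nonempty_range_iff.2 hP0.ne', Finset.nonempty_range_iff.2 hP0.ne'⟩)
    (by
      rw [Finset.card_product, Finset.card_range, nsmul_eq_mul]
      push_cast
      refine le_trans ?_ hJc
      have e1 : (P : ℝ) * P * (n / L) ≤ (L / 3) * (n / L) :=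
        mul_le_mul_of_nonneg_right (by linarith) (by positivity)
      refine e1.trans (le_of_eq ?_)
      field_simp)
  refine ⟨J.filter (fun k => (pr k % P, pr (pr (n - k)) % P) = y), ?_, hK, ?_⟩
  · intro k hk
    have e1 := (mem_filter.1 hk).1
    rw [hJ, Finset.mem_Icc] at e1
    omega
  · intro M₁ H₁ M₂ H₂ hH₁ hH₂
    have hr : L3 / 2 ≤ (P : ℝ) / P.totient := by
      rw [hP]
      exact hz2.trans shp_ratio
    have c1 := shp_count hP0 y.1 M₁ H₁ (by exact_mod_cast hPL.trans hH₁) (L3 / 2) (by linarith) hr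
    have c2 := shp_count hP0 y.2 M₂ H₂ (by exact_mod_cast hPL.trans hH₂) (L3 / 2) (by linarith) hr
    have hsub : ((Ioc M₁ (M₁ + H₁) ×ˢ Ioc M₂ (M₂ + H₂)).filter (fun h => ∃ k ∈
        J.filter (fun k => (pr k % P, pr (pr (n - k)) % P) = y),
        (pr k + h.1).Prime ∧ (pr (pr (n - k)) + h.2).Prime)) ⊆
        ((Ioc M₁ (M₁ + H₁)).filter (fun h => P.Coprime (y.1 + h))) ×ˢ
        ((Ioc M₂ (M₂ + H₂)).filter (fun h => P.Coprime (y.2 + h))) := by
      intro h hh
      obtain ⟨e1, k, hk, hp1, hp2⟩ := mem_filter.1 hh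
      obtain ⟨e2, e3⟩ := mem_filter.1 hk
      rw [hJ, Finset.mem_Icc] at e2
      rw [Finset.mem_product] at e1
      have f1 : pr k % primorial z = y.1 := by rw [← hP, ← e3]
      have f2 : pr (pr (n - k)) % primorial z = y.2 := by rw [← hP, ← e3]
      have g1 : k < pr k := lt_pr (by omega)
      have g2 : n - k < pr (n - k) := lt_pr (by omega)
      have g3 : pr (n - k) < pr (pr (n - k)) := lt_pr (by omega)
      rw [Finset.mem_product, mem_filter, mem_filter, hP]
      exact ⟨⟨e1.1, shp_coprime (by omega) f1 hp1⟩, ⟨e1.2, shp_coprime (by omega) f2 hp2⟩⟩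
    have h1 := Finset.card_le_card hsub
    rw [Finset.card_product] at h1
    have h2 : (((Ioc M₁ (M₁ + H₁) ×ˢ Ioc M₂ (M₂ + H₂)).filter (fun h => ∃ k ∈
        J.filter (fun k => (pr k % P, pr (pr (n - k)) % P) = y),
        (pr k + h.1).Prime ∧ (pr (pr (n - k)) + h.2).Prime)).card : ℝ) ≤
        (((Ioc M₁ (M₁ + H₁)).filter (fun h => P.Coprime (y.1 + h))).card : ℝ) *
        (((Ioc M₂ (M₂ + H₂)).filter (fun h => P.Coprime (y.2 + h))).card : ℝ) := by
      exact_mod_cast h1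
    refine h2.trans ?_
    refine (mul_le_mul c1 c2 (Nat.cast_nonneg _) (by positivity)).trans (le_of_eq ?_)
    field_simp
    ring

end Pool.Agent.TSH
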