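import Mathlib
import Pool.Agent.SI.Rec
import Pool.Agent.SI.Cong
import Pool.Agent.SI.JB
import Pool.Agent.SI.RA
import Pool.Agent.SI.RB
import Pool.Agent.SI.RC
import Pool.Agent.SI.MVT
import Pool.Agent.SI.Hol
import Pool.Agent.SI.Ej
import Pool.Agent.SI.Tn
import Pool.Agent.SI.ExpK
import Pool.Agent.SI.KL
import Pool.Agent.SI.VD2
import Pool.Agent.SI.VD3
import Pool.Agent.SI.VC
import Pool.Agent.SI.ES
import Pool.Agent.SI.Fq
import Pool.Agent.SI.RU
import Pool.Agent.SI.RT
import Pool.Agent.SI.K1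
import Pool.Agent.SI.K2
import Pool.Agent.SI.K3
import Pool.Agent.SI.K4
import Pool.Agent.SI.Cls
import Pool.Agent.SI.RiL
import Pool.Agent.SI.MuS
import Pool.Agent.SI.SmS
import Pool.Agent.SI.W
import Pool.Agent.SI.MV
import Pool.Agent.SI.HB
import Pool.Agent.SI.Cof
import Pool.Agent.SI.Box
import Pool.Agent.SI.Fac
import Pool.Agent.SI.Rem
import Pool.Agent.SI.Int
import Pool.Agent.SI.Four
import Pool.Agent.SI.Var
import Pool.Agent.SI.Long
import Pool.Agent.SI.Gap

set_option autoImplicit false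

/-! The theorem on primes in almost all short intervals (assembly of `Pool.Agent.SI`). -/

namespace Pool.Agent.TSH

open Pool.Agent.SI

theorem si_recur : St_Rec := thm_Rec thm_RA (thm_RB thm_Cong thm_JB) thm_RC

theorem si_tn : St_Tn := thm_Tn (thm_MVT si_recur) (thm_Hol thm_JB) thm_Ej

theorem si_expK : St_ExpK := thm_ExpK si_tn

theorem si_vd2 : St_VD2 := thm_VD2 thm_KL

theorem si_vc : St_VC := thm_VC thm_KL si_vd2 (thm_VD3 si_vd2)

theorem si_es : St_ES := thm_ES si_expK si_vc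

theorem si_k1 : St_K1 := thm_K1 (thm_RT thm_Fq (thm_RU thm_Fq) si_es)

theorem si_k4 : St_K4 := thm_K4 si_k1 (thm_K2 si_k1 (thm_RU thm_Fq)) thm_K3

theorem si_muS : St_MuS := thm_MuS si_k4 thm_Cls thm_RiL

theorem si_facB : St_Fac := thm_Fac si_muS (thm_SmS si_es si_vc) si_vc

theorem si_int : St_Int := thm_Int si_facB (thm_Rem thm_Cof thm_MV)

theorem si_var : St_Var := thm_Var (thm_Box thm_HB) thm_Cof si_int thm_Four

/-- primes in almost all intervals of length `X ^ (1/4 + ε)` -/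
theorem si_gap : St_Gap := thm_Gap thm_W si_var thm_Long

end Pool.Agent.TSH
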