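import Mathlib
import Pool.Agent.SI.Stmts
import Pool.Agent.PC.Sieve
import Pool.Agent.TSH.Sing
import Pool.Agent.TSH.Core

set_option autoImplicit false

/-!
# TSH / TA: primes `s + h`, `s` in an arbitrary set, `h` in a short window
-/

namespace Pool.Agent.TSH

open Finset Filter

/-- the number of `s ∈ S` such that `s + h` is prime -/
noncomputable def r1 (S : Finset ℕ) (h : ℕ) : ℕ := (S.filter (fun s => (s + h).Prime)).card

/-- second moment, combinatorial part -/
theorem sum_r1_sq (S : Finset ℕ) (M H : ℕ) :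
    ∑ h ∈ Ioc M (M + H), (r1 S h : ℝ) ^ 2 ≤ S.card * H +
      2 * ∑ s ∈ S, ∑ s' ∈ S.filter (fun s' => s < s'),
        (((Ioc (s + M) (s + M + H)).filter (fun n => n.Prime ∧ (n + (s' - s)).Prime)).card : ℝ) := by
  classical
  obtain ⟨f, hf⟩ : ∃ f : ℕ → ℕ → ℝ, f = fun s s' =>
    (((Ioc M (M + H)).filter (fun h => (s + h).Prime ∧ (s' + h).Prime)).card : ℝ) := ⟨_, rfl⟩
  have hsymm : ∀ s s', f s s' = f s' s := by
    intro s s'
    rw [hf]
    simp only
    congr 2
    ext h
    simp only [mem_filter]
    tauto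
  have h1 : ∑ h ∈ Ioc M (M + H), (r1 S h : ℝ) ^ 2 = ∑ s ∈ S, ∑ s' ∈ S, f s s' := by
    have e1 : ∀ h : ℕ, (r1 S h : ℝ) ^ 2 =
        ∑ s ∈ S, ∑ s' ∈ S, if (s + h).Prime ∧ (s' + h).Prime then (1 : ℝ) else 0 := by
      intro h
      unfold r1
      rw [sq, Finset.card_filter]
      push_cast
      rw [Finset.sum_mul_sum]
      apply Finset.sum_congr rfl
      intro s _
      apply Finset.sum_congr rfl
      intro s' _
      by_cases h1 : (s + h).Prime <;> by_cases h2 : (s' + h).Prime <;> simp [h1, h2]
    simp only [e1]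
    rw [Finset.sum_comm]
    apply Finset.sum_congr rfl
    intro s _
    rw [Finset.sum_comm]
    apply Finset.sum_congr rfl
    intro s' _
    rw [hf]
    simp only
    rw [Finset.card_filter]
    push_cast
    rfl
  rw [h1]
  have h2 : ∀ s ∈ S, ∑ s' ∈ S, f s s' = ∑ s' ∈ S.filter (fun s' => s < s'), f s s' +
      ∑ s' ∈ S.filter (fun s' => s' < s), f s s' + f s s := by
    intro s hs
    have e1 : S = S.filter (fun s' => s < s') ∪ (S.filter (fun s' => s' < s) ∪ {s}) := by
      ext t
      simp only [mem_union, mem_filter, mem_singleton]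
      constructor
      · intro ht
        rcases lt_trichotomy s t with h | h | h
        · exact Or.inl ⟨ht, h⟩
        · exact Or.inr (Or.inr h.symm)
        · exact Or.inr (Or.inl ⟨ht, h⟩)
      · rintro (h | h | h)
        · exact h.1
        · exact h.1
        · rw [h]; exact hs
    have e2 : ∑ s' ∈ S, f s s' = ∑ s' ∈ S.filter (fun s' => s < s') ∪
        (S.filter (fun s' => s' < s) ∪ {s}), f s s' := by rw [← e1]
    rw [e2, Finset.sum_union, Finset.sum_union, Finset.sum_singleton, add_assoc]
    · rw [Finset.disjoint_singleton_right, mem_filter]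
      rintro ⟨_, h⟩
      exact lt_irrefl _ h
    · rw [Finset.disjoint_left]
      intro t h3 h4
      have h5 := (mem_filter.1 h3).2
      rcases mem_union.1 h4 with h6 | h6
      · have := (mem_filter.1 h6).2
        omega
      · rw [mem_singleton] at h6
        omega
  rw [Finset.sum_congr rfl h2, Finset.sum_add_distrib, Finset.sum_add_distrib]
  have h3 : ∑ s ∈ S, ∑ s' ∈ S.filter (fun s' => s' < s), f s s' =
      ∑ s ∈ S, ∑ s' ∈ S.filter (fun s' => s < s'), f s s' := by
    simp only [Finset.sum_filter]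
    rw [Finset.sum_comm]
    apply Finset.sum_congr rfl
    intro s _
    apply Finset.sum_congr rfl
    intro s' _
    rw [hsymm]
  rw [h3]
  have h4 : ∑ s ∈ S, f s s ≤ S.card * H := by
    have e1 : ∀ s ∈ S, f s s ≤ H := by
      intro s _
      rw [hf]
      have e2 := Finset.card_filter_le (Ioc M (M + H)) (fun h => (s + h).Prime ∧ (s + h).Prime)
      rw [Nat.card_Ioc, Nat.add_sub_cancel_left] at e2
      simp only
      exact_mod_cast e2
    calc ∑ s ∈ S, f s s ≤ ∑ _s ∈ S, (H : ℝ) := Finset.sum_le_sum e1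
      _ = S.card * H := by rw [Finset.sum_const, nsmul_eq_mul]
  have h5 : ∀ s ∈ S, ∀ s' ∈ S.filter (fun s' => s < s'), f s s' ≤
      (((Ioc (s + M) (s + M + H)).filter
        (fun n => n.Prime ∧ (n + (s' - s)).Prime)).card : ℝ) := by
    intro s _ s' hs'
    have hlt := (mem_filter.1 hs').2
    rw [hf]
    simp only
    norm_cast
    apply Finset.card_le_card_of_injOn (fun h => s + h)
    · intro h hh
      rw [Finset.mem_coe, mem_filter, mem_Ioc] at hh
      rw [Finset.mem_coe, mem_filter, mem_Ioc]
      beta_reduce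
      refine ⟨⟨by omega, by omega⟩, hh.2.1, ?_⟩
      have : s + h + (s' - s) = s' + h := by omega
      rw [this]
      exact hh.2.2
    · intro a _ b _ hab
      simp only at hab
      omega
  have h6 : ∑ s ∈ S, ∑ s' ∈ S.filter (fun s' => s < s'), f s s' ≤
      ∑ s ∈ S, ∑ s' ∈ S.filter (fun s' => s < s'),
        (((Ioc (s + M) (s + M + H)).filter
          (fun n => n.Prime ∧ (n + (s' - s)).Prime)).card : ℝ) :=
    Finset.sum_le_sum fun s hs => Finset.sum_le_sum fun s' hs' => h5 s hs s' hs'
  linarith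

/-- first moment, combinatorial part -/
theorem sum_r1 (S : Finset ℕ) (M H w J : ℕ) (hJ : J * w ≤ H) :
    ∑ j ∈ range J, ∑ s ∈ S, (((Ioc (s + M + j * w) (s + M + j * w + w)).filter
      Nat.Prime).card : ℝ) ≤ ∑ h ∈ Ioc M (M + H), (r1 S h : ℝ) := by
  classical
  have h1 : ∑ h ∈ Ioc M (M + H), (r1 S h : ℝ) =
      ∑ s ∈ S, (((Ioc M (M + H)).filter (fun h => (s + h).Prime)).card : ℝ) := by
    have e1 : ∀ h : ℕ, (r1 S h : ℝ) = ∑ s ∈ S, if (s + h).Prime then (1 : ℝ) else 0 := by
      intro h
      unfold r1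
      rw [Finset.card_filter]
      push_cast
      rfl
    simp only [e1]
    rw [Finset.sum_comm]
    apply Finset.sum_congr rfl
    intro s _
    rw [Finset.card_filter]
    push_cast
    rfl
  rw [h1, Finset.sum_comm]
  apply Finset.sum_le_sum
  intro s _
  have h2 : ∑ j ∈ range J, (((Ioc (s + M + j * w) (s + M + j * w + w)).filter
      Nat.Prime).card : ℝ) = (((range J).biUnion (fun j =>
        (Ioc (s + M + j * w) (s + M + j * w + w)).filter Nat.Prime)).card : ℝ) := by
    rw [Finset.card_biUnion]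
    · push_cast
      rfl
    · intro i _ j _ hij
      rw [Function.onFun, Finset.disjoint_left]
      intro a ha hb
      rw [mem_filter, mem_Ioc] at ha hb
      rcases Nat.lt_or_gt_of_ne hij with h | h
      · have h3 : (i + 1) * w ≤ j * w := Nat.mul_le_mul_right _ h
        have h4 : (i + 1) * w = i * w + w := by ring
        omega
      · have h3 : (j + 1) * w ≤ i * w := Nat.mul_le_mul_right _ h
        have h4 : (j + 1) * w = j * w + w := by ring
        omega
  rw [h2]
  norm_cast
  apply Finset.card_le_card_of_injOn (fun a => a - s)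
  · intro a ha
    rw [Finset.mem_coe, Finset.mem_biUnion] at ha
    obtain ⟨j, hj, ha⟩ := ha
    rw [mem_filter, mem_Ioc] at ha
    rw [mem_range] at hj
    have h3 : (j + 1) * w ≤ J * w := Nat.mul_le_mul_right _ hj
    have h4 : (j + 1) * w = j * w + w := by ring
    rw [Finset.mem_coe, mem_filter, mem_Ioc]
    beta_reduce
    refine ⟨⟨by omega, by omega⟩, ?_⟩
    have : s + (a - s) = a := by omega
    rw [this]
    exact ha.2
  · intro a ha b hb hab
    rw [Finset.mem_coe, Finset.mem_biUnion] at ha hb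
    obtain ⟨j, hj, ha⟩ := ha
    obtain ⟨j', hj', hb⟩ := hb
    rw [mem_filter, mem_Ioc] at ha hb
    simp only at hab
    omega

end Pool.Agent.TSH
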