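import Mathlib
import Pool.Agent.TSH.TA
import Pool.Agent.TSH.FirstB

set_option autoImplicit false

/-!
# TSH / TB: short windows, arbitrary sets of integers
-/

namespace Pool.Agent.TSH

open Finset Filter

/-- few bad `s` for one short window -/
theorem one_window {c₀ h₀ : ℝ} {Y w x : ℕ} {S : Finset ℕ} (hc₀ : 0 < c₀) (hh₀ : 0 ≤ h₀)
    (hlog : 2 ≤ Real.log Y) (hw : h₀ ≤ w)
    (hgap : ∀ F : Finset ℕ, (∀ y ∈ F, Y ≤ y ∧ y ≤ 2 * Y ∧
      (((Icc Y (3 * Y)).filter (fun p : ℕ => p.Prime ∧ y < p ∧ (p : ℝ) ≤ y + h₀)).card : ℝ) ≤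
        c₀ * h₀ / Real.log Y) → (F.card : ℝ) ≤ S.card / Real.log Y)
    (hS : ∀ s ∈ S, Y ≤ s ∧ 2 * s ≤ 3 * Y) (hx : 2 * x ≤ Y) :
    (S.card : ℝ) / 2 * (c₀ * h₀ / Real.log Y) ≤
      ∑ s ∈ S, (((Ioc (s + x) (s + x + w)).filter Nat.Prime).card : ℝ) := by
  classical
  obtain ⟨cnt, hcnt⟩ : ∃ cnt : ℕ → ℝ, cnt = fun y => (((Icc Y (3 * Y)).filter
    (fun p : ℕ => p.Prime ∧ y < p ∧ (p : ℝ) ≤ y + h₀)).card : ℝ) := ⟨_, rfl⟩
  obtain ⟨B, hB⟩ : ∃ B : Finset ℕ, B = S.filter (fun s => cnt (s + x) ≤ c₀ * h₀ / Real.log Y) :=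
    ⟨_, rfl⟩
  have hlog0 : 0 < Real.log Y := by linarith
  have hBc : (B.card : ℝ) ≤ S.card / 2 := by
    have h1 := hgap (B.image (fun s => s + x)) (by
      intro y hy
      obtain ⟨s, hs, rfl⟩ := Finset.mem_image.1 hy
      rw [hB] at hs
      obtain ⟨h2, h3⟩ := mem_filter.1 hs
      obtain ⟨h4, h5⟩ := hS s h2
      rw [hcnt] at h3
      refine ⟨by omega, by omega, ?_⟩
      exact h3)
    rw [Finset.card_image_of_injective _ (fun a b hab => by simpa using hab)] at h1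
    refine h1.trans ?_
    apply div_le_div_of_nonneg_left (Nat.cast_nonneg _) (by norm_num) hlog
  have h1 : ∀ s ∈ S \ B, c₀ * h₀ / Real.log Y ≤
      (((Ioc (s + x) (s + x + w)).filter Nat.Prime).card : ℝ) := by
    intro s hs
    obtain ⟨h2, h3⟩ := Finset.mem_sdiff.1 hs
    rw [hB, mem_filter] at h3
    have h4 : c₀ * h₀ / Real.log Y < cnt (s + x) := by
      by_contra hcon
      exact h3 ⟨h2, not_lt.1 hcon⟩
    refine h4.le.trans ?_
    rw [hcnt]
    simp only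
    norm_cast
    apply Finset.card_le_card
    intro p hp
    obtain ⟨_, h5, h6, h7⟩ := mem_filter.1 hp
    rw [mem_filter, mem_Ioc]
    refine ⟨⟨h6, ?_⟩, h5⟩
    have h8 : (p : ℝ) ≤ (s + x + w : ℕ) := by
      push_cast at h7 ⊢
      linarith
    exact_mod_cast h8
  have h2 : (S.card : ℝ) / 2 ≤ ((S \ B).card : ℝ) := by
    have h3 : S.card ≤ (S \ B).card + B.card := by
      have h4 : S ⊆ (S \ B) ∪ B := by
        intro t ht
        rw [Finset.mem_union, Finset.mem_sdiff]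
        by_cases h5 : t ∈ B
        · exact Or.inr h5
        · exact Or.inl ⟨ht, h5⟩
      exact (Finset.card_le_card h4).trans (Finset.card_union_le _ _)
    have h4 : (S.card : ℝ) ≤ ((S \ B).card : ℝ) + B.card := by exact_mod_cast h3
    linarith
  have h5 : 0 ≤ c₀ * h₀ / Real.log Y := by positivity
  calc (S.card : ℝ) / 2 * (c₀ * h₀ / Real.log Y)
      ≤ ((S \ B).card : ℝ) * (c₀ * h₀ / Real.log Y) := mul_le_mul_of_nonneg_right h2 h5
    _ = ∑ _s ∈ S \ B, c₀ * h₀ / Real.log Y := by rw [Finset.sum_const, nsmul_eq_mul]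
    _ ≤ ∑ s ∈ S \ B, (((Ioc (s + x) (s + x + w)).filter Nat.Prime).card : ℝ) :=
        Finset.sum_le_sum h1
    _ ≤ _ := Finset.sum_le_sum_of_subset_of_nonneg Finset.sdiff_subset
        (fun _ _ _ => Nat.cast_nonneg _)

/-- first moment for one block -/
theorem first1 (hGap : Pool.Agent.SI.St_Gap) : ∃ c₁ : ℝ, 0 < c₁ ∧ ∀ ε : ℝ, 0 < ε → ε < 1 / 4 →
    ∀ A : ℕ, ∀ᶠ Y : ℕ in atTop, ∀ S : Finset ℕ, (∀ s ∈ S, Y ≤ s ∧ 2 * s ≤ 3 * Y) →
      (Y : ℝ) / Real.log Y ^ A ≤ S.card → ∀ M H : ℕ, (Y : ℝ) ^ (1 / 4 + ε) ≤ H →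
      2 * (M + H) ≤ Y →
      c₁ * S.card * H / Real.log Y ≤ ∑ h ∈ Ioc M (M + H), (r1 S h : ℝ) := by
  classical
  obtain ⟨c₀, hc₀, hgap⟩ := hGap
  refine ⟨c₀ / 8, by positivity, fun ε hε hε4 A => ?_⟩
  obtain ⟨X₀, hX₀⟩ := hgap ε (A + 1) hε hε4
  filter_upwards [eventually_ge_atTop X₀, eventually_ge_atTop 3,
    (Real.tendsto_log_atTop.comp tendsto_natCast_atTop_atTop).eventually_ge_atTop (2 : ℝ)] with
    Y hYX hY3 hlog S hS hSc M H hH hMH
  have hlog : 2 ≤ Real.log Y := hlog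
  have hY' : (3 : ℝ) ≤ Y := by exact_mod_cast hY3
  have hlog0 : 0 < Real.log Y := by linarith
  obtain ⟨h₀, hh₀⟩ : ∃ h₀ : ℝ, h₀ = (Y : ℝ) ^ (1 / 4 + ε) := ⟨_, rfl⟩
  have hh1 : 1 ≤ h₀ := by
    rw [hh₀]
    exact Real.one_le_rpow (by linarith) (by linarith)
  rw [← hh₀] at hH
  obtain ⟨w, hw⟩ : ∃ w : ℕ, w = ⌈h₀⌉₊ := ⟨_, rfl⟩
  have hw1 : h₀ ≤ w := by rw [hw]; exact Nat.le_ceil _
  have hw2 : (w : ℝ) ≤ 2 * h₀ := by
    have := Nat.ceil_lt_add_one (show 0 ≤ h₀ by linarith)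
    rw [← hw] at this
    linarith
  have hwH : w ≤ H := by
    rw [hw]
    exact Nat.ceil_le.2 hH
  have hw0 : 0 < w := by
    have : (0 : ℝ) < w := by linarith
    exact_mod_cast this
  obtain ⟨J, hJ⟩ : ∃ J : ℕ, J = H / w := ⟨_, rfl⟩
  have hJw : J * w ≤ H := by rw [hJ]; exact Nat.div_mul_le_self H w
  have hJ1 : 1 ≤ J := by
    rw [hJ]
    exact (Nat.one_le_div_iff hw0).2 hwH
  have hJw2 : H ≤ 2 * (J * w) := by
    have h1 : H < (J + 1) * w := by
      rw [hJ]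
      have := Nat.lt_div_mul_add (a := H) hw0
      calc H < H / w * w + w := this
        _ = (H / w + 1) * w := by ring
    have h2 : w ≤ J * w := Nat.le_mul_of_pos_left w hJ1
    have h3 : (J + 1) * w = J * w + w := by ring
    omega
  have hgap' : ∀ F : Finset ℕ, (∀ y ∈ F, Y ≤ y ∧ y ≤ 2 * Y ∧
      (((Icc Y (3 * Y)).filter (fun p : ℕ => p.Prime ∧ y < p ∧ (p : ℝ) ≤ y + h₀)).card : ℝ) ≤
        c₀ * h₀ / Real.log Y) → (F.card : ℝ) ≤ S.card / Real.log Y := by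
    intro F hF
    rw [hh₀] at hF
    refine (hX₀ Y hYX F hF).trans ?_
    rw [pow_succ, ← div_div]
    exact div_le_div_of_nonneg_right hSc hlog0.le
  refine le_trans ?_ (sum_r1 S M H w J hJw)
  have h1 : ∀ j ∈ range J, (S.card : ℝ) / 2 * (c₀ * h₀ / Real.log Y) ≤
      ∑ s ∈ S, (((Ioc (s + M + j * w) (s + M + j * w + w)).filter Nat.Prime).card : ℝ) := by
    intro j hj
    have h2 : (j + 1) * w ≤ J * w := Nat.mul_le_mul_right _ (mem_range.1 hj)
    have h3 : (j + 1) * w = j * w + w := by ring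
    have h4 := one_window (x := M + j * w) (w := w) hc₀ (by linarith : 0 ≤ h₀) hlog hw1 hgap' hS
      (by omega)
    simp only [← add_assoc] at h4
    exact h4
  have h2 := Finset.sum_le_sum h1
  rw [Finset.sum_const, Finset.card_range, nsmul_eq_mul] at h2
  refine le_trans ?_ h2
  have h3 : (H : ℝ) ≤ 2 * (J * w) := by exact_mod_cast hJw2
  have h4 : (H : ℝ) ≤ 4 * (J * h₀) := by
    have h5 : (J : ℝ) * w ≤ J * (2 * h₀) := mul_le_mul_of_nonneg_left hw2 (Nat.cast_nonneg J)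
    linarith
  have hS0 : (0 : ℝ) ≤ S.card := Nat.cast_nonneg _
  calc c₀ / 8 * S.card * H / Real.log Y ≤ c₀ / 8 * S.card * (4 * (J * h₀)) / Real.log Y := by
        apply div_le_div_of_nonneg_right _ hlog0.le
        exact mul_le_mul_of_nonneg_left h4 (by positivity)
    _ = J * (S.card / 2 * (c₀ * h₀ / Real.log Y)) := by ring

/-- second moment -/
theorem second1 (A : ℕ) : ∃ C₃ : ℝ, 0 < C₃ ∧ ∀ᶠ Y : ℕ in atTop, ∀ S : Finset ℕ,
      (∀ s ∈ S, s ≤ 2 * Y) → (Y : ℝ) / Real.log Y ^ A ≤ S.card →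
      ∀ M H : ℕ, (Y : ℝ) ^ (1 / 4 : ℝ) ≤ H →
      ∑ h ∈ Ioc M (M + H), (r1 S h : ℝ) ^ 2 ≤
        C₃ * H * (S.card : ℝ) ^ 2 * L3 Y / Real.log Y ^ 2 := by
  classical
  obtain ⟨C₁, hC₁, hps⟩ := Pool.Agent.PC.pair_sieve
  obtain ⟨C₂, hC₂, hsr⟩ := sum_ratio A
  refine ⟨32 * C₁ * C₂ + 1, by positivity, ?_⟩
  filter_upwards [hsr, eventually_ge_atTop 3,
    (Real.tendsto_log_atTop.comp tendsto_natCast_atTop_atTop).eventually_ge_atTop (2 : ℝ),
    tendsto_L3.eventually_ge_atTop 1, tl (A + 2) 1 one_pos] with Y hsr hY3 hlog hL3 htl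
    S hS hSc M H hH
  have hlog : 2 ≤ Real.log Y := hlog
  have hY' : (3 : ℝ) ≤ Y := by exact_mod_cast hY3
  have hlog0 : 0 < Real.log Y := by linarith
  have hSlog : Real.log Y ^ 2 ≤ S.card := by
    refine le_trans ?_ hSc
    rw [le_div_iff₀ (by positivity)]
    have h1 : Real.log Y ^ 2 * Real.log Y ^ A = Real.log Y ^ (A + 2) := by ring
    rw [h1]
    refine htl.trans ?_
    have h4 : Real.sqrt Y * Real.sqrt Y = Y := Real.mul_self_sqrt (by linarith)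
    have h5 : 1 ≤ Real.sqrt Y := by
      rw [Real.one_le_sqrt]
      linarith
    nlinarith
  have hS0 : (0 : ℝ) < S.card := lt_of_lt_of_le (by positivity) hSlog
  have hH1 : (1 : ℝ) ≤ H := by
    refine le_trans ?_ hH
    exact Real.one_le_rpow (by linarith) (by norm_num)
  have hH0 : (0 : ℝ) < H := by linarith
  have hlogH : Real.log Y / 4 ≤ Real.log H := by
    have h2 := Real.log_le_log (by positivity) hH
    rw [Real.log_rpow (by linarith)] at h2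
    linarith
  have hlogH0 : 0 < Real.log H := by linarith
  have hH2 : 2 ≤ H := by
    by_contra hcon
    have h1 : H ≤ 1 := by omega
    have h2 : (H : ℝ) ≤ 1 := by exact_mod_cast h1
    have h3 : (H : ℝ) = 1 := le_antisymm h2 hH1
    rw [h3, Real.log_one] at hlogH0
    exact lt_irrefl _ hlogH0
  have h1 : ∑ s ∈ S, ∑ s' ∈ S.filter (fun s' => s < s'),
      (((Ioc (s + M) (s + M + H)).filter (fun n => n.Prime ∧ (n + (s' - s)).Prime)).card : ℝ) ≤
      C₁ * H / Real.log H ^ 2 * (C₂ * (S.card : ℝ) ^ 2 * L3 Y) := by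
    calc ∑ s ∈ S, ∑ s' ∈ S.filter (fun s' => s < s'),
        (((Ioc (s + M) (s + M + H)).filter (fun n => n.Prime ∧ (n + (s' - s)).Prime)).card : ℝ)
        ≤ ∑ s ∈ S, ∑ s' ∈ S.filter (fun s' => s < s'), C₁ * H / Real.log H ^ 2 *
          (((s' - s : ℕ) : ℝ) / Nat.totient (s' - s)) := by
          apply Finset.sum_le_sum
          intro s _
          apply Finset.sum_le_sum
          intro s' hs'
          have hlt := (mem_filter.1 hs').2
          refine (hps (s + M) H (s' - s) hH2 (by omega)).trans (le_of_eq ?_)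
          ring
      _ = C₁ * H / Real.log H ^ 2 * ∑ s ∈ S, ∑ s' ∈ S.filter (fun s' => s < s'),
          (((s' - s : ℕ) : ℝ) / Nat.totient (s' - s)) := by
          rw [Finset.mul_sum]
          apply Finset.sum_congr rfl
          intro s _
          rw [Finset.mul_sum]
      _ ≤ _ := by
          apply mul_le_mul_of_nonneg_left _ (by positivity)
          exact hsr S hS hSc
  have h2 : C₁ * H / Real.log H ^ 2 ≤ 16 * C₁ * H / Real.log Y ^ 2 := by
    rw [div_le_div_iff₀ (by positivity) (by positivity)]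
    have h3 : Real.log Y ^ 2 ≤ 16 * Real.log H ^ 2 := by nlinarith
    have h4 := mul_le_mul_of_nonneg_left h3 (show 0 ≤ C₁ * H by positivity)
    linarith
  have hL3' : 1 ≤ L3 Y := hL3
  have h3 : C₁ * H / Real.log H ^ 2 * (C₂ * (S.card : ℝ) ^ 2 * L3 Y) ≤
      16 * C₁ * H / Real.log Y ^ 2 * (C₂ * (S.card : ℝ) ^ 2 * L3 Y) :=
    mul_le_mul_of_nonneg_right h2 (by positivity)
  have h4 : (S.card : ℝ) * H ≤ H * (S.card : ℝ) ^ 2 * L3 Y / Real.log Y ^ 2 := by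
    rw [le_div_iff₀ (by positivity)]
    calc (S.card : ℝ) * H * Real.log Y ^ 2 ≤ S.card * H * S.card :=
          mul_le_mul_of_nonneg_left hSlog (by positivity)
      _ = H * (S.card : ℝ) ^ 2 * 1 := by ring
      _ ≤ _ := mul_le_mul_of_nonneg_left hL3' (by positivity)
  have h5 := sum_r1_sq S M H
  calc ∑ h ∈ Ioc M (M + H), (r1 S h : ℝ) ^ 2
      ≤ H * (S.card : ℝ) ^ 2 * L3 Y / Real.log Y ^ 2 +
        2 * (16 * C₁ * H / Real.log Y ^ 2 * (C₂ * (S.card : ℝ) ^ 2 * L3 Y)) := by linarith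
    _ = (32 * C₁ * C₂ + 1) * H * (S.card : ℝ) ^ 2 * L3 Y / Real.log Y ^ 2 := by ring

end Pool.Agent.TSH
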