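import Mathlib
import Pool.Agent.TSH.TB

set_option autoImplicit false

/-!
# TSH / TC: primes `s + h` with `s` in an arbitrary set of integers `≤ Y`, `h` in a short window
-/

namespace Pool.Agent.TSH

open Finset Filter

/-- powers of the logarithm are small -/
theorem log_rpow (a : ℝ) (k : ℕ) (r : ℝ) (hr : 0 < r) :
    ∀ᶠ n : ℕ in atTop, a * Real.log n ^ k ≤ (n : ℝ) ^ r := by
  have hT : Tendsto (fun X : ℕ => (X : ℝ)) atTop atTop := tendsto_natCast_atTop_atTop
  have h1 := (isLittleO_log_rpow_rpow_atTop (k : ℝ) hr).bound (c := 1 / (|a| + 1)) (by positivity)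
  have h2 := hT.eventually h1
  filter_upwards [h2, eventually_ge_atTop 1] with X hX hX1
  have hX2 : (1 : ℝ) ≤ X := by exact_mod_cast hX1
  have hl : 0 ≤ Real.log X := Real.log_nonneg hX2
  rw [Real.norm_of_nonneg (by positivity), Real.norm_of_nonneg (by positivity),
    Real.rpow_natCast] at hX
  have h3 : a ≤ |a| + 1 := (le_abs_self a).trans (by linarith)
  calc a * Real.log X ^ k ≤ (|a| + 1) * Real.log X ^ k :=
        mul_le_mul_of_nonneg_right h3 (by positivity)
    _ ≤ (|a| + 1) * (1 / (|a| + 1) * (X : ℝ) ^ r) := mul_le_mul_of_nonneg_left hX (by positivity)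
    _ = (X : ℝ) ^ r := by field_simp

open Classical in
/-- the blocks -/
noncomputable def blk (Y : ℕ) (S : Finset ℕ) (i : ℕ) : Finset ℕ :=
  S.filter (fun s : ℕ => (Y : ℝ) * (2 / 3) ^ (i + 1) < s ∧ (s : ℝ) ≤ Y * (2 / 3) ^ i)

theorem blk_disj (Y : ℕ) (S : Finset ℕ) {i j : ℕ} (h : i < j) : Disjoint (blk Y S i) (blk Y S j) := by
  rw [Finset.disjoint_left]
  intro s h1 h2
  obtain ⟨_, h3, _⟩ := mem_filter.1 h1
  obtain ⟨_, _, h4⟩ := mem_filter.1 h2
  have h5 : ((2 : ℝ) / 3) ^ j ≤ (2 / 3) ^ (i + 1) :=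
    pow_le_pow_of_le_one (by norm_num) (by norm_num) h
  have h6 := mul_le_mul_of_nonneg_left h5 (Nat.cast_nonneg (α := ℝ) Y)
  linarith

theorem blk_disj' (Y : ℕ) (S : Finset ℕ) {i j : ℕ} (h : i ≠ j) :
    Disjoint (blk Y S i) (blk Y S j) := by
  rcases Nat.lt_or_gt_of_ne h with h | h
  · exact blk_disj Y S h
  · exact (blk_disj Y S h).symm

theorem cover (Y : ℕ) (S : Finset ℕ) (hS : ∀ s ∈ S, s ≤ Y) (I : ℕ) :
    (S.card : ℝ) ≤ ∑ i ∈ range I, ((blk Y S i).card : ℝ) + (Y * (2 / 3) ^ I + 1) := by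
  classical
  obtain ⟨T, hT⟩ : ∃ T : Finset ℕ, T = S.filter (fun s : ℕ => (s : ℝ) ≤ Y * (2 / 3) ^ I) := ⟨_, rfl⟩
  have h1 : S ⊆ (range I).biUnion (blk Y S) ∪ T := by
    intro s hs
    rw [Finset.mem_union]
    by_cases h2 : (s : ℝ) ≤ Y * (2 / 3) ^ I
    · right
      rw [hT, mem_filter]
      exact ⟨hs, h2⟩
    · left
      have h2 := not_le.1 h2
      have h3 : ∃ j : ℕ, (Y : ℝ) * (2 / 3) ^ j < s := ⟨I, h2⟩
      have h4 := Nat.find_spec h3
      have h5 : Nat.find h3 ≤ I := Nat.find_le h2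
      have h6 : Nat.find h3 ≠ 0 := by
        intro h7
        rw [h7, pow_zero, mul_one] at h4
        have h8 : (s : ℝ) ≤ Y := by exact_mod_cast hS s hs
        linarith
      have h7 := Nat.find_min h3 (show Nat.find h3 - 1 < Nat.find h3 by omega)
      rw [Finset.mem_biUnion]
      refine ⟨Nat.find h3 - 1, mem_range.2 (by omega), ?_⟩
      unfold blk
      rw [mem_filter]
      refine ⟨hs, ?_, not_lt.1 h7⟩
      have h8 : Nat.find h3 - 1 + 1 = Nat.find h3 := by omega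
      rw [h8]
      exact h4
  have h2 : (T.card : ℝ) ≤ Y * (2 / 3) ^ I + 1 := by
    have h3 : T ⊆ range (⌊(Y : ℝ) * (2 / 3) ^ I⌋₊ + 1) := by
      intro s hs
      rw [hT, mem_filter] at hs
      rw [mem_range]
      have := Nat.le_floor hs.2
      omega
    have h4 := Finset.card_le_card h3
    rw [Finset.card_range] at h4
    have h5 : (T.card : ℝ) ≤ (⌊(Y : ℝ) * (2 / 3) ^ I⌋₊ : ℝ) + 1 := by exact_mod_cast h4
    have h6 := Nat.floor_le (show 0 ≤ (Y : ℝ) * (2 / 3) ^ I by positivity)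
    linarith
  have h3 : S.card ≤ ∑ i ∈ range I, (blk Y S i).card + T.card := by
    refine (Finset.card_le_card h1).trans ((Finset.card_union_le _ _).trans ?_)
    exact Nat.add_le_add_right Finset.card_biUnion_le _
  have h4 : (S.card : ℝ) ≤ ∑ i ∈ range I, ((blk Y S i).card : ℝ) + T.card := by
    exact_mod_cast h3
  linarith

theorem r1_blk (Y : ℕ) (S : Finset ℕ) (R : Finset ℕ) (h : ℕ) :
    ∑ i ∈ R, (r1 (blk Y S i) h : ℝ) ≤ r1 S h := by
  classical
  unfold r1
  have h1 : ∑ i ∈ R, (((blk Y S i).filter (fun s => (s + h).Prime)).card : ℝ) =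
      ((R.biUnion (fun i => (blk Y S i).filter (fun s => (s + h).Prime))).card : ℝ) := by
    rw [Finset.card_biUnion]
    · push_cast
      rfl
    · intro i _ j _ hij
      exact Finset.disjoint_filter_filter (blk_disj' Y S hij)
  rw [h1]
  norm_cast
  apply Finset.card_le_card
  intro s hs
  obtain ⟨i, _, h2⟩ := Finset.mem_biUnion.1 hs
  obtain ⟨h3, h4⟩ := mem_filter.1 h2
  exact mem_filter.2 ⟨Finset.filter_subset _ _ h3, h4⟩

/-- sum of the sizes of the blocks -/
theorem geo (I : ℕ) : ∑ i ∈ range I, ((2 : ℝ) / 3) ^ (i + 1) ≤ 2 := by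
  have h1 : ∑ i ∈ range I, ((2 : ℝ) / 3) ^ (i + 1) = 2 - 2 * (2 / 3) ^ I := by
    induction I with
    | zero => simp
    | succ I ih =>
      rw [Finset.sum_range_succ, ih]
      ring
  rw [h1]
  have : (0 : ℝ) ≤ (2 / 3) ^ I := by positivity
  linarith

end Pool.Agent.TSH
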