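import Mathlib
import Pool.Agent.TSH.TC

set_option autoImplicit false

/-!
# TSH / TD: primes `s + h` with `s` in an arbitrary set of integers `≤ Y`, `h` in a short window
-/

namespace Pool.Agent.TSH

open Finset Filter

/-- the number of blocks -/
theorem exists_I {Z : ℝ} (hZ : 1 < Z) : ∃ I : ℕ, ((2 : ℝ) / 3) ^ I ≤ 1 / Z ∧
    ∀ i < I, 2 / 3 / Z ≤ ((2 : ℝ) / 3) ^ (i + 1) := by
  classical
  have hZ0 : 0 < Z := by linarith
  have h1 : ∃ I : ℕ, ((2 : ℝ) / 3) ^ I ≤ 1 / Z := by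
    obtain ⟨I, hI⟩ := exists_pow_lt_of_lt_one (show (0 : ℝ) < 1 / Z by positivity)
      (show (2 : ℝ) / 3 < 1 by norm_num)
    exact ⟨I, hI.le⟩
  refine ⟨Nat.find h1, Nat.find_spec h1, fun i hi => ?_⟩
  have h2 := not_le.1 (Nat.find_min h1 hi)
  rw [pow_succ]
  have h3 : 2 / 3 / Z = 1 / Z * (2 / 3) := by ring
  rw [h3]
  exact mul_le_mul_of_nonneg_right h2.le (by norm_num)

/-- first moment for a set which is not too thin -/
theorem first2 (hGap : Pool.Agent.SI.St_Gap) : ∃ c₁ : ℝ, 0 < c₁ ∧ ∀ ε : ℝ, 0 < ε → ε < 1 / 4 →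
    ∀ A : ℕ, ∀ᶠ Y : ℕ in atTop, ∀ S : Finset ℕ, (∀ s ∈ S, s ≤ Y) →
      (Y : ℝ) / Real.log Y ^ A ≤ S.card → ∀ M H : ℕ, (Y : ℝ) ^ (1 / 4 + ε) ≤ H →
      (M : ℝ) + H ≤ Y / Real.log Y ^ (A + 3) →
      c₁ * S.card * H / Real.log Y ≤ ∑ h ∈ Ioc M (M + H), (r1 S h : ℝ) := by
  classical
  obtain ⟨c₁, hc₁, h1⟩ := first1 hGap
  refine ⟨c₁ / 2, by positivity, fun ε hε hε4 A => ?_⟩
  obtain ⟨Y₀, hY₀⟩ := eventually_atTop.1 (h1 ε hε hε4 (A + 1))
  have hlogT : Tendsto (fun X : ℕ => Real.log X) atTop atTop :=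
    Real.tendsto_log_atTop.comp tendsto_natCast_atTop_atTop
  have hsqT : Tendsto (fun X : ℕ => Real.sqrt X) atTop atTop :=
    Real.tendsto_sqrt_atTop.comp tendsto_natCast_atTop_atTop
  filter_upwards [hsqT.eventually_ge_atTop (Y₀ + 1 : ℝ), eventually_ge_atTop 3,
    hlogT.eventually_ge_atTop (2 ^ (A + 5) : ℝ), tl (A + 2) (1 / 16) (by norm_num)] with
    Y hYX hY3 hlog htl S hS hSc M H hH hMH
  obtain ⟨L, hL⟩ : ∃ L : ℝ, L = Real.log Y := ⟨_, rfl⟩
  rw [← hL] at hlog htl hSc hMH ⊢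
  have hL32 : 32 ≤ L := by
    refine le_trans ?_ hlog
    have : (2 : ℝ) ^ 5 ≤ 2 ^ (A + 5) := pow_le_pow_right₀ (by norm_num) (by omega)
    calc (32 : ℝ) = 2 ^ 5 := by norm_num
      _ ≤ _ := this
  have hL0 : 0 < L := by linarith
  have hY' : (3 : ℝ) ≤ Y := by exact_mod_cast hY3
  have hY0 : (0 : ℝ) < Y := by linarith
  have hsq : Real.sqrt Y * Real.sqrt Y = Y := Real.mul_self_sqrt hY0.le
  have hsq1 : 1 ≤ Real.sqrt Y := by
    rw [Real.one_le_sqrt]
    linarith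
  obtain ⟨Z, hZ⟩ : ∃ Z : ℝ, Z = L ^ (A + 2) := ⟨_, rfl⟩
  rw [← hZ] at htl
  have hZL : L ^ 2 ≤ Z := by
    rw [hZ]
    exact pow_le_pow_right₀ (by linarith) (by omega)
  have hZ1 : 1 < Z := by nlinarith
  have hZ0 : 0 < Z := by linarith
  -- sqrt Y ≤ (1/16) Y / Z
  have hsqZ : 16 * Real.sqrt Y ≤ Y / Z := by
    rw [le_div_iff₀ hZ0]
    nlinarith
  have hLZ : Y / L ^ (A + 3) = Y / Z / L := by
    rw [hZ, div_div, ← pow_succ]
  have hLA : (Y : ℝ) / L ^ (A + 1) = Y / L ^ A / L := by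
    rw [pow_succ, div_div]
  have hLA2 : (Y : ℝ) / Z = Y / L ^ A / L ^ 2 := by
    rw [hZ, pow_add, div_div]
  obtain ⟨I, hI1, hI2⟩ := exists_I hZ1
  obtain ⟨f, hf⟩ : ∃ f : ℕ → ℝ, f = fun i => (Y : ℝ) * (2 / 3) ^ (i + 1) := ⟨_, rfl⟩
  have hfI : ∀ i < I, 2 / 3 * (Y / Z) ≤ f i := by
    intro i hi
    rw [hf]
    have := mul_le_mul_of_nonneg_left (hI2 i hi) hY0.le
    calc 2 / 3 * (Y / Z) = Y * (2 / 3 / Z) := by ring
      _ ≤ _ := this
  have hfY : ∀ i, f i ≤ Y := by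
    intro i
    rw [hf]
    have : ((2 : ℝ) / 3) ^ (i + 1) ≤ 1 := pow_le_one₀ (by norm_num) (by norm_num)
    calc (Y : ℝ) * (2 / 3) ^ (i + 1) ≤ Y * 1 := mul_le_mul_of_nonneg_left this hY0.le
      _ = Y := mul_one _
  have hfI' : ∀ i < I, Real.sqrt Y ≤ f i := by
    intro i hi
    have := hfI i hi
    linarith
  obtain ⟨g, hg⟩ : ∃ g : ℕ → ℕ, g = fun i => ⌈f i⌉₊ := ⟨_, rfl⟩
  have hgf : ∀ i, f i ≤ g i := by
    intro i
    rw [hg]
    exact Nat.le_ceil _
  have hgY : ∀ i, g i ≤ Y := by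
    intro i
    rw [hg]
    exact Nat.ceil_le.2 (hfY i)
  have hg2 : ∀ i < I, (g i : ℝ) ≤ 2 * f i := by
    intro i hi
    have h2 := hfI' i hi
    have h3 := Nat.ceil_lt_add_one (show 0 ≤ f i by linarith)
    rw [hg]
    simp only
    linarith
  have hglog : ∀ i < I, L / 2 ≤ Real.log (g i) ∧ Real.log (g i) ≤ L := by
    intro i hi
    have h2 := (hfI' i hi).trans (hgf i)
    constructor
    · have h3 := Real.log_le_log (by linarith) h2
      rw [Real.log_sqrt hY0.le, ← hL] at h3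
      exact h3
    · rw [hL]
      apply Real.log_le_log (by linarith)
      exact_mod_cast hgY i
  -- rich and poor blocks
  obtain ⟨R, hR⟩ : ∃ R : Finset ℕ, R = (range I).filter (fun i =>
    (g i : ℝ) / Real.log (g i) ^ (A + 1) ≤ (blk Y S i).card) := ⟨_, rfl⟩
  have hrich : ∀ i ∈ R, c₁ * (blk Y S i).card * H / L ≤
      ∑ h ∈ Ioc M (M + H), (r1 (blk Y S i) h : ℝ) := by
    intro i hi
    rw [hR] at hi
    obtain ⟨hi1, hi2⟩ := mem_filter.1 hi
    rw [mem_range] at hi1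
    have h2 := (hfI' i hi1).trans (hgf i)
    have h3 : Y₀ ≤ g i := by
      have : (Y₀ : ℝ) ≤ g i := by linarith
      exact_mod_cast this
    obtain ⟨h4, h5⟩ := hglog i hi1
    have h6 : ∀ s ∈ blk Y S i, g i ≤ s ∧ 2 * s ≤ 3 * g i := by
      intro s hs
      obtain ⟨_, e1, e2⟩ := mem_filter.1 hs
      constructor
      · rw [hg]
        apply Nat.ceil_le.2
        rw [hf]
        exact e1.le
      · have e3 : (2 : ℝ) * s ≤ 3 * g i := by
          have e4 := hgf i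
          rw [hf] at e4
          simp only at e4
          have e5 : (Y : ℝ) * (2 / 3) ^ (i + 1) = 2 / 3 * (Y * (2 / 3) ^ i) := by
            rw [pow_succ]
            ring
          rw [e5] at e4
          linarith
        exact_mod_cast e3
    have h7 : 2 * (M + H) ≤ g i := by
      have e1 : (2 : ℝ) * (M + H) ≤ g i := by
        have e2 := (hfI i hi1).trans (hgf i)
        have e3 : (M : ℝ) + H ≤ Y / Z / L := by
          rw [← hLZ]
          exact hMH
        have e4 : Y / Z / L ≤ Y / Z / 32 :=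
          div_le_div_of_nonneg_left (by positivity) (by norm_num) hL32
        have e5 : 0 ≤ Y / Z := by positivity
        linarith
      exact_mod_cast e1
    have h8 : (g i : ℝ) ^ (1 / 4 + ε) ≤ H := by
      refine le_trans ?_ hH
      apply Real.rpow_le_rpow (Nat.cast_nonneg _) _ (by linarith)
      exact_mod_cast hgY i
    have h9 := hY₀ (g i) h3 (blk Y S i) h6 hi2 M H h8 h7
    refine le_trans ?_ h9
    apply div_le_div_of_nonneg_left (by positivity) (by linarith) h5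
  have hpoor : ∑ i ∈ (range I).filter (fun i => ¬ ((g i : ℝ) / Real.log (g i) ^ (A + 1) ≤
      (blk Y S i).card)), ((blk Y S i).card : ℝ) ≤ S.card / 4 := by
    have h2 : ∀ i ∈ (range I).filter (fun i => ¬ ((g i : ℝ) / Real.log (g i) ^ (A + 1) ≤
        (blk Y S i).card)), ((blk Y S i).card : ℝ) ≤
        2 * Y * 2 ^ (A + 1) / L ^ (A + 1) * (2 / 3) ^ (i + 1) := by
      intro i hi
      obtain ⟨hi1, hi2⟩ := mem_filter.1 hi
      rw [mem_range] at hi1
      refine (not_le.1 hi2).le.trans ?_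
      obtain ⟨h4, _⟩ := hglog i hi1
      calc (g i : ℝ) / Real.log (g i) ^ (A + 1) ≤ 2 * f i / (L / 2) ^ (A + 1) := by
            apply div_le_div₀ (by have := hfI' i hi1; linarith) (hg2 i hi1) (by positivity)
            exact pow_le_pow_left₀ (by positivity) h4 _
        _ = _ := by
            rw [hf, div_pow]
            field_simp
    have h3 := Finset.sum_le_sum h2
    refine h3.trans ?_
    calc ∑ i ∈ (range I).filter (fun i => ¬ ((g i : ℝ) / Real.log (g i) ^ (A + 1) ≤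
          (blk Y S i).card)), 2 * Y * 2 ^ (A + 1) / L ^ (A + 1) * (2 / 3 : ℝ) ^ (i + 1)
        ≤ ∑ i ∈ range I, 2 * Y * 2 ^ (A + 1) / L ^ (A + 1) * (2 / 3 : ℝ) ^ (i + 1) :=
          Finset.sum_le_sum_of_subset_of_nonneg (Finset.filter_subset _ _)
            (fun _ _ _ => by positivity)
      _ = 2 * Y * 2 ^ (A + 1) / L ^ (A + 1) * ∑ i ∈ range I, (2 / 3 : ℝ) ^ (i + 1) := by
          rw [Finset.mul_sum]
      _ ≤ 2 * Y * 2 ^ (A + 1) / L ^ (A + 1) * 2 :=
          mul_le_mul_of_nonneg_left (geo I) (by positivity)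
      _ = 2 ^ (A + 3) / L * (Y / L ^ A) := by
          rw [pow_succ L A]
          field_simp
          ring
      _ ≤ 1 / 4 * S.card := by
          apply mul_le_mul _ hSc (by positivity) (by norm_num)
          rw [div_le_div_iff₀ hL0 (by norm_num)]
          calc (2 : ℝ) ^ (A + 3) * 4 = 2 ^ (A + 5) := by ring
            _ ≤ 1 * L := by linarith
      _ = S.card / 4 := by ring
  have htail : (Y : ℝ) * (2 / 3) ^ I + 1 ≤ S.card / 4 := by
    have h2 : (Y : ℝ) * (2 / 3) ^ I ≤ Y / Z := by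
      calc (Y : ℝ) * (2 / 3) ^ I ≤ Y * (1 / Z) := mul_le_mul_of_nonneg_left hI1 hY0.le
        _ = Y / Z := by ring
    have h3 : 1 ≤ Y / Z := by linarith
    have h4 : Y / Z ≤ S.card / 8 := by
      rw [hLA2]
      apply div_le_div₀ (Nat.cast_nonneg _) hSc (by norm_num)
      nlinarith
    linarith
  have hcov := cover Y S hS I
  have hsplit := Finset.sum_filter_add_sum_filter_not (range I)
    (fun i => (g i : ℝ) / Real.log (g i) ^ (A + 1) ≤ (blk Y S i).card)
    (fun i => ((blk Y S i).card : ℝ))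
  rw [← hR] at hsplit
  have hsum : (S.card : ℝ) / 2 ≤ ∑ i ∈ R, ((blk Y S i).card : ℝ) := by linarith
  calc c₁ / 2 * S.card * H / L = c₁ * H / L * (S.card / 2) := by ring
    _ ≤ c₁ * H / L * ∑ i ∈ R, ((blk Y S i).card : ℝ) :=
        mul_le_mul_of_nonneg_left hsum (by positivity)
    _ = ∑ i ∈ R, c₁ * (blk Y S i).card * H / L := by
        rw [Finset.mul_sum]
        apply Finset.sum_congr rfl
        intro i _
        ring
    _ ≤ ∑ i ∈ R, ∑ h ∈ Ioc M (M + H), (r1 (blk Y S i) h : ℝ) := Finset.sum_le_sum hrich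
    _ = ∑ h ∈ Ioc M (M + H), ∑ i ∈ R, (r1 (blk Y S i) h : ℝ) := Finset.sum_comm
    _ ≤ _ := Finset.sum_le_sum fun h _ => r1_blk Y S R h

/-- **Primes `s + h` with `s` in an arbitrary set and `h` in a short window.** -/
theorem tcore2 (hGap : Pool.Agent.SI.St_Gap) (ε : ℝ) (hε : 0 < ε) (hε4 : ε < 1 / 4) (A : ℕ) :
    ∃ c : ℝ, 0 < c ∧ ∀ᶠ Y : ℕ in atTop, ∀ S : Finset ℕ, (∀ s ∈ S, s ≤ Y) →
      (Y : ℝ) / Real.log Y ^ A ≤ S.card → ∀ M H : ℕ, (Y : ℝ) ^ (1 / 4 + ε) ≤ H →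
      (M : ℝ) + H ≤ Y / Real.log Y ^ (A + 3) →
      c * H / L3 Y ≤
        (((Ioc M (M + H)).filter (fun h => c * S.card / Real.log Y ≤ r1 S h)).card : ℝ) := by
  classical
  obtain ⟨c₁, hc₁, h1⟩ := first2 hGap
  obtain ⟨C₃, hC₃, h2⟩ := second1 A
  refine ⟨min (c₁ ^ 2 / (16 * C₃)) (c₁ / 4), by positivity, ?_⟩
  filter_upwards [h1 ε hε hε4 A, h2, eventually_ge_atTop 3,
    (Real.tendsto_log_atTop.comp tendsto_natCast_atTop_atTop).eventually_ge_atTop (2 : ℝ),
    tendsto_L3.eventually_ge_atTop 1] with Y h1 h2 hY3 hlog hL3 S hS hSc M H hH hMH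
  have hlog : 2 ≤ Real.log Y := hlog
  have hL3 : 1 ≤ L3 Y := hL3
  have hY' : (3 : ℝ) ≤ Y := by exact_mod_cast hY3
  have hlog0 : 0 < Real.log Y := by linarith
  have hS0 : (0 : ℝ) < S.card := lt_of_lt_of_le (by positivity) hSc
  have hH4 : (Y : ℝ) ^ (1 / 4 : ℝ) ≤ H := by
    refine le_trans ?_ hH
    exact Real.rpow_le_rpow_of_exponent_le (by linarith) (by linarith)
  have hH0 : (0 : ℝ) < H := lt_of_lt_of_le (by positivity) hH4
  have hR := h1 S hS hSc M H hH hMH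
  have hQ := h2 S (fun s hs => by have := hS s hs; omega) hSc M H hH4
  have hpz := pz (Ioc M (M + H)) (fun h => (r1 S h : ℝ)) (m := c₁ * S.card / (2 * Real.log Y))
    hR (by positivity) (by
      rw [Nat.card_Ioc, Nat.add_sub_cancel_left]
      apply le_of_eq
      field_simp) (by positivity) hQ (by positivity)
  have h3 : min (c₁ ^ 2 / (16 * C₃)) (c₁ / 4) * H / L3 Y ≤
      (c₁ * S.card * H / Real.log Y) ^ 2 /
        (4 * (C₃ * H * (S.card : ℝ) ^ 2 * L3 Y / Real.log Y ^ 2)) := by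
    calc min (c₁ ^ 2 / (16 * C₃)) (c₁ / 4) * H / L3 Y ≤ c₁ ^ 2 / (4 * C₃) * H / L3 Y := by
          apply div_le_div_of_nonneg_right _ (by linarith)
          apply mul_le_mul_of_nonneg_right _ hH0.le
          refine (min_le_left _ _).trans ?_
          apply div_le_div_of_nonneg_left (by positivity) (by positivity)
          linarith
      _ = _ := by
          field_simp
  refine h3.trans (hpz.trans ?_)
  norm_cast
  apply Finset.card_le_card
  intro h hh
  obtain ⟨h4, h5⟩ := mem_filter.1 hh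
  rw [mem_filter]
  refine ⟨h4, le_trans ?_ h5⟩
  calc min (c₁ ^ 2 / (16 * C₃)) (c₁ / 4) * S.card / Real.log Y ≤
        c₁ / 2 * S.card / Real.log Y := by
        apply div_le_div_of_nonneg_right _ hlog0.le
        apply mul_le_mul_of_nonneg_right _ hS0.le
        exact (min_le_right _ _).trans (by linarith)
    _ = c₁ * S.card / (2 * Real.log Y) := by
        field_simp

end Pool.Agent.TSH
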