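import Mathlib
import Pool.Agent.TSH.TD
import Pool.Agent.TSH.Fin

set_option autoImplicit false

/-!
# TSH / TE: short windows, sequences indexed by an arbitrary set of `k`
-/

namespace Pool.Agent.TSH

open Finset Filter
open Pool.Agent.Helper20.TwinIndex (pr pr_prime pr_strictMono pr_mono pi_pr lt_pr)

open Classical in
theorem shift_seq (hGap : Pool.Agent.SI.St_Gap) (ε : ℝ) (hε : 0 < ε) (C : ℕ) :
    ∃ c : ℝ, 0 < c ∧ ∀ᶠ n : ℕ in atTop, ∀ (f : ℕ → ℕ) (K : Finset ℕ), Set.InjOn f K →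
      (∀ k ∈ K, (f k : ℝ) ≤ 3600 * (n * Real.log n ^ 2)) → (n : ℝ) / Real.log n ^ C ≤ K.card →
      ∀ M H : ℕ, (n : ℝ) ^ (1 / 4 + ε) ≤ H → (M : ℝ) + H ≤ (n : ℝ) ^ (1 - ε) →
      c * H / Real.log (Real.log (Real.log n)) ≤
        (((Ioc M (M + H)).filter (fun h => c * K.card / Real.log n ≤
          ((K.filter (fun k => (f k + h).Prime)).card : ℝ))).card : ℝ) := by
  obtain ⟨ε₁, hε₁⟩ : ∃ ε₁ : ℝ, ε₁ = min ε (1 / 5) := ⟨_, rfl⟩
  have he0 : 0 < ε₁ := by rw [hε₁]; positivity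
  have he1 : ε₁ ≤ ε := by rw [hε₁]; exact min_le_left _ _
  have he2 : ε₁ ≤ 1 / 5 := by rw [hε₁]; exact min_le_right _ _
  obtain ⟨c₁, hc₁, h1⟩ := tcore2 hGap (ε₁ / 2) (by linarith) (by linarith) (C + 3)
  obtain ⟨Y₁, hY₁⟩ := eventually_atTop.1 h1
  refine ⟨c₁ / 2, by positivity, ?_⟩
  have hlogT : Tendsto (fun X : ℕ => Real.log X) atTop atTop :=
    Real.tendsto_log_atTop.comp tendsto_natCast_atTop_atTop
  filter_upwards [eventually_ge_atTop Y₁, eventually_ge_atTop 400,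
    hlogT.eventually_ge_atTop (3601 : ℝ), L3_le, log_rpow 3601 2 (ε₁ / 2) (by linarith),
    log_rpow (2 ^ (C + 6)) (C + 6) ε₁ he0] with
    n hnY hn4 hlog hL3 hpow hpow2 f K hinj hfK hKc M H hH hMH
  have hn' : (400 : ℝ) ≤ n := by exact_mod_cast hn4
  have hn0 : (0 : ℝ) < n := by linarith
  obtain ⟨L, hL⟩ : ∃ L : ℝ, L = Real.log n := ⟨_, rfl⟩
  rw [← hL] at hlog hpow hpow2 hfK hKc ⊢
  have hL0 : 0 < L := by linarith
  obtain ⟨Y, hY⟩ : ∃ Y : ℕ, Y = ⌈3600 * (n * L ^ 2)⌉₊ := ⟨_, rfl⟩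
  have hL2 : (1 : ℝ) ≤ L ^ 2 := by nlinarith
  have hnL : (n : ℝ) ≤ n * L ^ 2 := by nlinarith
  have hYlo : 3600 * (n * L ^ 2) ≤ Y := by rw [hY]; exact Nat.le_ceil _
  have hYup : (Y : ℝ) ≤ 3601 * (n * L ^ 2) := by
    have e3 := Nat.ceil_lt_add_one (show 0 ≤ 3600 * ((n : ℝ) * L ^ 2) by positivity)
    rw [← hY] at e3
    linarith
  have hnY' : (n : ℝ) ≤ Y := by linarith
  have hnYn : n ≤ Y := by exact_mod_cast hnY'
  have hLY : L ≤ Real.log Y := by
    rw [hL]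
    exact Real.log_le_log (by linarith) hnY'
  have hpow1 : (Y : ℝ) ≤ (n : ℝ) ^ (1 + ε₁ / 2) := by
    rw [Real.rpow_add (by linarith), Real.rpow_one]
    calc (Y : ℝ) ≤ n * (3601 * L ^ 2) := by linarith
      _ ≤ _ := mul_le_mul_of_nonneg_left hpow (by linarith)
  have hLY2 : Real.log Y ≤ 2 * L := by
    have e1 := Real.log_le_log (by linarith) hpow1
    rw [Real.log_rpow (by linarith), ← hL] at e1
    have e2 : (1 + ε₁ / 2) * L ≤ 2 * L := mul_le_mul_of_nonneg_right (by linarith) hL0.le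
    linarith
  have hlY : 0 < Real.log Y := by linarith
  obtain ⟨hL3a, hL3b⟩ := hL3 Y hnYn (by rw [← hL]; exact hLY2)
  -- the set
  obtain ⟨S, hS⟩ : ∃ S : Finset ℕ, S = K.image f := ⟨_, rfl⟩
  have hScard : S.card = K.card := by
    rw [hS]
    exact Finset.card_image_of_injOn hinj
  have hSmem : ∀ s ∈ S, s ≤ Y := by
    intro s hs
    rw [hS] at hs
    obtain ⟨k, hk, rfl⟩ := Finset.mem_image.1 hs
    have e1 := (hfK k hk).trans hYlo
    exact_mod_cast e1
  have hScd : (Y : ℝ) / Real.log Y ^ (C + 3) ≤ S.card := by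
    rw [hScard]
    refine le_trans ?_ hKc
    have e1 : (Y : ℝ) / Real.log Y ^ (C + 3) ≤ 3601 * (n * L ^ 2) / L ^ (C + 3) := by
      apply div_le_div₀ (by positivity) hYup (by positivity)
      exact pow_le_pow_left₀ hL0.le hLY _
    refine e1.trans ?_
    have e2 : 3601 * ((n : ℝ) * L ^ 2) / L ^ (C + 3) = 3601 / L * (n / L ^ C) := by
      rw [pow_add]
      field_simp
    rw [e2]
    have e3 : 3601 / L ≤ 1 := by
      rw [div_le_one hL0]
      exact hlog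
    have e4 : (0 : ℝ) ≤ n / L ^ C := by positivity
    nlinarith
  have hHY : (Y : ℝ) ^ (1 / 4 + ε₁ / 2) ≤ H := by
    refine le_trans ?_ hH
    have e1 : (Y : ℝ) ^ (1 / 4 + ε₁ / 2) ≤ ((n : ℝ) ^ (1 + ε₁ / 2)) ^ (1 / 4 + ε₁ / 2) :=
      Real.rpow_le_rpow (by linarith) hpow1 (by linarith)
    refine e1.trans ?_
    rw [← Real.rpow_mul (by linarith)]
    apply Real.rpow_le_rpow_of_exponent_le (by linarith)
    nlinarith
  have hMHY : (M : ℝ) + H ≤ Y / Real.log Y ^ (C + 3 + 3) := by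
    refine hMH.trans ?_
    rw [le_div_iff₀ (by positivity)]
    calc (n : ℝ) ^ (1 - ε) * Real.log Y ^ (C + 3 + 3)
        ≤ (n : ℝ) ^ (1 - ε₁) * (2 ^ (C + 6) * L ^ (C + 6)) := by
          apply mul_le_mul _ _ (by positivity) (by positivity)
          · exact Real.rpow_le_rpow_of_exponent_le (by linarith) (by linarith)
          · rw [← mul_pow]
            exact pow_le_pow_left₀ hlY.le hLY2 _
      _ ≤ (n : ℝ) ^ (1 - ε₁) * (n : ℝ) ^ ε₁ := mul_le_mul_of_nonneg_left hpow2 (by positivity)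
      _ = n := by
          rw [← Real.rpow_add hn0]
          have : (1 - ε₁ + ε₁ : ℝ) = 1 := by ring
          rw [this, Real.rpow_one]
      _ ≤ Y := hnY'
  have h2 := hY₁ Y (hnY.trans hnYn) S hSmem hScd M H hHY hMHY
  have hH0 : (0 : ℝ) ≤ H := Nat.cast_nonneg H
  have hL3n : 0 < L3 n := by linarith
  have h3 : c₁ / 2 * H / Real.log (Real.log L) ≤ c₁ * H / L3 Y := by
    have e0 : Real.log (Real.log L) = L3 n := by rw [hL]; rfl
    rw [e0]
    rw [div_le_div_iff₀ hL3n hL3a]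
    have e1 : c₁ / 2 * H * L3 Y ≤ c₁ / 2 * H * (2 * L3 n) :=
      mul_le_mul_of_nonneg_left hL3b (by positivity)
    linarith
  refine h3.trans (h2.trans ?_)
  norm_cast
  apply Finset.card_le_card
  intro h hh
  obtain ⟨h4, h5⟩ := mem_filter.1 hh
  rw [mem_filter]
  refine ⟨h4, ?_⟩
  have h6 : r1 S h ≤ (K.filter (fun k => (f k + h).Prime)).card := by
    unfold r1
    have e1 : S.filter (fun s => (s + h).Prime) ⊆
        (K.filter (fun k => (f k + h).Prime)).image f := by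
      intro s hs
      obtain ⟨e2, e3⟩ := mem_filter.1 hs
      rw [hS] at e2
      obtain ⟨k, hk, rfl⟩ := Finset.mem_image.1 e2
      exact Finset.mem_image.2 ⟨k, mem_filter.2 ⟨hk, e3⟩, rfl⟩
    exact (Finset.card_le_card e1).trans Finset.card_image_le
  have h7 : (r1 S h : ℝ) ≤ ((K.filter (fun k => (f k + h).Prime)).card : ℕ) := by
    exact_mod_cast h6
  refine le_trans ?_ (h5.trans h7)
  rw [hScard]
  rw [div_le_div_iff₀ hL0 hlY]
  have hK0 : (0 : ℝ) ≤ K.card := Nat.cast_nonneg _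
  calc c₁ / 2 * K.card * Real.log Y ≤ c₁ / 2 * K.card * (2 * L) :=
        mul_le_mul_of_nonneg_left hLY2 (by positivity)
    _ = c₁ * K.card * L := by ring

theorem pr_injOn {n : ℕ} {K : Finset ℕ} (hK : ∀ k ∈ K, 1 ≤ k ∧ k < n) : Set.InjOn pr K := by
  intro k hk k' hk' h
  have h1 := hK k hk
  have h2 := hK k' hk'
  rcases lt_trichotomy k k' with h3 | h3 | h3
  · have := pr_strictMono h1.1 h3
    omega
  · exact h3
  · have := pr_strictMono h2.1 h3
    omega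

theorem bn_injOn {n : ℕ} {K : Finset ℕ} (hK : ∀ k ∈ K, 1 ≤ k ∧ k < n) : Set.InjOn (bn n) K := by
  intro k hk k' hk' h
  have h1 := hK k hk
  have h2 := hK k' hk'
  rcases lt_trichotomy k k' with h3 | h3 | h3
  · have := bn_lt (n := n) h3 h2.2
    omega
  · exact h3
  · have := bn_lt (n := n) h3 h1.2
    omega

theorem bn_le {n k : ℕ} (hn : 400 ≤ n) (hk : k < n) :
    (bn n k : ℝ) ≤ 3600 * (n * Real.log n ^ 2) := by
  have h1 := (pp_bd (m := n) (n := n) hn (by omega) le_rfl).2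
  refine le_trans ?_ h1
  unfold bn
  have h2 : pr (n - k) ≤ pr n := pr_mono (by omega)
  exact_mod_cast pr_mono h2

theorem pr_le' {n k : ℕ} (hn : 400 ≤ n) (hk : k < n) :
    (pr k : ℝ) ≤ 3600 * (n * Real.log n ^ 2) := by
  have h1 := (pp_bd (m := n) (n := n) hn (by omega) le_rfl).2
  refine le_trans ?_ h1
  have h2 : pr k ≤ pr n := pr_mono hk.le
  have h3 : n ≤ pr n := (lt_pr (by omega)).le
  have h4 : pr n ≤ pr (pr n) := pr_mono h3
  exact_mod_cast h2.trans h4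

open Classical in
/-- **Two shifts in short windows.** -/
theorem two_shifts (hGap : Pool.Agent.SI.St_Gap) (ε : ℝ) (hε : 0 < ε) (C : ℕ) :
    ∃ c : ℝ, 0 < c ∧ ∀ᶠ n : ℕ in atTop, ∀ K : Finset ℕ, (∀ k ∈ K, 1 ≤ k ∧ k < n) →
      (n : ℝ) / Real.log n ^ C ≤ K.card → ∀ M₁ H₁ M₂ H₂ : ℕ,
      (n : ℝ) ^ (1 / 4 + ε) ≤ H₁ → (M₁ : ℝ) + H₁ ≤ (n : ℝ) ^ (1 - ε) →
      (n : ℝ) ^ (1 / 4 + ε) ≤ H₂ → (M₂ : ℝ) + H₂ ≤ (n : ℝ) ^ (1 - ε) →
      c * H₁ / Real.log (Real.log (Real.log n)) ≤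
        (((Ioc M₁ (M₁ + H₁)).filter (fun h₁ => c * H₂ / Real.log (Real.log (Real.log n)) ≤
          (((Ioc M₂ (M₂ + H₂)).filter (fun h₂ => c * K.card / Real.log n ^ 2 ≤
            ((K.filter (fun k => (pr k + h₁).Prime ∧ (pr (pr (n - k)) + h₂).Prime)).card : ℝ))).card
            : ℝ))).card : ℝ) := by
  obtain ⟨a, ha, h1⟩ := shift_seq hGap ε hε C
  obtain ⟨b, hb, h2⟩ := shift_seq hGap ε hε (C + 2)
  obtain ⟨c, hc⟩ : ∃ c : ℝ, c = min (min a b) (a * b) := ⟨_, rfl⟩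
  have hc0 : 0 < c := by rw [hc]; positivity
  have hca : c ≤ a := by rw [hc]; exact (min_le_left _ _).trans (min_le_left _ _)
  have hcb : c ≤ b := by rw [hc]; exact (min_le_left _ _).trans (min_le_right _ _)
  have hcab : c ≤ a * b := by rw [hc]; exact min_le_right _ _
  refine ⟨c, hc0, ?_⟩
  have hlogT : Tendsto (fun X : ℕ => Real.log X) atTop atTop :=
    Real.tendsto_log_atTop.comp tendsto_natCast_atTop_atTop
  filter_upwards [h1, h2, eventually_ge_atTop 400, hlogT.eventually_ge_atTop (1 / a),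
    hlogT.eventually_ge_atTop 1, tendsto_L3.eventually_ge_atTop 1] with
    n h1 h2 hn4 hla hl1 hL3 K hK hKc M₁ H₁ M₂ H₂ hH₁ hMH₁ hH₂ hMH₂
  have hL3' : 1 ≤ Real.log (Real.log (Real.log n)) := hL3
  have hL0 : 0 < Real.log n := by linarith
  have h3 := h1 pr K (pr_injOn hK) (fun k hk => pr_le' hn4 (hK k hk).2) hKc M₁ H₁ hH₁ hMH₁
  have hH₁0 : (0 : ℝ) ≤ H₁ := Nat.cast_nonneg _
  have hH₂0 : (0 : ℝ) ≤ H₂ := Nat.cast_nonneg _
  have hK0 : (0 : ℝ) ≤ K.card := Nat.cast_nonneg _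
  have h4 : c * H₁ / Real.log (Real.log (Real.log n)) ≤
      a * H₁ / Real.log (Real.log (Real.log n)) := by
    apply div_le_div_of_nonneg_right _ (by linarith)
    exact mul_le_mul_of_nonneg_right hca hH₁0
  refine h4.trans (h3.trans ?_)
  norm_cast
  apply Finset.card_le_card
  intro h₁ hh₁
  obtain ⟨h5, h6⟩ := mem_filter.1 hh₁
  rw [mem_filter]
  refine ⟨h5, ?_⟩
  obtain ⟨K', hK'⟩ : ∃ K' : Finset ℕ, K' = K.filter (fun k => (pr k + h₁).Prime) := ⟨_, rfl⟩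
  rw [← hK'] at h6
  have hsub : K' ⊆ K := by rw [hK']; exact Finset.filter_subset _ _
  have h7 : (n : ℝ) / Real.log n ^ (C + 2) ≤ K'.card := by
    refine le_trans ?_ h6
    have e1 : (n : ℝ) / Real.log n ^ (C + 2) = n / Real.log n ^ C / Real.log n / Real.log n := by
      rw [pow_add]
      field_simp
    rw [e1]
    apply div_le_div_of_nonneg_right _ hL0.le
    rw [div_le_iff₀ hL0]
    have e2 : 1 ≤ a * Real.log n := by
      rw [div_le_iff₀ ha] at hla
      linarith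
    calc (n : ℝ) / Real.log n ^ C ≤ K.card := hKc
      _ = 1 * K.card := (one_mul _).symm
      _ ≤ a * Real.log n * K.card := mul_le_mul_of_nonneg_right e2 hK0
      _ = _ := by ring
  have h8 := h2 (bn n) K' (bn_injOn (fun k hk => hK k (hsub hk)))
    (fun k hk => bn_le hn4 (hK k (hsub hk)).2) h7 M₂ H₂ hH₂ hMH₂
  have h9 : c * H₂ / Real.log (Real.log (Real.log n)) ≤
      b * H₂ / Real.log (Real.log (Real.log n)) := by
    apply div_le_div_of_nonneg_right _ (by linarith)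
    exact mul_le_mul_of_nonneg_right hcb hH₂0
  refine h9.trans (h8.trans ?_)
  norm_cast
  apply Finset.card_le_card
  intro h₂ hh₂
  obtain ⟨h10, h11⟩ := mem_filter.1 hh₂
  rw [mem_filter]
  refine ⟨h10, ?_⟩
  have h12 : c * K.card / Real.log n ^ 2 ≤ b * K'.card / Real.log n := by
    calc c * K.card / Real.log n ^ 2 ≤ a * b * K.card / Real.log n ^ 2 := by
          apply div_le_div_of_nonneg_right _ (by positivity)
          exact mul_le_mul_of_nonneg_right hcab hK0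
      _ = b * (a * K.card / Real.log n) / Real.log n := by
          field_simp
      _ ≤ _ := by
          apply div_le_div_of_nonneg_right _ hL0.le
          exact mul_le_mul_of_nonneg_left h6 hb.le
  refine h12.trans (h11.trans ?_)
  norm_cast
  apply Finset.card_le_card
  intro k hk
  obtain ⟨h13, h14⟩ := mem_filter.1 hk
  rw [hK'] at h13
  obtain ⟨h15, h16⟩ := mem_filter.1 h13
  exact mem_filter.2 ⟨h15, h16, h14⟩

end Pool.Agent.TSH
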