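import Mathlib
import Pool.Agent.TSH.TE
import Pool.Agent.TSH.BT2

set_option autoImplicit false

/-!
# TSH / TP: sets of primes; no loss for the first shift when the set of indices is dense
-/

namespace Pool.Agent.TSH

open Finset Filter
open Pool.Agent.Helper20.TwinIndex (pr pr_prime pr_strictMono pr_mono pi_pr lt_pr)

/-- the average of `D / φ(D)` over the differences of a set of primes -/
theorem sum_ratioP : ∃ C : ℝ, 0 < C ∧ ∀ᶠ Y : ℕ in atTop, ∀ S : Finset ℕ,
    (∀ P ∈ S, P.Prime ∧ P ≤ Y) →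
    ∑ P ∈ S, ∑ P' ∈ S.filter (fun P' => P < P'), ((P' - P : ℕ) : ℝ) / Nat.totient (P' - P) ≤
      C * S.card * Y / Real.log Y := by
  obtain ⟨C, hC, h⟩ := thm_BT2
  refine ⟨Real.exp 2 * C + 1, by positivity, ?_⟩
  filter_upwards [h, tail 8, eventually_ge_atTop 3, tendsto_ll.eventually_ge_atTop 2,
    (Real.tendsto_log_atTop.comp tendsto_natCast_atTop_atTop).eventually_ge_atTop 3] with
    Y h1 h2 hY3 hll hlog S hS
  have hlog' : (3 : ℝ) ≤ Real.log Y := hlog
  have hY : (3 : ℝ) ≤ Y := by exact_mod_cast hY3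
  have hS0 : (0 : ℝ) ≤ S.card := Nat.cast_nonneg _
  obtain ⟨u, hu⟩ : ∃ u : ℝ, u = Real.log (Real.log Y) := ⟨_, rfl⟩
  rw [← hu] at hll
  have hy1 : u ^ 2 ≤ (yL Y : ℝ) := by
    rw [hu]
    exact Nat.le_ceil _
  have hy2 : (yL Y : ℝ) < u ^ 2 + 1 := by
    rw [hu]
    exact Nat.ceil_lt_add_one (by positivity)
  have hy3 : (yL Y : ℝ) ≤ Real.log (Real.log Y) ^ 3 := by
    rw [← hu]
    nlinarith
  have hy4 : 1 ≤ yL Y := by
    have : (1 : ℝ) ≤ yL Y := by nlinarith
    exact_mod_cast this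
  have h3 : ∀ P ∈ S, ∑ P' ∈ S.filter (fun P' => P < P'),
      ((P' - P : ℕ) : ℝ) / Nat.totient (P' - P) ≤
      Real.exp 2 * (C * Y / Real.log Y) + 2⁻¹ ^ yL Y * ((Y : ℝ) * (1 + Real.log Y) ^ 4) := by
    intro P hP
    calc ∑ P' ∈ S.filter (fun P' => P < P'), ((P' - P : ℕ) : ℝ) / Nat.totient (P' - P)
        ≤ ∑ P' ∈ S.filter (fun P' => P < P'), (Real.exp 2 * RR (yL Y) (Nat.dist P' P) ^ 2 +
            2⁻¹ ^ yL Y * 4 ^ (P' - P).primeFactors.card) := by
          apply Finset.sum_le_sum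
          intro P' hP'
          have hlt := (mem_filter.1 hP').2
          have h4 := ratio_le (y := yL Y) (D := P' - P) hy4 (by omega)
          have h5 : Nat.dist P' P = P' - P := Nat.dist_eq_sub_of_le_right hlt.le
          rw [h5]
          have h6 := one_le_RR (yL Y) (P' - P)
          have h7 : RR (yL Y) (P' - P) ≤ RR (yL Y) (P' - P) ^ 2 := by nlinarith
          have h8 := mul_le_mul_of_nonneg_left h7 (Real.exp_pos 2).le
          linarith
      _ = Real.exp 2 * ∑ P' ∈ S.filter (fun P' => P < P'), RR (yL Y) (Nat.dist P' P) ^ 2 +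
            2⁻¹ ^ yL Y * ∑ P' ∈ S.filter (fun P' => P < P'), (4 : ℝ) ^ (P' - P).primeFactors.card := by
          rw [Finset.sum_add_distrib, Finset.mul_sum, Finset.mul_sum]
      _ ≤ _ := by
          apply add_le_add
          · apply mul_le_mul_of_nonneg_left _ (Real.exp_pos 2).le
            refine le_trans ?_ (h1 (yL Y) P hy3)
            apply Finset.sum_le_sum_of_subset_of_nonneg
            · intro P' hP'
              have h4 := hS P' (mem_filter.1 hP').1
              rw [mem_filter, Finset.mem_Icc]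
              exact ⟨⟨h4.1.one_le, h4.2⟩, h4.1⟩
            · intro _ _ _
              positivity
          · apply mul_le_mul_of_nonneg_left _ (by positivity)
            exact sum_four_diff (by omega) S (fun P' hP' => (hS P' hP').2) P
  refine (Finset.sum_le_sum h3).trans ?_
  rw [Finset.sum_const, nsmul_eq_mul]
  have h6 : (1 + Real.log Y) ^ 4 * Real.log Y ≤ Real.log Y ^ 8 := by
    have a1 : (1 + Real.log Y) ^ 4 ≤ (2 * Real.log Y) ^ 4 :=
      pow_le_pow_left₀ (by linarith) (by linarith) 4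
    have a2 : (27 : ℝ) ≤ Real.log Y ^ 3 := by
      calc (27 : ℝ) = 3 ^ 3 := by norm_num
        _ ≤ Real.log Y ^ 3 := pow_le_pow_left₀ (by norm_num) hlog' 3
    calc (1 + Real.log Y) ^ 4 * Real.log Y ≤ (2 * Real.log Y) ^ 4 * Real.log Y :=
          mul_le_mul_of_nonneg_right a1 (by linarith)
      _ = 16 * Real.log Y ^ 5 := by ring
      _ ≤ Real.log Y ^ 3 * Real.log Y ^ 5 :=
          mul_le_mul_of_nonneg_right (by linarith) (by positivity)
      _ = Real.log Y ^ 8 := by ring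
  have h7 : 2⁻¹ ^ yL Y * ((Y : ℝ) * (1 + Real.log Y) ^ 4) ≤ Y / Real.log Y := by
    rw [le_div_iff₀ (by linarith)]
    calc 2⁻¹ ^ yL Y * ((Y : ℝ) * (1 + Real.log Y) ^ 4) * Real.log Y
        = Y * (2⁻¹ ^ yL Y * ((1 + Real.log Y) ^ 4 * Real.log Y)) := by ring
      _ ≤ Y * (2⁻¹ ^ yL Y * Real.log Y ^ 8) := by
          apply mul_le_mul_of_nonneg_left _ (by linarith)
          exact mul_le_mul_of_nonneg_left h6 (by positivity)
      _ ≤ Y * 1 := mul_le_mul_of_nonneg_left h2 (by linarith)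
      _ = Y := mul_one _
  have h8 := mul_le_mul_of_nonneg_left h7 hS0
  calc (S.card : ℝ) * (Real.exp 2 * (C * Y / Real.log Y) +
        2⁻¹ ^ yL Y * ((Y : ℝ) * (1 + Real.log Y) ^ 4))
      ≤ S.card * (Real.exp 2 * (C * Y / Real.log Y)) + S.card * (Y / Real.log Y) := by linarith
    _ = (Real.exp 2 * C + 1) * S.card * Y / Real.log Y := by ring

/-- second moment for a set of primes -/
theorem second2 : ∃ C₃ : ℝ, 0 < C₃ ∧ ∀ᶠ Y : ℕ in atTop, ∀ S : Finset ℕ,
      (∀ s ∈ S, s.Prime ∧ s ≤ Y) → ∀ M H : ℕ, (Y : ℝ) ^ (1 / 4 : ℝ) ≤ H →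
      ∑ h ∈ Ioc M (M + H), (r1 S h : ℝ) ^ 2 ≤
        C₃ * H * S.card * Y / Real.log Y ^ 3 := by
  classical
  obtain ⟨C₁, hC₁, hps⟩ := Pool.Agent.PC.pair_sieve
  obtain ⟨C₂, hC₂, hsr⟩ := sum_ratioP
  refine ⟨32 * C₁ * C₂ + 1, by positivity, ?_⟩
  filter_upwards [hsr, eventually_ge_atTop 3,
    (Real.tendsto_log_atTop.comp tendsto_natCast_atTop_atTop).eventually_ge_atTop (2 : ℝ),
    tl 3 1 one_pos] with Y hsr hY3 hlog htl S hS M H hH
  have hlog : 2 ≤ Real.log Y := hlog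
  have hY' : (3 : ℝ) ≤ Y := by exact_mod_cast hY3
  have hlog0 : 0 < Real.log Y := by linarith
  have hY3l : Real.log Y ^ 3 ≤ Y := by
    refine htl.trans ?_
    have h4 : Real.sqrt Y * Real.sqrt Y = Y := Real.mul_self_sqrt (by linarith)
    have h5 : 1 ≤ Real.sqrt Y := by
      rw [Real.one_le_sqrt]
      linarith
    nlinarith
  have hS0 : (0 : ℝ) ≤ S.card := Nat.cast_nonneg _
  have hH1 : (1 : ℝ) ≤ H := by
    refine le_trans ?_ hH
    exact Real.one_le_rpow (by linarith) (by norm_num)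
  have hH0 : (0 : ℝ) < H := by linarith
  have hlogH : Real.log Y / 4 ≤ Real.log H := by
    have h2 := Real.log_le_log (by positivity) hH
    rw [Real.log_rpow (by linarith)] at h2
    linarith
  have hlogH0 : 0 < Real.log H := by linarith
  have hH2 : 2 ≤ H := by
    by_contra hcon
    have h1 : H ≤ 1 := by omega
    have h2 : (H : ℝ) ≤ 1 := by exact_mod_cast h1
    have h3 : (H : ℝ) = 1 := le_antisymm h2 hH1
    rw [h3, Real.log_one] at hlogH0
    exact lt_irrefl _ hlogH0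
  have h1 : ∑ s ∈ S, ∑ s' ∈ S.filter (fun s' => s < s'),
      (((Ioc (s + M) (s + M + H)).filter (fun n => n.Prime ∧ (n + (s' - s)).Prime)).card : ℝ) ≤
      C₁ * H / Real.log H ^ 2 * (C₂ * S.card * Y / Real.log Y) := by
    calc ∑ s ∈ S, ∑ s' ∈ S.filter (fun s' => s < s'),
        (((Ioc (s + M) (s + M + H)).filter (fun n => n.Prime ∧ (n + (s' - s)).Prime)).card : ℝ)
        ≤ ∑ s ∈ S, ∑ s' ∈ S.filter (fun s' => s < s'), C₁ * H / Real.log H ^ 2 *
          (((s' - s : ℕ) : ℝ) / Nat.totient (s' - s)) := by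
          apply Finset.sum_le_sum
          intro s _
          apply Finset.sum_le_sum
          intro s' hs'
          have hlt := (mem_filter.1 hs').2
          refine (hps (s + M) H (s' - s) hH2 (by omega)).trans (le_of_eq ?_)
          ring
      _ = C₁ * H / Real.log H ^ 2 * ∑ s ∈ S, ∑ s' ∈ S.filter (fun s' => s < s'),
          (((s' - s : ℕ) : ℝ) / Nat.totient (s' - s)) := by
          rw [Finset.mul_sum]
          apply Finset.sum_congr rfl
          intro s _
          rw [Finset.mul_sum]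
      _ ≤ _ := by
          apply mul_le_mul_of_nonneg_left _ (by positivity)
          exact hsr S hS
  have h2 : C₁ * H / Real.log H ^ 2 ≤ 16 * C₁ * H / Real.log Y ^ 2 := by
    rw [div_le_div_iff₀ (by positivity) (by positivity)]
    have h3 : Real.log Y ^ 2 ≤ 16 * Real.log H ^ 2 := by nlinarith
    have h4 := mul_le_mul_of_nonneg_left h3 (show 0 ≤ C₁ * H by positivity)
    linarith
  have h3 : C₁ * H / Real.log H ^ 2 * (C₂ * S.card * Y / Real.log Y) ≤
      16 * C₁ * H / Real.log Y ^ 2 * (C₂ * S.card * Y / Real.log Y) :=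
    mul_le_mul_of_nonneg_right h2 (by positivity)
  have h4 : (S.card : ℝ) * H ≤ H * S.card * Y / Real.log Y ^ 3 := by
    rw [le_div_iff₀ (by positivity)]
    calc (S.card : ℝ) * H * Real.log Y ^ 3 ≤ S.card * H * Y :=
          mul_le_mul_of_nonneg_left hY3l (by positivity)
      _ = H * S.card * Y := by ring
  have h5 := sum_r1_sq S M H
  calc ∑ h ∈ Ioc M (M + H), (r1 S h : ℝ) ^ 2
      ≤ H * S.card * Y / Real.log Y ^ 3 +
        2 * (16 * C₁ * H / Real.log Y ^ 2 * (C₂ * S.card * Y / Real.log Y)) := by linarith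
    _ = (32 * C₁ * C₂ + 1) * H * S.card * Y / Real.log Y ^ 3 := by
        field_simp
        ring

/-- **Primes `s + h` with `s` in a set of primes and `h` in a short window.** -/
theorem tcore3 (hGap : Pool.Agent.SI.St_Gap) (ε : ℝ) (hε : 0 < ε) (hε4 : ε < 1 / 4) (A : ℕ) :
    ∃ c : ℝ, 0 < c ∧ ∀ᶠ Y : ℕ in atTop, ∀ S : Finset ℕ, (∀ s ∈ S, s.Prime ∧ s ≤ Y) →
      (Y : ℝ) / Real.log Y ^ A ≤ S.card → ∀ M H : ℕ, (Y : ℝ) ^ (1 / 4 + ε) ≤ H →
      (M : ℝ) + H ≤ Y / Real.log Y ^ (A + 3) →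
      c * H * (S.card * Real.log Y / Y) ≤
        (((Ioc M (M + H)).filter (fun h => c * S.card / Real.log Y ≤ r1 S h)).card : ℝ) := by
  classical
  obtain ⟨c₁, hc₁, h1⟩ := first2 hGap
  obtain ⟨C₃, hC₃, h2⟩ := second2
  refine ⟨min (c₁ ^ 2 / (16 * C₃)) (c₁ / 4), by positivity, ?_⟩
  filter_upwards [h1 ε hε hε4 A, h2, eventually_ge_atTop 3,
    (Real.tendsto_log_atTop.comp tendsto_natCast_atTop_atTop).eventually_ge_atTop (2 : ℝ)]
    with Y h1 h2 hY3 hlog S hS hSc M H hH hMH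
  have hlog : 2 ≤ Real.log Y := hlog
  have hY' : (3 : ℝ) ≤ Y := by exact_mod_cast hY3
  have hlog0 : 0 < Real.log Y := by linarith
  have hS0 : (0 : ℝ) < S.card := lt_of_lt_of_le (by positivity) hSc
  have hH4 : (Y : ℝ) ^ (1 / 4 : ℝ) ≤ H := by
    refine le_trans ?_ hH
    exact Real.rpow_le_rpow_of_exponent_le (by linarith) (by linarith)
  have hH0 : (0 : ℝ) < H := lt_of_lt_of_le (by positivity) hH4
  have hR := h1 S (fun s hs => (hS s hs).2) hSc M H hH hMH
  have hQ := h2 S hS M H hH4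
  have hpz := pz (Ioc M (M + H)) (fun h => (r1 S h : ℝ)) (m := c₁ * S.card / (2 * Real.log Y))
    hR (by positivity) (by
      rw [Nat.card_Ioc, Nat.add_sub_cancel_left]
      apply le_of_eq
      field_simp) (by positivity) hQ (by positivity)
  have h3 : min (c₁ ^ 2 / (16 * C₃)) (c₁ / 4) * H * (S.card * Real.log Y / Y) ≤
      (c₁ * S.card * H / Real.log Y) ^ 2 /
        (4 * (C₃ * H * S.card * Y / Real.log Y ^ 3)) := by
    calc min (c₁ ^ 2 / (16 * C₃)) (c₁ / 4) * H * (S.card * Real.log Y / Y) ≤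
        c₁ ^ 2 / (4 * C₃) * H * (S.card * Real.log Y / Y) := by
          apply mul_le_mul_of_nonneg_right _ (by positivity)
          apply mul_le_mul_of_nonneg_right _ hH0.le
          refine (min_le_left _ _).trans ?_
          apply div_le_div_of_nonneg_left (by positivity) (by positivity)
          linarith
      _ = _ := by
          field_simp
  refine h3.trans (hpz.trans ?_)
  norm_cast
  apply Finset.card_le_card
  intro h hh
  obtain ⟨h4, h5⟩ := mem_filter.1 hh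
  rw [mem_filter]
  refine ⟨h4, le_trans ?_ h5⟩
  calc min (c₁ ^ 2 / (16 * C₃)) (c₁ / 4) * S.card / Real.log Y ≤
        c₁ / 2 * S.card / Real.log Y := by
        apply div_le_div_of_nonneg_right _ hlog0.le
        apply mul_le_mul_of_nonneg_right _ hS0.le
        exact (min_le_right _ _).trans (by linarith)
    _ = c₁ * S.card / (2 * Real.log Y) := by
        field_simp

theorem pr_le_n {n k : ℕ} (hn : 400 ≤ n) (hk1 : 1 ≤ k) (hk : k < n) :
    (pr k : ℝ) ≤ 30 * (n * Real.log n) := by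
  have h1 := pr_up hk1
  have h2 := log_pr hk1 hk.le hn
  have h3 : (k : ℝ) ≤ n := by exact_mod_cast hk.le
  have h4 : (0 : ℝ) ≤ k := Nat.cast_nonneg k
  have hn' : (400 : ℝ) ≤ n := by exact_mod_cast hn
  have h5 : 0 ≤ Real.log n := Real.log_nonneg (by linarith)
  calc (pr k : ℝ) ≤ 10 * k * Real.log (pr k) := h1
    _ ≤ 10 * k * (3 * Real.log n) := mul_le_mul_of_nonneg_left h2 (by positivity)
    _ ≤ 10 * n * (3 * Real.log n) := by
        apply mul_le_mul_of_nonneg_right _ (by positivity)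
        linarith
    _ = _ := by ring

open Classical in
theorem shift_pr (hGap : Pool.Agent.SI.St_Gap) (ε : ℝ) (hε : 0 < ε) (C : ℕ) :
    ∃ c : ℝ, 0 < c ∧ ∀ᶠ n : ℕ in atTop, ∀ K : Finset ℕ, (∀ k ∈ K, 1 ≤ k ∧ k < n) →
      (n : ℝ) / Real.log n ^ C ≤ K.card →
      ∀ M H : ℕ, (n : ℝ) ^ (1 / 4 + ε) ≤ H → (M : ℝ) + H ≤ (n : ℝ) ^ (1 - ε) →
      c * H * (K.card / n) ≤
        (((Ioc M (M + H)).filter (fun h => c * K.card / Real.log n ≤
          ((K.filter (fun k => (pr k + h).Prime)).card : ℝ))).card : ℝ) := by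
  obtain ⟨ε₁, hε₁⟩ : ∃ ε₁ : ℝ, ε₁ = min ε (1 / 5) := ⟨_, rfl⟩
  have he0 : 0 < ε₁ := by rw [hε₁]; positivity
  have he1 : ε₁ ≤ ε := by rw [hε₁]; exact min_le_left _ _
  have he2 : ε₁ ≤ 1 / 5 := by rw [hε₁]; exact min_le_right _ _
  obtain ⟨c₁, hc₁, h1⟩ := tcore3 hGap (ε₁ / 2) (by linarith) (by linarith) (C + 2)
  obtain ⟨Y₁, hY₁⟩ := eventually_atTop.1 h1
  refine ⟨c₁ / 31, by positivity, ?_⟩
  have hlogT : Tendsto (fun X : ℕ => Real.log X) atTop atTop :=
    Real.tendsto_log_atTop.comp tendsto_natCast_atTop_atTop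
  filter_upwards [eventually_ge_atTop Y₁, eventually_ge_atTop 400,
    hlogT.eventually_ge_atTop (31 : ℝ), log_rpow 31 1 (ε₁ / 2) (by linarith),
    log_rpow (2 ^ (C + 5)) (C + 5) ε₁ he0] with
    n hnY hn4 hlog hpow hpow2 K hK hKc M H hH hMH
  have hn' : (400 : ℝ) ≤ n := by exact_mod_cast hn4
  have hn0 : (0 : ℝ) < n := by linarith
  have hfK : ∀ k ∈ K, (pr k : ℝ) ≤ 30 * (n * Real.log n) := fun k hk =>
    pr_le_n hn4 (hK k hk).1 (hK k hk).2
  obtain ⟨L, hL⟩ : ∃ L : ℝ, L = Real.log n := ⟨_, rfl⟩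
  rw [← hL] at hlog hpow hpow2 hfK hKc ⊢
  have hL0 : 0 < L := by linarith
  obtain ⟨Y, hY⟩ : ∃ Y : ℕ, Y = ⌈30 * (n * L)⌉₊ := ⟨_, rfl⟩
  have hnL : (n : ℝ) ≤ n * L := by nlinarith
  have hYlo : 30 * (n * L) ≤ Y := by rw [hY]; exact Nat.le_ceil _
  have hYup : (Y : ℝ) ≤ 31 * (n * L) := by
    have e3 := Nat.ceil_lt_add_one (show 0 ≤ 30 * ((n : ℝ) * L) by positivity)
    rw [← hY] at e3
    linarith
  have hnY' : (n : ℝ) ≤ Y := by linarith
  have hY0 : (0 : ℝ) < Y := by linarith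
  have hnYn : n ≤ Y := by exact_mod_cast hnY'
  have hLY : L ≤ Real.log Y := by
    rw [hL]
    exact Real.log_le_log (by linarith) hnY'
  have hpow1 : (Y : ℝ) ≤ (n : ℝ) ^ (1 + ε₁ / 2) := by
    rw [Real.rpow_add (by linarith), Real.rpow_one]
    rw [pow_one] at hpow
    calc (Y : ℝ) ≤ n * (31 * L) := by linarith
      _ ≤ _ := mul_le_mul_of_nonneg_left hpow (by linarith)
  have hLY2 : Real.log Y ≤ 2 * L := by
    have e1 := Real.log_le_log (by linarith) hpow1
    rw [Real.log_rpow (by linarith), ← hL] at e1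
    have e2 : (1 + ε₁ / 2) * L ≤ 2 * L := mul_le_mul_of_nonneg_right (by linarith) hL0.le
    linarith
  have hlY : 0 < Real.log Y := by linarith
  -- the set
  obtain ⟨S, hS⟩ : ∃ S : Finset ℕ, S = K.image pr := ⟨_, rfl⟩
  have hScard : S.card = K.card := by
    rw [hS]
    exact Finset.card_image_of_injOn (pr_injOn hK)
  have hSmem : ∀ s ∈ S, s.Prime ∧ s ≤ Y := by
    intro s hs
    rw [hS] at hs
    obtain ⟨k, hk, rfl⟩ := Finset.mem_image.1 hs
    have e1 := (hfK k hk).trans hYlo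
    exact ⟨pr_prime k, by exact_mod_cast e1⟩
  have hScd : (Y : ℝ) / Real.log Y ^ (C + 2) ≤ S.card := by
    rw [hScard]
    refine le_trans ?_ hKc
    have e1 : (Y : ℝ) / Real.log Y ^ (C + 2) ≤ 31 * (n * L) / L ^ (C + 2) := by
      apply div_le_div₀ (by positivity) hYup (by positivity)
      exact pow_le_pow_left₀ hL0.le hLY _
    refine e1.trans ?_
    have e2 : 31 * ((n : ℝ) * L) / L ^ (C + 2) = 31 / L * (n / L ^ C) := by
      rw [pow_add]
      field_simp
    rw [e2]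
    have e3 : 31 / L ≤ 1 := by
      rw [div_le_one hL0]
      exact hlog
    have e4 : (0 : ℝ) ≤ n / L ^ C := by positivity
    nlinarith
  have hHY : (Y : ℝ) ^ (1 / 4 + ε₁ / 2) ≤ H := by
    refine le_trans ?_ hH
    have e1 : (Y : ℝ) ^ (1 / 4 + ε₁ / 2) ≤ ((n : ℝ) ^ (1 + ε₁ / 2)) ^ (1 / 4 + ε₁ / 2) :=
      Real.rpow_le_rpow (by linarith) hpow1 (by linarith)
    refine e1.trans ?_
    rw [← Real.rpow_mul (by linarith)]
    apply Real.rpow_le_rpow_of_exponent_le (by linarith)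
    nlinarith
  have hMHY : (M : ℝ) + H ≤ Y / Real.log Y ^ (C + 2 + 3) := by
    refine hMH.trans ?_
    rw [le_div_iff₀ (by positivity)]
    calc (n : ℝ) ^ (1 - ε) * Real.log Y ^ (C + 2 + 3)
        ≤ (n : ℝ) ^ (1 - ε₁) * (2 ^ (C + 5) * L ^ (C + 5)) := by
          apply mul_le_mul _ _ (by positivity) (by positivity)
          · exact Real.rpow_le_rpow_of_exponent_le (by linarith) (by linarith)
          · rw [← mul_pow]
            exact pow_le_pow_left₀ hlY.le hLY2 _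
      _ ≤ (n : ℝ) ^ (1 - ε₁) * (n : ℝ) ^ ε₁ := mul_le_mul_of_nonneg_left hpow2 (by positivity)
      _ = n := by
          rw [← Real.rpow_add hn0]
          have : (1 - ε₁ + ε₁ : ℝ) = 1 := by ring
          rw [this, Real.rpow_one]
      _ ≤ Y := hnY'
  have h2 := hY₁ Y (hnY.trans hnYn) S hSmem hScd M H hHY hMHY
  have hH0 : (0 : ℝ) ≤ H := Nat.cast_nonneg H
  have hK0 : (0 : ℝ) ≤ K.card := Nat.cast_nonneg _
  have h3 : c₁ / 31 * H * (K.card / n) ≤ c₁ * H * (S.card * Real.log Y / Y) := by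
    rw [hScard]
    have e1 : (K.card : ℝ) / (31 * n) ≤ K.card * Real.log Y / Y := by
      rw [div_le_div_iff₀ (by positivity) hY0]
      calc (K.card : ℝ) * Y ≤ K.card * (31 * (n * L)) := mul_le_mul_of_nonneg_left hYup hK0
        _ = K.card * L * (31 * n) := by ring
        _ ≤ K.card * Real.log Y * (31 * n) := by
            apply mul_le_mul_of_nonneg_right _ (by positivity)
            exact mul_le_mul_of_nonneg_left hLY hK0
    calc c₁ / 31 * H * (K.card / n) = c₁ * H * (K.card / (31 * n)) := by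
          field_simp
      _ ≤ _ := mul_le_mul_of_nonneg_left e1 (by positivity)
  refine h3.trans (h2.trans ?_)
  norm_cast
  apply Finset.card_le_card
  intro h hh
  obtain ⟨h4, h5⟩ := mem_filter.1 hh
  rw [mem_filter]
  refine ⟨h4, ?_⟩
  have h6 : r1 S h ≤ (K.filter (fun k => (pr k + h).Prime)).card := by
    unfold r1
    have e1 : S.filter (fun s => (s + h).Prime) ⊆
        (K.filter (fun k => (pr k + h).Prime)).image pr := by
      intro s hs
      obtain ⟨e2, e3⟩ := mem_filter.1 hs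
      rw [hS] at e2
      obtain ⟨k, hk, rfl⟩ := Finset.mem_image.1 e2
      exact Finset.mem_image.2 ⟨k, mem_filter.2 ⟨hk, e3⟩, rfl⟩
    exact (Finset.card_le_card e1).trans Finset.card_image_le
  have h7 : (r1 S h : ℝ) ≤ ((K.filter (fun k => (pr k + h).Prime)).card : ℕ) := by
    exact_mod_cast h6
  refine le_trans ?_ (h5.trans h7)
  rw [hScard]
  rw [div_le_div_iff₀ hL0 hlY]
  calc c₁ / 31 * K.card * Real.log Y ≤ c₁ / 31 * K.card * (2 * L) :=
        mul_le_mul_of_nonneg_left hLY2 (by positivity)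
    _ = 2 / 31 * (c₁ * K.card * L) := by ring
    _ ≤ 1 * (c₁ * K.card * L) := by
        apply mul_le_mul_of_nonneg_right (by norm_num) (by positivity)
    _ = c₁ * K.card * L := one_mul _

open Classical in
/-- both bounds for the first shift -/
theorem shift_pr2 (hGap : Pool.Agent.SI.St_Gap) (ε : ℝ) (hε : 0 < ε) (C : ℕ) :
    ∃ c : ℝ, 0 < c ∧ ∀ᶠ n : ℕ in atTop, ∀ K : Finset ℕ, (∀ k ∈ K, 1 ≤ k ∧ k < n) →
      (n : ℝ) / Real.log n ^ C ≤ K.card →
      ∀ M H : ℕ, (n : ℝ) ^ (1 / 4 + ε) ≤ H → (M : ℝ) + H ≤ (n : ℝ) ^ (1 - ε) →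
      c * H * max (1 / Real.log (Real.log (Real.log n))) (K.card / n) ≤
        (((Ioc M (M + H)).filter (fun h => c * K.card / Real.log n ≤
          ((K.filter (fun k => (pr k + h).Prime)).card : ℝ))).card : ℝ) := by
  obtain ⟨a, ha, h1⟩ := shift_seq hGap ε hε C
  obtain ⟨b, hb, h2⟩ := shift_pr hGap ε hε C
  refine ⟨min a b, lt_min ha hb, ?_⟩
  have hlogT : Tendsto (fun X : ℕ => Real.log X) atTop atTop :=
    Real.tendsto_log_atTop.comp tendsto_natCast_atTop_atTop
  filter_upwards [h1, h2, eventually_ge_atTop 400, tendsto_L3.eventually_ge_atTop 1,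
    hlogT.eventually_ge_atTop 1] with n h1 h2 hn4 hL3 hl1 K hK hKc M H hH hMH
  have hL3' : 1 ≤ Real.log (Real.log (Real.log n)) := hL3
  have hL0 : 0 < Real.log n := by linarith
  have hH0 : (0 : ℝ) ≤ H := Nat.cast_nonneg _
  have hK0 : (0 : ℝ) ≤ K.card := Nat.cast_nonneg _
  have g : ∀ x : ℝ, min a b ≤ x → (((Ioc M (M + H)).filter (fun h => x * K.card / Real.log n ≤
      ((K.filter (fun k => (pr k + h).Prime)).card : ℝ))).card : ℝ) ≤
      (((Ioc M (M + H)).filter (fun h => min a b * K.card / Real.log n ≤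
      ((K.filter (fun k => (pr k + h).Prime)).card : ℝ))).card : ℝ) := by
    intro x hx
    norm_cast
    apply Finset.card_le_card
    intro h hh
    obtain ⟨h4, h5⟩ := mem_filter.1 hh
    rw [mem_filter]
    refine ⟨h4, le_trans ?_ h5⟩
    apply div_le_div_of_nonneg_right _ hL0.le
    exact mul_le_mul_of_nonneg_right hx hK0
  rcases max_choice (1 / Real.log (Real.log (Real.log n))) ((K.card : ℝ) / n) with h | h
  · rw [h]
    have h3 := h1 pr K (pr_injOn hK) (fun k hk => pr_le' hn4 (hK k hk).2) hKc M H hH hMH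
    refine le_trans ?_ (h3.trans (g a (min_le_left _ _)))
    rw [mul_one_div]
    apply div_le_div_of_nonneg_right _ (by linarith)
    exact mul_le_mul_of_nonneg_right (min_le_left _ _) hH0
  · rw [h]
    have h3 := h2 K hK hKc M H hH hMH
    refine le_trans ?_ (h3.trans (g b (min_le_right _ _)))
    apply mul_le_mul_of_nonneg_right _ (by positivity)
    exact mul_le_mul_of_nonneg_right (min_le_right _ _) hH0

open Classical in
/-- **Two shifts in short windows**, no loss in the first one for dense sets of indices. -/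
theorem two_shifts2 (hGap : Pool.Agent.SI.St_Gap) (ε : ℝ) (hε : 0 < ε) (C : ℕ) :
    ∃ c : ℝ, 0 < c ∧ ∀ᶠ n : ℕ in atTop, ∀ K : Finset ℕ, (∀ k ∈ K, 1 ≤ k ∧ k < n) →
      (n : ℝ) / Real.log n ^ C ≤ K.card → ∀ M₁ H₁ M₂ H₂ : ℕ,
      (n : ℝ) ^ (1 / 4 + ε) ≤ H₁ → (M₁ : ℝ) + H₁ ≤ (n : ℝ) ^ (1 - ε) →
      (n : ℝ) ^ (1 / 4 + ε) ≤ H₂ → (M₂ : ℝ) + H₂ ≤ (n : ℝ) ^ (1 - ε) →
      c * H₁ * max (1 / Real.log (Real.log (Real.log n))) (K.card / n) ≤
        (((Ioc M₁ (M₁ + H₁)).filter (fun h₁ => c * H₂ / Real.log (Real.log (Real.log n)) ≤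
          (((Ioc M₂ (M₂ + H₂)).filter (fun h₂ => c * K.card / Real.log n ^ 2 ≤
            ((K.filter (fun k => (pr k + h₁).Prime ∧ (pr (pr (n - k)) + h₂).Prime)).card : ℝ))).card
            : ℝ))).card : ℝ) := by
  obtain ⟨a, ha, h1⟩ := shift_pr2 hGap ε hε C
  obtain ⟨b, hb, h2⟩ := shift_seq hGap ε hε (C + 2)
  obtain ⟨c, hc⟩ : ∃ c : ℝ, c = min (min a b) (a * b) := ⟨_, rfl⟩
  have hc0 : 0 < c := by rw [hc]; positivity
  have hca : c ≤ a := by rw [hc]; exact (min_le_left _ _).trans (min_le_left _ _)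
  have hcb : c ≤ b := by rw [hc]; exact (min_le_left _ _).trans (min_le_right _ _)
  have hcab : c ≤ a * b := by rw [hc]; exact min_le_right _ _
  refine ⟨c, hc0, ?_⟩
  have hlogT : Tendsto (fun X : ℕ => Real.log X) atTop atTop :=
    Real.tendsto_log_atTop.comp tendsto_natCast_atTop_atTop
  filter_upwards [h1, h2, eventually_ge_atTop 400, hlogT.eventually_ge_atTop (1 / a),
    hlogT.eventually_ge_atTop 1, tendsto_L3.eventually_ge_atTop 1] with
    n h1 h2 hn4 hla hl1 hL3 K hK hKc M₁ H₁ M₂ H₂ hH₁ hMH₁ hH₂ hMH₂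
  have hL3' : 1 ≤ Real.log (Real.log (Real.log n)) := hL3
  have hL0 : 0 < Real.log n := by linarith
  have h3 := h1 K hK hKc M₁ H₁ hH₁ hMH₁
  have hH₁0 : (0 : ℝ) ≤ H₁ := Nat.cast_nonneg _
  have hH₂0 : (0 : ℝ) ≤ H₂ := Nat.cast_nonneg _
  have hK0 : (0 : ℝ) ≤ K.card := Nat.cast_nonneg _
  have hmx : 0 ≤ max (1 / Real.log (Real.log (Real.log n))) ((K.card : ℝ) / n) :=
    le_trans (by positivity) (le_max_left _ _)
  have h4 : c * H₁ * max (1 / Real.log (Real.log (Real.log n))) ((K.card : ℝ) / n) ≤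
      a * H₁ * max (1 / Real.log (Real.log (Real.log n))) ((K.card : ℝ) / n) := by
    apply mul_le_mul_of_nonneg_right _ hmx
    exact mul_le_mul_of_nonneg_right hca hH₁0
  refine h4.trans (h3.trans ?_)
  norm_cast
  apply Finset.card_le_card
  intro h₁ hh₁
  obtain ⟨h5, h6⟩ := mem_filter.1 hh₁
  rw [mem_filter]
  refine ⟨h5, ?_⟩
  obtain ⟨K', hK'⟩ : ∃ K' : Finset ℕ, K' = K.filter (fun k => (pr k + h₁).Prime) := ⟨_, rfl⟩
  rw [← hK'] at h6
  have hsub : K' ⊆ K := by rw [hK']; exact Finset.filter_subset _ _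
  have h7 : (n : ℝ) / Real.log n ^ (C + 2) ≤ K'.card := by
    refine le_trans ?_ h6
    have e1 : (n : ℝ) / Real.log n ^ (C + 2) = n / Real.log n ^ C / Real.log n / Real.log n := by
      rw [pow_add]
      field_simp
    rw [e1]
    apply div_le_div_of_nonneg_right _ hL0.le
    rw [div_le_iff₀ hL0]
    have e2 : 1 ≤ a * Real.log n := by
      rw [div_le_iff₀ ha] at hla
      linarith
    calc (n : ℝ) / Real.log n ^ C ≤ K.card := hKc
      _ = 1 * K.card := (one_mul _).symm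
      _ ≤ a * Real.log n * K.card := mul_le_mul_of_nonneg_right e2 hK0
      _ = _ := by ring
  have h8 := h2 (bn n) K' (bn_injOn (fun k hk => hK k (hsub hk)))
    (fun k hk => bn_le hn4 (hK k (hsub hk)).2) h7 M₂ H₂ hH₂ hMH₂
  have h9 : c * H₂ / Real.log (Real.log (Real.log n)) ≤
      b * H₂ / Real.log (Real.log (Real.log n)) := by
    apply div_le_div_of_nonneg_right _ (by linarith)
    exact mul_le_mul_of_nonneg_right hcb hH₂0
  refine h9.trans (h8.trans ?_)
  norm_cast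
  apply Finset.card_le_card
  intro h₂ hh₂
  obtain ⟨h10, h11⟩ := mem_filter.1 hh₂
  rw [mem_filter]
  refine ⟨h10, ?_⟩
  have h12 : c * K.card / Real.log n ^ 2 ≤ b * K'.card / Real.log n := by
    calc c * K.card / Real.log n ^ 2 ≤ a * b * K.card / Real.log n ^ 2 := by
          apply div_le_div_of_nonneg_right _ (by positivity)
          exact mul_le_mul_of_nonneg_right hcab hK0
      _ = b * (a * K.card / Real.log n) / Real.log n := by
          field_simp
      _ ≤ _ := by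
          apply div_le_div_of_nonneg_right _ hL0.le
          exact mul_le_mul_of_nonneg_left h6 hb.le
  refine h12.trans (h11.trans ?_)
  norm_cast
  apply Finset.card_le_card
  intro k hk
  obtain ⟨h13, h14⟩ := mem_filter.1 hk
  rw [hK'] at h13
  obtain ⟨h15, h16⟩ := mem_filter.1 h13
  exact mem_filter.2 ⟨h15, h16, h14⟩

end Pool.Agent.TSH
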