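import Mathlib
import Pool.Agent.TSH.TP

set_option autoImplicit false

/-!
# TSH / TQ: windows anywhere below `n (log n)^B`
-/

namespace Pool.Agent.TSH

open Finset Filter
open Pool.Agent.Helper20.TwinIndex (pr pr_prime pr_strictMono pr_mono pi_pr lt_pr)

/-- first moment, windows anywhere below `Y (log Y)^B` -/
theorem first3 (hGap : Pool.Agent.SI.St_Gap) : ∃ c₁ : ℝ, 0 < c₁ ∧ ∀ ε : ℝ, 0 < ε → ε < 1 / 4 →
    ∀ A B : ℕ, ∀ᶠ Y : ℕ in atTop, ∀ S : Finset ℕ, (∀ s ∈ S, s ≤ Y) →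
      (Y : ℝ) / Real.log Y ^ A ≤ S.card → ∀ M H : ℕ, (Y : ℝ) ^ (1 / 4 + ε) ≤ H →
      (M : ℝ) + H ≤ Y * Real.log Y ^ B →
      c₁ * S.card * H / Real.log Y ≤ ∑ h ∈ Ioc M (M + H), (r1 S h : ℝ) := by
  classical
  obtain ⟨c₁, hc₁, h1⟩ := first2 hGap
  refine ⟨c₁ / 4, by positivity, fun ε hε hε4 A B => ?_⟩
  obtain ⟨Z₀, hZ₀⟩ := eventually_atTop.1 (h1 (ε / 2) (by linarith) (by linarith) (A + B + 1))
  have hlogT : Tendsto (fun X : ℕ => Real.log X) atTop atTop :=
    Real.tendsto_log_atTop.comp tendsto_natCast_atTop_atTop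
  filter_upwards [eventually_ge_atTop Z₀, eventually_ge_atTop 3, hlogT.eventually_ge_atTop (3 : ℝ),
    log_rpow 3 B (ε / 2) (by linarith), log_rpow (2 * 2 ^ (A + B + 4)) (A + B + 4) (1 / 2)
      (by norm_num)] with Y hYZ hY3 hlog hpow hpow2 S hS hSc M H hH hMH
  have hY' : (3 : ℝ) ≤ Y := by exact_mod_cast hY3
  have hY0 : (0 : ℝ) < Y := by linarith
  obtain ⟨L, hL⟩ : ∃ L : ℝ, L = Real.log Y := ⟨_, rfl⟩
  rw [← hL] at hlog hpow hpow2 hSc hMH ⊢
  have hL0 : 0 < L := by linarith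
  have hLB : 1 ≤ L ^ B := one_le_pow₀ (by linarith)
  have hYLB : (Y : ℝ) ≤ Y * L ^ B := by nlinarith
  obtain ⟨Z, hZ⟩ : ∃ Z : ℕ, Z = ⌈2 * (Y * L ^ B)⌉₊ := ⟨_, rfl⟩
  have hZlo : 2 * (Y * L ^ B) ≤ Z := by rw [hZ]; exact Nat.le_ceil _
  have hZup : (Z : ℝ) ≤ 3 * (Y * L ^ B) := by
    have e3 := Nat.ceil_lt_add_one (show 0 ≤ 2 * ((Y : ℝ) * L ^ B) by positivity)
    rw [← hZ] at e3
    linarith
  have hYZ' : (Y : ℝ) ≤ Z := by linarith
  have hYZn : Y ≤ Z := by exact_mod_cast hYZ'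
  have hZ0 : (0 : ℝ) < Z := by linarith
  have hLZ : L ≤ Real.log Z := by
    rw [hL]
    exact Real.log_le_log hY0 hYZ'
  have hpow1 : (Z : ℝ) ≤ (Y : ℝ) ^ (1 + ε / 2) := by
    rw [Real.rpow_add hY0, Real.rpow_one]
    calc (Z : ℝ) ≤ Y * (3 * L ^ B) := by linarith
      _ ≤ _ := mul_le_mul_of_nonneg_left hpow hY0.le
  have hLZ2 : Real.log Z ≤ 2 * L := by
    have e1 := Real.log_le_log hZ0 hpow1
    rw [Real.log_rpow hY0, ← hL] at e1
    have e2 : (1 + ε / 2) * L ≤ 2 * L := mul_le_mul_of_nonneg_right (by linarith) hL0.le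
    linarith
  have hlZ : 0 < Real.log Z := by linarith
  -- the length of the short windows
  obtain ⟨w, hw⟩ : ∃ w : ℕ, w = ⌈(Z : ℝ) ^ (1 / 4 + ε / 2)⌉₊ := ⟨_, rfl⟩
  have hw1 : (Z : ℝ) ^ (1 / 4 + ε / 2) ≤ w := by rw [hw]; exact Nat.le_ceil _
  have hwH : w ≤ H := by
    rw [hw]
    refine Nat.ceil_le.2 (le_trans ?_ hH)
    have e1 : (Z : ℝ) ^ (1 / 4 + ε / 2) ≤ ((Y : ℝ) ^ (1 + ε / 2)) ^ (1 / 4 + ε / 2) :=
      Real.rpow_le_rpow hZ0.le hpow1 (by linarith)
    refine e1.trans ?_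
    rw [← Real.rpow_mul hY0.le]
    apply Real.rpow_le_rpow_of_exponent_le (by linarith)
    nlinarith
  have hZ1 : (1 : ℝ) ≤ Z := by linarith
  have hw0 : 0 < w := by
    have : (1 : ℝ) ≤ w := le_trans (Real.one_le_rpow hZ1 (by linarith)) hw1
    exact_mod_cast this
  have hwZ : (w : ℝ) ≤ Z / Real.log Z ^ (A + B + 1 + 3) := by
    have e1 : (w : ℝ) ≤ 2 * (Z : ℝ) ^ (1 / 2 : ℝ) := by
      have e2 := Nat.ceil_lt_add_one (show 0 ≤ (Z : ℝ) ^ (1 / 4 + ε / 2) by positivity)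
      rw [← hw] at e2
      have e3 : (Z : ℝ) ^ (1 / 4 + ε / 2) ≤ (Z : ℝ) ^ (1 / 2 : ℝ) :=
        Real.rpow_le_rpow_of_exponent_le hZ1 (by linarith)
      have e4 : 1 ≤ (Z : ℝ) ^ (1 / 2 : ℝ) := Real.one_le_rpow hZ1 (by norm_num)
      linarith
    refine e1.trans ?_
    rw [le_div_iff₀ (by positivity)]
    have e5 : Real.log Z ^ (A + B + 1 + 3) ≤ (2 * L) ^ (A + B + 4) := by
      have : A + B + 1 + 3 = A + B + 4 := by ring
      rw [this]
      exact pow_le_pow_left₀ hlZ.le hLZ2 _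
    have e6 : 2 * Real.log Z ^ (A + B + 1 + 3) ≤ (Y : ℝ) ^ (1 / 2 : ℝ) := by
      refine le_trans ?_ hpow2
      rw [mul_pow] at e5
      linarith
    have e7 : (Y : ℝ) ^ (1 / 2 : ℝ) ≤ (Z : ℝ) ^ (1 / 2 : ℝ) :=
      Real.rpow_le_rpow hY0.le hYZ' (by norm_num)
    have e8 : (Z : ℝ) ^ (1 / 2 : ℝ) * (Z : ℝ) ^ (1 / 2 : ℝ) = Z := by
      rw [← Real.rpow_add hZ0]
      norm_num
    calc 2 * (Z : ℝ) ^ (1 / 2 : ℝ) * Real.log Z ^ (A + B + 1 + 3)
        = (Z : ℝ) ^ (1 / 2 : ℝ) * (2 * Real.log Z ^ (A + B + 1 + 3)) := by ring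
      _ ≤ (Z : ℝ) ^ (1 / 2 : ℝ) * (Z : ℝ) ^ (1 / 2 : ℝ) :=
          mul_le_mul_of_nonneg_left (e6.trans e7) (by positivity)
      _ = Z := e8
  have hScd : (Z : ℝ) / Real.log Z ^ (A + B + 1) ≤ S.card := by
    refine le_trans ?_ hSc
    have e1 : (Z : ℝ) / Real.log Z ^ (A + B + 1) ≤ 3 * (Y * L ^ B) / L ^ (A + B + 1) := by
      apply div_le_div₀ (by positivity) hZup (by positivity)
      exact pow_le_pow_left₀ hL0.le hLZ _
    refine e1.trans ?_
    have e2 : 3 * ((Y : ℝ) * L ^ B) / L ^ (A + B + 1) = 3 / L * (Y / L ^ A) := by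
      rw [pow_succ, pow_add]
      field_simp
    rw [e2]
    have e3 : 3 / L ≤ 1 := by
      rw [div_le_one hL0]
      exact hlog
    have e4 : (0 : ℝ) ≤ Y / L ^ A := by positivity
    nlinarith
  obtain ⟨J, hJ⟩ : ∃ J : ℕ, J = H / w := ⟨_, rfl⟩
  have hJw : J * w ≤ H := by rw [hJ]; exact Nat.div_mul_le_self H w
  have hJ1 : 1 ≤ J := by
    rw [hJ]
    exact (Nat.one_le_div_iff hw0).2 hwH
  have hJw2 : H ≤ 2 * (J * w) := by
    have h1 : H < (J + 1) * w := by
      rw [hJ]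
      have := Nat.lt_div_mul_add (a := H) hw0
      calc H < H / w * w + w := this
        _ = (H / w + 1) * w := by ring
    have h2 : w ≤ J * w := Nat.le_mul_of_pos_left w hJ1
    have h3 : (J + 1) * w = J * w + w := by ring
    omega
  -- one short window
  have hone : ∀ j ∈ range J, c₁ * S.card * w / Real.log Z ≤
      ∑ h ∈ Ioc (M + j * w) (M + j * w + w), (r1 S h : ℝ) := by
    intro j hj
    have hj' : (j + 1) * w ≤ J * w := Nat.mul_le_mul_right _ (mem_range.1 hj)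
    have hj3 : (j + 1) * w = j * w + w := by ring
    obtain ⟨D, hD⟩ : ∃ D : ℕ, D = M + j * w := ⟨_, rfl⟩
    rw [← hD]
    have hDH : D ≤ M + H := by omega
    obtain ⟨T, hT⟩ : ∃ T : Finset ℕ, T = S.image (fun s => s + D) := ⟨_, rfl⟩
    have hTc : T.card = S.card := by
      rw [hT]
      exact Finset.card_image_of_injective _ (fun a b hab => by simpa using hab)
    have hTm : ∀ t ∈ T, t ≤ Z := by
      intro t ht
      rw [hT] at ht
      obtain ⟨s, hs, rfl⟩ := Finset.mem_image.1 ht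
      have e1 := hS s hs
      have e2 : ((s + D : ℕ) : ℝ) ≤ Z := by
        push_cast
        have e3 : (s : ℝ) ≤ Y := by exact_mod_cast e1
        have e4 : (D : ℝ) ≤ M + H := by exact_mod_cast hDH
        linarith
      exact_mod_cast e2
    have e1 := hZ₀ Z (hYZ.trans hYZn) T hTm (by rw [hTc]; exact hScd) 0 w hw1 (by
      push_cast
      rw [zero_add]
      exact hwZ)
    rw [hTc, zero_add] at e1
    refine e1.trans (le_of_eq ?_)
    have e2 : ∀ h ∈ Ioc 0 w, (r1 T h : ℝ) = (r1 S (h + D) : ℝ) := by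
      intro h _
      congr 1
      unfold r1
      rw [hT]
      rw [Finset.filter_image, Finset.card_image_of_injective _ (fun a b hab => by simpa using hab)]
      congr 1
      apply Finset.filter_congr
      intro s _
      have e3 : s + D + h = s + (h + D) := by ring
      rw [e3]
    rw [Finset.sum_congr rfl e2]
    have e4 : Ioc D (D + w) = (Ioc 0 w).image (fun h => h + D) := by
      ext x
      rw [mem_image]
      constructor
      · intro hx
        rw [mem_Ioc] at hx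
        exact ⟨x - D, by rw [mem_Ioc]; omega, by omega⟩
      · rintro ⟨y, hy, rfl⟩
        rw [mem_Ioc] at hy ⊢
        omega
    rw [e4, Finset.sum_image (fun a _ b _ hab => by simpa using hab)]
  -- all the short windows
  have hsum : ∑ j ∈ range J, ∑ h ∈ Ioc (M + j * w) (M + j * w + w), (r1 S h : ℝ) ≤
      ∑ h ∈ Ioc M (M + H), (r1 S h : ℝ) := by
    rw [← Finset.sum_biUnion]
    · apply Finset.sum_le_sum_of_subset_of_nonneg
      · intro x hx
        rw [Finset.mem_biUnion] at hx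
        obtain ⟨j, hj, hx⟩ := hx
        have hj' : (j + 1) * w ≤ J * w := Nat.mul_le_mul_right _ (mem_range.1 hj)
        have hj3 : (j + 1) * w = j * w + w := by ring
        rw [mem_Ioc] at hx ⊢
        omega
      · intro _ _ _
        exact Nat.cast_nonneg _
    · intro i _ j _ hij
      rw [Function.onFun, Finset.disjoint_left]
      intro x hx hx'
      rw [mem_Ioc] at hx hx'
      rcases lt_or_gt_of_ne hij with h | h
      · have e1 : (i + 1) * w ≤ j * w := Nat.mul_le_mul_right _ h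
        have e2 : (i + 1) * w = i * w + w := by ring
        omega
      · have e1 : (j + 1) * w ≤ i * w := Nat.mul_le_mul_right _ h
        have e2 : (j + 1) * w = j * w + w := by ring
        omega
  have h2 := Finset.sum_le_sum hone
  rw [Finset.sum_const, Finset.card_range, nsmul_eq_mul] at h2
  refine le_trans ?_ (h2.trans hsum)
  have h3 : (H : ℝ) ≤ 2 * (J * w) := by exact_mod_cast hJw2
  have hS0 : (0 : ℝ) ≤ S.card := Nat.cast_nonneg _
  calc c₁ / 4 * S.card * H / L ≤ c₁ / 4 * S.card * (2 * (J * w)) / L := by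
        apply div_le_div_of_nonneg_right _ hL0.le
        exact mul_le_mul_of_nonneg_left h3 (by positivity)
    _ = c₁ * S.card * (J * w) / (2 * L) := by
        field_simp
        ring
    _ ≤ c₁ * S.card * (J * w) / Real.log Z := by
        apply div_le_div_of_nonneg_left (by positivity) hlZ hLZ2
    _ = J * (c₁ * S.card * w / Real.log Z) := by ring

/-- **Primes `s + h` with `s` in an arbitrary set and `h` in a short window.** -/
theorem tcoreQ (hGap : Pool.Agent.SI.St_Gap) (ε : ℝ) (hε : 0 < ε) (hε4 : ε < 1 / 4) (A B : ℕ) :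
    ∃ c : ℝ, 0 < c ∧ ∀ᶠ Y : ℕ in atTop, ∀ S : Finset ℕ, (∀ s ∈ S, s ≤ Y) →
      (Y : ℝ) / Real.log Y ^ A ≤ S.card → ∀ M H : ℕ, (Y : ℝ) ^ (1 / 4 + ε) ≤ H →
      (M : ℝ) + H ≤ Y * Real.log Y ^ B →
      c * H / L3 Y ≤
        (((Ioc M (M + H)).filter (fun h => c * S.card / Real.log Y ≤ r1 S h)).card : ℝ) := by
  classical
  obtain ⟨c₁, hc₁, h1⟩ := first3 hGap
  obtain ⟨C₃, hC₃, h2⟩ := second1 A
  refine ⟨min (c₁ ^ 2 / (16 * C₃)) (c₁ / 4), by positivity, ?_⟩
  filter_upwards [h1 ε hε hε4 A B, h2, eventually_ge_atTop 3,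
    (Real.tendsto_log_atTop.comp tendsto_natCast_atTop_atTop).eventually_ge_atTop (2 : ℝ),
    tendsto_L3.eventually_ge_atTop 1] with Y h1 h2 hY3 hlog hL3 S hS hSc M H hH hMH
  have hlog : 2 ≤ Real.log Y := hlog
  have hL3 : 1 ≤ L3 Y := hL3
  have hY' : (3 : ℝ) ≤ Y := by exact_mod_cast hY3
  have hlog0 : 0 < Real.log Y := by linarith
  have hS0 : (0 : ℝ) < S.card := lt_of_lt_of_le (by positivity) hSc
  have hH4 : (Y : ℝ) ^ (1 / 4 : ℝ) ≤ H := by
    refine le_trans ?_ hH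
    exact Real.rpow_le_rpow_of_exponent_le (by linarith) (by linarith)
  have hH0 : (0 : ℝ) < H := lt_of_lt_of_le (by positivity) hH4
  have hR := h1 S hS hSc M H hH hMH
  have hQ := h2 S (fun s hs => by have := hS s hs; omega) hSc M H hH4
  have hpz := pz (Ioc M (M + H)) (fun h => (r1 S h : ℝ)) (m := c₁ * S.card / (2 * Real.log Y))
    hR (by positivity) (by
      rw [Nat.card_Ioc, Nat.add_sub_cancel_left]
      apply le_of_eq
      field_simp) (by positivity) hQ (by positivity)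
  have h3 : min (c₁ ^ 2 / (16 * C₃)) (c₁ / 4) * H / L3 Y ≤
      (c₁ * S.card * H / Real.log Y) ^ 2 /
        (4 * (C₃ * H * (S.card : ℝ) ^ 2 * L3 Y / Real.log Y ^ 2)) := by
    calc min (c₁ ^ 2 / (16 * C₃)) (c₁ / 4) * H / L3 Y ≤ c₁ ^ 2 / (4 * C₃) * H / L3 Y := by
          apply div_le_div_of_nonneg_right _ (by linarith)
          apply mul_le_mul_of_nonneg_right _ hH0.le
          refine (min_le_left _ _).trans ?_
          apply div_le_div_of_nonneg_left (by positivity) (by positivity)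
          linarith
      _ = _ := by
          field_simp
  refine h3.trans (hpz.trans ?_)
  norm_cast
  apply Finset.card_le_card
  intro h hh
  obtain ⟨h4, h5⟩ := mem_filter.1 hh
  rw [mem_filter]
  refine ⟨h4, le_trans ?_ h5⟩
  calc min (c₁ ^ 2 / (16 * C₃)) (c₁ / 4) * S.card / Real.log Y ≤
        c₁ / 2 * S.card / Real.log Y := by
        apply div_le_div_of_nonneg_right _ hlog0.le
        apply mul_le_mul_of_nonneg_right _ hS0.le
        exact (min_le_right _ _).trans (by linarith)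
    _ = c₁ * S.card / (2 * Real.log Y) := by
        field_simp

/-- **Primes `s + h` with `s` in a set of primes and `h` in a short window.** -/
theorem tcoreR (hGap : Pool.Agent.SI.St_Gap) (ε : ℝ) (hε : 0 < ε) (hε4 : ε < 1 / 4) (A B : ℕ) :
    ∃ c : ℝ, 0 < c ∧ ∀ᶠ Y : ℕ in atTop, ∀ S : Finset ℕ, (∀ s ∈ S, s.Prime ∧ s ≤ Y) →
      (Y : ℝ) / Real.log Y ^ A ≤ S.card → ∀ M H : ℕ, (Y : ℝ) ^ (1 / 4 + ε) ≤ H →
      (M : ℝ) + H ≤ Y * Real.log Y ^ B →
      c * H * (S.card * Real.log Y / Y) ≤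
        (((Ioc M (M + H)).filter (fun h => c * S.card / Real.log Y ≤ r1 S h)).card : ℝ) := by
  classical
  obtain ⟨c₁, hc₁, h1⟩ := first3 hGap
  obtain ⟨C₃, hC₃, h2⟩ := second2
  refine ⟨min (c₁ ^ 2 / (16 * C₃)) (c₁ / 4), by positivity, ?_⟩
  filter_upwards [h1 ε hε hε4 A B, h2, eventually_ge_atTop 3,
    (Real.tendsto_log_atTop.comp tendsto_natCast_atTop_atTop).eventually_ge_atTop (2 : ℝ)]
    with Y h1 h2 hY3 hlog S hS hSc M H hH hMH
  have hlog : 2 ≤ Real.log Y := hlog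
  have hY' : (3 : ℝ) ≤ Y := by exact_mod_cast hY3
  have hlog0 : 0 < Real.log Y := by linarith
  have hS0 : (0 : ℝ) < S.card := lt_of_lt_of_le (by positivity) hSc
  have hH4 : (Y : ℝ) ^ (1 / 4 : ℝ) ≤ H := by
    refine le_trans ?_ hH
    exact Real.rpow_le_rpow_of_exponent_le (by linarith) (by linarith)
  have hH0 : (0 : ℝ) < H := lt_of_lt_of_le (by positivity) hH4
  have hR := h1 S (fun s hs => (hS s hs).2) hSc M H hH hMH
  have hQ := h2 S hS M H hH4
  have hpz := pz (Ioc M (M + H)) (fun h => (r1 S h : ℝ)) (m := c₁ * S.card / (2 * Real.log Y))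
    hR (by positivity) (by
      rw [Nat.card_Ioc, Nat.add_sub_cancel_left]
      apply le_of_eq
      field_simp) (by positivity) hQ (by positivity)
  have h3 : min (c₁ ^ 2 / (16 * C₃)) (c₁ / 4) * H * (S.card * Real.log Y / Y) ≤
      (c₁ * S.card * H / Real.log Y) ^ 2 /
        (4 * (C₃ * H * S.card * Y / Real.log Y ^ 3)) := by
    calc min (c₁ ^ 2 / (16 * C₃)) (c₁ / 4) * H * (S.card * Real.log Y / Y) ≤
        c₁ ^ 2 / (4 * C₃) * H * (S.card * Real.log Y / Y) := by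
          apply mul_le_mul_of_nonneg_right _ (by positivity)
          apply mul_le_mul_of_nonneg_right _ hH0.le
          refine (min_le_left _ _).trans ?_
          apply div_le_div_of_nonneg_left (by positivity) (by positivity)
          linarith
      _ = _ := by
          field_simp
  refine h3.trans (hpz.trans ?_)
  norm_cast
  apply Finset.card_le_card
  intro h hh
  obtain ⟨h4, h5⟩ := mem_filter.1 hh
  rw [mem_filter]
  refine ⟨h4, le_trans ?_ h5⟩
  calc min (c₁ ^ 2 / (16 * C₃)) (c₁ / 4) * S.card / Real.log Y ≤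
        c₁ / 2 * S.card / Real.log Y := by
        apply div_le_div_of_nonneg_right _ hlog0.le
        apply mul_le_mul_of_nonneg_right _ hS0.le
        exact (min_le_right _ _).trans (by linarith)
    _ = c₁ * S.card / (2 * Real.log Y) := by
        field_simp

open Classical in
theorem shift_seqQ (hGap : Pool.Agent.SI.St_Gap) (ε : ℝ) (hε : 0 < ε) (C B : ℕ) :
    ∃ c : ℝ, 0 < c ∧ ∀ᶠ n : ℕ in atTop, ∀ (f : ℕ → ℕ) (K : Finset ℕ), Set.InjOn f K →
      (∀ k ∈ K, (f k : ℝ) ≤ 3600 * (n * Real.log n ^ 2)) → (n : ℝ) / Real.log n ^ C ≤ K.card →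
      ∀ M H : ℕ, (n : ℝ) ^ (1 / 4 + ε) ≤ H → (M : ℝ) + H ≤ n * Real.log n ^ B →
      c * H / Real.log (Real.log (Real.log n)) ≤
        (((Ioc M (M + H)).filter (fun h => c * K.card / Real.log n ≤
          ((K.filter (fun k => (f k + h).Prime)).card : ℝ))).card : ℝ) := by
  obtain ⟨ε₁, hε₁⟩ : ∃ ε₁ : ℝ, ε₁ = min ε (1 / 5) := ⟨_, rfl⟩
  have he0 : 0 < ε₁ := by rw [hε₁]; positivity
  have he1 : ε₁ ≤ ε := by rw [hε₁]; exact min_le_left _ _
  have he2 : ε₁ ≤ 1 / 5 := by rw [hε₁]; exact min_le_right _ _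
  obtain ⟨c₁, hc₁, h1⟩ := tcoreQ hGap (ε₁ / 2) (by linarith) (by linarith) (C + 3) B
  obtain ⟨Y₁, hY₁⟩ := eventually_atTop.1 h1
  refine ⟨c₁ / 2, by positivity, ?_⟩
  have hlogT : Tendsto (fun X : ℕ => Real.log X) atTop atTop :=
    Real.tendsto_log_atTop.comp tendsto_natCast_atTop_atTop
  filter_upwards [eventually_ge_atTop Y₁, eventually_ge_atTop 400,
    hlogT.eventually_ge_atTop (3601 : ℝ), L3_le, log_rpow 3601 2 (ε₁ / 2) (by linarith)] with
    n hnY hn4 hlog hL3 hpow f K hinj hfK hKc M H hH hMH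
  have hn' : (400 : ℝ) ≤ n := by exact_mod_cast hn4
  have hn0 : (0 : ℝ) < n := by linarith
  obtain ⟨L, hL⟩ : ∃ L : ℝ, L = Real.log n := ⟨_, rfl⟩
  rw [← hL] at hlog hpow hfK hKc hMH ⊢
  have hL0 : 0 < L := by linarith
  obtain ⟨Y, hY⟩ : ∃ Y : ℕ, Y = ⌈3600 * (n * L ^ 2)⌉₊ := ⟨_, rfl⟩
  have hL2 : (1 : ℝ) ≤ L ^ 2 := by nlinarith
  have hnL : (n : ℝ) ≤ n * L ^ 2 := by nlinarith
  have hYlo : 3600 * (n * L ^ 2) ≤ Y := by rw [hY]; exact Nat.le_ceil _
  have hYup : (Y : ℝ) ≤ 3601 * (n * L ^ 2) := by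
    have e3 := Nat.ceil_lt_add_one (show 0 ≤ 3600 * ((n : ℝ) * L ^ 2) by positivity)
    rw [← hY] at e3
    linarith
  have hnY' : (n : ℝ) ≤ Y := by linarith
  have hnYn : n ≤ Y := by exact_mod_cast hnY'
  have hLY : L ≤ Real.log Y := by
    rw [hL]
    exact Real.log_le_log (by linarith) hnY'
  have hpow1 : (Y : ℝ) ≤ (n : ℝ) ^ (1 + ε₁ / 2) := by
    rw [Real.rpow_add (by linarith), Real.rpow_one]
    calc (Y : ℝ) ≤ n * (3601 * L ^ 2) := by linarith
      _ ≤ _ := mul_le_mul_of_nonneg_left hpow (by linarith)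
  have hLY2 : Real.log Y ≤ 2 * L := by
    have e1 := Real.log_le_log (by linarith) hpow1
    rw [Real.log_rpow (by linarith), ← hL] at e1
    have e2 : (1 + ε₁ / 2) * L ≤ 2 * L := mul_le_mul_of_nonneg_right (by linarith) hL0.le
    linarith
  have hlY : 0 < Real.log Y := by linarith
  obtain ⟨hL3a, hL3b⟩ := hL3 Y hnYn (by rw [← hL]; exact hLY2)
  -- the set
  obtain ⟨S, hS⟩ : ∃ S : Finset ℕ, S = K.image f := ⟨_, rfl⟩
  have hScard : S.card = K.card := by
    rw [hS]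
    exact Finset.card_image_of_injOn hinj
  have hSmem : ∀ s ∈ S, s ≤ Y := by
    intro s hs
    rw [hS] at hs
    obtain ⟨k, hk, rfl⟩ := Finset.mem_image.1 hs
    have e1 := (hfK k hk).trans hYlo
    exact_mod_cast e1
  have hScd : (Y : ℝ) / Real.log Y ^ (C + 3) ≤ S.card := by
    rw [hScard]
    refine le_trans ?_ hKc
    have e1 : (Y : ℝ) / Real.log Y ^ (C + 3) ≤ 3601 * (n * L ^ 2) / L ^ (C + 3) := by
      apply div_le_div₀ (by positivity) hYup (by positivity)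
      exact pow_le_pow_left₀ hL0.le hLY _
    refine e1.trans ?_
    have e2 : 3601 * ((n : ℝ) * L ^ 2) / L ^ (C + 3) = 3601 / L * (n / L ^ C) := by
      rw [pow_add]
      field_simp
    rw [e2]
    have e3 : 3601 / L ≤ 1 := by
      rw [div_le_one hL0]
      exact hlog
    have e4 : (0 : ℝ) ≤ n / L ^ C := by positivity
    nlinarith
  have hHY : (Y : ℝ) ^ (1 / 4 + ε₁ / 2) ≤ H := by
    refine le_trans ?_ hH
    have e1 : (Y : ℝ) ^ (1 / 4 + ε₁ / 2) ≤ ((n : ℝ) ^ (1 + ε₁ / 2)) ^ (1 / 4 + ε₁ / 2) :=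
      Real.rpow_le_rpow (by linarith) hpow1 (by linarith)
    refine e1.trans ?_
    rw [← Real.rpow_mul (by linarith)]
    apply Real.rpow_le_rpow_of_exponent_le (by linarith)
    nlinarith
  have hMHY : (M : ℝ) + H ≤ Y * Real.log Y ^ B := by
    refine hMH.trans ?_
    exact mul_le_mul hnY' (pow_le_pow_left₀ hL0.le hLY _) (by positivity) (by positivity)
  have h2 := hY₁ Y (hnY.trans hnYn) S hSmem hScd M H hHY hMHY
  have hH0 : (0 : ℝ) ≤ H := Nat.cast_nonneg H
  have hL3n : 0 < L3 n := by linarith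
  have h3 : c₁ / 2 * H / Real.log (Real.log L) ≤ c₁ * H / L3 Y := by
    have e0 : Real.log (Real.log L) = L3 n := by rw [hL]; rfl
    rw [e0]
    rw [div_le_div_iff₀ hL3n hL3a]
    have e1 : c₁ / 2 * H * L3 Y ≤ c₁ / 2 * H * (2 * L3 n) :=
      mul_le_mul_of_nonneg_left hL3b (by positivity)
    linarith
  refine h3.trans (h2.trans ?_)
  norm_cast
  apply Finset.card_le_card
  intro h hh
  obtain ⟨h4, h5⟩ := mem_filter.1 hh
  rw [mem_filter]
  refine ⟨h4, ?_⟩
  have h6 : r1 S h ≤ (K.filter (fun k => (f k + h).Prime)).card := by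
    unfold r1
    have e1 : S.filter (fun s => (s + h).Prime) ⊆
        (K.filter (fun k => (f k + h).Prime)).image f := by
      intro s hs
      obtain ⟨e2, e3⟩ := mem_filter.1 hs
      rw [hS] at e2
      obtain ⟨k, hk, rfl⟩ := Finset.mem_image.1 e2
      exact Finset.mem_image.2 ⟨k, mem_filter.2 ⟨hk, e3⟩, rfl⟩
    exact (Finset.card_le_card e1).trans Finset.card_image_le
  have h7 : (r1 S h : ℝ) ≤ ((K.filter (fun k => (f k + h).Prime)).card : ℕ) := by
    exact_mod_cast h6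
  refine le_trans ?_ (h5.trans h7)
  rw [hScard]
  rw [div_le_div_iff₀ hL0 hlY]
  have hK0 : (0 : ℝ) ≤ K.card := Nat.cast_nonneg _
  calc c₁ / 2 * K.card * Real.log Y ≤ c₁ / 2 * K.card * (2 * L) :=
        mul_le_mul_of_nonneg_left hLY2 (by positivity)
    _ = c₁ * K.card * L := by ring

open Classical in
theorem shift_prQ (hGap : Pool.Agent.SI.St_Gap) (ε : ℝ) (hε : 0 < ε) (C B : ℕ) :
    ∃ c : ℝ, 0 < c ∧ ∀ᶠ n : ℕ in atTop, ∀ K : Finset ℕ, (∀ k ∈ K, 1 ≤ k ∧ k < n) →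
      (n : ℝ) / Real.log n ^ C ≤ K.card →
      ∀ M H : ℕ, (n : ℝ) ^ (1 / 4 + ε) ≤ H → (M : ℝ) + H ≤ n * Real.log n ^ B →
      c * H * (K.card / n) ≤
        (((Ioc M (M + H)).filter (fun h => c * K.card / Real.log n ≤
          ((K.filter (fun k => (pr k + h).Prime)).card : ℝ))).card : ℝ) := by
  obtain ⟨ε₁, hε₁⟩ : ∃ ε₁ : ℝ, ε₁ = min ε (1 / 5) := ⟨_, rfl⟩
  have he0 : 0 < ε₁ := by rw [hε₁]; positivity
  have he1 : ε₁ ≤ ε := by rw [hε₁]; exact min_le_left _ _
  have he2 : ε₁ ≤ 1 / 5 := by rw [hε₁]; exact min_le_right _ _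
  obtain ⟨c₁, hc₁, h1⟩ := tcoreR hGap (ε₁ / 2) (by linarith) (by linarith) (C + 2) B
  obtain ⟨Y₁, hY₁⟩ := eventually_atTop.1 h1
  refine ⟨c₁ / 31, by positivity, ?_⟩
  have hlogT : Tendsto (fun X : ℕ => Real.log X) atTop atTop :=
    Real.tendsto_log_atTop.comp tendsto_natCast_atTop_atTop
  filter_upwards [eventually_ge_atTop Y₁, eventually_ge_atTop 400,
    hlogT.eventually_ge_atTop (31 : ℝ), log_rpow 31 1 (ε₁ / 2) (by linarith)] with
    n hnY hn4 hlog hpow K hK hKc M H hH hMH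
  have hn' : (400 : ℝ) ≤ n := by exact_mod_cast hn4
  have hn0 : (0 : ℝ) < n := by linarith
  have hfK : ∀ k ∈ K, (pr k : ℝ) ≤ 30 * (n * Real.log n) := fun k hk =>
    pr_le_n hn4 (hK k hk).1 (hK k hk).2
  obtain ⟨L, hL⟩ : ∃ L : ℝ, L = Real.log n := ⟨_, rfl⟩
  rw [← hL] at hlog hpow hfK hKc hMH ⊢
  have hL0 : 0 < L := by linarith
  obtain ⟨Y, hY⟩ : ∃ Y : ℕ, Y = ⌈30 * (n * L)⌉₊ := ⟨_, rfl⟩
  have hnL : (n : ℝ) ≤ n * L := by nlinarith
  have hYlo : 30 * (n * L) ≤ Y := by rw [hY]; exact Nat.le_ceil _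
  have hYup : (Y : ℝ) ≤ 31 * (n * L) := by
    have e3 := Nat.ceil_lt_add_one (show 0 ≤ 30 * ((n : ℝ) * L) by positivity)
    rw [← hY] at e3
    linarith
  have hnY' : (n : ℝ) ≤ Y := by linarith
  have hY0 : (0 : ℝ) < Y := by linarith
  have hnYn : n ≤ Y := by exact_mod_cast hnY'
  have hLY : L ≤ Real.log Y := by
    rw [hL]
    exact Real.log_le_log (by linarith) hnY'
  have hpow1 : (Y : ℝ) ≤ (n : ℝ) ^ (1 + ε₁ / 2) := by
    rw [Real.rpow_add (by linarith), Real.rpow_one]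
    rw [pow_one] at hpow
    calc (Y : ℝ) ≤ n * (31 * L) := by linarith
      _ ≤ _ := mul_le_mul_of_nonneg_left hpow (by linarith)
  have hLY2 : Real.log Y ≤ 2 * L := by
    have e1 := Real.log_le_log (by linarith) hpow1
    rw [Real.log_rpow (by linarith), ← hL] at e1
    have e2 : (1 + ε₁ / 2) * L ≤ 2 * L := mul_le_mul_of_nonneg_right (by linarith) hL0.le
    linarith
  have hlY : 0 < Real.log Y := by linarith
  -- the set
  obtain ⟨S, hS⟩ : ∃ S : Finset ℕ, S = K.image pr := ⟨_, rfl⟩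
  have hScard : S.card = K.card := by
    rw [hS]
    exact Finset.card_image_of_injOn (pr_injOn hK)
  have hSmem : ∀ s ∈ S, s.Prime ∧ s ≤ Y := by
    intro s hs
    rw [hS] at hs
    obtain ⟨k, hk, rfl⟩ := Finset.mem_image.1 hs
    have e1 := (hfK k hk).trans hYlo
    exact ⟨pr_prime k, by exact_mod_cast e1⟩
  have hScd : (Y : ℝ) / Real.log Y ^ (C + 2) ≤ S.card := by
    rw [hScard]
    refine le_trans ?_ hKc
    have e1 : (Y : ℝ) / Real.log Y ^ (C + 2) ≤ 31 * (n * L) / L ^ (C + 2) := by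
      apply div_le_div₀ (by positivity) hYup (by positivity)
      exact pow_le_pow_left₀ hL0.le hLY _
    refine e1.trans ?_
    have e2 : 31 * ((n : ℝ) * L) / L ^ (C + 2) = 31 / L * (n / L ^ C) := by
      rw [pow_add]
      field_simp
    rw [e2]
    have e3 : 31 / L ≤ 1 := by
      rw [div_le_one hL0]
      exact hlog
    have e4 : (0 : ℝ) ≤ n / L ^ C := by positivity
    nlinarith
  have hHY : (Y : ℝ) ^ (1 / 4 + ε₁ / 2) ≤ H := by
    refine le_trans ?_ hH
    have e1 : (Y : ℝ) ^ (1 / 4 + ε₁ / 2) ≤ ((n : ℝ) ^ (1 + ε₁ / 2)) ^ (1 / 4 + ε₁ / 2) :=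
      Real.rpow_le_rpow (by linarith) hpow1 (by linarith)
    refine e1.trans ?_
    rw [← Real.rpow_mul (by linarith)]
    apply Real.rpow_le_rpow_of_exponent_le (by linarith)
    nlinarith
  have hMHY : (M : ℝ) + H ≤ Y * Real.log Y ^ B := by
    refine hMH.trans ?_
    exact mul_le_mul hnY' (pow_le_pow_left₀ hL0.le hLY _) (by positivity) (by positivity)
  have h2 := hY₁ Y (hnY.trans hnYn) S hSmem hScd M H hHY hMHY
  have hH0 : (0 : ℝ) ≤ H := Nat.cast_nonneg H
  have hK0 : (0 : ℝ) ≤ K.card := Nat.cast_nonneg _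
  have h3 : c₁ / 31 * H * (K.card / n) ≤ c₁ * H * (S.card * Real.log Y / Y) := by
    rw [hScard]
    have e1 : (K.card : ℝ) / (31 * n) ≤ K.card * Real.log Y / Y := by
      rw [div_le_div_iff₀ (by positivity) hY0]
      calc (K.card : ℝ) * Y ≤ K.card * (31 * (n * L)) := mul_le_mul_of_nonneg_left hYup hK0
        _ = K.card * L * (31 * n) := by ring
        _ ≤ K.card * Real.log Y * (31 * n) := by
            apply mul_le_mul_of_nonneg_right _ (by positivity)
            exact mul_le_mul_of_nonneg_left hLY hK0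
    calc c₁ / 31 * H * (K.card / n) = c₁ * H * (K.card / (31 * n)) := by
          field_simp
      _ ≤ _ := mul_le_mul_of_nonneg_left e1 (by positivity)
  refine h3.trans (h2.trans ?_)
  norm_cast
  apply Finset.card_le_card
  intro h hh
  obtain ⟨h4, h5⟩ := mem_filter.1 hh
  rw [mem_filter]
  refine ⟨h4, ?_⟩
  have h6 : r1 S h ≤ (K.filter (fun k => (pr k + h).Prime)).card := by
    unfold r1
    have e1 : S.filter (fun s => (s + h).Prime) ⊆
        (K.filter (fun k => (pr k + h).Prime)).image pr := by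
      intro s hs
      obtain ⟨e2, e3⟩ := mem_filter.1 hs
      rw [hS] at e2
      obtain ⟨k, hk, rfl⟩ := Finset.mem_image.1 e2
      exact Finset.mem_image.2 ⟨k, mem_filter.2 ⟨hk, e3⟩, rfl⟩
    exact (Finset.card_le_card e1).trans Finset.card_image_le
  have h7 : (r1 S h : ℝ) ≤ ((K.filter (fun k => (pr k + h).Prime)).card : ℕ) := by
    exact_mod_cast h6
  refine le_trans ?_ (h5.trans h7)
  rw [hScard]
  rw [div_le_div_iff₀ hL0 hlY]
  calc c₁ / 31 * K.card * Real.log Y ≤ c₁ / 31 * K.card * (2 * L) :=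
        mul_le_mul_of_nonneg_left hLY2 (by positivity)
    _ = 2 / 31 * (c₁ * K.card * L) := by ring
    _ ≤ 1 * (c₁ * K.card * L) := by
        apply mul_le_mul_of_nonneg_right (by norm_num) (by positivity)
    _ = c₁ * K.card * L := one_mul _

open Classical in
/-- both bounds for the first shift -/
theorem shift_pr2Q (hGap : Pool.Agent.SI.St_Gap) (ε : ℝ) (hε : 0 < ε) (C B : ℕ) :
    ∃ c : ℝ, 0 < c ∧ ∀ᶠ n : ℕ in atTop, ∀ K : Finset ℕ, (∀ k ∈ K, 1 ≤ k ∧ k < n) →
      (n : ℝ) / Real.log n ^ C ≤ K.card →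
      ∀ M H : ℕ, (n : ℝ) ^ (1 / 4 + ε) ≤ H → (M : ℝ) + H ≤ n * Real.log n ^ B →
      c * H * max (1 / Real.log (Real.log (Real.log n))) (K.card / n) ≤
        (((Ioc M (M + H)).filter (fun h => c * K.card / Real.log n ≤
          ((K.filter (fun k => (pr k + h).Prime)).card : ℝ))).card : ℝ) := by
  obtain ⟨a, ha, h1⟩ := shift_seqQ hGap ε hε C B
  obtain ⟨b, hb, h2⟩ := shift_prQ hGap ε hε C B
  refine ⟨min a b, lt_min ha hb, ?_⟩
  have hlogT : Tendsto (fun X : ℕ => Real.log X) atTop atTop :=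
    Real.tendsto_log_atTop.comp tendsto_natCast_atTop_atTop
  filter_upwards [h1, h2, eventually_ge_atTop 400, tendsto_L3.eventually_ge_atTop 1,
    hlogT.eventually_ge_atTop 1] with n h1 h2 hn4 hL3 hl1 K hK hKc M H hH hMH
  have hL3' : 1 ≤ Real.log (Real.log (Real.log n)) := hL3
  have hL0 : 0 < Real.log n := by linarith
  have hH0 : (0 : ℝ) ≤ H := Nat.cast_nonneg _
  have hK0 : (0 : ℝ) ≤ K.card := Nat.cast_nonneg _
  have g : ∀ x : ℝ, min a b ≤ x → (((Ioc M (M + H)).filter (fun h => x * K.card / Real.log n ≤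
      ((K.filter (fun k => (pr k + h).Prime)).card : ℝ))).card : ℝ) ≤
      (((Ioc M (M + H)).filter (fun h => min a b * K.card / Real.log n ≤
      ((K.filter (fun k => (pr k + h).Prime)).card : ℝ))).card : ℝ) := by
    intro x hx
    norm_cast
    apply Finset.card_le_card
    intro h hh
    obtain ⟨h4, h5⟩ := mem_filter.1 hh
    rw [mem_filter]
    refine ⟨h4, le_trans ?_ h5⟩
    apply div_le_div_of_nonneg_right _ hL0.le
    exact mul_le_mul_of_nonneg_right hx hK0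
  rcases max_choice (1 / Real.log (Real.log (Real.log n))) ((K.card : ℝ) / n) with h | h
  · rw [h]
    have h3 := h1 pr K (pr_injOn hK) (fun k hk => pr_le' hn4 (hK k hk).2) hKc M H hH hMH
    refine le_trans ?_ (h3.trans (g a (min_le_left _ _)))
    rw [mul_one_div]
    apply div_le_div_of_nonneg_right _ (by linarith)
    exact mul_le_mul_of_nonneg_right (min_le_left _ _) hH0
  · rw [h]
    have h3 := h2 K hK hKc M H hH hMH
    refine le_trans ?_ (h3.trans (g b (min_le_right _ _)))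
    apply mul_le_mul_of_nonneg_right _ (by positivity)
    exact mul_le_mul_of_nonneg_right (min_le_right _ _) hH0

open Classical in
/-- **Two shifts in short windows**, no loss in the first one for dense sets of indices. -/
theorem two_shiftsQ (hGap : Pool.Agent.SI.St_Gap) (ε : ℝ) (hε : 0 < ε) (C B : ℕ) :
    ∃ c : ℝ, 0 < c ∧ ∀ᶠ n : ℕ in atTop, ∀ K : Finset ℕ, (∀ k ∈ K, 1 ≤ k ∧ k < n) →
      (n : ℝ) / Real.log n ^ C ≤ K.card → ∀ M₁ H₁ M₂ H₂ : ℕ,
      (n : ℝ) ^ (1 / 4 + ε) ≤ H₁ → (M₁ : ℝ) + H₁ ≤ n * Real.log n ^ B →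
      (n : ℝ) ^ (1 / 4 + ε) ≤ H₂ → (M₂ : ℝ) + H₂ ≤ n * Real.log n ^ B →
      c * H₁ * max (1 / Real.log (Real.log (Real.log n))) (K.card / n) ≤
        (((Ioc M₁ (M₁ + H₁)).filter (fun h₁ => c * H₂ / Real.log (Real.log (Real.log n)) ≤
          (((Ioc M₂ (M₂ + H₂)).filter (fun h₂ => c * K.card / Real.log n ^ 2 ≤
            ((K.filter (fun k => (pr k + h₁).Prime ∧ (pr (pr (n - k)) + h₂).Prime)).card : ℝ))).card
            : ℝ))).card : ℝ) := by
  obtain ⟨a, ha, h1⟩ := shift_pr2Q hGap ε hε C B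
  obtain ⟨b, hb, h2⟩ := shift_seqQ hGap ε hε (C + 2) B
  obtain ⟨c, hc⟩ : ∃ c : ℝ, c = min (min a b) (a * b) := ⟨_, rfl⟩
  have hc0 : 0 < c := by rw [hc]; positivity
  have hca : c ≤ a := by rw [hc]; exact (min_le_left _ _).trans (min_le_left _ _)
  have hcb : c ≤ b := by rw [hc]; exact (min_le_left _ _).trans (min_le_right _ _)
  have hcab : c ≤ a * b := by rw [hc]; exact min_le_right _ _
  refine ⟨c, hc0, ?_⟩
  have hlogT : Tendsto (fun X : ℕ => Real.log X) atTop atTop :=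
    Real.tendsto_log_atTop.comp tendsto_natCast_atTop_atTop
  filter_upwards [h1, h2, eventually_ge_atTop 400, hlogT.eventually_ge_atTop (1 / a),
    hlogT.eventually_ge_atTop 1, tendsto_L3.eventually_ge_atTop 1] with
    n h1 h2 hn4 hla hl1 hL3 K hK hKc M₁ H₁ M₂ H₂ hH₁ hMH₁ hH₂ hMH₂
  have hL3' : 1 ≤ Real.log (Real.log (Real.log n)) := hL3
  have hL0 : 0 < Real.log n := by linarith
  have h3 := h1 K hK hKc M₁ H₁ hH₁ hMH₁
  have hH₁0 : (0 : ℝ) ≤ H₁ := Nat.cast_nonneg _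
  have hH₂0 : (0 : ℝ) ≤ H₂ := Nat.cast_nonneg _
  have hK0 : (0 : ℝ) ≤ K.card := Nat.cast_nonneg _
  have hmx : 0 ≤ max (1 / Real.log (Real.log (Real.log n))) ((K.card : ℝ) / n) :=
    le_trans (by positivity) (le_max_left _ _)
  have h4 : c * H₁ * max (1 / Real.log (Real.log (Real.log n))) ((K.card : ℝ) / n) ≤
      a * H₁ * max (1 / Real.log (Real.log (Real.log n))) ((K.card : ℝ) / n) := by
    apply mul_le_mul_of_nonneg_right _ hmx
    exact mul_le_mul_of_nonneg_right hca hH₁0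
  refine h4.trans (h3.trans ?_)
  norm_cast
  apply Finset.card_le_card
  intro h₁ hh₁
  obtain ⟨h5, h6⟩ := mem_filter.1 hh₁
  rw [mem_filter]
  refine ⟨h5, ?_⟩
  obtain ⟨K', hK'⟩ : ∃ K' : Finset ℕ, K' = K.filter (fun k => (pr k + h₁).Prime) := ⟨_, rfl⟩
  rw [← hK'] at h6
  have hsub : K' ⊆ K := by rw [hK']; exact Finset.filter_subset _ _
  have h7 : (n : ℝ) / Real.log n ^ (C + 2) ≤ K'.card := by
    refine le_trans ?_ h6
    have e1 : (n : ℝ) / Real.log n ^ (C + 2) = n / Real.log n ^ C / Real.log n / Real.log n := by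
      rw [pow_add]
      field_simp
    rw [e1]
    apply div_le_div_of_nonneg_right _ hL0.le
    rw [div_le_iff₀ hL0]
    have e2 : 1 ≤ a * Real.log n := by
      rw [div_le_iff₀ ha] at hla
      linarith
    calc (n : ℝ) / Real.log n ^ C ≤ K.card := hKc
      _ = 1 * K.card := (one_mul _).symm
      _ ≤ a * Real.log n * K.card := mul_le_mul_of_nonneg_right e2 hK0
      _ = _ := by ring
  have h8 := h2 (bn n) K' (bn_injOn (fun k hk => hK k (hsub hk)))
    (fun k hk => bn_le hn4 (hK k (hsub hk)).2) h7 M₂ H₂ hH₂ hMH₂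
  have h9 : c * H₂ / Real.log (Real.log (Real.log n)) ≤
      b * H₂ / Real.log (Real.log (Real.log n)) := by
    apply div_le_div_of_nonneg_right _ (by linarith)
    exact mul_le_mul_of_nonneg_right hcb hH₂0
  refine h9.trans (h8.trans ?_)
  norm_cast
  apply Finset.card_le_card
  intro h₂ hh₂
  obtain ⟨h10, h11⟩ := mem_filter.1 hh₂
  rw [mem_filter]
  refine ⟨h10, ?_⟩
  have h12 : c * K.card / Real.log n ^ 2 ≤ b * K'.card / Real.log n := by
    calc c * K.card / Real.log n ^ 2 ≤ a * b * K.card / Real.log n ^ 2 := by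
          apply div_le_div_of_nonneg_right _ (by positivity)
          exact mul_le_mul_of_nonneg_right hcab hK0
      _ = b * (a * K.card / Real.log n) / Real.log n := by
          field_simp
      _ ≤ _ := by
          apply div_le_div_of_nonneg_right _ hL0.le
          exact mul_le_mul_of_nonneg_left h6 hb.le
  refine h12.trans (h11.trans ?_)
  norm_cast
  apply Finset.card_le_card
  intro k hk
  obtain ⟨h13, h14⟩ := mem_filter.1 hk
  rw [hK'] at h13
  obtain ⟨h15, h16⟩ := mem_filter.1 h13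
  exact mem_filter.2 ⟨h15, h16, h14⟩

end Pool.Agent.TSH
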