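import Mathlib
import Pool.Agent.Helper20.TwinIndex

set_option autoImplicit false

/-!
# TSH / CT4: a positive proportion of all bounded shifts

From the theorem for all admissible sets with at least `T` elements: every dilate `{P j, 2 P j, ..., T P j}`,
`P = T!`, is admissible and has `T` elements, so one of the differences `i P j`, `1 ≤ i < T`, is good.
-/

namespace Pool.Agent.TSH

open Finset Filter
open Pool.Agent.Helper20.TwinIndex (pr)

/-- admissible sets of shifts -/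
def AdmSet (H : Finset ℕ) : Prop := ∀ p : ℕ, p.Prime → ∃ a : ℕ, ∀ x ∈ H, ¬ p ∣ a + x

/-- the `k < n` with `p_(k+1) = p_k + d` and `p_(p_m + 1) = p_(p_m) + h`, `m = n - k` -/
noncomputable def KGap (n d h : ℕ) : Finset ℕ := by
  classical exact (Icc 1 (n - 1)).filter (fun k => pr (k + 1) = pr k + d ∧
    pr (pr (n - k) + 1) = pr (pr (n - k)) + h)

/-- the difference `d` is good for `n` -/
def GoodGap (C n d : ℕ) : Prop := ∃ h : ℕ, 1 ≤ h ∧ (h : ℝ) ≤ Real.log n ^ C ∧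
  (n : ℝ) / Real.log n ^ C ≤ ((KGap n d h).card : ℝ)

theorem ct4_mono {C C' n d : ℕ} (hC : C ≤ C') (hn : 1 ≤ Real.log n) (h : GoodGap C n d) :
    GoodGap C' n d := by
  obtain ⟨h, h1, h2, h3⟩ := h
  have h4 : Real.log n ^ C ≤ Real.log n ^ C' := pow_le_pow_right₀ hn hC
  have h5 : 0 < Real.log n ^ C := by positivity
  refine ⟨h, h1, h2.trans h4, le_trans ?_ h3⟩
  exact div_le_div_of_nonneg_left (Nat.cast_nonneg n) h5 h4

/-- the dilates -/
def dil (T j : ℕ) : Finset ℕ := (Icc 1 T).image (fun i => i * (T.factorial * j))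

theorem dil_card (T j : ℕ) (hj : 1 ≤ j) : (dil T j).card = T := by
  unfold dil
  have h0 : 0 < T.factorial * j := Nat.mul_pos (Nat.factorial_pos T) hj
  rw [Finset.card_image_of_injective _ (fun a b hab => Nat.eq_of_mul_eq_mul_right h0 hab),
    Nat.card_Icc, Nat.add_sub_cancel]

theorem dil_adm (T j : ℕ) (hj : 1 ≤ j) : AdmSet (dil T j) := by
  intro p hp
  rcases Nat.lt_or_ge T p with h | h
  · -- some class is missed
    classical
    by_contra hcon
    push Not at hcon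
    have h1 : ∀ a ∈ range p, ∃ x ∈ dil T j, p ∣ a + x := fun a _ => hcon a
    choose! f hf1 hf2 using h1
    have h2 : (range p).card ≤ (dil T j).card := by
      apply Finset.card_le_card_of_injOn f (fun a ha => hf1 a ha)
      intro a ha b hb hab
      rw [Finset.mem_coe, Finset.mem_range] at ha hb
      have e1 := hf2 a (Finset.mem_range.2 ha)
      have e2 := hf2 b (Finset.mem_range.2 hb)
      have hab' : f a = f b := hab
      rw [← hab'] at e2
      have e3 : a + f a ≡ b + f a [MOD p] :=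
        ((Nat.modEq_zero_iff_dvd.2 e1).trans (Nat.modEq_zero_iff_dvd.2 e2).symm)
      have e4 : a ≡ b [MOD p] := Nat.ModEq.add_right_cancel' _ e3
      exact Nat.ModEq.eq_of_lt_of_lt e4 ha hb
    rw [Finset.card_range, dil_card T j hj] at h2
    omega
  · refine ⟨1, fun x hx hdvd => ?_⟩
    unfold dil at hx
    obtain ⟨i, _, rfl⟩ := Finset.mem_image.1 hx
    have h1 : p ∣ i * (T.factorial * j) :=
      Dvd.dvd.mul_left (Dvd.dvd.mul_right ((Nat.Prime.dvd_factorial hp).2 h) j) i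
    have h2 : p ∣ 1 := (Nat.dvd_add_left h1).1 hdvd
    exact hp.one_lt.ne' (Nat.dvd_one.1 h2)

/-- the theorem for one difference, from the theorem for `r = 1` -/
def St_One : Prop := ∃ T : ℕ, ∀ H : Finset ℕ, T ≤ H.card → AdmSet H → ∃ C : ℕ,
  ∀ᶠ n : ℕ in atTop, ∃ g₀ ∈ H, ∃ g₁ ∈ H, g₀ < g₁ ∧ GoodGap C n (g₁ - g₀)

open Classical in
/-- **A positive proportion of all differences is good.** -/
theorem positive_proportion (h : St_One) : ∃ c : ℝ, 0 < c ∧ ∃ X₀ : ℕ, ∀ X ≥ X₀, ∃ C : ℕ,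
    ∀ᶠ n : ℕ in atTop, c * X ≤ (((Icc 1 X).filter (fun d => GoodGap C n d)).card : ℝ) := by
  obtain ⟨T, hT⟩ := h
  -- the modulus
  obtain ⟨P, hP⟩ : ∃ P : ℕ, P = T.factorial := ⟨_, rfl⟩
  have hP0 : 0 < P := by rw [hP]; exact Nat.factorial_pos T
  obtain ⟨U, hU⟩ : ∃ U : ℕ, U = T + 1 := ⟨_, rfl⟩
  have hU0 : 0 < U := by omega
  refine ⟨1 / (2 * (P * U * U)), by positivity, P * U, ?_⟩
  intro X hX
  obtain ⟨Y, hY⟩ : ∃ Y : ℕ, Y = X / (P * U) := ⟨_, rfl⟩
  have hY1 : 1 ≤ Y := by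
    rw [hY]
    exact (Nat.one_le_div_iff (Nat.mul_pos hP0 hU0)).2 hX
  -- the constants of the dilates
  have h1 : ∀ j : ℕ, ∃ C : ℕ, 1 ≤ j → ∀ᶠ n : ℕ in atTop, ∃ g₀ ∈ dil T j, ∃ g₁ ∈ dil T j,
      g₀ < g₁ ∧ GoodGap C n (g₁ - g₀) := by
    intro j
    rcases Nat.eq_zero_or_pos j with hj | hj
    · exact ⟨0, fun h => by omega⟩
    · obtain ⟨C, hC⟩ := hT (dil T j) (le_of_eq (dil_card T j hj).symm) (dil_adm T j hj)
      exact ⟨C, fun _ => hC⟩
  choose Cf hCf using h1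
  obtain ⟨C, hC⟩ : ∃ C : ℕ, C = (Icc 1 Y).sup Cf := ⟨_, rfl⟩
  refine ⟨C, ?_⟩
  have hlogT : Tendsto (fun X : ℕ => Real.log X) atTop atTop :=
    Real.tendsto_log_atTop.comp tendsto_natCast_atTop_atTop
  have h2 : ∀ᶠ n : ℕ in atTop, ∀ j ∈ Icc 1 Y, ∃ g₀ ∈ dil T j, ∃ g₁ ∈ dil T j,
      g₀ < g₁ ∧ GoodGap (Cf j) n (g₁ - g₀) := by
    rw [Filter.eventually_all_finset]
    intro j hj
    exact hCf j (Finset.mem_Icc.1 hj).1
  filter_upwards [h2, hlogT.eventually_ge_atTop (1 : ℝ)] with n hn hlog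
  obtain ⟨G, hG⟩ : ∃ G : Finset ℕ, G = (Icc 1 X).filter (fun d => GoodGap C n d) := ⟨_, rfl⟩
  rw [← hG]
  -- for every `j` a multiplier `i`
  have h3 : ∀ j ∈ Icc 1 Y, ∃ i ∈ Icc 1 U, i * (P * j) ∈ G := by
    intro j hj
    obtain ⟨g₀, hg₀, g₁, hg₁, hlt, hgood⟩ := hn j hj
    obtain ⟨hj1, hj2⟩ := Finset.mem_Icc.1 hj
    unfold dil at hg₀ hg₁
    obtain ⟨i₀, hi₀, rfl⟩ := Finset.mem_image.1 hg₀
    obtain ⟨i₁, hi₁, rfl⟩ := Finset.mem_image.1 hg₁
    rw [Finset.mem_Icc] at hi₀ hi₁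
    rw [← hP] at hlt hgood
    have e1 : i₀ < i₁ := lt_of_mul_lt_mul_right hlt (Nat.zero_le _)
    have e2 : i₁ * (P * j) - i₀ * (P * j) = (i₁ - i₀) * (P * j) := (Nat.sub_mul _ _ _).symm
    rw [e2] at hgood
    refine ⟨i₁ - i₀, Finset.mem_Icc.2 ⟨by omega, by omega⟩, ?_⟩
    rw [hG, mem_filter, Finset.mem_Icc]
    refine ⟨⟨?_, ?_⟩, ?_⟩
    · exact Nat.mul_pos (by omega) (Nat.mul_pos hP0 hj1)
    · calc (i₁ - i₀) * (P * j) ≤ U * (P * Y) :=
            Nat.mul_le_mul (by omega) (Nat.mul_le_mul_left P hj2)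
        _ = (P * U) * Y := by ring
        _ ≤ X := by rw [hY]; exact Nat.mul_div_le X (P * U)
    · apply ct4_mono _ hlog hgood
      rw [hC]
      exact Finset.le_sup hj
  -- counting
  have h4 : Icc 1 Y ⊆ G.biUnion (fun d => (Icc 1 U).image (fun i => d / (i * P))) := by
    intro j hj
    obtain ⟨i, hi, hd⟩ := h3 j hj
    rw [Finset.mem_biUnion]
    refine ⟨_, hd, Finset.mem_image.2 ⟨i, hi, ?_⟩⟩
    have hi1 := (Finset.mem_Icc.1 hi).1
    have e1 : i * (P * j) = (i * P) * j := by ring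
    rw [e1]
    exact Nat.mul_div_cancel_left j (Nat.mul_pos (by omega) hP0)
  have h5 : Y ≤ G.card * U := by
    have e1 := (Finset.card_le_card h4).trans Finset.card_biUnion_le
    rw [Nat.card_Icc, Nat.add_sub_cancel] at e1
    refine e1.trans ?_
    have e2 : ∀ d ∈ G, ((Icc 1 U).image (fun i => d / (i * P))).card ≤ U := by
      intro d _
      refine Finset.card_image_le.trans ?_
      rw [Nat.card_Icc, Nat.add_sub_cancel]
    refine (Finset.sum_le_card_nsmul _ _ _ e2).trans ?_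
    rw [smul_eq_mul]
  have h6 : X < P * U * (Y + 1) := by
    rw [hY]
    exact Nat.lt_mul_div_succ X (Nat.mul_pos hP0 hU0)
  have h7 : X ≤ 2 * (P * U * (G.card * U)) := by
    have e1 : P * U * (Y + 1) ≤ P * U * (2 * (G.card * U)) :=
      Nat.mul_le_mul_left _ (by omega)
    calc X ≤ P * U * (Y + 1) := h6.le
      _ ≤ P * U * (2 * (G.card * U)) := e1
      _ = 2 * (P * U * (G.card * U)) := by ring
  have h8 : (X : ℝ) ≤ 2 * (P * U * (G.card * U)) := by exact_mod_cast h7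
  have hPr : (0 : ℝ) < P := by exact_mod_cast hP0
  have hUr : (0 : ℝ) < U := by exact_mod_cast hU0
  rw [one_div, inv_mul_le_iff₀ (by positivity)]
  calc (X : ℝ) ≤ 2 * (P * U * (G.card * U)) := h8
    _ = 2 * (P * U * U) * G.card := by ring

end Pool.Agent.TSH
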