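import Mathlib
import Pool.Agent.TSH.CT4

set_option autoImplicit false

/-!
# TSH / CT5: the two clauses of the result, from the theorem for admissible sets
-/

namespace Pool.Agent.TSH

open Finset Filter
open Pool.Agent.Helper20.TwinIndex (pr)

open Classical in
/-- the theorem for all admissible sets -/
def St_Tuple : Prop := ∀ r : ℕ, ∃ T : ℕ, ∀ H : Finset ℕ, T ≤ H.card →
  (∀ p : ℕ, p.Prime → ∃ a : ℕ, ∀ x ∈ H, ¬ p ∣ a + x) → ∃ C : ℕ, ∀ᶠ n : ℕ in atTop,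
    ∃ g : ℕ → ℕ, (∀ i ≤ r, g i ∈ H) ∧ (∀ i < r, g i < g (i + 1)) ∧
      ∃ h : ℕ, 1 ≤ h ∧ (h : ℝ) ≤ Real.log n ^ C ∧ (n : ℝ) / Real.log n ^ C ≤
        (((Icc 1 (n - 1)).filter (fun k => (∀ i ≤ r, pr (k + i) + g 0 = pr k + g i) ∧
          pr (pr (n - k) + 1) = pr (pr (n - k)) + h)).card : ℝ)

theorem one_of_tuple (h : St_Tuple) : St_One := by
  classical
  obtain ⟨T, hT⟩ := h 1
  refine ⟨T, fun H hH hadm => ?_⟩
  obtain ⟨C, hC⟩ := hT H hH hadm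
  refine ⟨C, ?_⟩
  filter_upwards [hC] with n hn
  obtain ⟨g, hg, hlt, d, hd1, hd2, hcard⟩ := hn
  have h01 : g 0 < g 1 := hlt 0 (by norm_num)
  refine ⟨g 0, hg 0 (by norm_num), g 1, hg 1 le_rfl, h01, d, hd1, hd2, hcard.trans ?_⟩
  norm_cast
  apply Finset.card_le_card
  intro k hk
  obtain ⟨h1, h2, h3⟩ := mem_filter.1 hk
  unfold KGap
  refine mem_filter.2 ⟨h1, ?_, h3⟩
  have h4 := h2 1 le_rfl
  omega

open Classical in
/-- the second clause with all definitions written out -/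
theorem proportion_of_tuple (h : St_Tuple) : ∃ c : ℝ, 0 < c ∧ ∃ X₀ : ℕ, ∀ X ≥ X₀, ∃ C : ℕ,
    ∀ᶠ n : ℕ in atTop,
      c * X ≤ (((Icc 1 X).filter (fun d => ∃ h : ℕ, 1 ≤ h ∧ (h : ℝ) ≤ Real.log n ^ C ∧
        (n : ℝ) / Real.log n ^ C ≤ (((Icc 1 (n - 1)).filter (fun k => pr (k + 1) = pr k + d ∧
          pr (pr (n - k) + 1) = pr (pr (n - k)) + h)).card : ℝ))).card : ℝ) := by
  obtain ⟨c, hc, X₀, h1⟩ := positive_proportion (one_of_tuple h)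
  refine ⟨c, hc, X₀, fun X hX => ?_⟩
  obtain ⟨C, hC⟩ := h1 X hX
  refine ⟨C, ?_⟩
  filter_upwards [hC] with n hn
  exact hn

end Pool.Agent.TSH
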