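import Mathlib
import Pool.Agent.TSH.TE
import Pool.Agent.TCH.IDX

set_option autoImplicit false

/-!
# TSH / TF: the case of Chen's primes
-/

namespace Pool.Agent.TSH

open Finset Filter
open Pool.Agent.Helper20.TwinIndex (pr pr_prime pr_strictMono pr_mono pi_pr lt_pr)

/-- Chen's theorem in terms of the indices -/
theorem chen_index (hChen : Pool.Agent.TCH.St_TChen) : ∃ c : ℝ, 0 < c ∧ ∀ᶠ n : ℕ in atTop,
    c * n / Real.log n ≤ (((Icc 1 (n - 1)).filter (fun k =>
      ArithmeticFunction.cardFactors (pr k + 2) ≤ 2)).card : ℝ) := by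
  obtain ⟨c, hc, h1⟩ := hChen
  obtain ⟨N₀, hN₀⟩ := eventually_atTop.1 h1
  refine ⟨c / 30, by positivity, ?_⟩
  filter_upwards [eventually_ge_atTop (N₀ + 1), eventually_ge_atTop 400] with n hn hn4
  have hn' : (400 : ℝ) ≤ n := by exact_mod_cast hn4
  have hln : 0 < Real.log n := Real.log_pos (by linarith)
  obtain ⟨N, hN⟩ : ∃ N : ℕ, N = pr (n - 1) := ⟨_, rfl⟩
  have h2 : n - 1 < N := by rw [hN]; exact lt_pr (by omega)
  have h3 := hN₀ N (by omega)
  have h4 := Pool.Agent.TCH.IDX_good (n := n) (by omega)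
  have h5 : ((Pool.Agent.TCH.chen N : ℕ) : ℝ) ≤ (((Icc 1 (n - 1)).filter (fun k =>
      ArithmeticFunction.cardFactors (pr k + 2) ≤ 2)).card : ℕ) := by
    rw [hN]
    exact_mod_cast h4
  refine le_trans ?_ (h3.trans h5)
  have h6 := pr_low (j := n - 1) (by omega)
  have h7 := log_pr (j := n - 1) (n := n) (by omega) (by omega) hn4
  rw [← hN] at h6 h7
  have h8 : (1 : ℝ) < N := by
    have : 1 < N := by omega
    exact_mod_cast this
  have hlN : 0 < Real.log N := Real.log_pos h8
  have h9 : (n : ℝ) / 2 ≤ ((n - 1 : ℕ) : ℝ) := by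
    rw [Nat.cast_sub (by omega)]
    push_cast
    linarith
  have h10 : (n : ℝ) / 2 * Real.log N ≤ 5 * N := by
    refine le_trans ?_ h6
    exact mul_le_mul_of_nonneg_right h9 hlN.le
  rw [div_le_div_iff₀ hln (by positivity)]
  calc c / 30 * n * Real.log N ^ 2 = c / 15 * (n / 2 * Real.log N) * Real.log N := by ring
    _ ≤ c / 15 * (5 * N) * (3 * Real.log n) := by
        apply mul_le_mul _ h7 hlN.le (by positivity)
        exact mul_le_mul_of_nonneg_left h10 (by positivity)
    _ = c * N * Real.log n := by ring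

open Classical in
/-- **Chen primes and short windows of shifts.** -/
theorem chen_shift (hGap : Pool.Agent.SI.St_Gap) (hChen : Pool.Agent.TCH.St_TChen) (ε : ℝ)
    (hε : 0 < ε) : ∃ c : ℝ, 0 < c ∧ ∀ᶠ n : ℕ in atTop, ∀ M H : ℕ,
      (n : ℝ) ^ (1 / 4 + ε) ≤ H → (M : ℝ) + H ≤ (n : ℝ) ^ (1 - ε) →
      c * H / Real.log (Real.log (Real.log n)) ≤
        (((Ioc M (M + H)).filter (fun h => c * n / Real.log n ^ 2 ≤
          (((Icc 1 (n - 1)).filter (fun k => ArithmeticFunction.cardFactors (pr k + 2) ≤ 2 ∧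
            (pr (pr (n - k)) + h).Prime)).card : ℝ))).card : ℝ) := by
  obtain ⟨a, ha, h1⟩ := chen_index hChen
  obtain ⟨b, hb, h2⟩ := shift_seq hGap ε hε 2
  obtain ⟨c, hc⟩ : ∃ c : ℝ, c = min b (a * b) := ⟨_, rfl⟩
  have hc0 : 0 < c := by rw [hc]; positivity
  have hcb : c ≤ b := by rw [hc]; exact min_le_left _ _
  have hcab : c ≤ a * b := by rw [hc]; exact min_le_right _ _
  refine ⟨c, hc0, ?_⟩
  have hlogT : Tendsto (fun X : ℕ => Real.log X) atTop atTop :=
    Real.tendsto_log_atTop.comp tendsto_natCast_atTop_atTop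
  filter_upwards [h1, h2, eventually_ge_atTop 400, hlogT.eventually_ge_atTop (1 / a),
    hlogT.eventually_ge_atTop 1, tendsto_L3.eventually_ge_atTop 1] with
    n h1 h2 hn4 hla hl1 hL3 M H hH hMH
  have hL3' : 1 ≤ Real.log (Real.log (Real.log n)) := hL3
  have hL0 : 0 < Real.log n := by linarith
  have hn' : (400 : ℝ) ≤ n := by exact_mod_cast hn4
  obtain ⟨K, hK⟩ : ∃ K : Finset ℕ, K = (Icc 1 (n - 1)).filter (fun k =>
    ArithmeticFunction.cardFactors (pr k + 2) ≤ 2) := ⟨_, rfl⟩
  rw [← hK] at h1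
  have hKm : ∀ k ∈ K, 1 ≤ k ∧ k < n := by
    intro k hk
    rw [hK] at hk
    obtain ⟨e1, _⟩ := mem_filter.1 hk
    obtain ⟨e2, e3⟩ := Finset.mem_Icc.1 e1
    exact ⟨e2, by omega⟩
  have h3 : (n : ℝ) / Real.log n ^ 2 ≤ K.card := by
    refine le_trans ?_ h1
    rw [div_le_div_iff₀ (by positivity) hL0]
    have e2 : 1 ≤ a * Real.log n := by
      rw [div_le_iff₀ ha] at hla
      linarith
    calc (n : ℝ) * Real.log n = 1 * (n * Real.log n) := (one_mul _).symm
      _ ≤ a * Real.log n * (n * Real.log n) := mul_le_mul_of_nonneg_right e2 (by positivity)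
      _ = a * n * Real.log n ^ 2 := by ring
  have h4 := h2 (bn n) K (bn_injOn hKm) (fun k hk => bn_le hn4 (hKm k hk).2) h3 M H hH hMH
  have hH0 : (0 : ℝ) ≤ H := Nat.cast_nonneg _
  have h5 : c * H / Real.log (Real.log (Real.log n)) ≤
      b * H / Real.log (Real.log (Real.log n)) := by
    apply div_le_div_of_nonneg_right _ (by linarith)
    exact mul_le_mul_of_nonneg_right hcb hH0
  refine h5.trans (h4.trans ?_)
  norm_cast
  apply Finset.card_le_card
  intro h hh
  obtain ⟨h6, h7⟩ := mem_filter.1 hh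
  rw [mem_filter]
  refine ⟨h6, ?_⟩
  have h8 : c * n / Real.log n ^ 2 ≤ b * K.card / Real.log n := by
    calc c * n / Real.log n ^ 2 ≤ a * b * n / Real.log n ^ 2 := by
          apply div_le_div_of_nonneg_right _ (by positivity)
          exact mul_le_mul_of_nonneg_right hcab (by linarith)
      _ = b * (a * n / Real.log n) / Real.log n := by
          field_simp
      _ ≤ _ := by
          apply div_le_div_of_nonneg_right _ hL0.le
          exact mul_le_mul_of_nonneg_left h1 hb.le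
  refine h8.trans (h7.trans ?_)
  norm_cast
  apply Finset.card_le_card
  intro k hk
  obtain ⟨h9, h10⟩ := mem_filter.1 hk
  rw [hK] at h9
  obtain ⟨h11, h12⟩ := mem_filter.1 h9
  exact mem_filter.2 ⟨h11, h12, h10⟩

end Pool.Agent.TSH
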