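import Mathlib
import Pool.Agent.MT.Cell
import Pool.Agent.MT.Maynard

set_option autoImplicit false

/-!
# TSH / TH: bounded gaps between primes with a lower bound for their number
-/

namespace Pool.Agent.TSH

open Finset Filter

/-- the first shift of the cell `l` -/
def sK (K : ℕ → ℕ) (l : ℕ) : ℕ := ∑ i ∈ range l, K i

/-- the cells -/
def cellH (K : ℕ → ℕ) (T l : ℕ) : Finset ℕ :=
  (Ico (sK K l) (sK K (l + 1))).image (fun j => j * T.factorial)

theorem sK_succ (K : ℕ → ℕ) (l : ℕ) : sK K (l + 1) = sK K l + K l := by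
  unfold sK
  rw [Finset.sum_range_succ]

theorem sK_mono (K : ℕ → ℕ) {l l' : ℕ} (h : l ≤ l') : sK K l ≤ sK K l' := by
  unfold sK
  exact Finset.sum_le_sum_of_subset (Finset.range_mono h)

theorem cellH_card (K : ℕ → ℕ) (T l : ℕ) : (cellH K T l).card = K l := by
  unfold cellH
  rw [Finset.card_image_of_injective, Nat.card_Ico, sK_succ, Nat.add_sub_cancel_left]
  intro a b hab
  exact Nat.eq_of_mul_eq_mul_right (Nat.factorial_pos T) hab

theorem cellH_disj (K : ℕ → ℕ) (T : ℕ) {l l' : ℕ} (h : l ≠ l') :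
    Disjoint (cellH K T l) (cellH K T l') := by
  rw [Finset.disjoint_left]
  intro a ha hb
  unfold cellH at ha hb
  obtain ⟨i, hi, rfl⟩ := Finset.mem_image.1 ha
  obtain ⟨j, hj, hij⟩ := Finset.mem_image.1 hb
  rw [mem_Ico] at hi hj
  have h1 : j = i := Nat.eq_of_mul_eq_mul_right (Nat.factorial_pos T) hij
  rcases Nat.lt_or_gt_of_ne h with h2 | h2
  · have := sK_mono K (show l + 1 ≤ l' by omega)
    omega
  · have := sK_mono K (show l' + 1 ≤ l by omega)
    omega

/-- the class `v` -/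
theorem exists_v (K : ℕ → ℕ) (L T w : ℕ) (hT : T = sK K L) :
    ∃ v : ℕ, ∀ l < L, ∀ h ∈ cellH K T l, (v + h).Coprime (primorial w) := by
  classical
  obtain ⟨S, hS⟩ : ∃ S : Finset ℕ, S = (range L).biUnion (cellH K T) := ⟨_, rfl⟩
  have hScard : S.card ≤ T := by
    rw [hS]
    refine Finset.card_biUnion_le.trans ?_
    rw [hT]
    unfold sK
    exact le_of_eq (Finset.sum_congr rfl (fun l _ => by rw [cellH_card]))
  have h1 : ∀ p : ℕ, ∃ r : ℕ, p.Prime → ∀ h ∈ S, ¬ p ∣ r + h := by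
    intro p
    by_cases hp : p.Prime
    · rcases Nat.lt_or_ge T p with h2 | h2
      · obtain ⟨x, hx⟩ := Pool.Agent.MT.cell_avoid p hp S (by omega)
        exact ⟨x, fun _ => hx⟩
      · refine ⟨1, fun _ h hh hdvd => ?_⟩
        rw [hS, Finset.mem_biUnion] at hh
        obtain ⟨l, _, hh⟩ := hh
        unfold cellH at hh
        obtain ⟨j, _, rfl⟩ := Finset.mem_image.1 hh
        have h3 : p ∣ j * T.factorial :=
          Dvd.dvd.mul_left ((Nat.Prime.dvd_factorial hp).2 h2) j
        have h4 : p ∣ 1 := (Nat.dvd_add_left h3).1 hdvd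
        exact hp.one_lt.ne' (Nat.dvd_one.1 h4)
    · exact ⟨0, fun h => absurd h hp⟩
  choose r hr using h1
  obtain ⟨v, hv⟩ := Pool.Agent.MT.cell_crt ((range (w + 1)).filter Nat.Prime)
    (fun p hp => (mem_filter.1 hp).2) r
  refine ⟨v, fun l hl h hh => ?_⟩
  have hhS : h ∈ S := by
    rw [hS, Finset.mem_biUnion]
    exact ⟨l, mem_range.2 hl, hh⟩
  unfold primorial
  apply Nat.Coprime.prod_right
  intro p hp
  have hpp := (mem_filter.1 hp).2
  rw [Nat.coprime_comm, Nat.Prime.coprime_iff_not_dvd hpp]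
  intro hdvd
  apply hr p hpp h hhS
  have h2 := hv p hp
  have h3 : (v + h) % p = 0 := Nat.mod_eq_zero_of_dvd hdvd
  apply Nat.dvd_of_mod_eq_zero
  rw [Nat.add_mod, ← h2, ← Nat.add_mod]
  exact h3

/-- **Bounded gaps**: for every large `N` some difference `d ≤ B` occurs at least
`N / (log N)^C` times among the primes up to `N`. -/
theorem bgap : ∃ B C : ℕ, ∀ᶠ N : ℕ in atTop, ∃ d : ℕ, 1 ≤ d ∧ d ≤ B ∧
    (N : ℝ) / Real.log N ^ C ≤
      (((range (N + 1)).filter (fun p => p.Prime ∧ (p + d).Prime)).card : ℝ) := by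
  classical
  obtain ⟨K, δ, hδ, hK1, hmay⟩ := Pool.Agent.MT.maynard
  obtain ⟨L, hL⟩ : ∃ L : ℕ, 2 / δ ≤ L := exists_nat_ge _
  have hL' : 2 ≤ δ * L := by
    rw [div_le_iff₀ hδ] at hL
    linarith
  have hL0 : (0 : ℝ) < L := by
    by_contra hcon
    have : (L : ℝ) = 0 := le_antisymm (not_lt.1 hcon) (Nat.cast_nonneg L)
    rw [this] at hL'
    linarith
  obtain ⟨T, hT⟩ : ∃ T : ℕ, T = sK K L := ⟨_, rfl⟩
  obtain ⟨D₀, hD⟩ := hmay L (cellH K T) (fun l _ => cellH_card K T l)
    (fun l _ l' _ h => cellH_disj K T h)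
  obtain ⟨v, hv⟩ := exists_v K L T D₀ hT
  obtain ⟨C, hC⟩ := hD D₀ le_rfl v hv
  obtain ⟨S, hS⟩ : ∃ S : Finset ℕ, S = (range L).biUnion (cellH K T) := ⟨_, rfl⟩
  have hSB : ∀ h ∈ S, h ≤ T * T.factorial := by
    intro h hh
    rw [hS, Finset.mem_biUnion] at hh
    obtain ⟨l, hl, hh⟩ := hh
    unfold cellH at hh
    obtain ⟨j, hj, rfl⟩ := Finset.mem_image.1 hh
    rw [mem_Ico] at hj
    have h1 : sK K (l + 1) ≤ T := by
      rw [hT]
      exact sK_mono K (mem_range.1 hl)
    exact Nat.mul_le_mul_right _ (by omega)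
  obtain ⟨B, hB⟩ : ∃ B : ℕ, B = T * T.factorial := ⟨_, rfl⟩
  rw [← hB] at hSB
  refine ⟨B, C + 1, ?_⟩
  have hlogT : Tendsto (fun X : ℕ => Real.log X) atTop atTop :=
    Real.tendsto_log_atTop.comp tendsto_natCast_atTop_atTop
  filter_upwards [hC, eventually_ge_atTop (8 * B + 8), eventually_ge_atTop 3,
    hlogT.eventually_ge_atTop ((L : ℝ) ^ 2 * ((B : ℝ) + 1) ^ 2)] with N hN hNB hN3 hlog
  obtain ⟨wt, hwt0, hwt1, hWpos, hcell, hsq⟩ := hN
  obtain ⟨W, hW⟩ : ∃ W : ℝ, W = ∑ a ∈ range (N + 1), wt a := ⟨_, rfl⟩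
  rw [← hW] at hWpos hcell hsq
  have hN0 : (0 : ℝ) < N := by
    have : 0 < N := by omega
    exact_mod_cast this
  have hlogN : 0 < Real.log N := Real.log_pos (by
    have : 1 < N := by omega
    exact_mod_cast this)
  -- the number of cells with a prime
  obtain ⟨X, hX⟩ : ∃ X : ℕ → Finset ℕ, X = fun a =>
    (range L).filter (fun l => ∃ h ∈ cellH K T l, (a + h).Prime) := ⟨_, rfl⟩
  have h1 : δ * L * W ≤ ∑ a ∈ range (N + 1), wt a * ((X a).card : ℝ) := by
    calc δ * L * W = ∑ _l ∈ range L, δ * W := by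
          rw [Finset.sum_const, Finset.card_range, nsmul_eq_mul]
          ring
      _ ≤ ∑ l ∈ range L, ∑ a ∈ (range (N + 1)).filter
          (fun a => ∃ h ∈ cellH K T l, (a + h).Prime), wt a :=
          Finset.sum_le_sum fun l hl => hcell l (mem_range.1 hl)
      _ = ∑ l ∈ range L, ∑ a ∈ range (N + 1),
          if (∃ h ∈ cellH K T l, (a + h).Prime) then wt a else 0 := by
          apply Finset.sum_congr rfl
          intro l _
          rw [Finset.sum_filter]
      _ = ∑ a ∈ range (N + 1), ∑ l ∈ range L,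
          if (∃ h ∈ cellH K T l, (a + h).Prime) then wt a else 0 := Finset.sum_comm
      _ = _ := by
          apply Finset.sum_congr rfl
          intro a _
          rw [← Finset.sum_filter, Finset.sum_const, nsmul_eq_mul, hX]
          ring
  obtain ⟨G, hG⟩ : ∃ G : Finset ℕ, G = (range (N + 1)).filter
    (fun a => wt a ≠ 0 ∧ 2 ≤ (X a).card) := ⟨_, rfl⟩
  have h2 : ∑ a ∈ range (N + 1), wt a * ((X a).card : ℝ) ≤ W + L * ∑ a ∈ G, wt a := by
    rw [hW, hG, Finset.sum_filter, Finset.mul_sum, ← Finset.sum_add_distrib]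
    apply Finset.sum_le_sum
    intro a _
    have h3 : ((X a).card : ℝ) ≤ L := by
      have : (X a).card ≤ L := by
        rw [hX]
        refine (Finset.card_filter_le _ _).trans ?_
        rw [Finset.card_range]
      exact_mod_cast this
    by_cases h4 : wt a ≠ 0 ∧ 2 ≤ (X a).card
    · rw [if_pos h4]
      have := mul_le_mul_of_nonneg_left h3 (hwt0 a)
      have := hwt0 a
      linarith
    · rw [if_neg h4]
      by_cases h5 : wt a = 0
      · rw [h5]
        simp
      · have h6 : (X a).card ≤ 1 := by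
          by_contra hcon
          exact h4 ⟨h5, by omega⟩
        have h7 : ((X a).card : ℝ) ≤ 1 := by exact_mod_cast h6
        have := mul_le_mul_of_nonneg_left h7 (hwt0 a)
        linarith
  have h3 : W ≤ L * ∑ a ∈ G, wt a := by nlinarith
  have h4 : (∑ a ∈ G, wt a) ^ 2 ≤ (G.card : ℝ) * ∑ a ∈ range (N + 1), wt a ^ 2 := by
    refine (sq_sum_le_card_mul_sum_sq).trans ?_
    apply mul_le_mul_of_nonneg_left _ (Nat.cast_nonneg _)
    apply Finset.sum_le_sum_of_subset_of_nonneg
    · rw [hG]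
      exact Finset.filter_subset _ _
    · intro _ _ _
      positivity
  have h5 : (N : ℝ) ≤ L ^ 2 * Real.log N ^ C * G.card := by
    have e1 : W ^ 2 ≤ L ^ 2 * ((G.card : ℝ) * ∑ a ∈ range (N + 1), wt a ^ 2) := by
      calc W ^ 2 ≤ (L * ∑ a ∈ G, wt a) ^ 2 := pow_le_pow_left₀ hWpos.le h3 2
        _ = L ^ 2 * (∑ a ∈ G, wt a) ^ 2 := by ring
        _ ≤ _ := mul_le_mul_of_nonneg_left h4 (by positivity)
    have e2 : W ^ 2 * N ≤ L ^ 2 * G.card * (Real.log N ^ C * W ^ 2) := by
      calc W ^ 2 * N ≤ L ^ 2 * ((G.card : ℝ) * ∑ a ∈ range (N + 1), wt a ^ 2) * N :=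
            mul_le_mul_of_nonneg_right e1 hN0.le
        _ = L ^ 2 * G.card * ((∑ a ∈ range (N + 1), wt a ^ 2) * N) := by ring
        _ ≤ _ := mul_le_mul_of_nonneg_left hsq (by positivity)
    have e3 : 0 < W ^ 2 := by positivity
    by_contra hcon
    have e4 := not_le.1 hcon
    have e5 := mul_lt_mul_of_pos_left e4 e3
    nlinarith
  -- pairs
  obtain ⟨Q, hQ⟩ : ∃ Q : ℕ × ℕ → Finset ℕ, Q = fun x =>
    G.filter (fun a => (a + x.1).Prime ∧ (a + x.1 + x.2).Prime) := ⟨_, rfl⟩
  have h6 : G ⊆ (range (B + 1) ×ˢ Icc 1 B).biUnion Q := by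
    intro a ha
    have ha' := ha
    rw [hG] at ha
    obtain ⟨_, _, h7⟩ := mem_filter.1 ha
    obtain ⟨l, hl, l', hl', hne⟩ := Finset.one_lt_card.1 (show 1 < (X a).card by omega)
    rw [hX] at hl hl'
    obtain ⟨hlL, h, hh, hp⟩ := mem_filter.1 hl
    obtain ⟨hlL', h', hh', hp'⟩ := mem_filter.1 hl'
    have hhh : h ≠ h' := by
      intro he
      rw [he] at hh
      exact (Finset.disjoint_left.1 (cellH_disj K T hne)) hh hh'
    have hhS : h ≤ B := hSB h (by rw [hS, Finset.mem_biUnion]; exact ⟨l, hlL, hh⟩)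
    have hhS' : h' ≤ B := hSB h' (by rw [hS, Finset.mem_biUnion]; exact ⟨l', hlL', hh'⟩)
    rw [Finset.mem_biUnion]
    rcases Nat.lt_or_gt_of_ne hhh with h8 | h8
    · refine ⟨(h, h' - h), ?_, ?_⟩
      · rw [Finset.mem_product, mem_range, Finset.mem_Icc]
        exact ⟨by simp only; omega, by simp only; omega⟩
      · rw [hQ]
        simp only
        rw [mem_filter]
        refine ⟨ha', hp, ?_⟩
        have : a + h + (h' - h) = a + h' := by omega
        rw [this]
        exact hp'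
    · refine ⟨(h', h - h'), ?_, ?_⟩
      · rw [Finset.mem_product, mem_range, Finset.mem_Icc]
        exact ⟨by simp only; omega, by simp only; omega⟩
      · rw [hQ]
        simp only
        rw [mem_filter]
        refine ⟨ha', hp', ?_⟩
        have : a + h' + (h - h') = a + h := by omega
        rw [this]
        exact hp
  have h7 : ∃ x ∈ range (B + 1) ×ˢ Icc 1 B, (G.card : ℝ) / (B + 1) ^ 2 ≤ ((Q x).card : ℝ) := by
    by_contra hcon
    push Not at hcon
    have e1 : (G.card : ℝ) ≤ ∑ x ∈ range (B + 1) ×ˢ Icc 1 B, ((Q x).card : ℝ) := by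
      exact_mod_cast (Finset.card_le_card h6).trans Finset.card_biUnion_le
    have e2 : ((range (B + 1) ×ˢ Icc 1 B).card : ℝ) ≤ (B + 1) ^ 2 := by
      rw [Finset.card_product, Finset.card_range, Nat.card_Icc, Nat.add_sub_cancel]
      push_cast
      have : (0 : ℝ) ≤ B := Nat.cast_nonneg B
      nlinarith
    have hGpos : (0 : ℝ) < G.card := by
      by_contra hcon2
      have e3 : (G.card : ℝ) = 0 := le_antisymm (not_lt.1 hcon2) (Nat.cast_nonneg _)
      rw [e3, mul_zero] at h5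
      linarith
    have hne : (range (B + 1) ×ˢ Icc 1 B).Nonempty := by
      by_contra hcon2
      rw [Finset.not_nonempty_iff_eq_empty] at hcon2
      rw [hcon2, Finset.sum_empty] at e1
      linarith
    have e3 := Finset.sum_lt_sum_of_nonempty hne hcon
    rw [Finset.sum_const, nsmul_eq_mul] at e3
    have e4 : ((range (B + 1) ×ˢ Icc 1 B).card : ℝ) * ((G.card : ℝ) / (B + 1) ^ 2) ≤ G.card := by
      calc ((range (B + 1) ×ˢ Icc 1 B).card : ℝ) * ((G.card : ℝ) / (B + 1) ^ 2)
          ≤ (B + 1) ^ 2 * ((G.card : ℝ) / (B + 1) ^ 2) :=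
            mul_le_mul_of_nonneg_right e2 (by positivity)
        _ = G.card := by field_simp
    linarith
  obtain ⟨x, hx, h8⟩ := h7
  rw [Finset.mem_product, mem_range, Finset.mem_Icc] at hx
  refine ⟨x.2, hx.2.1, hx.2.2, ?_⟩
  have h9 : ((Q x).card : ℝ) ≤
      (((range (N + 1)).filter (fun p => p.Prime ∧ (p + x.2).Prime)).card : ℝ) := by
    norm_cast
    apply Finset.card_le_card_of_injOn (fun a => a + x.1)
    · intro a ha
      rw [Finset.mem_coe, hQ] at ha
      simp only at ha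
      obtain ⟨e1, e2, e3⟩ := mem_filter.1 ha
      rw [hG] at e1
      obtain ⟨_, e4, _⟩ := mem_filter.1 e1
      have e5 := (hwt1 a e4).2.1
      rw [Finset.mem_coe, mem_filter, mem_range]
      beta_reduce
      refine ⟨by omega, e2, e3⟩
    · intro a _ b _ hab
      simp only at hab
      omega
  refine le_trans ?_ (h8.trans h9)
  rw [le_div_iff₀ (by positivity), pow_succ, ← div_div]
  have e1 : (N : ℝ) / Real.log N ^ C ≤ L ^ 2 * G.card := by
    rw [div_le_iff₀ (by positivity)]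
    linarith
  calc (N : ℝ) / Real.log N ^ C / Real.log N * ((B : ℝ) + 1) ^ 2
      ≤ L ^ 2 * G.card / Real.log N * ((B : ℝ) + 1) ^ 2 := by
        apply mul_le_mul_of_nonneg_right _ (by positivity)
        exact div_le_div_of_nonneg_right e1 hlogN.le
    _ = (L ^ 2 * ((B : ℝ) + 1) ^ 2) / Real.log N * G.card := by ring
    _ ≤ 1 * G.card := by
        apply mul_le_mul_of_nonneg_right _ (Nat.cast_nonneg _)
        rw [div_le_one hlogN]
        exact hlog
    _ = G.card := one_mul _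

end Pool.Agent.TSH
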