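import Mathlib
import Pool.Agent.TSH.TH
import Pool.Agent.TSH.Fin
import Pool.Agent.TCH.IDX

set_option autoImplicit false

/-!
# TSH / TI: a bounded shift and a shift bounded by a power of the logarithm
-/

namespace Pool.Agent.TSH

open Finset Filter
open Pool.Agent.Helper20.TwinIndex (pr pr_prime pr_strictMono pr_mono pi_pr lt_pr)
open Pool.Agent.TCH (pj IDX_pj_pi IDX_pi IDX_bad2)

/-- the number of `k` -/
theorem gap_index {n : ℕ} (hn : 2 ≤ n) (d : ℕ) :
    ((range (pr (n - 1) + 1)).filter (fun p => p.Prime ∧ (p + d).Prime)).card ≤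
      ((Icc 1 (n - 1)).filter (fun k => (pr k + d).Prime)).card := by
  apply Finset.card_le_card_of_injOn Nat.primeCounting
  · intro p hp
    simp only [coe_filter, mem_range, Set.mem_ofPred_eq, mem_Icc] at hp ⊢
    obtain ⟨h1, h2, h3⟩ := hp
    obtain ⟨h4, h5⟩ := IDX_pj_pi h2
    refine ⟨⟨h4, ?_⟩, ?_⟩
    · have h6 : Nat.primeCounting p ≤ Nat.primeCounting (pj (n - 1)) :=
        Nat.monotone_primeCounting (by
          have : pj (n - 1) = pr (n - 1) := rfl
          omega)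
      rwa [IDX_pi (by omega)] at h6
    · have h7 : pr (Nat.primeCounting p) = p := h5
      rw [h7]
      exact h3
  · intro p hp q hq hpq
    simp only [coe_filter, mem_range, Set.mem_ofPred_eq] at hp hq
    rw [← (IDX_pj_pi hp.2.1).2, ← (IDX_pj_pi hq.2.1).2, hpq]

/-- bounded gaps in terms of the indices -/
theorem bgap_index : ∃ B C : ℕ, ∀ᶠ n : ℕ in atTop, ∃ d : ℕ, 1 ≤ d ∧ d ≤ B ∧
    (n : ℝ) / Real.log n ^ C ≤
      (((Icc 1 (n - 1)).filter (fun k => (pr k + d).Prime)).card : ℝ) := by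
  obtain ⟨B, C, h1⟩ := bgap
  obtain ⟨N₀, hN₀⟩ := eventually_atTop.1 h1
  refine ⟨B, C + 1, ?_⟩
  have hlogT : Tendsto (fun X : ℕ => Real.log X) atTop atTop :=
    Real.tendsto_log_atTop.comp tendsto_natCast_atTop_atTop
  filter_upwards [eventually_ge_atTop (N₀ + 1), eventually_ge_atTop 400,
    hlogT.eventually_ge_atTop (2 * 3 ^ C : ℝ)] with n hn hn4 hlog
  have hn' : (400 : ℝ) ≤ n := by exact_mod_cast hn4
  obtain ⟨N, hN⟩ : ∃ N : ℕ, N = pr (n - 1) := ⟨_, rfl⟩
  have h2 : n - 1 < N := by rw [hN]; exact lt_pr (by omega)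
  obtain ⟨d, hd1, hd2, h3⟩ := hN₀ N (by omega)
  refine ⟨d, hd1, hd2, ?_⟩
  have h4 := gap_index (n := n) (by omega) d
  rw [← hN] at h4
  have h5 : ((((range (N + 1)).filter (fun p => p.Prime ∧ (p + d).Prime)).card : ℕ) : ℝ) ≤
      (((Icc 1 (n - 1)).filter (fun k => (pr k + d).Prime)).card : ℕ) := by
    exact_mod_cast h4
  refine le_trans ?_ (h3.trans h5)
  have h7 := log_pr (j := n - 1) (n := n) (by omega) (by omega) hn4
  rw [← hN] at h7
  have hln : 0 < Real.log n := Real.log_pos (by linarith)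
  have hnN : (n : ℝ) ≤ N := by exact_mod_cast (show n ≤ N by omega)
  have hlN : 0 < Real.log N := Real.log_pos (by linarith)
  calc (n : ℝ) / Real.log n ^ (C + 1) = n / (Real.log n ^ C * Real.log n) := by rw [pow_succ]
    _ ≤ n / (Real.log n ^ C * (2 * 3 ^ C)) := by
        apply div_le_div_of_nonneg_left (by linarith) (by positivity)
        exact mul_le_mul_of_nonneg_left hlog (by positivity)
    _ ≤ n / (3 * Real.log n) ^ C := by
        apply div_le_div_of_nonneg_left (by linarith) (by positivity)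
        rw [mul_pow]
        have : 0 ≤ (3 : ℝ) ^ C * Real.log n ^ C := by positivity
        linarith
    _ ≤ N / Real.log N ^ C := by
        apply div_le_div₀ (by linarith) hnN (by positivity)
        exact pow_le_pow_left₀ hlN.le h7 C

open Classical in
/-- **A bounded shift and a shift bounded by a power of the logarithm.** -/
theorem bounded_shift : ∃ B C : ℕ, ∀ᶠ n : ℕ in atTop, ∃ h₁ h₂ : ℕ, 1 ≤ h₁ ∧ h₁ ≤ B ∧ 1 ≤ h₂ ∧
    (h₂ : ℝ) ≤ Real.log n ^ C ∧ (n : ℝ) / Real.log n ^ C ≤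
      (((Icc 1 (n - 1)).filter (fun k => (pr k + h₁).Prime ∧
        (pr (pr (n - k)) + h₂).Prime)).card : ℝ) := by
  obtain ⟨B, C, h1⟩ := bgap_index
  refine ⟨B, 2 * C + 4, ?_⟩
  have hlogT : Tendsto (fun X : ℕ => Real.log X) atTop atTop :=
    Real.tendsto_log_atTop.comp tendsto_natCast_atTop_atTop
  filter_upwards [h1, eventually_ge_atTop 400, hlogT.eventually_ge_atTop (7200 : ℝ)] with
    n h1 hn4 hlog
  obtain ⟨d, hd1, hd2, hcard⟩ := h1
  have hn' : (400 : ℝ) ≤ n := by exact_mod_cast hn4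
  obtain ⟨L, hL⟩ : ∃ L : ℝ, L = Real.log n := ⟨_, rfl⟩
  rw [← hL] at hcard hlog ⊢
  have hL0 : 0 < L := by linarith
  have hL1 : 1 ≤ L := by linarith
  obtain ⟨K, hK⟩ : ∃ K : Finset ℕ, K = (Icc 1 (n - 1)).filter (fun k => (pr k + d).Prime) :=
    ⟨_, rfl⟩
  rw [← hK] at hcard
  -- the gap
  obtain ⟨T, hT⟩ : ∃ T : ℝ, T = L ^ (C + 3) := ⟨_, rfl⟩
  have hT0 : 0 < T := by rw [hT]; positivity
  obtain ⟨Bd, hBd⟩ : ∃ Bd : Finset ℕ, Bd = (Icc 1 (n - 1)).filter (fun k =>
      ¬ ((pj (pj (n - k) + 1) : ℝ) ≤ pj (pj (n - k)) + T)) := ⟨_, rfl⟩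
  have hbad : (Bd.card : ℝ) ≤ n / L ^ C / 2 := by
    have e1 := IDX_bad2 (n := n) (by omega) T hT0.le
    rw [← hBd] at e1
    have e2 := (pp_bd (m := n) (n := n) hn4 (by omega) le_rfl).2
    rw [← hL] at e2
    have e3 : (Bd.card : ℝ) * T ≤ 3600 * (n * L ^ 2) := e1.trans e2
    have e4 : (Bd.card : ℝ) ≤ 3600 * (n * L ^ 2) / T := by
      rw [le_div_iff₀ hT0]
      exact e3
    refine e4.trans ?_
    have e5 : 3600 * ((n : ℝ) * L ^ 2) / T = 3600 / L * (n / L ^ C) := by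
      rw [hT, pow_add]
      field_simp
    rw [e5]
    have e6 : 3600 / L ≤ 1 / 2 := by
      rw [div_le_div_iff₀ hL0 (by norm_num)]
      linarith
    have e7 : (0 : ℝ) ≤ n / L ^ C := by positivity
    nlinarith
  obtain ⟨K', hK'⟩ : ∃ K' : Finset ℕ, K' = K \ Bd := ⟨_, rfl⟩
  have hK'c : (n : ℝ) / L ^ C / 2 ≤ K'.card := by
    have e1 : K ⊆ K' ∪ Bd := by
      intro t ht
      rw [hK', Finset.mem_union, Finset.mem_sdiff]
      by_cases h5 : t ∈ Bd
      · exact Or.inr h5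
      · exact Or.inl ⟨ht, h5⟩
    have e2 : (K.card : ℝ) ≤ K'.card + Bd.card := by
      exact_mod_cast (Finset.card_le_card e1).trans (Finset.card_union_le _ _)
    linarith
  -- pigeonhole
  obtain ⟨Q, hQ⟩ : ∃ Q : ℕ → Finset ℕ, Q = fun h => K'.filter (fun k =>
    (pr (pr (n - k)) + h).Prime) := ⟨_, rfl⟩
  obtain ⟨F, hF⟩ : ∃ F : ℕ, F = ⌊T⌋₊ := ⟨_, rfl⟩
  have hcov : K' ⊆ (Icc 1 F).biUnion Q := by
    intro k hk
    have hk0 := hk
    rw [hK', Finset.mem_sdiff] at hk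
    obtain ⟨hk1, hk2⟩ := hk
    rw [hK] at hk1
    obtain ⟨hk3, _⟩ := mem_filter.1 hk1
    have hk4 : (pj (pj (n - k) + 1) : ℝ) ≤ pj (pj (n - k)) + T := by
      by_contra hcon
      apply hk2
      rw [hBd, mem_filter]
      exact ⟨hk3, hcon⟩
    obtain ⟨q, hq⟩ : ∃ q : ℕ, q = pr (n - k) := ⟨_, rfl⟩
    have hk4' : (pr (q + 1) : ℝ) ≤ pr q + T := by
      rw [hq]
      exact hk4
    have hq1 : 1 ≤ q := by rw [hq]; exact (pr_prime _).one_le
    have hlt : pr q < pr (q + 1) := pr_strictMono hq1 (Nat.lt_succ_self q)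
    rw [Finset.mem_biUnion]
    refine ⟨pr (q + 1) - pr q, ?_, ?_⟩
    · rw [Finset.mem_Icc]
      refine ⟨by omega, ?_⟩
      rw [hF]
      apply Nat.le_floor
      rw [Nat.cast_sub hlt.le]
      linarith
    · rw [hQ]
      simp only
      rw [mem_filter]
      refine ⟨hk0, ?_⟩
      rw [← hq]
      have : pr q + (pr (q + 1) - pr q) = pr (q + 1) := by omega
      rw [this]
      exact pr_prime _
  have hK'0 : 0 < (K'.card : ℝ) := lt_of_lt_of_le (by positivity) hK'c
  have hpig : ∃ h ∈ Icc 1 F, (K'.card : ℝ) / T ≤ ((Q h).card : ℝ) := by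
    by_contra hcon
    push Not at hcon
    have e1 : (K'.card : ℝ) ≤ ∑ h ∈ Icc 1 F, ((Q h).card : ℝ) := by
      exact_mod_cast (Finset.card_le_card hcov).trans Finset.card_biUnion_le
    have hne : (Icc 1 F).Nonempty := by
      by_contra hcon2
      rw [Finset.not_nonempty_iff_eq_empty] at hcon2
      rw [hcon2, Finset.sum_empty] at e1
      linarith
    have e3 := Finset.sum_lt_sum_of_nonempty hne hcon
    rw [Finset.sum_const, nsmul_eq_mul, Nat.card_Icc, Nat.add_sub_cancel] at e3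
    have e4 : (F : ℝ) ≤ T := by rw [hF]; exact Nat.floor_le hT0.le
    have e5 : (F : ℝ) * ((K'.card : ℝ) / T) ≤ K'.card := by
      calc (F : ℝ) * ((K'.card : ℝ) / T) ≤ T * ((K'.card : ℝ) / T) :=
            mul_le_mul_of_nonneg_right e4 (by positivity)
        _ = K'.card := by field_simp
    linarith
  obtain ⟨h, hh, hQc⟩ := hpig
  rw [Finset.mem_Icc] at hh
  refine ⟨d, h, hd1, hd2, hh.1, ?_, ?_⟩
  · have e1 : (h : ℝ) ≤ F := by exact_mod_cast hh.2
    have e2 : (F : ℝ) ≤ T := by rw [hF]; exact Nat.floor_le hT0.le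
    refine (e1.trans e2).trans ?_
    rw [hT]
    exact pow_le_pow_right₀ hL1 (by omega)
  · have e1 : ((Q h).card : ℝ) ≤ (((Icc 1 (n - 1)).filter (fun k => (pr k + d).Prime ∧
        (pr (pr (n - k)) + h).Prime)).card : ℝ) := by
      norm_cast
      apply Finset.card_le_card
      intro k hk
      rw [hQ] at hk
      simp only at hk
      obtain ⟨e2, e3⟩ := mem_filter.1 hk
      rw [hK', Finset.mem_sdiff, hK] at e2
      obtain ⟨e4, e5⟩ := mem_filter.1 e2.1
      exact mem_filter.2 ⟨e4, e5, e3⟩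
    refine le_trans ?_ (hQc.trans e1)
    rw [hT, le_div_iff₀ (by positivity)]
    refine le_trans ?_ hK'c
    have e6 : (n : ℝ) / L ^ (2 * C + 4) * L ^ (C + 3) = n / L ^ C / L := by
      have : 2 * C + 4 = C + (C + 3) + 1 := by ring
      rw [this, pow_succ, pow_add L C (C + 3)]
      field_simp
    rw [e6]
    apply div_le_div_of_nonneg_left (by positivity) (by norm_num)
    linarith

end Pool.Agent.TSH
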